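import Pool.Agent.Lib.MP_a1cc03_ag.Stmt

/-! # Auxiliary definitions (MP_a1cc03_ag) -/

open scoped Polynomial

noncomputable section

namespace Pool.Agent.ZC

open WeierstrassCurve

section Places

variable {K F : Type} [Field K] [Field F] [Algebra K F]

/-- `g ≡ c` at the place `v` (that is, `g` is regular at `v` with value `c`). -/
def Ev (v : Place K F) (g : F) (c : K) : Prop := 0 < v.ord (g - algebraMap K F c)

/-- `F = K(s)(Y)` with `s` transcendental over `K`, `Y² = D(s)` and `Y ∉ K(s)`; moreover, for every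
unramified point `(a, d)` of the curve `d² = D(a)`, `d ≠ 0`, we are given the completion
`F → K((u))`, `s ↦ a + u`, `Y ↦ d + …` at that point. -/
structure DCover (D : K[X]) (F : Type) [Field F] [Algebra K F] (s Y : F) : Prop where
  rel : Y ^ 2 = Polynomial.aeval s D
  indep : ∀ p q : K[X], Polynomial.aeval s p + Polynomial.aeval s q * Y = 0 → p = 0 ∧ q = 0
  gen : ∀ g : F, ∃ p q r : K[X], r ≠ 0 ∧
    g * Polynomial.aeval s r = Polynomial.aeval s p + Polynomial.aeval s q * Y
  loc : ∀ a d : K, d ≠ 0 → d ^ 2 = D.eval a → ∃ φ : F →+* LaurentSeries K,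
    (∀ c : K, φ (algebraMap K F c) = HahnSeries.C c) ∧
    φ s = HahnSeries.C a + HahnSeries.single 1 1 ∧
    0 < (HahnSeries.addVal ℤ K) (φ Y - HahnSeries.C d)

/-- The `F`-point `P` specialises to `P₀` at the place(s) above the point `(a, d)` of `Y² = D(s)`. -/
def SpecAt (s Y : F) (a d : K) (W : WeierstrassCurve K)
    (P : (W.map (algebraMap K F)).toAffine.Point) (P₀ : W.toAffine.Point) : Prop :=
  ∀ v : Place K F, Ev v s a → Ev v Y d → Specializes v W P P₀

end Places

section Legendre

variable {K : Type} [Field K]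

/-- The Legendre curve `y² = x (x - 1) (x - l)`. -/
def leg (l : K) : WeierstrassCurve K := ⟨0, -(1 + l), 0, l, 0⟩

/-- The parameter `(1 + r)² / (4 r)` of the curve which is 2-isogenous to `leg (r²)`. -/
def Lr (r : K) : K := (1 + r) ^ 2 / (4 * r)

/-- The `x`-coordinate of the 2-isogeny `leg (Lr r) → leg (r²)`. -/
def stepX (r x : K) : K := r * x * (x - 1) / (x - Lr r)

/-- The `y`-coordinate of the 2-isogeny `leg (Lr r) → leg (r²)`; here `e² = r³`. -/
def stepY (r e x y : K) : K :=
  e * y * (x - (1 + r) / (2 * r)) * (x - (1 + r) / 2) / (x - Lr r) ^ 2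

/-- The composition of the isogenies from level `n` to level `0`. -/
def down (r e : ℕ → K) : ℕ → K × K → K × K
  | 0, p => p
  | n + 1, p => down r e n (stepX (r n) p.1, stepY (r n) (e n) p.1 p.2)

/-- No pole occurs on the way down from level `n` to level `0`, starting at `x`. -/
def Good (r : ℕ → K) : ℕ → K → Prop
  | 0, _ => True
  | n + 1, x => x ≠ Lr (r n) ∧ Good r n (stepX (r n) x)

/-- A chain of 2-isogenies `… → leg (l 2) → leg (l 1) → leg (l 0)`. -/
structure Chain (l r e : ℕ → K) : Prop where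
  sq : ∀ n, r n ^ 2 = l n
  next : ∀ n, l (n + 1) = Lr (r n)
  esq : ∀ n, e n ^ 2 = r n ^ 3
  ne_zero : ∀ n, l n ≠ 0
  ne_one : ∀ n, l n ≠ 1

end Legendre

section Sym

variable {K : Type} [Field K]

/-- The symbol `{P, Q}` is torsion in the Chow group of zero-cycles. -/
def TorsSym (W₁ W₂ : WeierstrassCurve K) (P : W₁.toAffine.Point) (Q : W₂.toAffine.Point) : Prop :=
  ∃ N : ℕ, 0 < N ∧ N • sym W₁ W₂ P Q ∈ RatEq W₁ W₂

end Sym

end Pool.Agent.ZC
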