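import Pool.Agent.Lib.MP_a1cc03_ag.A0_Defs

/-! # Row A1: calculus of values at a place -/

noncomputable section

namespace Pool.Agent.ZC

variable {K F : Type} [Field K] [Field F] [Algebra K F] {v : Place K F} {g h : F} {b c : K}

theorem A1_pos {x y : WithTop ℤ} (hx : 0 ≤ x) (hy : 0 < y) : 0 < x + y :=
  lt_of_lt_of_le hy (le_add_of_nonneg_left hx)

theorem ord_algebraMap_nonneg (v : Place K F) (c : K) : 0 ≤ v.ord (algebraMap K F c) := by
  by_cases hc : c = 0
  · rw [hc, _root_.map_zero, AddValuation.map_zero]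
    exact le_top
  · rw [v.ord_const c hc]

theorem Ev.const (v : Place K F) (c : K) : Ev v (algebraMap K F c) c := by
  unfold Ev
  rw [sub_self, AddValuation.map_zero]
  exact WithTop.coe_lt_top 0

theorem Ev.one (v : Place K F) : Ev v (1 : F) (1 : K) := by
  have h := Ev.const v (1 : K)
  rwa [_root_.map_one] at h

theorem Ev.ofNat (v : Place K F) (n : ℕ) : Ev v (n : F) (n : K) := by
  have h := Ev.const v (n : K)
  rwa [map_natCast] at h

theorem Ev.nonneg (hg : Ev v g b) : 0 ≤ v.ord g := by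
  have h1 : g = (g - algebraMap K F b) + algebraMap K F b := by ring
  rw [h1]
  exact v.ord.map_le_add (le_of_lt hg) (ord_algebraMap_nonneg v b)

theorem Ev.add (hg : Ev v g b) (hh : Ev v h c) : Ev v (g + h) (b + c) := by
  unfold Ev at *
  have h1 : g + h - algebraMap K F (b + c) = (g - algebraMap K F b) + (h - algebraMap K F c) := by
    rw [_root_.map_add]; ring
  rw [h1]
  exact v.ord.map_lt_add hg hh

theorem Ev.neg (hg : Ev v g b) : Ev v (-g) (-b) := by
  unfold Ev at *
  have h1 : -g - algebraMap K F (-b) = -(g - algebraMap K F b) := by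
    rw [_root_.map_neg]; ring
  rw [h1, AddValuation.map_neg]
  exact hg

theorem Ev.sub (hg : Ev v g b) (hh : Ev v h c) : Ev v (g - h) (b - c) := by
  rw [sub_eq_add_neg, sub_eq_add_neg]
  exact hg.add hh.neg

/-- `gh - bc = g(h - c) + c(g - b)`. -/
theorem Ev.mul (hg : Ev v g b) (hh : Ev v h c) : Ev v (g * h) (b * c) := by
  have hg0 := hg.nonneg
  have hc0 := ord_algebraMap_nonneg v c
  unfold Ev at *
  have h1 : g * h - algebraMap K F (b * c) =
      g * (h - algebraMap K F c) + algebraMap K F c * (g - algebraMap K F b) := by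
    rw [_root_.map_mul]; ring
  rw [h1]
  refine v.ord.map_lt_add ?_ ?_
  · rw [AddValuation.map_mul]
    exact A1_pos hg0 hh
  · rw [AddValuation.map_mul]
    exact A1_pos hc0 hg

theorem Ev.pow (hg : Ev v g b) (n : ℕ) : Ev v (g ^ n) (b ^ n) := by
  induction n with
  | zero => simpa using Ev.one v
  | succ n ih =>
    rw [pow_succ, pow_succ]
    exact ih.mul hg

/-- If `c ≠ 0` then `g = c + (g - c)` has order `0`. -/
theorem Ev.ord_eq_zero (hg : Ev v g b) (hb : b ≠ 0) : v.ord g = 0 := by
  have h0 := v.ord_const b hb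
  have h1 : v.ord (algebraMap K F b) < v.ord (g - algebraMap K F b) := by
    rw [h0]
    exact hg
  rw [v.ord.map_eq_of_lt_sub h1, h0]

theorem Ev.ne_zero (hg : Ev v g b) (hb : b ≠ 0) : g ≠ 0 := by
  intro h0
  have h1 := hg.ord_eq_zero hb
  rw [h0, AddValuation.map_zero] at h1
  exact WithTop.top_ne_coe (a := (0 : ℤ)) h1

/-- `1/g - 1/b = (b - g)/(g b)`. -/
theorem Ev.inv (hg : Ev v g b) (hb : b ≠ 0) : Ev v g⁻¹ b⁻¹ := by
  have hg0 : g ≠ 0 := hg.ne_zero hb
  have hog := hg.ord_eq_zero hb
  have hob := v.ord_const b hb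
  have hb0 : algebraMap K F b ≠ 0 := by
    rwa [ne_eq, map_eq_zero_iff _ (algebraMap K F).injective]
  have h1 : v.ord (g⁻¹ * (algebraMap K F b)⁻¹) = 0 := by
    have h2 : v.ord (g * algebraMap K F b * (g⁻¹ * (algebraMap K F b)⁻¹)) = 0 := by
      rw [show g * algebraMap K F b * (g⁻¹ * (algebraMap K F b)⁻¹) = 1 by field_simp]
      exact AddValuation.map_one v.ord
    rw [AddValuation.map_mul, AddValuation.map_mul, hog, hob, zero_add, zero_add] at h2
    exact h2
  unfold Ev at *
  have h3 : g⁻¹ - algebraMap K F b⁻¹ =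
      (algebraMap K F b - g) * (g⁻¹ * (algebraMap K F b)⁻¹) := by
    rw [map_inv₀]
    field_simp
  rw [h3, AddValuation.map_mul, h1, add_zero, AddValuation.map_sub_swap]
  exact hg

theorem Ev.div (hg : Ev v g b) (hh : Ev v h c) (hc : c ≠ 0) : Ev v (g / h) (b / c) := by
  rw [div_eq_mul_inv, div_eq_mul_inv]
  exact hg.mul (hh.inv hc)

theorem Ev.unique (hg : Ev v g b) (hg' : Ev v g c) : b = c := by
  by_contra hne
  have h1 := v.ord_const (b - c) (sub_ne_zero.2 hne)
  have h2 : algebraMap K F (b - c) = (g - algebraMap K F c) + -(g - algebraMap K F b) := by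
    rw [_root_.map_sub]; ring
  have h3 : 0 < v.ord (algebraMap K F (b - c)) := by
    rw [h2]
    refine v.ord.map_lt_add hg' ?_
    rw [AddValuation.map_neg]
    exact hg
  rw [h1] at h3
  exact lt_irrefl _ h3

theorem Ev.of_ord_pos (hg : 0 < v.ord g) : Ev v g (0 : K) := by
  unfold Ev
  rwa [_root_.map_zero, sub_zero]

theorem Ev.ord_pos (hg : Ev v g (0 : K)) : 0 < v.ord g := by
  unfold Ev at hg
  rwa [_root_.map_zero, sub_zero] at hg

end Pool.Agent.ZC
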