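import Pool.Agent.Lib.MP_a1cc03_ag.A1_Ev

/-! # Row A2: residue fields -/

noncomputable section

open scoped IntermediateField.algebraAdjoinAdjoin

namespace Pool.Agent.ZC

variable {K F : Type} [Field K] [Field F] [Algebra K F]

/-- two elements of a function field are algebraically dependent -/
theorem A2_dep (hF : IsFunctionField K F) (g u : F) (hg : Transcendental K g)
    (hu : Transcendental (Algebra.adjoin K (Set.range fun _ : Unit => g)) u) : False := by
  obtain ⟨t, ht, hfin⟩ := hF
  have hb : IsTranscendenceBasis K (fun _ : Unit => t) := by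
    refine (algebraicIndependent_unique_type_iff.2 ht).isTranscendenceBasis_iff_isAlgebraic.2 ?_
    have e : Set.range (fun _ : Unit => t) = {t} := by ext; simp [eq_comm]
    rw [e]
    have h1 : Algebra.IsAlgebraic (IntermediateField.adjoin K {t}) F :=
      Algebra.IsAlgebraic.of_finite _ _
    exact (IsFractionRing.comap_isAlgebraic_iff (A := Algebra.adjoin K {t})
      (K := IntermediateField.adjoin K {t}) (C := F)).2 h1
  have h2 : AlgebraicIndependent K (fun o : Option Unit => o.elim u (fun _ : Unit => g)) :=
    AlgebraicIndependent.option_iff.2 ⟨algebraicIndependent_unique_type_iff.2 hg, hu⟩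
  have h3 := h2.cardinalMk_le_trdeg
  rw [← hb.cardinalMk_eq_trdeg] at h3
  simp only [Cardinal.mk_fintype, Fintype.card_option, Fintype.card_unit, Nat.cast_le] at h3
  omega

/-- if no `g - c` has positive order, then all nonzero polynomials in `g` have order `0` -/
theorem A2_poly [IsAlgClosed K] (v : Place K F) (g : F) (hg : ∀ c : K, v.ord (g - algebraMap K F c) = 0)
    (n : ℕ) : ∀ q : Polynomial K, q.natDegree = n → q ≠ 0 → v.ord (Polynomial.aeval g q) = 0 := by
  induction n with
  | zero =>
    intro q hq hq0
    rw [Polynomial.eq_C_of_natDegree_eq_zero hq, Polynomial.aeval_C]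
    refine v.ord_const _ ?_
    intro h
    apply hq0
    rw [Polynomial.eq_C_of_natDegree_eq_zero hq, h, Polynomial.C_0]
  | succ n ih =>
    intro q hq hq0
    have hdeg : q.degree ≠ 0 := by
      rw [Polynomial.degree_eq_natDegree hq0, hq]
      exact_mod_cast Nat.succ_ne_zero n
    obtain ⟨r, hr⟩ := IsAlgClosed.exists_root q hdeg
    obtain ⟨q', rfl⟩ := Polynomial.dvd_iff_isRoot.2 hr
    have hq'0 : q' ≠ 0 := right_ne_zero_of_mul hq0
    have hd : q'.natDegree = n := by
      rw [Polynomial.natDegree_mul (Polynomial.X_sub_C_ne_zero r) hq'0,
        Polynomial.natDegree_X_sub_C] at hq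
      omega
    rw [map_mul, AddValuation.map_mul, ih q' hd hq'0, add_zero]
    simpa using hg r

/-- **Row A2.** The residue field of a place of a function field in one variable over an
algebraically closed field is the constant field.

Proof. Suppose that `v (g - c) = 0` for all `c` in `K`. Then `v (q(g)) = 0` for every nonzero polynomial
`q` over `K`, so `g` is transcendental. Let `v u = 1`. If `∑ q_j(g) u^j = 0` then `q_0(g)` has positive
order, so it is zero, and we can divide by `u`: so all coefficients are zero, `u` is transcendental
over `K[g]`. This contradicts the transcendence degree one. -/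
theorem exists_ev [IsAlgClosed K] (hF : IsFunctionField K F) (v : Place K F) (g : F)
    (hg : 0 ≤ v.ord g) : ∃ c : K, Ev v g c := by
  by_contra hcon
  push Not at hcon
  have h0 : ∀ c : K, v.ord (g - algebraMap K F c) = 0 := by
    intro c
    have h1 : 0 ≤ v.ord (g - algebraMap K F c) := by
      rw [sub_eq_add_neg]
      refine le_trans (le_min hg ?_) (v.ord.map_add _ _)
      rw [AddValuation.map_neg]
      by_cases hc : c = 0
      · rw [hc, map_zero, AddValuation.map_zero]
        exact le_top
      · rw [v.ord_const c hc]
    have h2 := hcon c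
    unfold Ev at h2
    exact le_antisymm (not_lt.1 h2) h1
  have hpoly : ∀ q : Polynomial K, q ≠ 0 → v.ord (Polynomial.aeval g q) = 0 :=
    fun q hq => A2_poly v g h0 _ q rfl hq
  have hgt : Transcendental K g := by
    rw [transcendental_iff]
    intro p hp
    by_contra hp0
    have := hpoly p hp0
    rw [hp, AddValuation.map_zero] at this
    exact absurd this (by simp)
  obtain ⟨u, hu⟩ := v.exists_uniformizer
  refine A2_dep hF g u hgt ?_
  set A := Algebra.adjoin K (Set.range fun _ : Unit => g) with hA
  have hAel : ∀ a : A, a ≠ 0 → v.ord (a : F) = 0 := by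
    rintro ⟨a, ha⟩ ha0
    have e : Set.range (fun _ : Unit => g) = {g} := by ext; simp [eq_comm]
    rw [hA, e, Algebra.adjoin_singleton_eq_range_aeval] at ha
    obtain ⟨q, rfl⟩ := ha
    refine hpoly q ?_
    rintro rfl
    apply ha0
    ext
    simp
  have hAel' : ∀ a : A, 0 ≤ v.ord (a : F) := by
    intro a
    by_cases ha : a = 0
    · rw [ha]
      simp
    · rw [hAel a ha]
  have hnn : ∀ p : Polynomial A, 0 ≤ v.ord (Polynomial.aeval u p) := by
    intro p
    rw [Polynomial.aeval_eq_sum_range]
    refine AddValuation.map_le_sum _ (fun i _ => ?_)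
    rw [Algebra.smul_def, AddValuation.map_mul, AddValuation.map_pow, hu]
    exact add_nonneg (hAel' _) (by simp)
  have key : ∀ i : ℕ, ∀ p : Polynomial A, Polynomial.aeval u p = 0 → p.coeff i = 0 := by
    have step : ∀ p : Polynomial A, Polynomial.aeval u p = 0 →
        p.coeff 0 = 0 ∧ Polynomial.aeval u p.divX = 0 := by
      intro p hp
      have h1 : Polynomial.aeval u p = Polynomial.aeval u p.divX * u + (p.coeff 0 : F) := by
        conv_lhs => rw [← Polynomial.divX_mul_X_add p]
        rw [map_add, map_mul, Polynomial.aeval_X, Polynomial.aeval_C]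
        rfl
      have hc : p.coeff 0 = 0 := by
        by_contra hc
        have h2 : (p.coeff 0 : F) = - (Polynomial.aeval u p.divX * u) := by
          rw [hp] at h1
          exact eq_neg_of_add_eq_zero_right h1.symm
        have h3 := hAel _ hc
        rw [h2, AddValuation.map_neg, AddValuation.map_mul, hu] at h3
        have h4 := hnn p.divX
        have h5 : (1 : WithTop ℤ) ≤ v.ord (Polynomial.aeval u p.divX) + 1 :=
          le_add_of_nonneg_left h4
        rw [h3] at h5
        exact absurd h5 (by decide)
      refine ⟨hc, ?_⟩
      rw [hp, hc, ZeroMemClass.coe_zero, add_zero] at h1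
      rcases mul_eq_zero.1 h1.symm with h | h
      · exact h
      · rw [h, AddValuation.map_zero] at hu
        exact absurd hu (by decide)
    intro i
    induction i with
    | zero => exact fun p hp => (step p hp).1
    | succ i ih =>
      intro p hp
      rw [← Polynomial.coeff_divX]
      exact ih _ (step p hp).2
  rw [transcendental_iff]
  intro p hp
  ext i
  rw [key i p hp]
  simp

end Pool.Agent.ZC
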