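import Pool.Agent.Lib.MP_a1cc03_ag.A2_Residue

/-! # Row A3: specialisation of points -/

noncomputable section

namespace Pool.Agent.ZC

open WeierstrassCurve

variable {K F : Type} [Field K] [Field F] [Algebra K F]

/-- **Row A3a.** Every point specialises. For `P = O` take `O`. For `P = (x, y)`: if `v x < 0` take `O`.
If `v x ≥ 0` then `v y ≥ 0` because `y² + a₁ x y + a₃ y = x³ + …` (if `v y < 0` the left-hand side has
order `2 v y < 0` while the right-hand side has order `≥ 0`); let `x ≡ a`, `y ≡ b` by `exists_ev`; then
`(a, b)` satisfies the equation (use `Ev` calculus and uniqueness) and it is nonsingular since `W` is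
elliptic (`WeierstrassCurve.Affine.equation_iff_nonsingular` or `Point.mk`). -/
theorem exists_specializes [IsAlgClosed K] (hF : IsFunctionField K F) (v : Place K F)
    (W : WeierstrassCurve K) [W.IsElliptic] (P : (W.map (algebraMap K F)).toAffine.Point) :
    ∃ P₀ : W.toAffine.Point, Specializes v W P P₀ := by
  rcases P with _ | ⟨x, y, hxy⟩
  · exact ⟨0, Specializes.zero_zero⟩
  · by_cases hx : v.ord x < 0
    · exact ⟨0, Specializes.some_zero x y hxy hx⟩
    · have hx0 : 0 ≤ v.ord x := not_lt.1 hx
      have heq := (WeierstrassCurve.Affine.equation_iff _ _).1 hxy.1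
      simp only [WeierstrassCurve.map_a₁, WeierstrassCurve.map_a₂, WeierstrassCurve.map_a₃,
        WeierstrassCurve.map_a₄, WeierstrassCurve.map_a₆] at heq
      obtain ⟨a, ha⟩ := exists_ev hF v x hx0
      have hR : Ev v (x ^ 3 + algebraMap K F W.a₂ * x ^ 2 + algebraMap K F W.a₄ * x +
          algebraMap K F W.a₆) (a ^ 3 + W.a₂ * a ^ 2 + W.a₄ * a + W.a₆) :=
        (((ha.pow 3).add ((Ev.const v W.a₂).mul (ha.pow 2))).add ((Ev.const v W.a₄).mul ha)).add
          (Ev.const v W.a₆)
      have hy0 : 0 ≤ v.ord y := by
        by_contra hy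
        have hy' : v.ord y < 0 := not_le.1 hy
        have hz : Ev v (algebraMap K F W.a₁ * x + algebraMap K F W.a₃) (W.a₁ * a + W.a₃) :=
          ((Ev.const v W.a₁).mul ha).add (Ev.const v W.a₃)
        have h1 : v.ord (y + (algebraMap K F W.a₁ * x + algebraMap K F W.a₃)) = v.ord y :=
          AddValuation.map_add_eq_of_lt_left _ (hy'.trans_le hz.nonneg)
        have h2 : y * (y + (algebraMap K F W.a₁ * x + algebraMap K F W.a₃)) =
            x ^ 3 + algebraMap K F W.a₂ * x ^ 2 + algebraMap K F W.a₄ * x +
              algebraMap K F W.a₆ := by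
          rw [← heq]
          ring
        have h3 := hR.nonneg
        rw [← h2, AddValuation.map_mul, h1] at h3
        obtain ⟨m, hm⟩ := WithTop.ne_top_iff_exists.1 (ne_of_lt (hy'.trans_le le_top))
        rw [← hm] at h3 hy'
        have h4 : m < 0 := by exact_mod_cast hy'
        have h5 : (0 : ℤ) ≤ m + m := by exact_mod_cast h3
        omega
      obtain ⟨b, hb⟩ := exists_ev hF v y hy0
      have hL : Ev v (y ^ 2 + algebraMap K F W.a₁ * x * y + algebraMap K F W.a₃ * y)
          (b ^ 2 + W.a₁ * a * b + W.a₃ * b) :=
        ((hb.pow 2).add (((Ev.const v W.a₁).mul ha).mul hb)).add ((Ev.const v W.a₃).mul hb)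
      rw [heq] at hL
      have hab := hL.unique hR
      have hE : W.toAffine.Equation a b := (WeierstrassCurve.Affine.equation_iff _ _).2 hab
      have hN : W.toAffine.Nonsingular a b := WeierstrassCurve.Affine.equation_iff_nonsingular.1 hE
      exact ⟨.some a b hN, Specializes.some_some x y hxy a b hN ha hb⟩

/-- **Row A3b.** The specialisation is unique (for `P = (x, y)` use `Ev.unique`, and `v x < 0`
excludes `v (x - a) > 0`). -/
theorem Specializes.unique {v : Place K F} {W : WeierstrassCurve K}
    {P : (W.map (algebraMap K F)).toAffine.Point} {P₀ P₁ : W.toAffine.Point}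
    (h₀ : Specializes v W P P₀) (h₁ : Specializes v W P P₁) : P₀ = P₁ := by
  cases h₀ with
  | zero_zero =>
    cases h₁
    rfl
  | some_zero x y h hx =>
    cases h₁ with
    | some_zero => rfl
    | some_some _ _ _ a b h' ha hb =>
      exact absurd (Ev.nonneg (show Ev v x a from ha)) (not_le.2 hx)
  | some_some x y h a b h' ha hb =>
    cases h₁ with
    | some_zero _ _ _ hx =>
      exact absurd (Ev.nonneg (show Ev v x a from ha)) (not_le.2 hx)
    | some_some _ _ _ a' b' h'' ha' hb' =>
      have e1 : a = a' := Ev.unique (show Ev v x a from ha) ha'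
      have e2 : b = b' := Ev.unique (show Ev v y b from hb) hb'
      subst e1
      subst e2
      rfl

/-- **Row A3c.** The constant point `P₀ ∈ W(K) ⊆ W(F)` specialises to `P₀` everywhere. -/
theorem exists_constant_point (W : WeierstrassCurve K) [W.IsElliptic] (P₀ : W.toAffine.Point) :
    ∃ P : (W.map (algebraMap K F)).toAffine.Point, ∀ v : Place K F, Specializes v W P P₀ := by
  rcases P₀ with _ | ⟨a, b, hab⟩
  · exact ⟨0, fun v => Specializes.zero_zero⟩
  · have h1 : (W.map (algebraMap K F)).toAffine.Nonsingular (algebraMap K F a)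
        (algebraMap K F b) :=
      (WeierstrassCurve.Affine.map_nonsingular _ (algebraMap K F).injective a b).2 hab
    exact ⟨.some _ _ h1, fun v => Specializes.some_some _ _ h1 a b hab (Ev.const v a) (Ev.const v b)⟩

/-- **Row A3d.** The negative of a point specialises to the negative. -/
theorem Specializes.neg {v : Place K F} {W : WeierstrassCurve K}
    {P : (W.map (algebraMap K F)).toAffine.Point} {P₀ : W.toAffine.Point}
    (h₀ : Specializes v W P P₀) : Specializes v W (-P) (-P₀) := by
  cases h₀ with
  | zero_zero =>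
    exact Specializes.zero_zero
  | some_zero x y h hx =>
    rw [WeierstrassCurve.Affine.Point.neg_some]
    exact Specializes.some_zero _ _ _ hx
  | some_some x y h a b h' ha hb =>
    rw [WeierstrassCurve.Affine.Point.neg_some, WeierstrassCurve.Affine.Point.neg_some]
    refine Specializes.some_some _ _ _ _ _ _ ha ?_
    have h1 : Ev v (-y - algebraMap K F W.a₁ * x - algebraMap K F W.a₃)
        (-b - W.a₁ * a - W.a₃) :=
      ((Ev.neg (show Ev v y b from hb)).sub ((Ev.const v W.a₁).mul (show Ev v x a from ha))).sub
        (Ev.const v W.a₃)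
    exact h1

end Pool.Agent.ZC
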