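import Pool.Agent.Lib.MP_a1cc03_ag.A1_Ev

/-! # Row A4: existence of double covers -/

open scoped Polynomial

noncomputable section

namespace Pool.Agent.ZC

variable {K : Type} [Field K]

/-- square roots of power series (Hensel) -/
lemma a4_sqrt [CharZero K] (G : PowerSeries K) (d : K) (hd : d ≠ 0)
    (hG : PowerSeries.constantCoeff G = d ^ 2) :
    ∃ y : PowerSeries K, y ^ 2 = G ∧ PowerSeries.X ∣ y - PowerSeries.C d := by
  have h := (IsAdicComplete.henselianRing (PowerSeries K)
    (Ideal.span {PowerSeries.X})).is_henselian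
    (Polynomial.X ^ 2 - Polynomial.C G) (Polynomial.monic_X_pow_sub_C G (by norm_num))
    (PowerSeries.C d) (by
      rw [Ideal.mem_span_singleton, PowerSeries.X_dvd_iff]
      simp [hG]) (by
      apply IsUnit.map
      have h1 : Polynomial.eval (PowerSeries.C d)
          (Polynomial.derivative (Polynomial.X ^ 2 - Polynomial.C G)) =
          PowerSeries.C (2 * d) := by
        have h2 : (PowerSeries.C (2 : K)) = 2 := map_ofNat _ 2
        rw [map_mul, h2]
        simp
        left
        norm_num
      rw [h1]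
      apply IsUnit.map
      rw [isUnit_iff_ne_zero]
      exact mul_ne_zero two_ne_zero hd)
  obtain ⟨y, hy1, hy2⟩ := h
  refine ⟨y, ?_, ?_⟩
  · have h2 : Polynomial.eval y (Polynomial.X ^ 2 - Polynomial.C G) = 0 := hy1
    simp only [Polynomial.eval_sub, Polynomial.eval_pow, Polynomial.eval_X,
      Polynomial.eval_C] at h2
    exact sub_eq_zero.1 h2
  · rwa [Ideal.mem_span_singleton] at hy2

/-- the ring homomorphism `p ↦ p(a + u)` to Laurent series -/
def a4_hom (a : K) : K[X] →+* LaurentSeries K :=
  (HahnSeries.ofPowerSeries ℤ K).comp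
    ((Polynomial.coeToPowerSeries.ringHom).comp (Polynomial.taylorAlgHom a).toRingHom)

lemma a4_hom_apply (a : K) (p : K[X]) :
    a4_hom a p = HahnSeries.ofPowerSeries ℤ K ((Polynomial.taylor a p : K[X]) : PowerSeries K) :=
  rfl

lemma a4_hom_injective (a : K) : Function.Injective (a4_hom a) := by
  intro p q hpq
  rw [a4_hom_apply, a4_hom_apply] at hpq
  exact Polynomial.taylor_injective a
    (Polynomial.coe_injective K (HahnSeries.ofPowerSeries_injective hpq))

lemma a4_hom_C (a c : K) : a4_hom a (Polynomial.C c) = HahnSeries.C c := by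
  rw [a4_hom_apply, Polynomial.taylor_C, Polynomial.coe_C, HahnSeries.ofPowerSeries_C]

lemma a4_hom_X (a : K) : a4_hom a Polynomial.X = HahnSeries.C a + HahnSeries.single 1 1 := by
  rw [a4_hom_apply, Polynomial.taylor_X, Polynomial.coe_add, Polynomial.coe_C, Polynomial.coe_X,
    map_add, HahnSeries.ofPowerSeries_C, HahnSeries.ofPowerSeries_X, add_comm]

/-- positive order -/
lemma a4_pos (w : PowerSeries K) (hw : PowerSeries.X ∣ w) :
    0 < (HahnSeries.addVal ℤ K) (HahnSeries.ofPowerSeries ℤ K w) := by
  obtain ⟨t, rfl⟩ := hw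
  rw [map_mul, AddValuation.map_mul, HahnSeries.ofPowerSeries_X, HahnSeries.addVal_apply,
    HahnSeries.orderTop_single one_ne_zero]
  have h1 : 0 ≤ (HahnSeries.addVal ℤ K) (HahnSeries.ofPowerSeries ℤ K t) := by
    rw [HahnSeries.addVal_apply, HahnSeries.le_orderTop_iff_forall]
    intro j hj
    by_contra h
    rw [HahnSeries.ofPowerSeries_apply] at h
    apply h
    apply HahnSeries.embDomain_of_notMem_range
    rintro ⟨n, hn⟩
    have h2 : (0 : ℤ) ≤ j := by
      rw [← hn]
      exact Int.natCast_nonneg n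
    have h3 : ¬ (j < 0) := by omega
    exact h3 (by exact_mod_cast hj)
  calc (0 : WithTop ℤ) < ((1 : ℤ) : WithTop ℤ) := by exact_mod_cast one_pos
    _ = ((1 : ℤ) : WithTop ℤ) + 0 := by rw [add_zero]
    _ ≤ _ := by gcongr

/-- the polynomial `X² - D` over `K(s)` -/
def a4_P (D : K[X]) : (RatFunc K)[X] :=
  Polynomial.X ^ 2 - Polynomial.C (algebraMap K[X] (RatFunc K) D)

lemma a4_irreducible (D : K[X]) (hD : ¬ IsSquare (algebraMap K[X] (RatFunc K) D)) :
    Irreducible (a4_P D) := by
  apply X_pow_sub_C_irreducible_of_prime Nat.prime_two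
  intro b hb
  exact hD ⟨b, by rw [← hb, sq]⟩

lemma a4_natDegree (D : K[X]) : (a4_P D).natDegree = 2 := by
  unfold a4_P
  exact Polynomial.natDegree_X_pow_sub_C

lemma a4_monic (D : K[X]) : (a4_P D).Monic := by
  unfold a4_P
  exact Polynomial.monic_X_pow_sub_C _ (by norm_num)

lemma a4_aeval (D p : K[X]) :
    Polynomial.aeval (AdjoinRoot.of (a4_P D) (RatFunc.X : RatFunc K)) p =
      AdjoinRoot.of (a4_P D) (algebraMap K[X] (RatFunc K) p) := by
  have h : (Polynomial.aeval (R := K)
      (AdjoinRoot.of (a4_P D) (RatFunc.X : RatFunc K))).toRingHom =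
      (AdjoinRoot.of (a4_P D)).comp (algebraMap K[X] (RatFunc K)) := by
    apply Polynomial.ringHom_ext
    · intro c
      simp only [AlgHom.toRingHom_eq_coe, RingHom.coe_coe, Polynomial.aeval_C, RingHom.coe_comp,
        Function.comp_apply, RatFunc.algebraMap_C]
      rfl
    · simp
  have h2 := congrArg (fun f : K[X] →+* AdjoinRoot (a4_P D) => f p) h
  exact h2

/-- **Row A4.** Existence of the double cover. Take `F = AdjoinRoot (X² - D)` over `RatFunc K`; the
polynomial `X² - D` is irreducible because `D` is not a square in `RatFunc K`; `s` is the image of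
`RatFunc.X` and `Y` the root. `indep`: `1, Y` is a basis over `RatFunc K` (power basis) and `RatFunc.X` is
transcendental. `gen`: every element is `α + β Y` with `α, β ∈ K(s)`; common denominator.
`loc`: given `d² = D(a)`, `d ≠ 0`: the power series `D(a + u) ∈ K[[u]]` has constant coefficient `d²`, and
(characteristic `≠ 2`) it has a square root `y ∈ K[[u]]` with constant coefficient `d` (Hensel, or
recursive construction of the coefficients: `2 d y_n = D_n - ∑_{0<i<n} y_i y_{n-i}`); the ring
homomorphism `K[X] → K((u))`, `X ↦ a + u`, is injective, so it extends to `RatFunc K → K((u))`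
(`IsFractionRing.lift` or `RatFunc.liftRingHom`) and then to `F` by `AdjoinRoot.lift`, `Y ↦ y`. -/
theorem exists_dcover [CharZero K] (D : K[X])
    (hD : ¬ IsSquare (algebraMap K[X] (RatFunc K) D)) :
    ∃ (F : Type) (_ : Field F) (_ : Algebra K F) (s Y : F), DCover D F s Y := by
  have hirr : Fact (Irreducible (a4_P D)) := ⟨a4_irreducible D hD⟩
  refine ⟨AdjoinRoot (a4_P D), inferInstance, inferInstance,
    AdjoinRoot.of (a4_P D) RatFunc.X, AdjoinRoot.root (a4_P D), ?_⟩
  constructor
  · rw [a4_aeval]
    have h := AdjoinRoot.eval₂_root (a4_P D)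
    conv at h => lhs; arg 3; unfold a4_P
    simp only [Polynomial.eval₂_sub, Polynomial.eval₂_pow, Polynomial.eval₂_X,
      Polynomial.eval₂_C] at h
    exact sub_eq_zero.1 h
  · intro p q hpq
    rw [a4_aeval, a4_aeval] at hpq
    have h1 : AdjoinRoot.mk (a4_P D) (Polynomial.C (algebraMap K[X] (RatFunc K) q) * Polynomial.X +
        Polynomial.C (algebraMap K[X] (RatFunc K) p)) = 0 := by
      rw [map_add, map_mul, AdjoinRoot.mk_C, AdjoinRoot.mk_C, AdjoinRoot.mk_X, add_comm]
      exact hpq
    rw [AdjoinRoot.mk_eq_zero] at h1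
    have h2 : Polynomial.C (algebraMap K[X] (RatFunc K) q) * Polynomial.X +
        Polynomial.C (algebraMap K[X] (RatFunc K) p) = 0 := by
      apply Polynomial.eq_zero_of_dvd_of_natDegree_lt h1
      rw [a4_natDegree]
      exact lt_of_le_of_lt Polynomial.natDegree_linear_le (by norm_num)
    have hq : algebraMap K[X] (RatFunc K) q = 0 := by
      have := congrArg (fun f => Polynomial.coeff f 1) h2
      simpa [Polynomial.coeff_C] using this
    have hp : algebraMap K[X] (RatFunc K) p = 0 := by
      have := congrArg (fun f => Polynomial.coeff f 0) h2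
      simpa using this
    have hinj := RatFunc.algebraMap_injective K
    exact ⟨hinj (by rw [hp, map_zero]), hinj (by rw [hq, map_zero])⟩
  · intro g
    obtain ⟨f, rfl⟩ := AdjoinRoot.mk_surjective g
    have h1 : AdjoinRoot.mk (a4_P D) f = AdjoinRoot.mk (a4_P D) (f %ₘ a4_P D) := by
      rw [AdjoinRoot.mk_eq_mk]
      have := Polynomial.modByMonic_add_div f (a4_P D)
      exact ⟨f /ₘ a4_P D, by linear_combination -this⟩
    have hdeg : (f %ₘ a4_P D).natDegree ≤ 1 := by
      have h2 := Polynomial.natDegree_modByMonic_lt f (a4_monic D) (by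
        intro h
        have h3 := a4_natDegree D
        rw [h, Polynomial.natDegree_one] at h3
        omega)
      rw [a4_natDegree] at h2
      omega
    obtain ⟨b, c, hbc⟩ := Polynomial.exists_eq_X_add_C_of_natDegree_le_one hdeg
    have hb0 : b.denom ≠ 0 := b.denom_ne_zero
    have hc0 : c.denom ≠ 0 := c.denom_ne_zero
    refine ⟨c.num * b.denom, b.num * c.denom, b.denom * c.denom, mul_ne_zero hb0 hc0, ?_⟩
    rw [h1, hbc, a4_aeval, a4_aeval, a4_aeval, map_add, map_mul, AdjoinRoot.mk_C, AdjoinRoot.mk_C,
      AdjoinRoot.mk_X]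
    have hb : b * algebraMap K[X] (RatFunc K) b.denom = algebraMap K[X] (RatFunc K) b.num := by
      have h3 : algebraMap K[X] (RatFunc K) b.denom ≠ 0 := RatFunc.algebraMap_ne_zero hb0
      have h4 := RatFunc.num_div_denom b
      field_simp at h4
      rw [mul_comm] at h4 ⊢
      first
        | exact h4.symm
        | exact h4
        | (rw [mul_comm]; exact h4.symm)
    have hc : c * algebraMap K[X] (RatFunc K) c.denom = algebraMap K[X] (RatFunc K) c.num := by
      have h3 : algebraMap K[X] (RatFunc K) c.denom ≠ 0 := RatFunc.algebraMap_ne_zero hc0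
      have h4 := RatFunc.num_div_denom c
      field_simp at h4
      rw [mul_comm] at h4 ⊢
      first
        | exact h4.symm
        | exact h4
        | (rw [mul_comm]; exact h4.symm)
    have hb' := congrArg (AdjoinRoot.of (a4_P D)) hb
    have hc' := congrArg (AdjoinRoot.of (a4_P D)) hc
    rw [map_mul] at hb' hc'
    rw [map_mul (algebraMap K[X] (RatFunc K)), map_mul (algebraMap K[X] (RatFunc K)),
      map_mul (algebraMap K[X] (RatFunc K)), map_mul (AdjoinRoot.of (a4_P D)),
      map_mul (AdjoinRoot.of (a4_P D)), map_mul (AdjoinRoot.of (a4_P D)), ← hb', ← hc']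
    ring
  · intro a d hd hda
    have hG : PowerSeries.constantCoeff ((Polynomial.taylor a D : K[X]) : PowerSeries K) =
        d ^ 2 := by
      rw [← PowerSeries.coeff_zero_eq_constantCoeff_apply, Polynomial.coeff_coe,
        Polynomial.taylor_coeff_zero, hda]
    obtain ⟨y, hy1, hy2⟩ := a4_sqrt _ d hd hG
    have hinj := a4_hom_injective a
    set ψ : RatFunc K →+* LaurentSeries K := IsFractionRing.lift hinj with hψ
    have hψa : ∀ p : K[X], ψ (algebraMap K[X] (RatFunc K) p) = a4_hom a p := fun p =>
      IsFractionRing.lift_algebraMap hinj p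
    have hroot : Polynomial.eval₂ ψ (HahnSeries.ofPowerSeries ℤ K y) (a4_P D) = 0 := by
      unfold a4_P
      rw [Polynomial.eval₂_sub, Polynomial.eval₂_pow, Polynomial.eval₂_X, Polynomial.eval₂_C, hψa,
        a4_hom_apply, ← map_pow, hy1, sub_self]
    refine ⟨AdjoinRoot.lift ψ (HahnSeries.ofPowerSeries ℤ K y) hroot, ?_, ?_, ?_⟩
    · intro c
      have h1 : algebraMap K (AdjoinRoot (a4_P D)) c =
          AdjoinRoot.of (a4_P D) (algebraMap K[X] (RatFunc K) (Polynomial.C c)) := by
        rw [← a4_aeval, Polynomial.aeval_C]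
      rw [h1, AdjoinRoot.lift_of, hψa, a4_hom_C]
    · rw [AdjoinRoot.lift_of]
      have h1 : (RatFunc.X : RatFunc K) = algebraMap K[X] (RatFunc K) Polynomial.X :=
        RatFunc.algebraMap_X.symm
      rw [h1, hψa, a4_hom_X]
    · rw [AdjoinRoot.lift_root, ← HahnSeries.ofPowerSeries_C, ← map_sub]
      exact a4_pos _ hy2

end Pool.Agent.ZC
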