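import Pool.Agent.Lib.MP_a1cc03_ag.A1_Ev

/-! # Row A5: double covers are function fields; non-squares -/

open scoped Polynomial

noncomputable section

namespace Pool.Agent.ZC

variable {K : Type} [Field K]

theorem A5_aeval_mem {F : Type} [Field F] [Algebra K F] (s : F) (p : K[X]) :
    Polynomial.aeval s p ∈ IntermediateField.adjoin K {s} :=
  IntermediateField.algebra_adjoin_le_adjoin K {s} (Polynomial.aeval_mem_adjoin_singleton K s)

/-- **Row A5a.** A double cover is a function field in one variable: `t = s` is transcendental by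
`indep` (with `q = 0`), and `F` is spanned by `1, Y` over `K(s)` by `gen`. -/
theorem DCover.isFunctionField {D : K[X]} {F : Type} [Field F] [Algebra K F] {s Y : F}
    (h : DCover D F s Y) : IsFunctionField K F := by
  have hp : ∀ p : K[X], Polynomial.aeval s p = 0 → p = 0 := by
    intro p hp
    exact (h.indep p 0 (by simp [hp])).1
  refine ⟨s, transcendental_iff.2 hp, ?_⟩
  classical
  refine ⟨⟨({1, Y} : Finset F), ?_⟩⟩
  rw [eq_top_iff]
  rintro g -
  obtain ⟨p, q, r, hr, hg⟩ := h.gen g
  have hr' : Polynomial.aeval s r ≠ 0 := fun h0 => hr (hp r h0)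
  have hgeq : g = (⟨Polynomial.aeval s p, A5_aeval_mem s p⟩ / ⟨Polynomial.aeval s r, A5_aeval_mem s r⟩ :
      IntermediateField.adjoin K {s}) • (1 : F) +
      (⟨Polynomial.aeval s q, A5_aeval_mem s q⟩ / ⟨Polynomial.aeval s r, A5_aeval_mem s r⟩ :
      IntermediateField.adjoin K {s}) • Y := by
    simp only [IntermediateField.smul_def, IntermediateField.coe_div, smul_eq_mul, mul_one]
    field_simp
    exact hg
  rw [hgeq]
  refine Submodule.add_mem _ (Submodule.smul_mem _ _ (Submodule.subset_span (by simp)))
    (Submodule.smul_mem _ _ (Submodule.subset_span (by simp)))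

/-- **Row A5b.** A polynomial which is a square in `K(X)` is the square of a polynomial
(`K[X]` is integrally closed in `K(X)`, or compare multiplicities of irreducible factors). -/
theorem isSquare_of_algebraMap (D : K[X]) (h : IsSquare (algebraMap K[X] (RatFunc K) D)) :
    IsSquare D := by
  obtain ⟨f, hf⟩ := h
  have h1 : IsIntegral K[X] (f ^ 2) := by
    rw [pow_two, ← hf]
    exact isIntegral_algebraMap
  obtain ⟨E, hE⟩ := IsIntegrallyClosed.exists_algebraMap_eq_of_isIntegral_pow (n := 2)
    (by norm_num) h1
  refine ⟨E, ?_⟩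
  apply IsFractionRing.injective K[X] (RatFunc K)
  rw [map_mul, hE, hf]

/-- **Row A5c.** A polynomial with a simple root is not a square in `K(X)`: by A5b it would be `E²`,
and a root `a` of `E²` is a root of `E`, hence of the derivative `2 E E'`. -/
theorem not_isSquare_of_simple_root (D : K[X]) (a : K) (h : D.eval a = 0)
    (h' : (Polynomial.derivative D).eval a ≠ 0) : ¬ IsSquare (algebraMap K[X] (RatFunc K) D) := by
  intro hs
  obtain ⟨E, rfl⟩ := isSquare_of_algebraMap D hs
  have hE : E.eval a = 0 := by simpa using h
  apply h'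
  simp [hE]

end Pool.Agent.ZC
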