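import Pool.Agent.Lib.MP_a1cc03_ag.A1_Ev

/-! # Row A6a: places above an unramified point -/

open scoped Polynomial

noncomputable section

namespace Pool.Agent.ZC

variable {K : Type} [Field K]

/-- Values of polynomials. -/
theorem A6a_ev_aeval {F : Type} [Field F] [Algebra K F] {s : F} {a : K} {v : Place K F}
    (hs : Ev v s a) (D : K[X]) : Ev v (Polynomial.aeval s D) (D.eval a) := by
  induction D using Polynomial.induction_on' with
  | add p q hp hq =>
    rw [map_add, Polynomial.eval_add]
    exact hp.add hq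
  | monomial n c =>
    rw [Polynomial.aeval_monomial, Polynomial.eval_monomial]
    exact (Ev.const v c).mul (hs.pow n)

/-- **Row A6a.** Existence: pull back the valuation `HahnSeries.addVal ℤ K` of `K((u))` along the ring
homomorphism `φ` of `DCover.loc` (`AddValuation.comap`); `φ (s - a) = u` has order `1`. -/
theorem exists_place {D : K[X]} {F : Type} [Field F] [Algebra K F] {s Y : F}
    (h : DCover D F s Y) {a d : K} (hd : d ≠ 0) (hda : d ^ 2 = D.eval a) :
    ∃ v : Place K F, v.ord (s - algebraMap K F a) = 1 ∧ Ev v Y d := by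
  obtain ⟨φ, hc, hs, hY⟩ := h.loc a d hd hda
  have hs1 : (AddValuation.comap φ (HahnSeries.addVal ℤ K)) (s - algebraMap K F a) = 1 := by
    have e : φ (s - algebraMap K F a) = HahnSeries.single 1 1 := by
      rw [map_sub, hc, hs]; abel
    show (HahnSeries.addVal ℤ K) (φ (s - algebraMap K F a)) = 1
    rw [e, HahnSeries.addVal_apply_of_ne (by simp), HahnSeries.order_single one_ne_zero]
    rfl
  refine ⟨⟨AddValuation.comap φ (HahnSeries.addVal ℤ K), ?_, ⟨_, hs1⟩⟩, hs1, ?_⟩
  · intro c hc0
    show (HahnSeries.addVal ℤ K) (φ (algebraMap K F c)) = 0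
    have hC : (HahnSeries.C c : HahnSeries ℤ K) ≠ 0 := HahnSeries.C_ne_zero hc0
    rw [hc, HahnSeries.addVal_apply_of_ne hC, HahnSeries.order_C]
    rfl
  · show 0 < (HahnSeries.addVal ℤ K) (φ (Y - algebraMap K F d))
    rw [map_sub, hc]
    exact hY

/-- **Row A6d.** A place with `s ≡ a` is above `(a, d)` or above `(a, -d)`: the product
`(Y - d)(Y + d) = D(s) - D(a)` has positive order. -/
theorem ev_or_ev {D : K[X]} {F : Type} [Field F] [Algebra K F] {s Y : F}
    (h : DCover D F s Y) {a d : K} (hda : d ^ 2 = D.eval a) {v : Place K F} (hs : Ev v s a) :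
    Ev v Y d ∨ Ev v Y (-d) := by
  have h1 : Ev v (Polynomial.aeval s D) (D.eval a) := A6a_ev_aeval hs D
  have h2 : Polynomial.aeval s D - algebraMap K F (D.eval a)
      = (Y - algebraMap K F d) * (Y - algebraMap K F (-d)) := by
    rw [← h.rel, ← hda, map_neg, map_pow]; ring
  have h3 : 0 < v.ord (Y - algebraMap K F d) + v.ord (Y - algebraMap K F (-d)) := by
    rw [← AddValuation.map_mul, ← h2]
    exact h1
  by_contra hcon
  rw [not_or] at hcon
  have h4 : v.ord (Y - algebraMap K F d) ≤ 0 := not_lt.mp hcon.1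
  have h5 : v.ord (Y - algebraMap K F (-d)) ≤ 0 := not_lt.mp hcon.2
  exact absurd h3 (not_lt.mpr (add_nonpos h4 h5))

end Pool.Agent.ZC
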