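import Pool.Agent.Lib.MP_a1cc03_ag.A1_Ev

/-! # Row A6b: the order at a place above an unramified point -/

open scoped Polynomial

noncomputable section

namespace Pool.Agent.ZC

variable {K : Type} [Field K]

theorem a6b_ev_aeval {F : Type} [Field F] [Algebra K F] {v : Place K F} {s : F} {a : K}
    (hs : Ev v s a) (p : K[X]) : Ev v (Polynomial.aeval s p) (p.eval a) := by
  induction p using Polynomial.induction_on' with
  | add p q hp hq =>
    rw [map_add, Polynomial.eval_add]
    exact hp.add hq
  | monomial n c =>
    rw [Polynomial.aeval_monomial, Polynomial.eval_monomial]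
    exact (Ev.const v c).mul (hs.pow n)

theorem a6b_poly {F : Type} [Field F] [Algebra K F] {s : F} {a : K} (r : K[X]) (hr : r ≠ 0) :
    ∃ N : ℤ, ∀ v : Place K F, Ev v s a → ∀ e : ℤ,
      v.ord (s - algebraMap K F a) = (e : WithTop ℤ) →
        v.ord (Polynomial.aeval s r) = ((N * e : ℤ) : WithTop ℤ) := by
  obtain ⟨E, hE, hnd⟩ := Polynomial.exists_eq_pow_rootMultiplicity_mul_and_not_dvd r hr a
  have hEa : E.eval a ≠ 0 := by
    intro h
    exact hnd (Polynomial.dvd_iff_isRoot.2 h)
  refine ⟨(r.rootMultiplicity a : ℤ), ?_⟩
  intro v hs e he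
  have h1 : Polynomial.aeval s r =
      (s - algebraMap K F a) ^ (r.rootMultiplicity a) * Polynomial.aeval s E := by
    conv_lhs => rw [hE]
    rw [map_mul, map_pow, map_sub, Polynomial.aeval_X, Polynomial.aeval_C]
  have h2 : v.ord (Polynomial.aeval s E) = 0 := (a6b_ev_aeval hs E).ord_eq_zero hEa
  rw [h1, AddValuation.map_mul, AddValuation.map_pow, h2, he, add_zero]
  rw [← WithTop.coe_nsmul]
  congr 1

theorem a6b_pair [CharZero K] {D : K[X]} {F : Type} [Field F] [Algebra K F] {s Y : F}
    (h : DCover D F s Y) {a d : K} (hd : d ≠ 0) (n : ℕ) :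
    ∀ p q : K[X], p.natDegree + q.natDegree ≤ n → (p ≠ 0 ∨ q ≠ 0) →
    ∃ N : ℤ, ∀ v : Place K F, Ev v s a → Ev v Y d → ∀ e : ℤ,
      v.ord (s - algebraMap K F a) = (e : WithTop ℤ) →
      v.ord (Polynomial.aeval s p + Polynomial.aeval s q * Y) = ((N * e : ℤ) : WithTop ℤ) := by
  induction n with
  | zero =>
    intro p q hpq hne
    by_cases h1 : p.eval a + q.eval a * d ≠ 0
    · refine ⟨0, fun v hs hY e he => ?_⟩
      rw [((a6b_ev_aeval hs p).add ((a6b_ev_aeval hs q).mul hY)).ord_eq_zero h1]
      simp
    · rw [not_not] at h1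
      have hp0 : p.natDegree = 0 := by omega
      have hq0 : q.natDegree = 0 := by omega
      rw [Polynomial.natDegree_eq_zero] at hp0 hq0
      obtain ⟨c1, rfl⟩ := hp0
      obtain ⟨c2, rfl⟩ := hq0
      rw [Polynomial.eval_C, Polynomial.eval_C] at h1
      have hc2 : c2 ≠ 0 := by
        intro h0
        rw [h0, zero_mul, add_zero] at h1
        rw [h0, h1] at hne
        simp at hne
      have h2 : c1 - c2 * d ≠ 0 := by
        intro h2
        have h3 : (2 : K) * (c2 * d) = 0 := by linear_combination h1 - h2
        have h4 : (2 : K) ≠ 0 := two_ne_zero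
        rcases mul_eq_zero.1 h3 with h5 | h5
        · exact h4 h5
        · exact (mul_ne_zero hc2 hd) h5
      have hR : Polynomial.C c1 ^ 2 - Polynomial.C c2 ^ 2 * D ≠ 0 := by
        intro h0
        have h3 : (Polynomial.aeval s (Polynomial.C c1) + Polynomial.aeval s (Polynomial.C c2) * Y) *
            (Polynomial.aeval s (Polynomial.C c1) + Polynomial.aeval s (-Polynomial.C c2) * Y)
            = 0 := by
          have h4 := congrArg (Polynomial.aeval s) h0
          rw [map_sub, map_mul, map_pow, map_pow, map_zero, ← h.rel] at h4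
          rw [map_neg]
          linear_combination h4
        rcases mul_eq_zero.1 h3 with h5 | h5
        · have := h.indep _ _ h5
          rw [this.1, this.2] at hne
          simp at hne
        · have := h.indep _ _ h5
          rw [this.1, neg_eq_zero.1 this.2] at hne
          simp at hne
      obtain ⟨N, hN⟩ := a6b_poly (s := s) (a := a) _ hR
      refine ⟨N, fun v hs hY e he => ?_⟩
      have h6 : v.ord (Polynomial.aeval s (Polynomial.C c1) -
          Polynomial.aeval s (Polynomial.C c2) * Y) = 0 := by
        refine ((a6b_ev_aeval hs (Polynomial.C c1)).sub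
          ((a6b_ev_aeval hs (Polynomial.C c2)).mul hY)).ord_eq_zero ?_
        rw [Polynomial.eval_C, Polynomial.eval_C]
        exact h2
      have h7 := hN v hs e he
      have h8 : Polynomial.aeval s (Polynomial.C c1 ^ 2 - Polynomial.C c2 ^ 2 * D) =
          (Polynomial.aeval s (Polynomial.C c1) + Polynomial.aeval s (Polynomial.C c2) * Y) *
          (Polynomial.aeval s (Polynomial.C c1) - Polynomial.aeval s (Polynomial.C c2) * Y) := by
        rw [map_sub, map_mul, map_pow, map_pow, ← h.rel]
        ring
      rw [h8, AddValuation.map_mul, h6, add_zero] at h7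
      exact h7
  | succ n ih =>
    intro p q hpq hne
    by_cases h1 : p.eval a + q.eval a * d ≠ 0
    · refine ⟨0, fun v hs hY e he => ?_⟩
      rw [((a6b_ev_aeval hs p).add ((a6b_ev_aeval hs q).mul hY)).ord_eq_zero h1]
      simp
    · rw [not_not] at h1
      by_cases h2 : p.eval a - q.eval a * d ≠ 0
      · have hR : p ^ 2 - q ^ 2 * D ≠ 0 := by
          intro h0
          have h3 : (Polynomial.aeval s p + Polynomial.aeval s q * Y) *
              (Polynomial.aeval s p + Polynomial.aeval s (-q) * Y) = 0 := by
            have h4 := congrArg (Polynomial.aeval s) h0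
            rw [map_sub, map_mul, map_pow, map_pow, map_zero, ← h.rel] at h4
            rw [map_neg]
            linear_combination h4
          rcases mul_eq_zero.1 h3 with h5 | h5
          · have := h.indep _ _ h5
            rw [this.1, this.2] at hne
            simp at hne
          · have := h.indep _ _ h5
            rw [this.1, neg_eq_zero.1 this.2] at hne
            simp at hne
        obtain ⟨N, hN⟩ := a6b_poly (s := s) (a := a) _ hR
        refine ⟨N, fun v hs hY e he => ?_⟩
        have h6 : v.ord (Polynomial.aeval s p - Polynomial.aeval s q * Y) = 0 :=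
          ((a6b_ev_aeval hs p).sub ((a6b_ev_aeval hs q).mul hY)).ord_eq_zero h2
        have h7 := hN v hs e he
        have h8 : Polynomial.aeval s (p ^ 2 - q ^ 2 * D) =
            (Polynomial.aeval s p + Polynomial.aeval s q * Y) *
            (Polynomial.aeval s p - Polynomial.aeval s q * Y) := by
          rw [map_sub, map_mul, map_pow, map_pow, ← h.rel]
          ring
        rw [h8, AddValuation.map_mul, h6, add_zero] at h7
        exact h7
      · rw [not_not] at h2
        have h2' : (2 : K) ≠ 0 := two_ne_zero
        have hpa : p.eval a = 0 := by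
          have : (2 : K) * p.eval a = 0 := by linear_combination h1 + h2
          rcases mul_eq_zero.1 this with h5 | h5
          · exact absurd h5 h2'
          · exact h5
        have hqa : q.eval a = 0 := by
          have : (2 : K) * (q.eval a * d) = 0 := by linear_combination h1 - h2
          rcases mul_eq_zero.1 this with h5 | h5
          · exact absurd h5 h2'
          · rcases mul_eq_zero.1 h5 with h6 | h6
            · exact h6
            · exact absurd h6 hd
        obtain ⟨p1, hp1⟩ := Polynomial.dvd_iff_isRoot.2 hpa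
        obtain ⟨q1, hq1⟩ := Polynomial.dvd_iff_isRoot.2 hqa
        have hdeg : ∀ f f1 : K[X], f = (Polynomial.X - Polynomial.C a) * f1 → f ≠ 0 →
            f1 ≠ 0 ∧ f.natDegree = f1.natDegree + 1 := by
          intro f f1 hf hf0
          have hf1 : f1 ≠ 0 := by
            rintro rfl
            rw [mul_zero] at hf
            exact hf0 hf
          refine ⟨hf1, ?_⟩
          rw [hf, Polynomial.natDegree_mul (Polynomial.X_sub_C_ne_zero a) hf1,
            Polynomial.natDegree_X_sub_C]
          ring
        have hzero : ∀ f f1 : K[X], f = (Polynomial.X - Polynomial.C a) * f1 → f = 0 →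
            f1 = 0 := by
          intro f f1 hf hf0
          rw [hf0] at hf
          rcases mul_eq_zero.1 hf.symm with h5 | h5
          · exact absurd h5 (Polynomial.X_sub_C_ne_zero a)
          · exact h5
        have hle : p1.natDegree + q1.natDegree ≤ n := by
          by_cases hp : p = 0
          · have hp1' := hzero p p1 hp1 hp
            have hq : q ≠ 0 := by
              rcases hne with h5 | h5
              · exact absurd hp h5
              · exact h5
            have := (hdeg q q1 hq1 hq).2
            rw [hp1', Polynomial.natDegree_zero]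
            omega
          · have h5 := (hdeg p p1 hp1 hp).2
            by_cases hq : q = 0
            · rw [hzero q q1 hq1 hq, Polynomial.natDegree_zero]
              omega
            · have h6 := (hdeg q q1 hq1 hq).2
              omega
        have hne1 : p1 ≠ 0 ∨ q1 ≠ 0 := by
          rcases hne with h5 | h5
          · exact Or.inl (hdeg p p1 hp1 h5).1
          · exact Or.inr (hdeg q q1 hq1 h5).1
        obtain ⟨N, hN⟩ := ih p1 q1 hle hne1
        refine ⟨N + 1, fun v hs hY e he => ?_⟩
        have h7 := hN v hs hY e he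
        have h8 : Polynomial.aeval s p + Polynomial.aeval s q * Y =
            (s - algebraMap K F a) * (Polynomial.aeval s p1 + Polynomial.aeval s q1 * Y) := by
          rw [hp1, hq1, map_mul, map_mul, map_sub, Polynomial.aeval_X, Polynomial.aeval_C]
          ring
        rw [h8, AddValuation.map_mul, he, h7, ← WithTop.coe_add]
        congr 1
        ring

/-- **Row A6b.** Key computation: for each nonzero `g ∈ F` there is an integer `N` with
`v g = N * v (s - a)` for all places `v` above `(a, d)`.
Proof. By `gen` it is enough to treat `g = p(s) + q(s) Y ≠ 0` (and `r(s)`, the case `q = 0`). Induction on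
`natDegree p + natDegree q`. If `p(a) + q(a) d ≠ 0` then `v g = 0` (`Ev.ord_eq_zero`), `N = 0`. Otherwise, if
`p(a) - q(a) d ≠ 0`, then `v (p(s) - q(s) Y) = 0`, so `v g = v (p² - q² D)(s)` and, writing the nonzero
polynomial `p² - q² D = (X - a)^N E` with `E(a) ≠ 0`, this is `N v (s - a)`. Otherwise `p(a) = q(a) = 0`
(`2 d ≠ 0`), so `p = (X - a) p₁`, `q = (X - a) q₁` and `v g = v (s - a) + v (p₁(s) + q₁(s) Y)`. -/
theorem exists_ord_eq_mul [CharZero K] {D : K[X]} {F : Type} [Field F] [Algebra K F] {s Y : F}
    (h : DCover D F s Y) {a d : K} (hd : d ≠ 0) (hda : d ^ 2 = D.eval a) (g : F) (hg : g ≠ 0) :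
    ∃ N : ℤ, ∀ v : Place K F, Ev v s a → Ev v Y d → ∀ e : ℤ,
      v.ord (s - algebraMap K F a) = (e : WithTop ℤ) → v.ord g = ((N * e : ℤ) : WithTop ℤ) := by
  obtain ⟨p, q, r, hr, hgr⟩ := h.gen g
  have hr' : Polynomial.aeval s r ≠ 0 := by
    intro h0
    exact hr (h.indep r 0 (by rw [h0, map_zero, zero_mul, add_zero])).1
  have hne : p ≠ 0 ∨ q ≠ 0 := by
    by_contra hcon
    rw [not_or, not_not, not_not] at hcon
    rw [hcon.1, hcon.2, map_zero, zero_mul, add_zero] at hgr
    exact (mul_ne_zero hg hr') hgr
  obtain ⟨N1, hN1⟩ := a6b_poly (F := F) (s := s) (a := a) r hr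
  obtain ⟨N2, hN2⟩ := a6b_pair h (a := a) hd (p.natDegree + q.natDegree) p q le_rfl hne
  refine ⟨N2 - N1, fun v hs hY e he => ?_⟩
  have h1 := hN1 v hs e he
  have h2 := hN2 v hs hY e he
  rw [← hgr, AddValuation.map_mul, h1] at h2
  cases h3 : v.ord g with
  | top =>
    rw [h3, WithTop.top_add] at h2
    exact absurd h2 WithTop.top_ne_coe
  | coe m =>
    rw [h3, ← WithTop.coe_add] at h2
    have h4 := WithTop.coe_injective h2
    congr 1
    linarith

end Pool.Agent.ZC
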