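import Pool.Agent.Lib.MP_a1cc03_ag.A6b_Ord

/-! # Row A6c: uniqueness of the place -/

open scoped Polynomial

noncomputable section

namespace Pool.Agent.ZC

variable {K : Type} [Field K]

/-- The order of `s - a` at a place above `(a, d)` is `1`. -/
theorem a6c_ord_eq_one [CharZero K] {D : K[X]} {F : Type} [Field F] [Algebra K F] {s Y : F}
    (h : DCover D F s Y) {a d : K} (hd : d ≠ 0) (hda : d ^ 2 = D.eval a) {v : Place K F}
    (hs : Ev v s a) (hY : Ev v Y d) :
    v.ord (s - algebraMap K F a) = ((1 : ℤ) : WithTop ℤ) := by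
  have hsa : s - algebraMap K F a ≠ 0 := by
    intro h0
    have := (h.indep (Polynomial.X - Polynomial.C a) 0 (by simpa using h0)).1
    exact Polynomial.X_sub_C_ne_zero a this
  have hne : v.ord (s - algebraMap K F a) ≠ ⊤ := fun ht =>
    hsa ((AddValuation.top_iff v.ord).1 ht)
  obtain ⟨e, he⟩ := WithTop.ne_top_iff_exists.1 hne
  have hpos : 0 < e := by
    have := hs
    unfold Ev at this
    rw [← he] at this
    exact_mod_cast this
  obtain ⟨u, hu⟩ := v.exists_uniformizer
  have hu0 : u ≠ 0 := by
    rintro rfl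
    rw [AddValuation.map_zero] at hu
    exact absurd hu (by simp)
  obtain ⟨N, hN⟩ := exists_ord_eq_mul h hd hda u hu0
  have h1 := hN v hs hY e he.symm
  rw [hu] at h1
  have h2 : (1 : ℤ) = N * e := by exact_mod_cast h1
  have h3 : e ∣ 1 := ⟨N, by rw [h2]; ring⟩
  have h4 : e = 1 := Int.eq_one_of_dvd_one hpos.le h3
  rw [← he, h4]

/-- **Row A6c.** Uniqueness: by A6b and the existence of a uniformizer, `e = v (s - a)` divides `1`, hence
`v (s - a) = 1` and the value of `v` at every `g` is the integer `N` of A6b. -/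
theorem place_unique [CharZero K] {D : K[X]} {F : Type} [Field F] [Algebra K F] {s Y : F}
    (h : DCover D F s Y) {a d : K} (hd : d ≠ 0) (hda : d ^ 2 = D.eval a) {v v' : Place K F}
    (hs : Ev v s a) (hY : Ev v Y d) (hs' : Ev v' s a) (hY' : Ev v' Y d) : v = v' := by
  have e1 := a6c_ord_eq_one h hd hda hs hY
  have e1' := a6c_ord_eq_one h hd hda hs' hY'
  have key : ∀ g : F, v.ord g = v'.ord g := by
    intro g
    by_cases hg : g = 0
    · rw [hg, AddValuation.map_zero, AddValuation.map_zero]
    · obtain ⟨N, hN⟩ := exists_ord_eq_mul h hd hda g hg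
      rw [hN v hs hY 1 e1, hN v' hs' hY' 1 e1']
  have hord : v.ord = v'.ord := AddValuation.ext key
  cases v
  cases v'
  simp only at hord
  subst hord
  rfl

end Pool.Agent.ZC
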