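import Pool.Agent.Lib.MP_a1cc03_ag.A3_Spec
import Pool.Agent.Lib.MP_a1cc03_ag.A4_Cover
import Pool.Agent.Lib.MP_a1cc03_ag.A5_Func
import Pool.Agent.Lib.MP_a1cc03_ag.A6a_Place
import Pool.Agent.Lib.MP_a1cc03_ag.A6c_Unique

/-! # Row A7: two unramified fibres of a family over the line are rationally equivalent -/

open scoped Polynomial

noncomputable section

namespace Pool.Agent.ZC

open WeierstrassCurve

variable {K : Type} [Field K]

theorem A7_s_sub_ne {D : K[X]} {F : Type} [Field F] [Algebra K F]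
    {s Y : F} (h : DCover D F s Y) (a : K) : s - algebraMap K F a ≠ 0 := by
  intro h0
  have := (h.indep (Polynomial.X - Polynomial.C a) 0 (by simp [h0])).1
  exact Polynomial.X_sub_C_ne_zero a this

/-- If `s` is congruent neither to `a` nor to `b` at `v` then `v (s - a) = v (s - b)`. -/
theorem A7_ord_eq {F : Type} [Field F] [Algebra K F] {s : F} {a b : K} (hab : a ≠ b)
    (v : Place K F) (ha : ¬ Ev v s a) (hb : ¬ Ev v s b) :
    v.ord (s - algebraMap K F a) = v.ord (s - algebraMap K F b) := by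
  unfold Ev at ha hb
  rw [not_lt] at ha hb
  by_contra hne
  have h1 : v.ord ((s - algebraMap K F b) - (s - algebraMap K F a)) = 0 := by
    have : (s - algebraMap K F b) - (s - algebraMap K F a) = algebraMap K F (a - b) := by
      rw [map_sub]; ring
    rw [this]
    exact v.ord_const _ (sub_ne_zero.2 hab)
  rcases lt_or_gt_of_ne hne with hlt | hlt
  · have h2 := AddValuation.map_sub_eq_of_lt_right v.ord hlt
    rw [h1] at h2
    rw [← h2] at hlt
    exact absurd hb (not_le.2 hlt)
  · have h2 := AddValuation.map_sub_eq_of_lt_left v.ord hlt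
    rw [h1] at h2
    rw [← h2] at hlt
    exact absurd ha (not_le.2 hlt)

/-- **Row A7.** Apply the definition `IsDivisorOf.mk` with the function `f = (s - a) / (s - b)`.
By A3a choose specialisations `t v` of `(P, Q)` at all places. A place `v` with `v f ≠ 0` satisfies `s ≡ a`
or `s ≡ b` (if `v (s - a) = 0 = v (s - b)` then `v f = 0`; if `v s < 0` then `v (s - a) = v (s - b) = v s`),
hence is one of the four places `v₁, v₂` (above `(a, ±d)`) and `v₃, v₄` (above `(b, ±e)`) of A6; they are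
pairwise distinct (`Ev.unique`, `a ≠ b`, `d ≠ -d`, `e ≠ -e`), `f` has order `1, 1, -1, -1` there
(`v₁ (s - a) = 1`, `v₁ (s - b) = 0`, ...), and `t v₁ = p`, ... by `Specializes.unique` (A3b). So the
`finsum` is `of p + of p' - of q - of q'` (`finsum_eq_sum_of_support_subset`). -/
theorem fibre_rel [IsAlgClosed K] [CharZero K] {D : K[X]} {F : Type} [Field F] [Algebra K F]
    {s Y : F} (h : DCover D F s Y) (W₁ W₂ : WeierstrassCurve K) [W₁.IsElliptic] [W₂.IsElliptic]
    (P : (W₁.map (algebraMap K F)).toAffine.Point) (Q : (W₂.map (algebraMap K F)).toAffine.Point)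
    {a b d e : K} (hab : a ≠ b) (hd : d ≠ 0) (he : e ≠ 0) (hda : d ^ 2 = D.eval a)
    (heb : e ^ 2 = D.eval b) {p p' q q' : W₁.toAffine.Point × W₂.toAffine.Point}
    (hp₁ : SpecAt s Y a d W₁ P p.1) (hp₂ : SpecAt s Y a d W₂ Q p.2)
    (hp'₁ : SpecAt s Y a (-d) W₁ P p'.1) (hp'₂ : SpecAt s Y a (-d) W₂ Q p'.2)
    (hq₁ : SpecAt s Y b e W₁ P q.1) (hq₂ : SpecAt s Y b e W₂ Q q.2)
    (hq'₁ : SpecAt s Y b (-e) W₁ P q'.1) (hq'₂ : SpecAt s Y b (-e) W₂ Q q'.2) :
    FreeAbelianGroup.of p + FreeAbelianGroup.of p' - FreeAbelianGroup.of q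
      - FreeAbelianGroup.of q' ∈ RatEq W₁ W₂ := by
  classical
  have hF := h.isFunctionField
  choose P₀ hP₀ using fun v : Place K F => exists_specializes hF v W₁ P
  choose Q₀ hQ₀ using fun v : Place K F => exists_specializes hF v W₂ Q
  have hsa := A7_s_sub_ne h a
  have hsb := A7_s_sub_ne h b
  have hda' : (-d) ^ 2 = D.eval a := by rw [neg_sq]; exact hda
  have heb' : (-e) ^ 2 = D.eval b := by rw [neg_sq]; exact heb
  obtain ⟨v₁, h1s, h1Y⟩ := exists_place h hd hda
  obtain ⟨v₂, h2s, h2Y⟩ := exists_place h (neg_ne_zero.2 hd) hda'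
  obtain ⟨v₃, h3s, h3Y⟩ := exists_place h he heb
  obtain ⟨v₄, h4s, h4Y⟩ := exists_place h (neg_ne_zero.2 he) heb'
  have e1 : Ev v₁ s a := by unfold Ev; rw [h1s]; exact zero_lt_one
  have e2 : Ev v₂ s a := by unfold Ev; rw [h2s]; exact zero_lt_one
  have e3 : Ev v₃ s b := by unfold Ev; rw [h3s]; exact zero_lt_one
  have e4 : Ev v₄ s b := by unfold Ev; rw [h4s]; exact zero_lt_one
  -- pairwise distinct
  have hdd : d ≠ -d := fun hh => hd (self_eq_neg.1 hh)
  have hee : e ≠ -e := fun hh => he (self_eq_neg.1 hh)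
  have n12 : v₁ ≠ v₂ := fun hh => hdd (h1Y.unique (hh ▸ h2Y))
  have n34 : v₃ ≠ v₄ := fun hh => hee (h3Y.unique (hh ▸ h4Y))
  have n13 : v₁ ≠ v₃ := fun hh => hab (e1.unique (hh ▸ e3))
  have n14 : v₁ ≠ v₄ := fun hh => hab (e1.unique (hh ▸ e4))
  have n23 : v₂ ≠ v₃ := fun hh => hab (e2.unique (hh ▸ e3))
  have n24 : v₂ ≠ v₄ := fun hh => hab (e2.unique (hh ▸ e4))
  -- the function
  set f : F := (s - algebraMap K F a) / (s - algebraMap K F b) with hfdef
  have hf : f ≠ 0 := div_ne_zero hsa hsb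
  have hfmul : f * (s - algebraMap K F b) = s - algebraMap K F a := div_mul_cancel₀ _ hsb
  have hord : ∀ v : Place K F, v.ord f + v.ord (s - algebraMap K F b)
      = v.ord (s - algebraMap K F a) := by
    intro v
    rw [← AddValuation.map_mul, hfmul]
  have hval : ∀ (v : Place K F) {c c' : K}, c ≠ c' → Ev v s c →
      v.ord (s - algebraMap K F c') = 0 := by
    intro v c c' hcc hev
    have := hev.sub (Ev.const v c')
    exact this.ord_eq_zero (sub_ne_zero.2 hcc)
  have o1 : v₁.ord f = 1 := by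
    have := hord v₁
    rwa [h1s, hval v₁ hab e1, add_zero] at this
  have o2 : v₂.ord f = 1 := by
    have := hord v₂
    rwa [h2s, hval v₂ hab e2, add_zero] at this
  have aux : ∀ x : WithTop ℤ, x + 1 = 0 → x = ((-1 : ℤ) : WithTop ℤ) := by
    intro x hx
    induction x with
    | top => simp at hx
    | coe n =>
      have : ((n + 1 : ℤ) : WithTop ℤ) = ((0 : ℤ) : WithTop ℤ) := by
        rw [WithTop.coe_add]; exact hx
      rw [WithTop.coe_eq_coe] at this ⊢
      omega
  have o3 : v₃.ord f = ((-1 : ℤ) : WithTop ℤ) := by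
    have := hord v₃
    rw [h3s, hval v₃ hab.symm e3] at this
    exact aux _ this
  have o4 : v₄.ord f = ((-1 : ℤ) : WithTop ℤ) := by
    have := hord v₄
    rw [h4s, hval v₄ hab.symm e4] at this
    exact aux _ this
  -- the specialisations
  have t1 : (P₀ v₁, Q₀ v₁) = p :=
    Prod.ext ((hP₀ v₁).unique (hp₁ v₁ e1 h1Y)) ((hQ₀ v₁).unique (hp₂ v₁ e1 h1Y))
  have t2 : (P₀ v₂, Q₀ v₂) = p' :=
    Prod.ext ((hP₀ v₂).unique (hp'₁ v₂ e2 h2Y)) ((hQ₀ v₂).unique (hp'₂ v₂ e2 h2Y))
  have t3 : (P₀ v₃, Q₀ v₃) = q :=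
    Prod.ext ((hP₀ v₃).unique (hq₁ v₃ e3 h3Y)) ((hQ₀ v₃).unique (hq₂ v₃ e3 h3Y))
  have t4 : (P₀ v₄, Q₀ v₄) = q' :=
    Prod.ext ((hP₀ v₄).unique (hq'₁ v₄ e4 h4Y)) ((hQ₀ v₄).unique (hq'₂ v₄ e4 h4Y))
  -- the support
  have hsupp : (Function.support fun v : Place K F =>
      (v.ord f).untopD 0 • FreeAbelianGroup.of (P₀ v, Q₀ v)) ⊆
      (({v₁, v₂, v₃, v₄} : Finset (Place K F)) : Set (Place K F)) := by
    intro v hv
    rw [Function.mem_support] at hv
    simp only [Finset.coe_insert, Finset.coe_singleton, Set.mem_insert_iff,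
      Set.mem_singleton_iff]
    by_cases hva : Ev v s a
    · rcases ev_or_ev h hda hva with hY | hY
      · exact Or.inl (place_unique h hd hda hva hY e1 h1Y)
      · exact Or.inr (Or.inl (place_unique h (neg_ne_zero.2 hd) hda' hva hY e2 h2Y))
    · by_cases hvb : Ev v s b
      · rcases ev_or_ev h heb hvb with hY | hY
        · exact Or.inr (Or.inr (Or.inl (place_unique h he heb hvb hY e3 h3Y)))
        · exact Or.inr (Or.inr (Or.inr (place_unique h (neg_ne_zero.2 he) heb' hvb hY e4 h4Y)))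
      · exfalso
        apply hv
        have h1 := A7_ord_eq hab v hva hvb
        have h2 := hord v
        have h3 : v.ord (s - algebraMap K F b) ≠ ⊤ := by
          rw [Ne, AddValuation.top_iff]; exact hsb
        have h4 : v.ord f = 0 := by
          rw [h1] at h2
          generalize v.ord (s - algebraMap K F b) = y at h2 h3
          generalize v.ord f = x at h2
          induction y with
          | top => exact absurd rfl h3
          | coe m =>
            induction x with
            | top => simp at h2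
            | coe n =>
              rw [← WithTop.coe_add, WithTop.coe_eq_coe] at h2
              have : n = 0 := by omega
              rw [this]; rfl
        rw [h4]
        simp
  have hfin := finsum_eq_sum_of_support_subset _ hsupp
  have hdiv := IsDivisorOf.mk (W₁ := W₁) (W₂ := W₂) F hF P Q (fun v => (P₀ v, Q₀ v)) hP₀ hQ₀ f hf
  rw [hfin] at hdiv
  have hmem : _ ∈ RatEq W₁ W₂ := AddSubgroup.subset_closure hdiv
  rw [Finset.sum_insert (by simp [n12, n13, n14]), Finset.sum_insert (by simp [n23, n24]),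
    Finset.sum_insert (by simp [n34]), Finset.sum_singleton, o1, o2, o3, o4, t1, t2, t3, t4] at hmem
  have hone : (1 : WithTop ℤ).untopD 0 = (1 : ℤ) := rfl
  have hneg : (((-1 : ℤ) : WithTop ℤ)).untopD 0 = (-1 : ℤ) := rfl
  rw [hone, hneg, one_smul, one_smul, neg_smul, neg_smul, one_smul, one_smul] at hmem
  convert hmem using 1
  abel

end Pool.Agent.ZC
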