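import Pool.Agent.Lib.MP_a1cc03_ag.V2b_Pair

/-! # Row V3: splitting a point of the product -/

noncomputable section

namespace Pool.Agent.ZC

open WeierstrassCurve

variable {K : Type} [Field K] {n : ℕ}

/-- the point with the coordinates of `x` in `S` and `O` outside `S` -/
def v3_pt {W : Fin n → WeierstrassCurve K} (x : ∀ i, (W i).toAffine.Point) (S : Finset (Fin n)) :
    ∀ i, (W i).toAffine.Point := fun i => if i ∈ S then x i else 0

theorem v3_step (W : Fin n → WeierstrassCurve K) [∀ i, (W i).IsElliptic]
    (x : ∀ i, (W i).toAffine.Point)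
    (h : ∀ k k', k ≠ k' → TorsSym (W k) (W k') (x k) (x k')) (S : Finset (Fin n)) :
    ∀ k, k ∉ S → FreeAbelianGroup.of (v3_pt x (insert k S)) - FreeAbelianGroup.of (v3_pt x S)
      - FreeAbelianGroup.of (Pi.single k (x k)) + FreeAbelianGroup.of 0 ∈ TorsPi W := by
  induction S using Finset.induction_on with
  | empty =>
    intro k _
    have e1 : v3_pt x (insert k ∅) = Pi.single k (x k) := by
      funext i
      unfold v3_pt
      by_cases hi : i = k
      · subst hi; simp
      · simp [hi]
    have e2 : v3_pt x ∅ = 0 := by
      funext i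
      simp [v3_pt]
    rw [e1, e2]
    have : FreeAbelianGroup.of (Pi.single k (x k)) - FreeAbelianGroup.of 0
      - FreeAbelianGroup.of (Pi.single k (x k)) + FreeAbelianGroup.of 0 =
        (0 : FreeAbelianGroup (∀ i, (W i).toAffine.Point)) := by abel
    rw [this]
    exact zero_mem _
  | insert k' S' hk' ih =>
    intro k hk
    rw [Finset.mem_insert, not_or] at hk
    obtain ⟨hkk, hkS⟩ := hk
    have hp := pair_rel W (v3_pt x S') (k := k') (k' := k) (Ne.symm hkk) (h k' k (Ne.symm hkk))
    have e1 : Function.update (Function.update (v3_pt x S') k' (x k')) k (x k) =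
        v3_pt x (insert k (insert k' S')) := by
      funext i
      unfold v3_pt
      by_cases hi : i = k
      · subst hi; simp
      · by_cases hi' : i = k'
        · subst hi'; simp [hi]
        · simp [hi, hi']
    have e2 : Function.update (Function.update (v3_pt x S') k' (x k')) k 0 =
        v3_pt x (insert k' S') := by
      funext i
      unfold v3_pt
      by_cases hi : i = k
      · subst hi; simp [hkk, hkS]
      · by_cases hi' : i = k'
        · subst hi'; simp [hi]
        · simp [hi, hi']
    have e3 : Function.update (Function.update (v3_pt x S') k' 0) k (x k) =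
        v3_pt x (insert k S') := by
      funext i
      unfold v3_pt
      by_cases hi : i = k
      · subst hi; simp
      · by_cases hi' : i = k'
        · subst hi'; simp [hi, hk']
        · simp [hi, hi']
    have e4 : Function.update (Function.update (v3_pt x S') k' 0) k 0 = v3_pt x S' := by
      funext i
      unfold v3_pt
      by_cases hi : i = k
      · subst hi; simp [hkS]
      · by_cases hi' : i = k'
        · subst hi'; simp [hi, hk']
        · simp [hi, hi']
    rw [e1, e2, e3, e4] at hp
    have := add_mem hp (ih k hkS)
    convert this using 1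
    abel

theorem v3_all (W : Fin n → WeierstrassCurve K) [∀ i, (W i).IsElliptic]
    (x : ∀ i, (W i).toAffine.Point)
    (h : ∀ k k', k ≠ k' → TorsSym (W k) (W k') (x k) (x k')) (S : Finset (Fin n)) :
    FreeAbelianGroup.of (v3_pt x S) - FreeAbelianGroup.of 0
      - ∑ k ∈ S, (FreeAbelianGroup.of (Pi.single k (x k)) - FreeAbelianGroup.of 0) ∈ TorsPi W := by
  induction S using Finset.induction_on with
  | empty =>
    have e2 : v3_pt x ∅ = 0 := by
      funext i
      simp [v3_pt]
    rw [e2, Finset.sum_empty, sub_self, sub_zero]
    exact zero_mem _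
  | insert k S hk ih =>
    have h1 := v3_step W x h S k hk
    rw [Finset.sum_insert hk]
    have := add_mem h1 ih
    convert this using 1
    abel

/-- **Row V3.** For a finite set `S` of coordinates let `x_S` be the point with the coordinates of `x` in `S`
and `O` outside `S`. Claim: `[x_S] - [O] - ∑_{k ∈ S} ([single k (x k)] - [O])` is torsion, for all `S`
(then take `S = univ`). First show for `k ∉ S`: `[x_{S ∪ k}] - [x_S] - [single k (x k)] + [O]` is torsion, by
induction on `S`: `S = ∅` is trivial; for `S = S' ∪ {k'}` apply `pair_rel` (V2b) with `c = x_{S'}` and the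
coordinates `k'`, `k` (`x_{S' ∪ k'}= update c k' (x k')`, …; `c k = c k' = O`, `Function.update_eq_self`), which gives
`[x_{S ∪ k}] - [x_S] - [x_{S' ∪ k}] + [x_{S'}]` torsion, and the induction hypothesis for `S'`. -/
theorem split_point (W : Fin n → WeierstrassCurve K) [∀ i, (W i).IsElliptic]
    (x : ∀ i, (W i).toAffine.Point)
    (h : ∀ k k', k ≠ k' → TorsSym (W k) (W k') (x k) (x k')) :
    FreeAbelianGroup.of x - FreeAbelianGroup.of 0
      - ∑ k, (FreeAbelianGroup.of (Pi.single k (x k)) - FreeAbelianGroup.of 0) ∈ TorsPi W := by
  have h1 := v3_all W x h Finset.univ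
  have e : v3_pt x Finset.univ = x := by
    funext i
    simp [v3_pt]
  rw [e] at h1
  exact h1

end Pool.Agent.ZC
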