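import Pool.Agent.Lib.MP_a1cc03_ag.V2c_Single
import Pool.Agent.Lib.MP_a1cc03_ag.V3_Split

/-! # Row V4: zero-cycles on the product of `n` curves -/

noncomputable section

namespace Pool.Agent.ZC

open WeierstrassCurve

variable {K : Type} [Field K] [IsAlgClosed K] [CharZero K] [DecidableEq K] {n : ℕ}

/-- the homomorphism `a ↦ [single k a] - [O]` -/
theorem v4_hom (W : Fin n → WeierstrassCurve K) [∀ i, (W i).IsElliptic] (k : Fin n) :
    ∃ η : (W k).toAffine.Point →+
      (FreeAbelianGroup (∀ i, (W i).toAffine.Point) ⧸ RatEqPi W),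
      ∀ a, η a = QuotientAddGroup.mk' (RatEqPi W)
        (FreeAbelianGroup.of (Pi.single k a) - FreeAbelianGroup.of 0) := by
  refine ⟨AddMonoidHom.mk' (fun a => QuotientAddGroup.mk' (RatEqPi W)
        (FreeAbelianGroup.of (Pi.single k a) - FreeAbelianGroup.of 0)) ?_, fun a => rfl⟩
  intro a a'
  have h := single_rel W 0 k a a'
  have e : ∀ b : (W k).toAffine.Point, Function.update
      (0 : ∀ i, (W i).toAffine.Point) k b = Pi.single k b := fun b => rfl
  have e0 : (Pi.single k (0 : (W k).toAffine.Point) : ∀ i, (W i).toAffine.Point) = 0 :=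
    Pi.single_zero k
  rw [e, e, e, e, e0] at h
  have h' := neg_mem h
  rw [← map_add, ← sub_eq_zero, ← map_sub, QuotientAddGroup.mk'_apply,
    QuotientAddGroup.eq_zero_iff]
  convert h' using 1
  abel

/-- **Row V4.** By `single_rel` (V2c, `c = 0`) the map `a ↦ [single k a] - [O]` is a homomorphism
`η k : (W k).Point →+ FreeAbelianGroup _ ⧸ RatEqPi W` (`AddMonoidHom.mk'`). Let `ψ` be the homomorphism
`z ↦ ∑ k, η k (albanese W z k) + degree W z • [O]`. For a point `x` with all `x k ∈ A k`, `[x] - ψ [x]` is the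
class of an element of `TorsPi W` (`split_point`, V3). The elements `z` such that the class of `z` minus
`ψ z` is torsion form a subgroup, so all the `z` of `hz` belong to it (`AddSubgroup.closure_induction`).
If degree and Albanese image are zero then `ψ z = 0`. -/
theorem product_main (W : Fin n → WeierstrassCurve K) [∀ i, (W i).IsElliptic]
    (A : ∀ k, AddSubgroup (W k).toAffine.Point)
    (hA : ∀ k k', k ≠ k' → ∀ a ∈ A k, ∀ b ∈ A k', TorsSym (W k) (W k') a b)
    (z : FreeAbelianGroup (∀ k, (W k).toAffine.Point))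
    (hz : z ∈ AddSubgroup.closure (FreeAbelianGroup.of '' {x | ∀ k, x k ∈ A k}))
    (hdeg : degree W z = 0) (halb : albanese W z = 0) : z ∈ TorsPi W := by
  choose η hη using v4_hom W
  set π := QuotientAddGroup.mk' (RatEqPi W) with hπ
  have hkey : ∀ z ∈ AddSubgroup.closure (FreeAbelianGroup.of '' {x | ∀ k, x k ∈ A k}),
      ∃ t ∈ TorsPi W, π z = (∑ k, η k (albanese W z k))
        + degree W z • π (FreeAbelianGroup.of 0) + π t := by
    intro z hz
    induction hz using AddSubgroup.closure_induction with
    | mem z hz =>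
      obtain ⟨x, hx, rfl⟩ := hz
      refine ⟨_, split_point W x (fun k k' hk => hA k k' hk _ (hx k) _ (hx k')), ?_⟩
      have h1 : albanese W (FreeAbelianGroup.of x) = x := FreeAbelianGroup.lift_apply_of _ _
      have h2 : degree W (FreeAbelianGroup.of x) = 1 := FreeAbelianGroup.lift_apply_of _ _
      rw [h1, h2, one_smul, map_sub, map_sub, map_sum]
      simp only [hη]
      abel
    | zero =>
      refine ⟨0, zero_mem _, ?_⟩
      simp
    | add z z' _ _ hz hz' =>
      obtain ⟨t, ht, e⟩ := hz
      obtain ⟨t', ht', e'⟩ := hz'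
      refine ⟨t + t', add_mem ht ht', ?_⟩
      rw [map_add, e, e', map_add (albanese W), map_add (degree W), map_add π, add_smul]
      simp only [Pi.add_apply, map_add, Finset.sum_add_distrib]
      abel
    | neg z _ hz =>
      obtain ⟨t, ht, e⟩ := hz
      refine ⟨-t, neg_mem ht, ?_⟩
      rw [map_neg, e, map_neg (albanese W), map_neg (degree W), map_neg π, neg_smul]
      simp only [Pi.neg_apply, map_neg, Finset.sum_neg_distrib]
      abel
  obtain ⟨t, ht, e⟩ := hkey z hz
  rw [hdeg, halb, zero_smul] at e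
  simp only [Pi.zero_apply, map_zero, Finset.sum_const_zero, zero_add] at e
  rw [← sub_eq_zero, ← map_sub, hπ, QuotientAddGroup.mk'_apply, QuotientAddGroup.eq_zero_iff] at e
  have h2 := add_mem (RatEqPi_le_TorsPi W e) ht
  rwa [sub_add_cancel] at h2

end Pool.Agent.ZC
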