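import Pool.Agent.Lib.MP_a1cc03_ag.U8_General
import Pool.Agent.Lib.MP_a1cc03_ag.V4_Product

/-! # The final theorem for families of curves with `p`-integral `j`-invariants -/

noncomputable section

namespace Pool.Agent.ZC

open WeierstrassCurve

/-- `j` of the Legendre curve. -/
theorem leg_j_rel {K : Type} [Field K] (l : K) [(leg l).IsElliptic] :
    (leg l).j * (16 * l ^ 2 * (l - 1) ^ 2) = (16 * (l * (l - 1) + 1)) ^ 3 := by
  have h1 : (leg l).c₄ = 16 * (l * (l - 1) + 1) := by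
    simp only [WeierstrassCurve.c₄, WeierstrassCurve.b₂, WeierstrassCurve.b₄, leg]
    ring
  rw [← leg_Δ, ← h1, WeierstrassCurve.j]
  have h2 : ((leg l).Δ'⁻¹ : Kˣ) * (leg l).c₄ ^ 3 * (leg l).Δ = (leg l).c₄ ^ 3 := by
    rw [← WeierstrassCurve.coe_Δ']
    rw [mul_comm (((leg l).Δ'⁻¹ : Kˣ) : K) ((leg l).c₄ ^ 3), mul_assoc, Units.inv_mul, mul_one]
  exact h2

/-- If `j` is integral at `w`, then `l` and `1 - l` are units. -/
theorem unit2_of_j {K : Type} [Field K] {w : AbsoluteValue K ℝ} (hw : IsNonarchimedean w)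
    (h2 : w 2 = 1) {l j : K} (hl0 : l ≠ 0) (hl1 : l ≠ 1)
    (hj : j * (16 * l ^ 2 * (l - 1) ^ 2) = (16 * (l * (l - 1) + 1)) ^ 3) (hwj : w j ≤ 1) :
    Unit2 w l := by
  have h16 : w 16 = 1 := by
    have : (16 : K) = 2 ^ 4 := by norm_num
    rw [this, map_pow, h2, one_pow]
  have hw1 : w (1 : K) = 1 := map_one w
  have hl : 0 < w l := w.pos hl0
  have hm : 0 < w (l - 1) := w.pos (sub_ne_zero.mpr hl1)
  have key : w j * (w l ^ 2 * w (l - 1) ^ 2) = w (l * (l - 1) + 1) ^ 3 := by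
    have h := congrArg w hj
    rw [map_mul, map_mul, map_mul, map_pow, map_pow, map_pow, map_mul, h16, one_mul, one_mul] at h
    exact h
  have hwj0 : 0 ≤ w j := w.nonneg j
  have hle : w (l * (l - 1) + 1) ^ 3 ≤ w l ^ 2 * w (l - 1) ^ 2 := by
    rw [← key]
    exact mul_le_of_le_one_left (by positivity) hwj
  have hmul : w (l * (l - 1)) = w l * w (l - 1) := map_mul w _ _
  -- the value of `l`
  have hl1' : w l = 1 := by
    rcases lt_trichotomy (w l) 1 with h | h | h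
    · exfalso
      have h3 : w (l - 1) = 1 := by
        have : w (1 - l) = w 1 := nonarch_sub_eq hw (by rw [hw1]; exact h)
        rw [← w.map_neg, neg_sub, this, hw1]
      have h4 : w (l * (l - 1) + 1) = 1 := by
        rw [add_comm, nonarch_add_eq hw, hw1]
        rw [hw1, hmul, h3, mul_one]
        exact h
      rw [h3, h4] at hle
      have h5 : w l ^ 2 < 1 := pow_lt_one₀ hl.le h two_ne_zero
      linarith
    · exact h
    · exfalso
      have h3 : w (l - 1) = w l := nonarch_sub_eq hw (by rw [hw1]; exact h)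
      have h4 : w (l * (l - 1) + 1) = w l * w l := by
        rw [nonarch_add_eq hw, hmul, h3]
        rw [hw1, hmul, h3]
        nlinarith
      rw [h3, h4] at hle
      have h5 : (w l * w l) ^ 3 = w l ^ 4 * w l ^ 2 := by ring
      have h6 : w l ^ 2 * w l ^ 2 = w l ^ 4 := by ring
      rw [h5, h6] at hle
      have h7 : 0 < w l ^ 4 := by positivity
      have h8 : 1 < w l ^ 2 := one_lt_pow₀ h two_ne_zero
      nlinarith
  have hm1 : w (l - 1) ≤ 1 := by
    have := nonarch_sub_le hw l 1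
    rwa [hl1', hw1, max_self] at this
  refine ⟨hl1', ?_⟩
  rw [← w.map_neg, neg_sub]
  refine le_antisymm hm1 ?_
  by_contra hlt
  push Not at hlt
  have h4 : w (l * (l - 1) + 1) = 1 := by
    rw [add_comm, nonarch_add_eq hw, hw1]
    rw [hw1, hmul, hl1', one_mul]
    exact hlt
  rw [hl1', h4] at hle
  have h5 : w (l - 1) ^ 2 < 1 := pow_lt_one₀ hm.le hlt two_ne_zero
  linarith

/-- `x` is integral at all places above `p`. -/
def PIntegral (p : ℕ) (x : AlgebraicClosure ℚ) : Prop :=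
  ∃ n : ℕ, ¬ p ∣ n ∧ IsIntegral ℤ ((n : AlgebraicClosure ℚ) * x)

theorem PIntegral.le_one {p : ℕ} (hp : p.Prime) {x : AlgebraicClosure ℚ} (hx : PIntegral p x)
    {w : AbsoluteValue (AlgebraicClosure ℚ) ℝ} (hw : PAdic p w) : w x ≤ 1 := by
  obtain ⟨n, hn, hint⟩ := hx
  have h := n1_integral_le w hw.nonarch hint
  rwa [map_mul, hw.natCast_eq_one hp hn, one_mul] at h

variable [DecidableEq (AlgebraicClosure ℚ)]

/-- The analogue of `legendre_family` for an arbitrary family with good reduction above `p`. -/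
theorem legendre_family_p {p : ℕ} (hp : p.Prime) (hp2 : p ≠ 2) {ι : Type}
    (l : ι → AlgebraicClosure ℚ) (h0 : ∀ i, l i ≠ 0) (h1 : ∀ i, l i ≠ 1)
    (hunit : ∀ w : AbsoluteValue (AlgebraicClosure ℚ) ℝ, PAdic p w → ∀ i, Unit2 w (l i))
    (i₀ : ι) (P : (leg (l i₀)).toAffine.Point) :
    ∃ A : ∀ i, AddSubgroup (leg (l i)).toAffine.Point,
      P ∈ A i₀ ∧
      (∀ i (a : (leg (l i)).toAffine.Point) (m : ℕ), 0 < m → m • a ∈ A i → a ∈ A i) ∧
      (∀ i, ∃ u : ℕ → A i, LinearIndependent ℤ u) ∧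
      ∀ i j, ∀ a ∈ A i, ∀ b ∈ A j, TorsSym (leg (l i)) (leg (l j)) a b := by
  have : Fact p.Prime := ⟨hp⟩
  obtain ⟨φ⟩ := exists_embedding p
  have hpad : PAdic p (wAt φ) := wAt_padic φ
  have hl : Unit2 (wAt φ) (l i₀) := hunit _ hpad i₀
  by_cases hP : ∀ n : ℕ, 0 < n → n • P ≠ 0
  · obtain ⟨n, hn, x, y, h, hnP, hx⟩ := exists_deep hp2 φ hl P hP (p : ℝ)
    obtain ⟨A, hmem, hsat, hu, htors⟩ :=
      exists_subgroups_family hp2 φ l h0 h1 hunit i₀ h hx
    refine ⟨A, hsat i₀ P n hn ?_, hsat, hu, htors⟩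
    rw [hnP]
    exact hmem
  · push Not at hP
    obtain ⟨n, hn, hnP⟩ := hP
    have hp0 : (0 : ℝ) < (p : ℝ) := by exact_mod_cast hp.pos
    have hp1 : (1 : ℝ) < (p : ℝ) := by exact_mod_cast hp.one_lt
    set t : AlgebraicClosure ℚ := ((p : AlgebraicClosure ℚ) ^ 2)⁻¹ with ht
    obtain ⟨y₀, hy₀⟩ := IsAlgClosed.exists_pow_nat_eq (t * (t - 1) * (t - l i₀)) (n := 2) two_pos
    have h : (leg (l i₀)).toAffine.Nonsingular t y₀ := (leg_nonsingular (h0 i₀) (h1 i₀)).mpr hy₀
    have hx : (p : ℝ) < ‖φ t‖ := by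
      have h1 : ‖φ t‖ = (p : ℝ) ^ 2 := by
        change wAt φ t = _
        rw [ht, map_inv₀, map_pow, hpad.map_p, inv_pow, inv_inv]
      rw [h1]
      nlinarith
    obtain ⟨A, _, hsat, hu, htors⟩ :=
      exists_subgroups_family hp2 φ l h0 h1 hunit i₀ h hx
    refine ⟨A, hsat i₀ P n hn ?_, hsat, hu, htors⟩
    rw [hnP]
    exact (A i₀).zero_mem

/-- The analogue of `general_family`. -/
theorem general_family_p {p : ℕ} (hp : p.Prime) (hp2 : p ≠ 2) {ι : Type}
    (E : ι → WeierstrassCurve (AlgebraicClosure ℚ)) [∀ i, (E i).IsElliptic]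
    (hj : ∀ i, PIntegral p (E i).j) (i₀ : ι) (P : (E i₀).toAffine.Point) :
    ∃ A : ∀ i, AddSubgroup (E i).toAffine.Point,
      P ∈ A i₀ ∧
      (∀ i (a : (E i).toAffine.Point) (m : ℕ), 0 < m → m • a ∈ A i → a ∈ A i) ∧
      (∀ i, ∃ u : ℕ → A i, LinearIndependent ℤ u) ∧
      ∀ i j, ∀ a ∈ A i, ∀ b ∈ A j, TorsSym (E i) (E j) a b := by
  choose C l hl0 hl1 hC using fun i => exists_legendre (E i)
  choose f hf using fun i => exists_change (C i) (E i) (leg (l i)) (hC i)
  let e : ∀ i, (leg (l i)).toAffine.Point ≃+ (E i).toAffine.Point := fun i =>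
    { f i with map_add' := change_add (C i) (E i) (leg (l i)) (hC i) (f i) (hf i) }
  have hunit : ∀ w : AbsoluteValue (AlgebraicClosure ℚ) ℝ, PAdic p w → ∀ i, Unit2 w (l i) := by
    intro w hw i
    have : (leg (l i)).IsElliptic := leg_isElliptic (hl0 i) (hl1 i)
    have h1 : (leg (l i)).j = (E i).j := by
      have h2 := (E i).variableChange_j (C i)
      have : ∀ (W : WeierstrassCurve (AlgebraicClosure ℚ)) [W.IsElliptic] (hW : W = leg (l i)),
          W.j = (leg (l i)).j := by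
        rintro W _ rfl
        rfl
      rw [← this (C i • E i) (hC i)]
      exact h2
    exact unit2_of_j hw.nonarch (hw.two_eq_one hp hp2) (hl0 i) (hl1 i)
      (by rw [← h1]; exact leg_j_rel (l i)) ((hj i).le_one hp hw)
  obtain ⟨A, hP, hdiv, hind, htors⟩ :=
    legendre_family_p hp hp2 l hl0 hl1 hunit i₀ ((f i₀).symm P)
  refine ⟨fun i => (A i).map (e i).toAddMonoidHom, ?_, ?_, fun i => Z_indep (e i) (A i) (hind i), ?_⟩
  · exact AddSubgroup.mem_map.mpr ⟨(f i₀).symm P, hP, (f i₀).apply_symm_apply P⟩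
  · intro i a m hm ha
    obtain ⟨b, hb, hba⟩ := AddSubgroup.mem_map.mp ha
    refine AddSubgroup.mem_map.mpr ⟨(e i).symm a, hdiv i _ m hm ?_, (e i).apply_symm_apply a⟩
    have h1 : m • (e i).symm a = b := by
      rw [← map_nsmul, ← hba]
      exact (e i).symm_apply_apply b
    rw [h1]
    exact hb
  · intro i j a ha b hb
    obtain ⟨a', ha', rfl⟩ := AddSubgroup.mem_map.mp ha
    obtain ⟨b', hb', rfl⟩ := AddSubgroup.mem_map.mp hb
    exact torsSym_change (C i) (C j) (hC i) (hC j) (f i) (hf i) (f j) (hf j) a' b'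
      (htors i j a' ha' b' hb')

/-- The final theorem for families with `p`-integral `j`-invariants. -/
theorem main_product_p {p : ℕ} (hp : p.Prime) (hp2 : p ≠ 2) {ι : Type}
    (E : ι → WeierstrassCurve (AlgebraicClosure ℚ)) [∀ i, (E i).IsElliptic]
    (hj : ∀ i, PIntegral p (E i).j) (i₀ : ι) (P : (E i₀).toAffine.Point) :
    ∃ A : ∀ i, AddSubgroup (E i).toAffine.Point,
      P ∈ A i₀ ∧ (∀ i, ∃ u : ℕ → A i, LinearIndependent ℤ u) ∧
      (∀ i (a : (E i).toAffine.Point) (m : ℕ), 0 < m → m • a ∈ A i → a ∈ A i) ∧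
      ∀ (n : ℕ) (j : Fin n → ι) (z : FreeAbelianGroup (∀ k, (E (j k)).toAffine.Point)),
        z ∈ AddSubgroup.closure (FreeAbelianGroup.of '' {x | ∀ k, x k ∈ A (j k)}) →
        degree (fun k => E (j k)) z = 0 → albanese (fun k => E (j k)) z = 0 →
        ∃ N : ℕ, 0 < N ∧ N • z ∈ RatEqPi (fun k => E (j k)) := by
  obtain ⟨A, hP, hsat, hrk, htors⟩ := general_family_p hp hp2 E hj i₀ P
  refine ⟨A, hP, hrk, hsat, fun n j z hz hdeg halb => ?_⟩
  have h := product_main (fun k => E (j k)) (fun k => A (j k))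
    (fun k k' _ a ha b hb => htors (j k) (j k') a ha b hb) z hz hdeg halb
  exact h

end Pool.Agent.ZC
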