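import Pool.Agent.Lib.MP_a1cc03_ag.A0_Defs

/-! # Row B0: exchanging the factors; formal properties of symbols -/

noncomputable section

namespace Pool.Agent.ZC

open WeierstrassCurve

variable {K : Type} [Field K]

/-- Exchange of the two factors on zero-cycles. -/
def swapHom (W₁ W₂ : WeierstrassCurve K) :
    FreeAbelianGroup (W₁.toAffine.Point × W₂.toAffine.Point) →+
      FreeAbelianGroup (W₂.toAffine.Point × W₁.toAffine.Point) :=
  FreeAbelianGroup.map Prod.swap

theorem b0_swap_of (W₁ W₂ : WeierstrassCurve K) (x : W₁.toAffine.Point × W₂.toAffine.Point) :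
    swapHom W₁ W₂ (FreeAbelianGroup.of x) = FreeAbelianGroup.of x.swap := by
  unfold swapHom
  rw [FreeAbelianGroup.map_of_apply]

theorem b0_swap_swap (W₁ W₂ : WeierstrassCurve K)
    (z : FreeAbelianGroup (W₁.toAffine.Point × W₂.toAffine.Point)) :
    swapHom W₂ W₁ (swapHom W₁ W₂ z) = z := by
  have h : (swapHom W₂ W₁).comp (swapHom W₁ W₂) = AddMonoidHom.id _ := by
    apply FreeAbelianGroup.lift_ext
    intro x
    rw [AddMonoidHom.comp_apply, b0_swap_of, b0_swap_of, Prod.swap_swap, AddMonoidHom.id_apply]
  exact DFunLike.congr_fun h z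

theorem b0_swap_injective (W₁ W₂ : WeierstrassCurve K) : Function.Injective (swapHom W₁ W₂) :=
  Function.LeftInverse.injective (b0_swap_swap W₁ W₂)

/-- **Row B0a.** Exchange preserves rational equivalence: closure induction; a generator for
`(F, P, Q, s, f)` is mapped to the generator for `(F, Q, P, Prod.swap ∘ s, f)`. Beware: the `finsum` of the
definition may have infinite support a priori; `swapHom` is injective (indeed bijective), so
`AddMonoidHom.map_finsum_of_injective` (or the `AddEquiv` version) applies. -/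
theorem swap_mem {W₁ W₂ : WeierstrassCurve K}
    {z : FreeAbelianGroup (W₁.toAffine.Point × W₂.toAffine.Point)} (hz : z ∈ RatEq W₁ W₂) :
    swapHom W₁ W₂ z ∈ RatEq W₂ W₁ := by
  unfold RatEq at hz ⊢
  induction hz using AddSubgroup.closure_induction with
  | mem x hx =>
    apply AddSubgroup.subset_closure
    obtain ⟨F, hF, P, Q, s, hP, hQ, f, hf⟩ := hx
    have e : swapHom W₁ W₂ (∑ᶠ v : Place K F, (v.ord f).untopD 0 • FreeAbelianGroup.of (s v)) =
        ∑ᶠ v : Place K F, (v.ord f).untopD 0 • FreeAbelianGroup.of (s v).swap := by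
      rw [AddMonoidHom.map_finsum_of_injective _ (b0_swap_injective W₁ W₂)]
      refine finsum_congr fun v => ?_
      rw [map_zsmul, b0_swap_of]
    rw [e]
    exact IsDivisorOf.mk F hF Q P (fun v => (s v).swap) hQ hP f hf
  | zero => rw [map_zero]; exact zero_mem _
  | add x y _ _ hx hy => rw [map_add]; exact add_mem hx hy
  | neg x _ hx => rw [map_neg]; exact neg_mem hx

/-- **Row B0b.** -/
theorem swap_sym (W₁ W₂ : WeierstrassCurve K) (P : W₁.toAffine.Point) (Q : W₂.toAffine.Point) :
    swapHom W₁ W₂ (sym W₁ W₂ P Q) = sym W₂ W₁ Q P := by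
  simp only [sym, map_add, map_sub, b0_swap_of, Prod.swap_prod_mk]
  abel

end Pool.Agent.ZC
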