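import Pool.Agent.Lib.MP_a1cc03_ag.L0_Leg
import Pool.Agent.Lib.MP_a1cc03_ag.A5_Func

/-! # Row B1a: the discriminant of the pencil of lines is not a square -/

open scoped Polynomial

noncomputable section

namespace Pool.Agent.ZC

open WeierstrassCurve

variable {K : Type} [Field K]

/-- The polynomial `D(n) = n⁴ Δ(c + 1/n)` of Row B1, `Δ(m) = (m² - A)² - 8 g m - 4 f'(e)`, where
`A = 3 e - (1 + l)` and `f'(e) = 3 e² - 2 (1 + l) e + l`. -/
def lineD (l e g c : K) : K[X] :=
  ((1 + Polynomial.C c * Polynomial.X) ^ 2 - Polynomial.C (3 * e - (1 + l)) * Polynomial.X ^ 2) ^ 2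
    - Polynomial.C (8 * g) * (1 + Polynomial.C c * Polynomial.X) * Polynomial.X ^ 3
    - Polynomial.C (4 * (3 * e ^ 2 - 2 * (1 + l) * e + l)) * Polynomial.X ^ 4

theorem b1a_quadratic (P : K[X]) (h : P.natDegree ≤ 2) :
    P = Polynomial.C (P.coeff 2) * Polynomial.X ^ 2 + Polynomial.C (P.coeff 1) * Polynomial.X
      + Polynomial.C (P.coeff 0) :=
  Polynomial.eq_quadratic_of_degree_le_two (Polynomial.degree_le_of_natDegree_le h)

/-- **Row B1a.** `lineD` is not a square in `K(n)` when `(e, g)` is a point of the curve. By A5b it would be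
`P²` with `P` a polynomial of degree `≤ 2`; changing the sign, `P(0) = 1`. With
`Q = (1 + c n)² - A n²` we have `(P - Q)(P + Q) = - 8 g (1 + c n) n³ - 4 f'(e) n⁴`, `P + Q` is prime to `n`
(constant coefficient `2`), so `n³` divides `P - Q`, which has degree `≤ 2`: `P = Q`. Hence
`8 g = 0` (coefficient of `n³`) and then `f'(e) = 0`, which contradicts the nonsingularity of `(e, g)`
(with `g = 0`: `e` is a double root of `x (x - 1) (x - l)`, but the three roots are distinct). -/
theorem lineD_not_isSquare [CharZero K] {l : K} (h0 : l ≠ 0) (h1 : l ≠ 1) {e g : K} (c : K)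
    (h : (leg l).toAffine.Nonsingular e g) :
    ¬ IsSquare (algebraMap K[X] (RatFunc K) (lineD l e g c)) := by
  intro hsq
  obtain ⟨P, hP⟩ := isSquare_of_algebraMap _ hsq
  have hcurve := leg_eq_of_nonsingular h
  have hdegD : (lineD l e g c).natDegree ≤ 4 := by
    unfold lineD
    compute_degree
  have hdegP : P.natDegree ≤ 2 := by
    rw [hP, ← pow_two, Polynomial.natDegree_pow] at hdegD
    omega
  have hPform := b1a_quadratic P hdegP
  set p₀ := P.coeff 0
  set p₁ := P.coeff 1
  set p₂ := P.coeff 2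
  set q := c ^ 2 - (3 * e - (1 + l)) with hq
  set f' := 3 * e ^ 2 - 2 * (1 + l) * e + l with hf'
  have hD : lineD l e g c = Polynomial.C 1 * Polynomial.X ^ 0
      + Polynomial.C (4 * c) * Polynomial.X ^ 1
      + Polynomial.C (4 * c ^ 2 + 2 * q) * Polynomial.X ^ 2
      + Polynomial.C (4 * c * q - 8 * g) * Polynomial.X ^ 3
      + Polynomial.C (q ^ 2 - 8 * g * c - 4 * f') * Polynomial.X ^ 4 := by
    unfold lineD
    rw [hq, hf']
    simp only [map_add, map_sub, map_mul, map_pow, map_one, map_ofNat]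
    ring
  have hPP : P * P = Polynomial.C (p₀ ^ 2) * Polynomial.X ^ 0
      + Polynomial.C (2 * p₀ * p₁) * Polynomial.X ^ 1
      + Polynomial.C (2 * p₀ * p₂ + p₁ ^ 2) * Polynomial.X ^ 2
      + Polynomial.C (2 * p₁ * p₂) * Polynomial.X ^ 3
      + Polynomial.C (p₂ ^ 2) * Polynomial.X ^ 4 := by
    rw [hPform]
    simp only [map_add, map_mul, map_pow, map_ofNat]
    ring
  rw [hD, hPP] at hP
  have c0 := congrArg (fun R => Polynomial.coeff R 0) hP
  have c1 := congrArg (fun R => Polynomial.coeff R 1) hP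
  have c2 := congrArg (fun R => Polynomial.coeff R 2) hP
  have c3 := congrArg (fun R => Polynomial.coeff R 3) hP
  have c4 := congrArg (fun R => Polynomial.coeff R 4) hP
  simp only [Polynomial.coeff_add, Polynomial.coeff_C_mul_X_pow] at c0 c1 c2 c3 c4
  norm_num at c0 c1 c2 c3 c4
  have h2 : (2 : K) ≠ 0 := two_ne_zero
  have e1 : p₁ = 2 * c * p₀ := by
    apply mul_left_cancel₀ h2
    linear_combination 2 * p₁ * c0 - p₀ * c1
  have e2 : p₂ = q * p₀ := by
    apply mul_left_cancel₀ h2
    rw [e1] at c2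
    linear_combination (2 * p₂ + 4 * c ^ 2 * p₀) * c0 - p₀ * c2
  have e3 : g = 0 := by
    have h8 : (8 : K) ≠ 0 := by norm_num
    apply mul_left_cancel₀ h8
    rw [e1, e2] at c3
    linear_combination 4 * c * q * c0 - c3
  have e4 : f' = 0 := by
    have h4 : (4 : K) ≠ 0 := by norm_num
    apply mul_left_cancel₀ h4
    rw [e2, e3] at c4
    linear_combination q ^ 2 * c0 - c4
  rw [e3] at hcurve
  have hroots : e * (e - 1) * (e - l) = 0 := by linear_combination -hcurve
  rcases mul_eq_zero.1 hroots with h3 | h3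
  · rcases mul_eq_zero.1 h3 with h4 | h4
    · rw [hf', h4] at e4
      exact h0 (by linear_combination e4)
    · have h5 : e = 1 := by linear_combination h4
      rw [hf', h5] at e4
      exact h1 (by linear_combination -e4)
  · have h5 : e = l := by linear_combination h3
    rw [hf', h5] at e4
    have h6 : l * (l - 1) = 0 := by linear_combination e4
    rcases mul_eq_zero.1 h6 with h7 | h7
    · exact h0 h7
    · exact h1 (by linear_combination h7)

end Pool.Agent.ZC
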