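import Pool.Agent.Lib.MP_a1cc03_ag.B1a_NonSquare
import Pool.Agent.Lib.MP_a1cc03_ag.A7_Fibre

/-! # Row B1b: the pencil of lines through a point of the cubic -/

open scoped Polynomial

noncomputable section

namespace Pool.Agent.ZC

open WeierstrassCurve

variable {K : Type} [Field K]

/-- the polynomial `lineD` at `s` -/
theorem b1b_aeval {F : Type} [Field F] [Algebra K F] (l e g c : K) (s : F) :
    Polynomial.aeval s (lineD l e g c) =
      ((1 + algebraMap K F c * s) ^ 2 - (3 * algebraMap K F e - (1 + algebraMap K F l)) * s ^ 2) ^ 2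
      - 8 * algebraMap K F g * (1 + algebraMap K F c * s) * s ^ 3
      - 4 * (3 * algebraMap K F e ^ 2 - 2 * (1 + algebraMap K F l) * algebraMap K F e
        + algebraMap K F l) * s ^ 4 := by
  unfold lineD
  simp only [map_sub, map_mul, map_add, map_pow, map_one, Polynomial.aeval_X, Polynomial.aeval_C,
    map_ofNat]

/-- the generic point is on the curve -/
theorem b1b_curve {F : Type} [Field F] (L E G C s Y : F) (h2 : (2 : F) ≠ 0) (hs : s ≠ 0)
    (hG : G ^ 2 = E * (E - 1) * (E - L))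
    (hY : Y ^ 2 = ((1 + C * s) ^ 2 - (3 * E - (1 + L)) * s ^ 2) ^ 2
      - 8 * G * (1 + C * s) * s ^ 3 - 4 * (3 * E ^ 2 - 2 * (1 + L) * E + L) * s ^ 4)
    (m x : F) (hm : m = C + 1 / s) (hx : x = (m ^ 2 + (1 + L) - E + Y / s ^ 2) / 2) :
    (m * (x - E) - G) ^ 2 = x * (x - 1) * (x - L) := by
  have hms : m * s = 1 + C * s := by
    rw [hm, add_mul, one_div, inv_mul_cancel₀ hs]; ring
  have hw : (Y / s ^ 2) ^ 2 = (m ^ 2 - (3 * E - (1 + L))) ^ 2 - 8 * G * m
      - 4 * (3 * E ^ 2 - 2 * (1 + L) * E + L) := by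
    rw [← hms] at hY
    rw [div_pow, hY]
    field_simp
  have h4 : (4 : F) ≠ 0 := by
    have : (4 : F) = 2 * 2 := by norm_num
    rw [this]; exact mul_ne_zero h2 h2
  have hxx : 2 * x = m ^ 2 + (1 + L) - E + Y / s ^ 2 := by
    rw [hx]; field_simp
  have hwx : Y / s ^ 2 = 2 * x - (m ^ 2 + (1 + L) - E) := by rw [hxx]; ring
  rw [hwx] at hw
  have h1 : x ^ 2 - (m ^ 2 + (1 + L) - E) * x +
      (E ^ 2 - (1 + L) * E + L + m ^ 2 * E + 2 * m * G) = 0 := by
    have h5 : 4 * (x ^ 2 - (m ^ 2 + (1 + L) - E) * x +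
      (E ^ 2 - (1 + L) * E + L + m ^ 2 * E + 2 * m * G)) = 0 := by
      linear_combination hw
    exact (mul_eq_zero.1 h5).resolve_left h4
  linear_combination (-(x - E)) * h1 + hG

/-- `x₁ x₂` in terms of `e`, `g` -/
theorem b1b_disc (l x₁ y₁ x₂ y₂ m₀ e g : K) (hx : x₁ ≠ x₂)
    (h₁ : y₁ ^ 2 = x₁ * (x₁ - 1) * (x₁ - l)) (h₂ : y₂ ^ 2 = x₂ * (x₂ - 1) * (x₂ - l))
    (hm : m₀ * (x₁ - x₂) = y₁ - y₂) (he : e = m₀ ^ 2 + (1 + l) - x₁ - x₂)
    (hg : g = -(m₀ * (e - x₁) + y₁)) :
    (x₁ - x₂) ^ 2 = (m₀ ^ 2 - (3 * e - (1 + l))) ^ 2 - 8 * g * m₀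
      - 4 * (3 * e ^ 2 - 2 * (1 + l) * e + l) := by
  have hd : x₁ - x₂ ≠ 0 := sub_ne_zero.2 hx
  have hy : y₂ = y₁ - m₀ * (x₁ - x₂) := by rw [hm]; ring
  have hK : x₁ ^ 2 + x₁ * x₂ + x₂ ^ 2 - (1 + l) * (x₁ + x₂) + l =
      m₀ * (2 * y₁ - m₀ * (x₁ - x₂)) := by
    apply mul_left_cancel₀ hd
    rw [hy] at h₂
    linear_combination h₂ - h₁
  subst hg
  subst he
  linear_combination 4 * hK

/-- **Row B1b.** Let `X₀ = (x₁, y₁)`, `Y₀ = (x₂, y₂)`, `x₁ ≠ x₂`, `m₀ = (y₁ - y₂)/(x₁ - x₂)` and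
`S = X₀ + Y₀ = (e, g)` (`leg_add_of_ne`). The line `y = m (x - e) - g` of slope `m` through `-S` meets the
curve in two further points; their `x`-coordinates are the roots of
`x² - (m² + (1 + l) - e) x + (e² - (1 + l) e + l + m² e + 2 m g)`, with discriminant
`Δ(m) = (m² - A)² - 8 g m - 4 f'(e)`. Put `m = c + 1/n` with `c = m₀ + 1`, let `F = K(n)(Y)`,
`Y² = D(n) = n⁴ Δ(c + 1/n)` (`lineD`, `exists_dcover`, B1a), and take the `F`-point `P = (x, y)` with
`x = (m² + (1 + l) - e + Y / n²) / 2`, `y = m (x - e) - g` of the curve, and the constant point `Q`.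
* At `n = -1` (so `m = m₀`), `Y = ± (x₁ - x₂)`: `P` specialises to `X₀` for `+` and to `Y₀` for `-`
  (`D(-1) = Δ(m₀) = (x₁ - x₂)²` as `x₁, x₂` are the two roots).
* At `n = 0`, `Y = 1`: `2 n² x = (1 + c n)² + ((1 + l) - e) n² + Y` has value `2`, so `x` has negative
  order, `P` specialises to `O`.
* At `n = 0`, `Y = -1`: with `M = (1 + c n)² - A n²`, `2 n² (x - e) = M + Y` and
  `(M + Y)(M - Y) = 8 g (1 + c n) n³ + 4 f'(e) n⁴`, so `x - e = n (4 g (1 + c n) + 2 f'(e) n) / (M - Y)`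
  where `M - Y` has value `2`: hence `x ≡ e`, and `m (x - e) = (1 + c n)(4 g (1 + c n) + 2 f'(e) n)/(M - Y)`
  has value `2 g`, so `y ≡ 2 g - g = g`: `P` specialises to `S`.
Apply `fibre_rel` with `a = -1`, `d = x₁ - x₂`, `b = 0`, `e = 1`. -/
theorem line_rel [IsAlgClosed K] [CharZero K] [DecidableEq K] {l : K} (h0 : l ≠ 0) (h1 : l ≠ 1)
    (W₂ : WeierstrassCurve K) [W₂.IsElliptic] {x₁ y₁ x₂ y₂ : K}
    (h₁ : (leg l).toAffine.Nonsingular x₁ y₁) (h₂ : (leg l).toAffine.Nonsingular x₂ y₂)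
    (hx : x₁ ≠ x₂) (Q : W₂.toAffine.Point) :
    FreeAbelianGroup.of ((Affine.Point.some x₁ y₁ h₁, Q) : (leg l).toAffine.Point × W₂.toAffine.Point)
      + FreeAbelianGroup.of (Affine.Point.some x₂ y₂ h₂, Q)
      - FreeAbelianGroup.of (Affine.Point.some x₁ y₁ h₁ + Affine.Point.some x₂ y₂ h₂, Q)
      - FreeAbelianGroup.of (0, Q) ∈ RatEq (leg l) W₂ := by
  classical
  have e₁ := leg_eq_of_nonsingular h₁
  have e₂ := leg_eq_of_nonsingular h₂
  have hell := leg_isElliptic h0 h1
  obtain ⟨m₀, e, g, h₃, hm₀, he, hg, hsum⟩ : ∃ (m₀ e g : K)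
      (h₃ : (leg l).toAffine.Nonsingular e g), m₀ = (y₁ - y₂) / (x₁ - x₂) ∧
      e = m₀ ^ 2 + (1 + l) - x₁ - x₂ ∧ g = -(m₀ * (e - x₁) + y₁) ∧
      Affine.Point.some x₁ y₁ h₁ + Affine.Point.some x₂ y₂ h₂ = Affine.Point.some e g h₃ := by
    obtain ⟨h₃, hsum⟩ := leg_add_of_ne h₁ h₂ hx
    exact ⟨_, _, _, h₃, rfl, rfl, rfl, hsum⟩
  have hd : x₁ - x₂ ≠ 0 := sub_ne_zero.2 hx
  have h2K : (2 : K) ≠ 0 := two_ne_zero
  have hm : m₀ * (x₁ - x₂) = y₁ - y₂ := by rw [hm₀]; field_simp
  have e₃ := leg_eq_of_nonsingular h₃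
  have hdisc := b1b_disc l x₁ y₁ x₂ y₂ m₀ e g hx e₁ e₂ hm he hg
  set c : K := m₀ + 1 with hc
  obtain ⟨F, _, _, s, Y, hF⟩ := exists_dcover (lineD l e g c) (lineD_not_isSquare h0 h1 c h₃)
  have hinj : Function.Injective (algebraMap K F) := (algebraMap K F).injective
  have h2F : (2 : F) ≠ 0 := by
    intro h
    apply h2K
    apply hinj
    rw [map_ofNat, map_zero]
    exact h
  have hs0 : s ≠ 0 := by
    intro h
    have h3 := hF.indep Polynomial.X 0 (by simp [h])
    exact Polynomial.X_ne_zero h3.1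
  have hrel := hF.rel
  rw [b1b_aeval] at hrel
  obtain ⟨m, hmF⟩ : ∃ m : F, m = algebraMap K F c + 1 / s := ⟨_, rfl⟩
  obtain ⟨x, hxF⟩ : ∃ x : F, x = (m ^ 2 + (1 + algebraMap K F l) - algebraMap K F e +
    Y / s ^ 2) / 2 := ⟨_, rfl⟩
  have hG : algebraMap K F g ^ 2 = algebraMap K F e * (algebraMap K F e - 1) *
      (algebraMap K F e - algebraMap K F l) := by
    have := congrArg (algebraMap K F) e₃
    simpa only [map_pow, map_mul, map_sub, map_one] using this
  have hcurve := b1b_curve (algebraMap K F l) (algebraMap K F e) (algebraMap K F g)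
    (algebraMap K F c) s Y h2F hs0 hG hrel m x hmF hxF
  obtain ⟨y, hyF⟩ : ∃ y : F, y = m * (x - algebraMap K F e) - algebraMap K F g := ⟨_, rfl⟩
  rw [← hyF] at hcurve
  have hns : ((leg l).map (algebraMap K F)).toAffine.Nonsingular x y :=
    (leg_map_nonsingular h0 h1).2 hcurve
  obtain ⟨PQ, hPQ⟩ := exists_constant_point (F := F) W₂ Q
  -- values
  have ev2 : ∀ v : Place K F, Ev v (2 : F) (2 : K) := by
    intro v
    have := Ev.ofNat v 2
    exact_mod_cast this
  -- specialisation at `s = -1`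
  have hspec1 : ∀ d : K, ∀ v : Place K F, Ev v s (-1) → Ev v Y d →
      Ev v x ((x₁ + x₂ + d) / 2) ∧ Ev v y (m₀ * ((x₁ + x₂ + d) / 2 - e) - g) := by
    intro d v hvs hvY
    have hvm : Ev v m m₀ := by
      have := (Ev.const v c).add ((Ev.one v).div hvs (by norm_num))
      rw [← hmF] at this
      convert this using 1
      rw [hc]; ring
    have hvx : Ev v x ((x₁ + x₂ + d) / 2) := by
      have := ((((hvm.pow 2).add ((Ev.one v).add (Ev.const v l))).sub (Ev.const v e)).add
        (hvY.div (hvs.pow 2) (by norm_num))).div (ev2 v) h2K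
      rw [← hxF] at this
      convert this using 1
      rw [he]
      norm_num
      ring
    refine ⟨hvx, ?_⟩
    have := (hvm.mul (hvx.sub (Ev.const v e))).sub (Ev.const v g)
    rw [← hyF] at this
    exact this
  have hp₁ : SpecAt s Y (-1) (x₁ - x₂) (leg l) (Affine.Point.some x y hns)
      (Affine.Point.some x₁ y₁ h₁) := by
    intro v hvs hvY
    obtain ⟨a1, a2⟩ := hspec1 _ v hvs hvY
    refine Specializes.some_some x y hns x₁ y₁ h₁ ?_ ?_
    · have : (x₁ + x₂ + (x₁ - x₂)) / 2 = x₁ := by field_simp; ring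
      rw [this] at a1
      exact a1
    · have : m₀ * ((x₁ + x₂ + (x₁ - x₂)) / 2 - e) - g = y₁ := by
        rw [hg]; field_simp; ring
      rw [this] at a2
      exact a2
  have hp'₁ : SpecAt s Y (-1) (-(x₁ - x₂)) (leg l) (Affine.Point.some x y hns)
      (Affine.Point.some x₂ y₂ h₂) := by
    intro v hvs hvY
    obtain ⟨a1, a2⟩ := hspec1 _ v hvs hvY
    refine Specializes.some_some x y hns x₂ y₂ h₂ ?_ ?_
    · have : (x₁ + x₂ + -(x₁ - x₂)) / 2 = x₂ := by field_simp; ring
      rw [this] at a1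
      exact a1
    · have : m₀ * ((x₁ + x₂ + -(x₁ - x₂)) / 2 - e) - g = y₂ := by
        have h5 : (x₁ + x₂ + -(x₁ - x₂)) / 2 = x₂ := by field_simp; ring
        rw [h5, hg]
        linear_combination -hm
      rw [this] at a2
      exact a2
  -- the identities near `s = 0`
  obtain ⟨M, hM⟩ : ∃ M : F, M = (1 + algebraMap K F c * s) ^ 2 -
    (3 * algebraMap K F e - (1 + algebraMap K F l)) * s ^ 2 := ⟨_, rfl⟩
  have hms : m * s = 1 + algebraMap K F c * s := by
    rw [hmF, add_mul, one_div, inv_mul_cancel₀ hs0]; ring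
  have hxM : 2 * s ^ 2 * (x - algebraMap K F e) = M + Y := by
    rw [hM, ← hms, hxF]
    field_simp
    ring
  have hMM : (M + Y) * (M - Y) = 8 * algebraMap K F g * (1 + algebraMap K F c * s) * s ^ 3 +
      4 * (3 * algebraMap K F e ^ 2 - 2 * (1 + algebraMap K F l) * algebraMap K F e
        + algebraMap K F l) * s ^ 4 := by
    rw [← hM] at hrel
    linear_combination -hrel
  have hvM : ∀ v : Place K F, Ev v s 0 → Ev v M 1 := by
    intro v hvs
    have h3 : Ev v (3 : F) (3 : K) := by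
      have := Ev.ofNat v 3
      exact_mod_cast this
    have := (((Ev.one v).add ((Ev.const v c).mul hvs)).pow 2).sub
      (((h3.mul (Ev.const v e)).sub ((Ev.one v).add (Ev.const v l))).mul (hvs.pow 2))
    rw [← hM] at this
    convert this using 1
    ring
  have hq₁ : SpecAt s Y 0 1 (leg l) (Affine.Point.some x y hns) 0 := by
    intro v hvs hvY
    refine Specializes.some_zero x y hns ?_
    by_contra hcon
    rw [not_lt] at hcon
    have hMY : Ev v (M + Y) (1 + 1) := (hvM v hvs).add hvY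
    have ho := hMY.ord_eq_zero (by norm_num)
    have hs' := hvs.ord_pos
    have hxe : 0 ≤ v.ord (x - algebraMap K F e) := by
      have h5 := v.ord.map_sub x (algebraMap K F e)
      exact (le_min hcon (ord_algebraMap_nonneg v e)).trans h5
    have h6 : v.ord (2 * s ^ 2 * (x - algebraMap K F e)) = v.ord (2 : F) + (v.ord s + v.ord s) +
        v.ord (x - algebraMap K F e) := by
      rw [v.ord.map_mul, v.ord.map_mul, sq, v.ord.map_mul]
    have h7 : v.ord (2 : F) = 0 := (ev2 v).ord_eq_zero h2K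
    rw [hxM, ho, h7, zero_add] at h6
    have h8 : 0 < v.ord s + v.ord s + v.ord (x - algebraMap K F e) :=
      lt_of_lt_of_le (lt_of_lt_of_le hs' (le_add_of_nonneg_right hs'.le))
        (le_add_of_nonneg_right hxe)
    exact absurd h6 h8.ne
  have hq'₁ : SpecAt s Y 0 (-1) (leg l) (Affine.Point.some x y hns)
      (Affine.Point.some e g h₃) := by
    intro v hvs hvY
    have hMY : Ev v (M - Y) (1 - -1) := (hvM v hvs).sub hvY
    have hMY0 : M - Y ≠ 0 := hMY.ne_zero (by norm_num)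
    have hval : Ev v (4 * algebraMap K F g * (1 + algebraMap K F c * s) +
      2 * (3 * algebraMap K F e ^ 2 - 2 * (1 + algebraMap K F l) * algebraMap K F e
        + algebraMap K F l) * s) (4 * g) := by
      have h3 : Ev v (3 : F) (3 : K) := by
        have := Ev.ofNat v 3
        exact_mod_cast this
      have h4 : Ev v (4 : F) (4 : K) := by
        have := Ev.ofNat v 4
        exact_mod_cast this
      have := ((h4.mul (Ev.const v g)).mul ((Ev.one v).add ((Ev.const v c).mul hvs))).add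
        (((ev2 v).mul (((h3.mul ((Ev.const v e).pow 2)).sub (((ev2 v).mul ((Ev.one v).add
          (Ev.const v l))).mul (Ev.const v e))).add (Ev.const v l))).mul hvs)
      convert this using 1
      ring
    have hxe : x - algebraMap K F e = s * ((4 * algebraMap K F g * (1 + algebraMap K F c * s) +
      2 * (3 * algebraMap K F e ^ 2 - 2 * (1 + algebraMap K F l) * algebraMap K F e
        + algebraMap K F l) * s) / (M - Y)) := by
      rw [mul_div_assoc', eq_div_iff hMY0]
      have h5 : (2 * s ^ 2) ≠ 0 := mul_ne_zero h2F (pow_ne_zero _ hs0)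
      apply mul_left_cancel₀ h5
      rw [← mul_assoc, hxM, hMM]
      ring
    have hvx : Ev v (x - algebraMap K F e) 0 := by
      rw [hxe]
      have := hvs.mul (hval.div hMY (by norm_num))
      convert this using 1
      ring
    have hvx' : Ev v x e := by
      have := hvx.add (Ev.const v e)
      rw [sub_add_cancel, zero_add] at this
      exact this
    have hvy : Ev v y g := by
      have h5 : y = (1 + algebraMap K F c * s) *
        ((4 * algebraMap K F g * (1 + algebraMap K F c * s) +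
        2 * (3 * algebraMap K F e ^ 2 - 2 * (1 + algebraMap K F l) * algebraMap K F e
        + algebraMap K F l) * s) / (M - Y)) - algebraMap K F g := by
        rw [hyF, hxe, ← mul_assoc, hms]
      rw [h5]
      have := (((Ev.one v).add ((Ev.const v c).mul hvs)).mul (hval.div hMY (by norm_num))).sub
        (Ev.const v g)
      convert this using 1
      field_simp
      ring
    exact Specializes.some_some x y hns e g h₃ hvx' hvy
  have hQ : ∀ a d : K, SpecAt s Y a d W₂ PQ Q := fun a d v _ _ => hPQ v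
  have hda : (x₁ - x₂) ^ 2 = (lineD l e g c).eval (-1) := by
    rw [hdisc]
    unfold lineD
    simp only [Polynomial.eval_sub, Polynomial.eval_mul, Polynomial.eval_add, Polynomial.eval_pow,
      Polynomial.eval_one, Polynomial.eval_X, Polynomial.eval_C]
    rw [hc]
    ring
  have heb : (1 : K) ^ 2 = (lineD l e g c).eval 0 := by
    unfold lineD
    simp only [Polynomial.eval_sub, Polynomial.eval_mul, Polynomial.eval_add, Polynomial.eval_pow,
      Polynomial.eval_one, Polynomial.eval_X, Polynomial.eval_C]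
    ring
  have hfin := fibre_rel hF (leg l) W₂ (Affine.Point.some x y hns) PQ (a := -1) (b := 0)
    (d := x₁ - x₂) (e := 1) (by norm_num) hd one_ne_zero hda heb
    (p := (Affine.Point.some x₁ y₁ h₁, Q)) (p' := (Affine.Point.some x₂ y₂ h₂, Q))
    (q := (0, Q)) (q' := (Affine.Point.some e g h₃, Q))
    hp₁ (hQ _ _) hp'₁ (hQ _ _) hq₁ (hQ _ _) hq'₁ (hQ _ _)
  rw [hsum]
  convert hfin using 1
  abel

end Pool.Agent.ZC
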