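import Pool.Agent.Lib.MP_a1cc03_ag.L0_Leg

/-! # Row B2: generic additivity implies additivity -/

noncomputable section

namespace Pool.Agent.ZC

open WeierstrassCurve

variable {K : Type} [Field K]

/-- **Row B2a.** For every finite set `T` of points there is an affine point outside `T`
(`K` is algebraically closed, hence infinite: choose `x` outside the finitely many `x`-coordinates, `y`
a square root of `x (x - 1) (x - l)`). -/
theorem exists_generic [IsAlgClosed K] [CharZero K] {l : K} (h0 : l ≠ 0)
    (h1 : l ≠ 1) (T : Set (leg l).toAffine.Point) (hT : T.Finite) :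
    ∃ (x y : K) (h : (leg l).toAffine.Nonsingular x y), Affine.Point.some x y h ∉ T := by
  classical
  let f : (leg l).toAffine.Point → K := fun P => match P with
    | .zero => 0
    | .some x _ _ => x
  have hfin : (f '' T).Finite := hT.image f
  haveI : Infinite K := inferInstance
  obtain ⟨x, hx⟩ := hfin.exists_notMem
  obtain ⟨y, hy⟩ := IsAlgClosed.exists_pow_nat_eq (x * (x - 1) * (x - l)) (n := 2) (by norm_num)
  refine ⟨x, y, (leg_nonsingular h0 h1).mpr hy, fun hmem => hx ?_⟩
  exact ⟨_, hmem, rfl⟩

/-- The points `P` with `P + P = 0` form a finite set. -/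
theorem finite_two_torsion [CharZero K] [DecidableEq K] {l : K} :
    {P : (leg l).toAffine.Point | P + P = 0}.Finite := by
  classical
  let f : K → (leg l).toAffine.Point := fun x =>
    if h : (leg l).toAffine.Nonsingular x 0 then Affine.Point.some x 0 h else 0
  have hfin : (insert 0 (f '' ({0, 1, l} : Set K))).Finite := by
    apply Set.Finite.insert
    apply Set.Finite.image
    exact Set.toFinite _
  refine hfin.subset ?_
  intro P hP
  have hP' : P = -P := eq_neg_of_add_eq_zero_left hP
  rcases P with _ | ⟨x, y, h⟩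
  · exact Set.mem_insert _ _
  · right
    rw [leg_neg_some h (leg_neg_nonsingular h)] at hP'
    have hy : y = -y := by
      have := Affine.Point.some.inj hP'
      exact this.2
    have hy0 : y = 0 := by
      have h2 : (2 : K) * y = 0 := by linear_combination hy
      exact (mul_eq_zero.mp h2).resolve_left two_ne_zero
    subst hy0
    have heq := leg_eq_of_nonsingular h
    refine ⟨x, ?_, ?_⟩
    · have h3 : x * (x - 1) * (x - l) = 0 := by linear_combination -heq
      rcases mul_eq_zero.mp h3 with h4 | h4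
      · rcases mul_eq_zero.mp h4 with h5 | h5
        · left; exact h5
        · right; left; exact sub_eq_zero.mp h5
      · right; right; exact sub_eq_zero.mp h4
    · simp only [f]
      rw [dif_pos h]

/-- **Row B2b.** Let `g P = h P - h 0`. The hypothesis says `g P + g Q = g (P + Q)` whenever `P, Q ≠ 0`
and `P ≠ ± Q` (two affine points have the same `x`-coordinate iff `P = ± Q`,
`Affine.Point.X_eq_iff`-like lemmas). Then:
1. `g (-Y) = - g Y` for every `Y ≠ 0`: choose `X` generic (`X ≠ 0, ± Y, - 2 Y`, and `X + Y ≠ ± Y`, i.e.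
   `X ≠ -2Y`): `g X + g Y = g (X + Y)` and `g (X + Y) + g (-Y) = g X`.
2. `g (X + X) = 2 g X`: choose `Y` generic (`2 Y ≠ 0`, `Y ≠ ± X`, `Y ≠ 0`, ...): if `X + X ≠ 0` then
   `g (X + Y) + g (X - Y) = g (2 X)`, `g (X + Y) = g X + g Y`, `g (X - Y) = g X + g (-Y)`; if `X + X = 0` then
   `X = -X` and step 1 gives `2 g X = 0 = g 0`.
3. The remaining cases `P = 0`, `Q = 0`, `Q = -P` are trivial or step 1. -/
theorem additive_of_generic [IsAlgClosed K] [CharZero K] [DecidableEq K] {l : K} (h0 : l ≠ 0)
    (h1 : l ≠ 1) {A : Type} [AddCommGroup A] (h : (leg l).toAffine.Point → A)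
    (hh : ∀ (x₁ y₁ : K) (h₁ : (leg l).toAffine.Nonsingular x₁ y₁) (x₂ y₂ : K)
      (h₂ : (leg l).toAffine.Nonsingular x₂ y₂), x₁ ≠ x₂ →
      h (.some x₁ y₁ h₁) + h (.some x₂ y₂ h₂) = h (.some x₁ y₁ h₁ + .some x₂ y₂ h₂) + h 0)
    (P Q : (leg l).toAffine.Point) : h P + h Q = h (P + Q) + h 0 := by
  have hgen : ∀ P Q : (leg l).toAffine.Point, P ≠ 0 → Q ≠ 0 → P ≠ Q → P ≠ -Q →
      h P + h Q = h (P + Q) + h 0 := by
    intro P Q hP hQ hPQ hPQ'
    rcases P with _ | ⟨x₁, y₁, h₁⟩
    · exact absurd rfl hP
    rcases Q with _ | ⟨x₂, y₂, h₂⟩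
    · exact absurd rfl hQ
    apply hh
    intro hx
    subst hx
    have e₁ := leg_eq_of_nonsingular h₁
    have e₂ := leg_eq_of_nonsingular h₂
    have e : (y₁ - y₂) * (y₁ + y₂) = 0 := by linear_combination e₁ - e₂
    rcases mul_eq_zero.mp e with e | e
    · have : y₁ = y₂ := sub_eq_zero.mp e
      subst this
      exact hPQ rfl
    · have : y₁ = -y₂ := eq_neg_of_add_eq_zero_left e
      subst this
      apply hPQ'
      rw [leg_neg_some h₂ (leg_neg_nonsingular h₂)]
  have hneg : ∀ Y : (leg l).toAffine.Point, Y ≠ 0 → h (-Y) + h Y = h 0 + h 0 := by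
    intro Y hY
    obtain ⟨x, y, hxy, hT⟩ := exists_generic h0 h1 ({0, Y, -Y, -(Y + Y)} : Set _) (Set.toFinite _)
    set X : (leg l).toAffine.Point := Affine.Point.some x y hxy with hX
    simp only [Set.mem_insert_iff, Set.mem_singleton_iff, not_or] at hT
    obtain ⟨t0, t1, t2, t3⟩ := hT
    have a1 := hgen X Y t0 hY t1 t2
    have a2 := hgen (X + Y) (-Y) (fun hc => t2 (eq_neg_of_add_eq_zero_left hc))
      (neg_ne_zero.mpr hY)
      (fun hc => t3 (by
        have : X = -Y - Y := eq_sub_of_add_eq hc
        rw [this]; abel))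
      (fun hc => t0 (by
        rw [neg_neg] at hc
        exact left_eq_add.mp (by rw [add_comm]; exact hc.symm)))
    rw [add_neg_cancel_right] at a2
    have : h (-Y) + h Y = (h (X + Y) + h (-Y)) + (h X + h Y) - h (X + Y) - h X := by abel
    rw [this, a1, a2]
    abel
  have hdbl : ∀ X : (leg l).toAffine.Point, h X + h X = h (X + X) + h 0 := by
    intro X
    by_cases hX0 : X = 0
    · subst hX0
      rw [add_zero]
    by_cases hXX : X + X = 0
    · rw [hXX]
      have hX' : -X = X := neg_eq_of_add_eq_zero_left hXX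
      have := hneg X hX0
      rwa [hX'] at this
    · obtain ⟨x, y, hxy, hT⟩ := exists_generic h0 h1
        (({0, X, -X} : Set (leg l).toAffine.Point) ∪ {P | P + P = 0})
        ((Set.toFinite _).union finite_two_torsion)
      set Y : (leg l).toAffine.Point := Affine.Point.some x y hxy with hY
      simp only [Set.mem_union, Set.mem_insert_iff, Set.mem_singleton_iff, not_or,
        Set.mem_setOf_eq] at hT
      obtain ⟨⟨t0, t1, t2⟩, t3⟩ := hT
      have a1 := hgen X Y hX0 t0 (fun hc => t1 hc.symm) (fun hc => t2 (by rw [hc, neg_neg]))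
      have a2 := hgen X (-Y) hX0 (neg_ne_zero.mpr t0) (fun hc => t2 (by rw [hc, neg_neg]))
        (fun hc => t1 (by rw [neg_neg] at hc; exact hc.symm))
      have a3 := hgen (X + Y) (X + -Y)
        (fun hc => t2 (by rw [eq_neg_of_add_eq_zero_left hc, neg_neg]))
        (fun hc => t1 (by rw [eq_neg_of_add_eq_zero_left hc, neg_neg]))
        (fun hc => t3 (by
          have := add_left_cancel hc
          nth_rewrite 1 [this]
          rw [neg_add_cancel]))
        (fun hc => hXX (by
          have h4 : X + Y = -X + Y := by rw [hc]; abel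
          have h5 : X = -X := add_right_cancel h4
          nth_rewrite 1 [h5]
          rw [neg_add_cancel]))
      have a4 := hneg Y t0
      have a5 : X + Y + (X + -Y) = X + X := by abel
      rw [a5] at a3
      have e1 : h X + h X = (h X + h Y) + (h X + h (-Y)) - (h (-Y) + h Y) := by abel
      rw [e1, a1, a2, a4]
      have e2 : h (X + Y) + h 0 + (h (X + -Y) + h 0) - (h 0 + h 0)
          = h (X + Y) + h (X + -Y) := by abel
      rw [e2, a3]
  by_cases hP : P = 0
  · subst hP
    rw [zero_add, add_comm]
  by_cases hQ : Q = 0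
  · subst hQ
    rw [add_zero]
  by_cases hPQ : P = Q
  · subst hPQ
    exact hdbl P
  by_cases hPQ' : P = -Q
  · subst hPQ'
    rw [neg_add_cancel]
    exact hneg Q hQ
  exact hgen P Q hP hQ hPQ hPQ'

end Pool.Agent.ZC
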