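import Pool.Agent.Lib.MP_a1cc03_ag.B0_Swap
import Pool.Agent.Lib.MP_a1cc03_ag.B1b_Line
import Pool.Agent.Lib.MP_a1cc03_ag.B2_Additive

/-! # Row B3: symbols are bilinear modulo rational equivalence -/

noncomputable section

namespace Pool.Agent.ZC

open WeierstrassCurve

variable {K : Type} [Field K] [IsAlgClosed K] [CharZero K] [DecidableEq K] {l m : K}

theorem b3_add (h0 : l ≠ 0) (h1 : l ≠ 1) (W₂ : WeierstrassCurve K) [W₂.IsElliptic]
    (P P' : (leg l).toAffine.Point) (Q : W₂.toAffine.Point) :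
    FreeAbelianGroup.of ((P, Q) : (leg l).toAffine.Point × W₂.toAffine.Point)
      + FreeAbelianGroup.of (P', Q) - FreeAbelianGroup.of (P + P', Q)
      - FreeAbelianGroup.of (0, Q) ∈ RatEq (leg l) W₂ := by
  have key := additive_of_generic h0 h1
    (fun P : (leg l).toAffine.Point => (QuotientAddGroup.mk' (RatEq (leg l) W₂))
      (FreeAbelianGroup.of ((P, Q) : (leg l).toAffine.Point × W₂.toAffine.Point))) (by
      intro x₁ y₁ h₁ x₂ y₂ h₂ hx
      have h := line_rel h0 h1 W₂ h₁ h₂ hx Q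
      rw [← QuotientAddGroup.eq_zero_iff] at h
      have h' : (QuotientAddGroup.mk' (RatEq (leg l) W₂))
          (FreeAbelianGroup.of ((Affine.Point.some x₁ y₁ h₁, Q) :
            (leg l).toAffine.Point × W₂.toAffine.Point)
          + FreeAbelianGroup.of (Affine.Point.some x₂ y₂ h₂, Q)
          - FreeAbelianGroup.of (Affine.Point.some x₁ y₁ h₁ + Affine.Point.some x₂ y₂ h₂, Q)
          - FreeAbelianGroup.of (0, Q)) = 0 := h
      rw [map_sub, map_sub, map_add] at h'
      rw [← sub_eq_zero, ← h']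
      abel) P P'
  rw [← QuotientAddGroup.eq_zero_iff]
  change (QuotientAddGroup.mk' (RatEq (leg l) W₂)) _ = 0
  rw [map_sub, map_sub, map_add, key]
  abel

/-- **Row B3a.** Apply `additive_of_generic` (B2) to the functions
`P ↦ class of (P, Q)` and `P ↦ class of (P, O)` with values in
`FreeAbelianGroup _ ⧸ RatEq (leg l) W₂`, using `line_rel` (B1); subtract. -/
theorem sym_add_left (h0 : l ≠ 0) (h1 : l ≠ 1) (W₂ : WeierstrassCurve K) [W₂.IsElliptic]
    (P P' : (leg l).toAffine.Point) (Q : W₂.toAffine.Point) :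
    sym (leg l) W₂ (P + P') Q - sym (leg l) W₂ P Q - sym (leg l) W₂ P' Q ∈ RatEq (leg l) W₂ := by
  have e1 := b3_add h0 h1 W₂ P P' Q
  have e2 := b3_add h0 h1 W₂ P P' 0
  have e3 := (RatEq (leg l) W₂).sub_mem e2 e1
  have e4 : sym (leg l) W₂ (P + P') Q - sym (leg l) W₂ P Q - sym (leg l) W₂ P' Q =
      (FreeAbelianGroup.of ((P, 0) : (leg l).toAffine.Point × W₂.toAffine.Point)
      + FreeAbelianGroup.of (P', 0) - FreeAbelianGroup.of (P + P', 0)
      - FreeAbelianGroup.of (0, 0)) -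
      (FreeAbelianGroup.of ((P, Q) : (leg l).toAffine.Point × W₂.toAffine.Point)
      + FreeAbelianGroup.of (P', Q) - FreeAbelianGroup.of (P + P', Q)
      - FreeAbelianGroup.of (0, Q)) := by
    unfold sym
    abel
  rw [e4]
  exact e3

/-- **Row B3b.** Exchange the factors (`swap_mem`, `swap_sym`) in B3a. -/
theorem sym_add_right (h0 : m ≠ 0) (h1 : m ≠ 1) (W₁ : WeierstrassCurve K) [W₁.IsElliptic]
    (P : W₁.toAffine.Point) (Q Q' : (leg m).toAffine.Point) :
    sym W₁ (leg m) P (Q + Q') - sym W₁ (leg m) P Q - sym W₁ (leg m) P Q' ∈ RatEq W₁ (leg m) := by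
  have e := swap_mem (sym_add_left h0 h1 W₁ Q Q' P)
  rw [map_sub, map_sub, swap_sym, swap_sym, swap_sym] at e
  exact e

end Pool.Agent.ZC
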