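import Pool.Agent.Lib.MP_a1cc03_ag.B3_Bilinear

/-! # Row B4: torsion of symbols -/

noncomputable section

namespace Pool.Agent.ZC

open WeierstrassCurve

variable {K : Type} [Field K] [IsAlgClosed K] [CharZero K] [DecidableEq K] {l m : K}

/-- The elements with torsion image form a saturated subgroup. -/
theorem B4_tors_subgroup {A B : Type} [AddCommGroup A] [AddCommGroup B] (φ : A →+ B) :
    ∃ H : AddSubgroup A, (∀ a, a ∈ H ↔ ∃ N : ℕ, 0 < N ∧ N • φ a = 0) ∧
      ∀ (a : A) (n : ℕ), 0 < n → n • a ∈ H → a ∈ H := by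
  refine ⟨{ carrier := {a | ∃ N : ℕ, 0 < N ∧ N • φ a = 0}
            add_mem' := ?_
            zero_mem' := ⟨1, one_pos, by simp⟩
            neg_mem' := ?_ }, fun a => Iff.rfl, ?_⟩
  · rintro a b ⟨N, hN, hNa⟩ ⟨M, hM, hMb⟩
    refine ⟨N * M, Nat.mul_pos hN hM, ?_⟩
    rw [map_add, smul_add, mul_comm N M, mul_smul, hNa, smul_zero, mul_comm M N, mul_smul, hMb,
      smul_zero, add_zero]
  · rintro a ⟨N, hN, hNa⟩
    exact ⟨N, hN, by rw [map_neg, smul_neg, hNa, neg_zero]⟩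
  · rintro a n hn ⟨N, hN, hNa⟩
    refine ⟨N * n, Nat.mul_pos hN hn, ?_⟩
    rw [mul_smul, ← map_nsmul, hNa]

/-- The class of the symbol as a homomorphism in the first variable. -/
theorem B4_left_hom (hl0 : l ≠ 0) (hl1 : l ≠ 1) (W₂ : WeierstrassCurve K) [W₂.IsElliptic]
    (b : W₂.toAffine.Point) : ∃ φ : (leg l).toAffine.Point →+
      (FreeAbelianGroup ((leg l).toAffine.Point × W₂.toAffine.Point) ⧸ RatEq (leg l) W₂),
      ∀ a, φ a = QuotientAddGroup.mk' (RatEq (leg l) W₂) (sym (leg l) W₂ a b) := by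
  refine ⟨AddMonoidHom.mk' (fun a => QuotientAddGroup.mk' (RatEq (leg l) W₂)
    (sym (leg l) W₂ a b)) ?_, fun a => rfl⟩
  intro a a'
  have h := sym_add_left hl0 hl1 W₂ a a' b
  rw [← map_add, ← sub_eq_zero, ← map_sub]
  rw [QuotientAddGroup.mk'_apply, QuotientAddGroup.eq_zero_iff, ← sub_sub]
  exact h

/-- The class of the symbol as a homomorphism in the second variable. -/
theorem B4_right_hom (hm0 : m ≠ 0) (hm1 : m ≠ 1) (W₁ : WeierstrassCurve K) [W₁.IsElliptic]
    (a : W₁.toAffine.Point) : ∃ φ : (leg m).toAffine.Point →+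
      (FreeAbelianGroup (W₁.toAffine.Point × (leg m).toAffine.Point) ⧸ RatEq W₁ (leg m)),
      ∀ b, φ b = QuotientAddGroup.mk' (RatEq W₁ (leg m)) (sym W₁ (leg m) a b) := by
  refine ⟨AddMonoidHom.mk' (fun b => QuotientAddGroup.mk' (RatEq W₁ (leg m))
    (sym W₁ (leg m) a b)) ?_, fun b => rfl⟩
  intro b b'
  have h := sym_add_right hm0 hm1 W₁ a b b'
  rw [← map_add, ← sub_eq_zero, ← map_sub]
  rw [QuotientAddGroup.mk'_apply, QuotientAddGroup.eq_zero_iff, ← sub_sub]
  exact h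

omit [IsAlgClosed K] [CharZero K] [DecidableEq K] in
theorem B4_torsSym_iff (W₁ W₂ : WeierstrassCurve K) (a : W₁.toAffine.Point)
    (b : W₂.toAffine.Point) : TorsSym W₁ W₂ a b ↔
      ∃ N : ℕ, 0 < N ∧ N • QuotientAddGroup.mk' (RatEq W₁ W₂) (sym W₁ W₂ a b) = 0 := by
  unfold TorsSym
  refine exists_congr fun N => and_congr_right fun _ => ?_
  rw [← map_nsmul, QuotientAddGroup.mk'_apply, QuotientAddGroup.eq_zero_iff]

/-- **Row B4a.** The cycle `(R, S) + (-R, -S) - (R, -S) - (-R, S)` equals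
`{R, S} + {-R, -S} - {R, -S} - {-R, S}` in the free group (all the other terms cancel), and by bilinearity
(B3) this is `4 {R, S}` modulo `RatEq`. -/
theorem four_sym (hl0 : l ≠ 0) (hl1 : l ≠ 1) (hm0 : m ≠ 0) (hm1 : m ≠ 1)
    (R : (leg l).toAffine.Point) (S : (leg m).toAffine.Point)
    (h : FreeAbelianGroup.of (R, S) + FreeAbelianGroup.of (-R, -S) - FreeAbelianGroup.of (R, -S)
      - FreeAbelianGroup.of (-R, S) ∈ RatEq (leg l) (leg m)) :
    TorsSym (leg l) (leg m) R S := by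
  have := leg_isElliptic hl0 hl1
  have := leg_isElliptic hm0 hm1
  set π := QuotientAddGroup.mk' (RatEq (leg l) (leg m)) with hπ
  have hneg1 : ∀ (a : (leg l).toAffine.Point) (b : (leg m).toAffine.Point),
      π (sym (leg l) (leg m) (-a) b) = -π (sym (leg l) (leg m) a b) := by
    intro a b
    obtain ⟨φ, hφ⟩ := B4_left_hom hl0 hl1 (leg m) b
    rw [← hφ, ← hφ, map_neg]
  have hneg2 : ∀ (a : (leg l).toAffine.Point) (b : (leg m).toAffine.Point),
      π (sym (leg l) (leg m) a (-b)) = -π (sym (leg l) (leg m) a b) := by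
    intro a b
    obtain ⟨φ, hφ⟩ := B4_right_hom hm0 hm1 (leg l) a
    rw [← hφ, ← hφ, map_neg]
  have hcycle : FreeAbelianGroup.of (R, S) + FreeAbelianGroup.of (-R, -S)
      - FreeAbelianGroup.of (R, -S) - FreeAbelianGroup.of (-R, S) =
      sym (leg l) (leg m) R S + sym (leg l) (leg m) (-R) (-S) - sym (leg l) (leg m) R (-S)
        - sym (leg l) (leg m) (-R) S := by
    unfold sym
    abel
  have h0 : π (FreeAbelianGroup.of (R, S) + FreeAbelianGroup.of (-R, -S)
      - FreeAbelianGroup.of (R, -S) - FreeAbelianGroup.of (-R, S)) = 0 := by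
    rw [hπ, QuotientAddGroup.mk'_apply, QuotientAddGroup.eq_zero_iff]
    exact h
  rw [hcycle, map_sub, map_sub, map_add, hneg1, hneg2, hneg1] at h0
  rw [B4_torsSym_iff]
  refine ⟨4, by norm_num, ?_⟩
  rw [← h0]
  abel

/-- **Row B4b.** For fixed `b` the `a` with `{a, b}` torsion form a subgroup which contains every `a` such
that `n a` belongs to it for some `n ≠ 0` (in particular all torsion points). Use B3a and, for
multiples, induction: `{n a, b} ≡ n {a, b}`. -/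
theorem exists_left_subgroup (hl0 : l ≠ 0) (hl1 : l ≠ 1) (W₂ : WeierstrassCurve K) [W₂.IsElliptic]
    (b : W₂.toAffine.Point) :
    ∃ H : AddSubgroup (leg l).toAffine.Point, (∀ a, a ∈ H ↔ TorsSym (leg l) W₂ a b) ∧
      ∀ (a : (leg l).toAffine.Point) (n : ℕ), 0 < n → n • a ∈ H → a ∈ H := by
  obtain ⟨φ, hφ⟩ := B4_left_hom hl0 hl1 W₂ b
  obtain ⟨H, hH, hsat⟩ := B4_tors_subgroup φ
  refine ⟨H, fun a => ?_, hsat⟩
  rw [hH, B4_torsSym_iff, hφ]

/-- **Row B4c.** The same for the second variable. -/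
theorem exists_right_subgroup (hm0 : m ≠ 0) (hm1 : m ≠ 1) (W₁ : WeierstrassCurve K)
    [W₁.IsElliptic] (a : W₁.toAffine.Point) :
    ∃ H : AddSubgroup (leg m).toAffine.Point, (∀ b, b ∈ H ↔ TorsSym W₁ (leg m) a b) ∧
      ∀ (b : (leg m).toAffine.Point) (n : ℕ), 0 < n → n • b ∈ H → b ∈ H := by
  obtain ⟨φ, hφ⟩ := B4_right_hom hm0 hm1 W₁ a
  obtain ⟨H, hH, hsat⟩ := B4_tors_subgroup φ
  refine ⟨H, fun b => ?_, hsat⟩
  rw [hH, B4_torsSym_iff, hφ]

end Pool.Agent.ZC
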