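import Pool.Agent.Lib.MP_a1cc03_ag.A0_Defs

/-! # Basic facts on the Legendre curve `leg l` (all proved) -/

noncomputable section

namespace Pool.Agent.ZC

open WeierstrassCurve

section Basic

variable {K : Type} [Field K] {l : K}

theorem leg_Δ (l : K) : (leg l).Δ = 16 * l ^ 2 * (l - 1) ^ 2 := by
  simp only [WeierstrassCurve.Δ, WeierstrassCurve.b₂, WeierstrassCurve.b₄, WeierstrassCurve.b₆,
    WeierstrassCurve.b₈, leg]
  ring

theorem leg_isElliptic [CharZero K] (h0 : l ≠ 0) (h1 : l ≠ 1) : (leg l).IsElliptic := by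
  constructor
  rw [leg_Δ, isUnit_iff_ne_zero]
  have : l - 1 ≠ 0 := sub_ne_zero.mpr h1
  have h16 : (16 : K) ≠ 0 := by norm_num
  positivity

theorem leg_equation {x y : K} : (leg l).toAffine.Equation x y ↔ y ^ 2 = x * (x - 1) * (x - l) := by
  rw [WeierstrassCurve.Affine.equation_iff]
  simp only [leg]
  constructor <;> intro h <;> linear_combination h

theorem leg_nonsingular [CharZero K] (h0 : l ≠ 0) (h1 : l ≠ 1) {x y : K} :
    (leg l).toAffine.Nonsingular x y ↔ y ^ 2 = x * (x - 1) * (x - l) := by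
  haveI := leg_isElliptic h0 h1
  rw [← leg_equation]
  exact (WeierstrassCurve.Affine.equation_iff_nonsingular).symm

theorem leg_eq_of_nonsingular {x y : K} (h : (leg l).toAffine.Nonsingular x y) :
    y ^ 2 = x * (x - 1) * (x - l) := leg_equation.mp h.1

variable {F : Type} [Field F] [Algebra K F]

theorem leg_map_equation {x y : F} : ((leg l).map (algebraMap K F)).toAffine.Equation x y ↔
    y ^ 2 = x * (x - 1) * (x - algebraMap K F l) := by
  rw [WeierstrassCurve.Affine.equation_iff]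
  simp only [leg, WeierstrassCurve.map, map_zero, map_neg, map_add, map_one]
  constructor <;> intro h <;> linear_combination h

theorem leg_map_nonsingular [CharZero K] (h0 : l ≠ 0) (h1 : l ≠ 1) {x y : F} :
    ((leg l).map (algebraMap K F)).toAffine.Nonsingular x y ↔
      y ^ 2 = x * (x - 1) * (x - algebraMap K F l) := by
  haveI := leg_isElliptic h0 h1
  rw [← leg_map_equation]
  exact (WeierstrassCurve.Affine.equation_iff_nonsingular).symm

end Basic

section Group

variable {K : Type} [Field K] [DecidableEq K] {l : K}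

theorem leg_negY (x y : K) : (leg l).toAffine.negY x y = -y := by
  simp [WeierstrassCurve.Affine.negY, leg]

theorem leg_neg_some {x y : K} (h : (leg l).toAffine.Nonsingular x y)
    (h' : (leg l).toAffine.Nonsingular x (-y)) :
    -(Affine.Point.some x y h) = Affine.Point.some x (-y) h' := by
  rw [Affine.Point.neg_some]
  congr 1
  exact leg_negY x y

theorem leg_neg_nonsingular {x y : K} (h : (leg l).toAffine.Nonsingular x y) :
    (leg l).toAffine.Nonsingular x (-y) := by
  rw [← leg_negY (l := l) x y]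
  exact (Affine.nonsingular_neg _ _).mpr h

/-- Addition of two points with different `x`-coordinates. -/
theorem leg_add_of_ne {x₁ y₁ x₂ y₂ : K} (h₁ : (leg l).toAffine.Nonsingular x₁ y₁)
    (h₂ : (leg l).toAffine.Nonsingular x₂ y₂) (hx : x₁ ≠ x₂) :
    ∃ h₃ : (leg l).toAffine.Nonsingular
        (((y₁ - y₂) / (x₁ - x₂)) ^ 2 + (1 + l) - x₁ - x₂)
        (-((y₁ - y₂) / (x₁ - x₂) * ((((y₁ - y₂) / (x₁ - x₂)) ^ 2 + (1 + l) - x₁ - x₂) - x₁) + y₁)),
      Affine.Point.some x₁ y₁ h₁ + Affine.Point.some x₂ y₂ h₂ = Affine.Point.some _ _ h₃ := by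
  have hs : (leg l).toAffine.slope x₁ x₂ y₁ y₂ = (y₁ - y₂) / (x₁ - x₂) :=
    WeierstrassCurve.Affine.slope_of_X_ne hx
  have hX : (leg l).toAffine.addX x₁ x₂ ((y₁ - y₂) / (x₁ - x₂))
      = ((y₁ - y₂) / (x₁ - x₂)) ^ 2 + (1 + l) - x₁ - x₂ := by
    simp only [WeierstrassCurve.Affine.addX, leg]
    ring
  have hY : (leg l).toAffine.addY x₁ x₂ y₁ ((y₁ - y₂) / (x₁ - x₂))
      = (-((y₁ - y₂) / (x₁ - x₂) * ((((y₁ - y₂) / (x₁ - x₂)) ^ 2 + (1 + l) - x₁ - x₂) - x₁) + y₁)) := by
    simp only [WeierstrassCurve.Affine.addY, WeierstrassCurve.Affine.negAddY, hX, leg_negY]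
  have hxy : ¬(x₁ = x₂ ∧ y₁ = (leg l).toAffine.negY x₂ y₂) := fun h => hx h.1
  have h := Affine.Point.add_some hxy (h₁ := h₁) (h₂ := h₂)
  have h₃ := Affine.nonsingular_add h₁ h₂ hxy
  rw [hs, hX, hY] at h₃
  refine ⟨h₃, ?_⟩
  rw [h]
  congr 1
  · rw [hs, hX]
  · rw [hs, hY]

/-- Doubling of a point which is not 2-torsion. -/
theorem leg_double {x y : K} (h : (leg l).toAffine.Nonsingular x y) (h2 : (2 : K) ≠ 0)
    (hy : y ≠ 0) :
    ∃ h₃ : (leg l).toAffine.Nonsingular
        (((3 * x ^ 2 - 2 * (1 + l) * x + l) / (2 * y)) ^ 2 + (1 + l) - 2 * x)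
        (-((3 * x ^ 2 - 2 * (1 + l) * x + l) / (2 * y) *
          ((((3 * x ^ 2 - 2 * (1 + l) * x + l) / (2 * y)) ^ 2 + (1 + l) - 2 * x) - x) + y)),
      Affine.Point.some x y h + Affine.Point.some x y h = Affine.Point.some _ _ h₃ := by
  have hne : y ≠ (leg l).toAffine.negY x y := by
    rw [leg_negY]
    intro h
    have : 2 * y = 0 := by linear_combination h
    exact hy ((mul_eq_zero.mp this).resolve_left h2)
  have hs : (leg l).toAffine.slope x x y y = (3 * x ^ 2 - 2 * (1 + l) * x + l) / (2 * y) := by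
    rw [WeierstrassCurve.Affine.slope_of_Y_ne rfl hne, leg_negY]
    simp only [leg]
    congr 1 <;> ring
  have hX : (leg l).toAffine.addX x x ((3 * x ^ 2 - 2 * (1 + l) * x + l) / (2 * y))
      = ((3 * x ^ 2 - 2 * (1 + l) * x + l) / (2 * y)) ^ 2 + (1 + l) - 2 * x := by
    simp only [WeierstrassCurve.Affine.addX, leg]
    ring
  have hY : (leg l).toAffine.addY x x y ((3 * x ^ 2 - 2 * (1 + l) * x + l) / (2 * y))
      = (-((3 * x ^ 2 - 2 * (1 + l) * x + l) / (2 * y) *
          ((((3 * x ^ 2 - 2 * (1 + l) * x + l) / (2 * y)) ^ 2 + (1 + l) - 2 * x) - x) + y)) := by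
    simp only [WeierstrassCurve.Affine.addY, WeierstrassCurve.Affine.negAddY, hX, leg_negY]
  have hxy : ¬(x = x ∧ y = (leg l).toAffine.negY x y) := fun h => hne h.2
  have h' := Affine.Point.add_some hxy (h₁ := h) (h₂ := h)
  have h₃ := Affine.nonsingular_add h h hxy
  rw [hs, hX, hY] at h₃
  refine ⟨h₃, ?_⟩
  rw [h']
  congr 1
  · rw [hs, hX]
  · rw [hs, hY]

end Group

end Pool.Agent.ZC
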