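import Pool.Agent.Lib.MP_a1cc03_ag.A4_Cover
import Pool.Agent.Lib.MP_a1cc03_ag.A5_Func
import Pool.Agent.Lib.MP_a1cc03_ag.A6a_Place

/-! # Row M1: the basic genus two family -/

open scoped Polynomial

noncomputable section

namespace Pool.Agent.ZC

variable {K : Type} [Field K]

/-- the polynomial `D` -/
def m1_D (a b : K) : K[X] :=
  Polynomial.C (a - b) * (Polynomial.C a * Polynomial.X ^ 2 - Polynomial.C b) *
    (Polynomial.C (a - 1) * Polynomial.X ^ 2 - Polynomial.C (b - 1)) * (Polynomial.X ^ 2 - 1)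

theorem m1_eval (a b x : K) : (m1_D a b).eval x =
    (a - b) * (a * x ^ 2 - b) * ((a - 1) * x ^ 2 - (b - 1)) * (x ^ 2 - 1) := by
  simp [m1_D]

theorem m1_nonsquare [CharZero K] {a b : K} (hab : a ≠ b) :
    ¬ IsSquare (algebraMap K[X] (RatFunc K) (m1_D a b)) := by
  have hab' : a - b ≠ 0 := sub_ne_zero.2 hab
  refine not_isSquare_of_simple_root (m1_D a b) 1 ?_ ?_
  · rw [m1_eval]
    ring
  · have h : (Polynomial.derivative (m1_D a b)).eval 1 = 2 * (a - b) ^ 3 := by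
      simp only [m1_D, Polynomial.derivative_mul, Polynomial.derivative_sub,
        Polynomial.derivative_C, Polynomial.derivative_X_pow, Polynomial.derivative_one,
        Polynomial.eval_add, Polynomial.eval_mul, Polynomial.eval_sub, Polynomial.eval_C,
        Polynomial.eval_pow, Polynomial.eval_X, Polynomial.eval_one, Polynomial.eval_zero]
      simp
      ring
    rw [h]
    exact mul_ne_zero two_ne_zero (pow_ne_zero 3 hab')

/-- **Row M1.** Let `t(s) = (a s² - b)/(s² - 1)`; then `t - 1 = ((a - 1) s² - (b - 1))/(s² - 1)`,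
`t - a = (a - b)/(s² - 1)`, `t - b = (a - b) s²/(s² - 1) = s² (t - a)`. Let
`D(s) = (a - b)(a s² - b)((a - 1) s² - (b - 1))(s² - 1)`; it has the simple root `1` (the other factors at
`s = 1` are `(a - b)`, `a - b`, `a - b`), so it is not a square in `K(s)` (`not_isSquare_of_simple_root`); let
`F = K(s)(Y)`, `Y² = D(s)` (`exists_dcover`), `T = t(s)`, `y = Y / (s² - 1)²`, so `y² = T (T - 1) (T - a)`, and
`z = i s y` with `i² = -1` (`K` is algebraically closed), so `z² = - s² y² = - T (T - 1) (T - b)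
= (1 - T) ((1 - T) - 1) ((1 - T) - (1 - b))`.
Let `σ ∈ K` with `σ² = (t₀ - b)/(t₀ - a)`; then `σ ≠ 0`, `σ² ≠ 1`, `t(± σ) = t₀`, and
`(i σ y₀)² = - σ² y₀² = z₀²`, so after changing the sign of `σ` we have `i σ y₀ = z₀`.
Put `δ = y₀ (σ² - 1)²`; `δ² = D(σ) = D(-σ)`, `δ ≠ 0`.
The values at `(σ, δ)` are `T ≡ t₀`, `y ≡ y₀`, `z ≡ i σ y₀ = z₀`; the other three are similar (`Ev` calculus). -/
theorem base_family [IsAlgClosed K] [CharZero K] {a b : K} (ha0 : a ≠ 0) (ha1 : a ≠ 1)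
    (hb0 : b ≠ 0) (hb1 : b ≠ 1) (hab : a ≠ b) {t₀ y₀ z₀ : K} (ht0 : t₀ ≠ 0) (ht1 : t₀ ≠ 1)
    (hta : t₀ ≠ a) (htb : t₀ ≠ b) (hy : y₀ ^ 2 = t₀ * (t₀ - 1) * (t₀ - a))
    (hz : z₀ ^ 2 = (1 - t₀) * ((1 - t₀) - 1) * ((1 - t₀) - (1 - b))) :
    ∃ (D : K[X]) (F : Type) (_ : Field F) (_ : Algebra K F) (s Y T y z : F) (σ δ : K),
      DCover D F s Y ∧ σ ≠ -σ ∧ δ ≠ 0 ∧ δ ^ 2 = D.eval σ ∧ δ ^ 2 = D.eval (-σ) ∧
      y ^ 2 = T * (T - 1) * (T - algebraMap K F a) ∧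
      z ^ 2 = (1 - T) * ((1 - T) - 1) * ((1 - T) - algebraMap K F (1 - b)) ∧
      (∀ v : Place K F, Ev v s σ → Ev v Y δ → Ev v T t₀ ∧ Ev v y y₀ ∧ Ev v z z₀) ∧
      (∀ v : Place K F, Ev v s σ → Ev v Y (-δ) → Ev v T t₀ ∧ Ev v y (-y₀) ∧ Ev v z (-z₀)) ∧
      (∀ v : Place K F, Ev v s (-σ) → Ev v Y δ → Ev v T t₀ ∧ Ev v y y₀ ∧ Ev v z (-z₀)) ∧
      (∀ v : Place K F, Ev v s (-σ) → Ev v Y (-δ) → Ev v T t₀ ∧ Ev v y (-y₀) ∧ Ev v z z₀) := by
  classical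
  have hab' : a - b ≠ 0 := sub_ne_zero.2 hab
  obtain ⟨F, iF, iA, s, Y, h⟩ := exists_dcover (m1_D a b) (m1_nonsquare hab)
  obtain ⟨im, him⟩ : ∃ im : K, im ^ 2 = -1 := IsAlgClosed.exists_pow_nat_eq (-1) (by norm_num)
  have hta' : t₀ - a ≠ 0 := sub_ne_zero.2 hta
  have htb' : t₀ - b ≠ 0 := sub_ne_zero.2 htb
  -- the parameter
  obtain ⟨σ, hσ, hσz⟩ : ∃ σ : K, σ ^ 2 = (t₀ - b) / (t₀ - a) ∧ im * σ * y₀ = z₀ := by
    obtain ⟨σ, hσ⟩ : ∃ σ : K, σ ^ 2 = (t₀ - b) / (t₀ - a) :=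
      IsAlgClosed.exists_pow_nat_eq _ (by norm_num)
    have h1 : (im * σ * y₀) ^ 2 = z₀ ^ 2 := by
      rw [mul_pow, mul_pow, him, hσ, hy, hz]
      field_simp
      ring
    rcases sq_eq_sq_iff_eq_or_eq_neg.1 h1 with h2 | h2
    · exact ⟨σ, hσ, h2⟩
    · refine ⟨-σ, by rw [neg_pow_two, hσ], ?_⟩
      rw [mul_neg, neg_mul, h2, neg_neg]
  have hσa : σ ^ 2 * (t₀ - a) = t₀ - b := by
    rw [hσ]
    field_simp
  have hσ1 : σ ^ 2 - 1 ≠ 0 := by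
    intro h0
    have h1 : σ ^ 2 = 1 := sub_eq_zero.1 h0
    rw [h1, one_mul] at hσa
    exact hab (by linear_combination -hσa)
  have hσ0 : σ ≠ 0 := by
    rintro rfl
    rw [zero_pow (by norm_num), zero_mul] at hσa
    exact htb' hσa.symm
  have hy0 : y₀ ≠ 0 := by
    rintro rfl
    rw [zero_pow (by norm_num)] at hy
    exact mul_ne_zero (mul_ne_zero ht0 (sub_ne_zero.2 ht1)) hta' hy.symm
  have e1 : t₀ * (σ ^ 2 - 1) = a * σ ^ 2 - b := by linear_combination hσa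
  obtain ⟨δ, hδ⟩ : ∃ δ : K, δ = y₀ * (σ ^ 2 - 1) ^ 2 := ⟨_, rfl⟩
  have hδ0 : δ ≠ 0 := by
    rw [hδ]
    exact mul_ne_zero hy0 (pow_ne_zero 2 hσ1)
  have hδD : δ ^ 2 = (a - b) * (a * σ ^ 2 - b) * ((a - 1) * σ ^ 2 - (b - 1)) * (σ ^ 2 - 1) := by
    have e2 : (t₀ - 1) * (σ ^ 2 - 1) = (a - 1) * σ ^ 2 - (b - 1) := by linear_combination e1
    have e3 : (t₀ - a) * (σ ^ 2 - 1) = a - b := by linear_combination e1
    rw [← e1, ← e2, ← e3, hδ, mul_pow, hy]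
    ring
  -- the functions
  have hs1 : s ^ 2 - 1 ≠ 0 := by
    intro h0
    have h1 := (h.indep (Polynomial.X ^ 2 - 1) 0 (by simp [h0])).1
    have h2 := congrArg (fun p : K[X] => p.eval 0) h1
    simp at h2
  obtain ⟨A, hA⟩ : ∃ A : F, A = algebraMap K F a := ⟨_, rfl⟩
  obtain ⟨B, hB⟩ : ∃ B : F, B = algebraMap K F b := ⟨_, rfl⟩
  obtain ⟨T, hT⟩ : ∃ T : F, T = (A * s ^ 2 - B) / (s ^ 2 - 1) := ⟨_, rfl⟩
  obtain ⟨y, hyF⟩ : ∃ y : F, y = Y / (s ^ 2 - 1) ^ 2 := ⟨_, rfl⟩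
  obtain ⟨z, hzF⟩ : ∃ z : F, z = algebraMap K F im * s * y := ⟨_, rfl⟩
  have hrel : Y ^ 2 = (A - B) * (A * s ^ 2 - B) * ((A - 1) * s ^ 2 - (B - 1)) * (s ^ 2 - 1) := by
    rw [h.rel, hA, hB]
    simp [m1_D]
  have f1 : T * (s ^ 2 - 1) = A * s ^ 2 - B := by
    rw [hT]
    field_simp
  have hy2 : y ^ 2 = T * (T - 1) * (T - A) := by
    have e2 : (T - 1) * (s ^ 2 - 1) = (A - 1) * s ^ 2 - (B - 1) := by linear_combination f1
    have e3 : (T - A) * (s ^ 2 - 1) = A - B := by linear_combination f1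
    rw [← f1, ← e2, ← e3] at hrel
    rw [hyF, div_pow, hrel]
    field_simp
  have hzz : z ^ 2 = (1 - T) * ((1 - T) - 1) * ((1 - T) - algebraMap K F (1 - b)) := by
    have e4 : T - B = s ^ 2 * (T - A) := by
      have : (T - B - s ^ 2 * (T - A)) = 0 := by linear_combination -f1
      exact sub_eq_zero.1 this
    have him' : (algebraMap K F im) ^ 2 = -1 := by
      rw [← map_pow, him, map_neg, map_one]
    rw [hzF, mul_pow, mul_pow, him', hy2, map_sub, map_one, ← hB]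
    linear_combination (T * (T - 1)) * e4
  -- values
  have key : ∀ (v : Place K F) (σ' δ' : K), σ' ^ 2 = σ ^ 2 → Ev v s σ' → Ev v Y δ' →
      Ev v T t₀ ∧ Ev v y (δ' / (σ ^ 2 - 1) ^ 2) ∧ Ev v z (im * σ' * (δ' / (σ ^ 2 - 1) ^ 2)) := by
    intro v σ' δ' hσ' hs hY
    have g1 : Ev v (s ^ 2) (σ ^ 2) := by
      have := hs.pow 2
      rw [hσ'] at this
      exact this
    have g2 : Ev v (s ^ 2 - 1) (σ ^ 2 - 1) := g1.sub (Ev.one v)
    have g3 : Ev v (A * s ^ 2 - B) (a * σ ^ 2 - b) := by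
      rw [hA, hB]
      exact ((Ev.const v a).mul g1).sub (Ev.const v b)
    have g4 : Ev v T t₀ := by
      have := g3.div g2 hσ1
      rw [← hT, ← e1, mul_div_cancel_right₀ _ hσ1] at this
      exact this
    have g5 : Ev v y (δ' / (σ ^ 2 - 1) ^ 2) := by
      rw [hyF]
      exact hY.div (g2.pow 2) (pow_ne_zero 2 hσ1)
    refine ⟨g4, g5, ?_⟩
    rw [hzF]
    exact ((Ev.const v im).mul hs).mul g5
  have hδ1 : δ / (σ ^ 2 - 1) ^ 2 = y₀ := by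
    rw [hδ, mul_div_cancel_right₀ _ (pow_ne_zero 2 hσ1)]
  have hδ2 : -δ / (σ ^ 2 - 1) ^ 2 = -y₀ := by rw [neg_div, hδ1]
  refine ⟨m1_D a b, F, iF, iA, s, Y, T, y, z, σ, δ, h, ?_, hδ0, ?_, ?_, ?_, hzz, ?_, ?_, ?_, ?_⟩
  · intro h0
    have : 2 * σ = 0 := by linear_combination h0
    exact hσ0 ((mul_eq_zero.1 this).resolve_left two_ne_zero)
  · rw [m1_eval, hδD]
  · rw [m1_eval, neg_pow_two, hδD]
  · rw [hy2, hA]
  · intro v hs hY
    obtain ⟨k1, k2, k3⟩ := key v σ δ rfl hs hY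
    rw [hδ1] at k2 k3
    rw [hσz] at k3
    exact ⟨k1, k2, k3⟩
  · intro v hs hY
    obtain ⟨k1, k2, k3⟩ := key v σ (-δ) rfl hs hY
    rw [hδ2] at k2 k3
    rw [mul_neg, hσz] at k3
    exact ⟨k1, k2, k3⟩
  · intro v hs hY
    obtain ⟨k1, k2, k3⟩ := key v (-σ) δ (neg_pow_two σ) hs hY
    rw [hδ1] at k2 k3
    rw [mul_neg, neg_mul, hσz] at k3
    exact ⟨k1, k2, k3⟩
  · intro v hs hY
    obtain ⟨k1, k2, k3⟩ := key v (-σ) (-δ) (neg_pow_two σ) hs hY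
    rw [hδ2] at k2 k3
    rw [mul_neg, mul_neg, neg_mul, neg_neg, hσz] at k3
    exact ⟨k1, k2, k3⟩

end Pool.Agent.ZC
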