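import Pool.Agent.Lib.MP_a1cc03_ag.L0_Leg

/-! # Row M2: the chain of 2-isogenies -/

noncomputable section

namespace Pool.Agent.ZC

variable {K : Type} [Field K] [CharZero K]

/-- **Row M2a.** One step: with `L = Lr r`,
`X = r x (x - 1)/(x - L)`, `X - 1 = r (x - (1 + r)/(2 r))²/(x - L)`, `X - r² = r (x - (1 + r)/2)²/(x - L)`. -/
theorem step_equation {r e x y : K} (hr : r ≠ 0) (he : e ^ 2 = r ^ 3) (hx : x ≠ Lr r)
    (h : y ^ 2 = x * (x - 1) * (x - Lr r)) :
    stepY r e x y ^ 2 = stepX r x * (stepX r x - 1) * (stepX r x - r ^ 2) := by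
  have hD : x - Lr r ≠ 0 := sub_ne_zero.mpr hx
  have hL : Lr r = (1 + r) ^ 2 / (4 * r) := rfl
  have h4 : (4 : K) ≠ 0 := by norm_num
  have hL4 : 4 * r * Lr r = (1 + r) ^ 2 := by
    rw [hL]; field_simp
  have h1 : stepX r x - 1 = r * (x - (1 + r) / (2 * r)) ^ 2 / (x - Lr r) := by
    rw [eq_div_iff hD, stepX, sub_mul, div_mul_cancel₀ _ hD, one_mul]
    have : r * (x - (1 + r) / (2 * r)) ^ 2 = r * x ^ 2 - (1 + r) * x + Lr r := by
      rw [hL]; field_simp; ring
    rw [this]; ring
  have h2 : stepX r x - r ^ 2 = r * (x - (1 + r) / 2) ^ 2 / (x - Lr r) := by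
    rw [eq_div_iff hD, stepX, sub_mul, div_mul_cancel₀ _ hD]
    linear_combination (r / 4) * hL4
  rw [h1, h2, stepX, stepY]
  have e1 : (e * y * (x - (1 + r) / (2 * r)) * (x - (1 + r) / 2) / (x - Lr r) ^ 2) ^ 2
      = e ^ 2 * y ^ 2 * ((x - (1 + r) / (2 * r)) * (x - (1 + r) / 2)) ^ 2 / (x - Lr r) ^ 4 := by
    rw [div_pow]; congr 1 <;> ring
  have e2 : r * x * (x - 1) / (x - Lr r) * (r * (x - (1 + r) / (2 * r)) ^ 2 / (x - Lr r)) *
      (r * (x - (1 + r) / 2) ^ 2 / (x - Lr r))
      = r ^ 3 * (x * (x - 1)) * ((x - (1 + r) / (2 * r)) * (x - (1 + r) / 2)) ^ 2 /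
        (x - Lr r) ^ 3 := by
    rw [div_mul_div_comm, div_mul_div_comm]; congr 1 <;> ring
  rw [e1, e2, he, h, div_eq_div_iff (pow_ne_zero _ hD) (pow_ne_zero _ hD)]
  ring

/-- **Row M2b.** Induction on `n` with M2a (`l n = r n ^ 2`, `l (n+1) = Lr (r n)`). The hypotheses are
stated for sequences in any field so that the lemma also applies to the images in `F`. -/
theorem down_equation {l r e : ℕ → K} (hsq : ∀ n, r n ^ 2 = l n) (hnext : ∀ n, l (n + 1) = Lr (r n))
    (hesq : ∀ n, e n ^ 2 = r n ^ 3) (hr : ∀ n, r n ≠ 0) (n : ℕ) (x y : K) (hg : Good r n x)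
    (h : y ^ 2 = x * (x - 1) * (x - l n)) :
    (down r e n (x, y)).2 ^ 2 = (down r e n (x, y)).1 * ((down r e n (x, y)).1 - 1)
      * ((down r e n (x, y)).1 - l 0) := by
  induction n generalizing x y with
  | zero => simpa [down] using h
  | succ n ih =>
    show (down r e n (stepX (r n) x, stepY (r n) (e n) x y)).2 ^ 2 =
      (down r e n (stepX (r n) x, stepY (r n) (e n) x y)).1 *
        ((down r e n (stepX (r n) x, stepY (r n) (e n) x y)).1 - 1) *
        ((down r e n (stepX (r n) x, stepY (r n) (e n) x y)).1 - l 0)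
    obtain ⟨hg1, hg2⟩ := hg
    refine ih _ _ hg2 ?_
    rw [← hsq n]
    refine step_equation (hr n) (hesq n) hg1 ?_
    rw [← hnext n]
    exact h

omit [CharZero K] in
/-- **Row M2c.** `down` is odd in `y`. -/
theorem down_neg (r e : ℕ → K) (n : ℕ) (x y : K) :
    down r e n (x, -y) = ((down r e n (x, y)).1, -(down r e n (x, y)).2) := by
  induction n generalizing x y with
  | zero => rfl
  | succ n ih =>
    have hY : stepY (r n) (e n) x (-y) = -stepY (r n) (e n) x y := by
      unfold stepY; ring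
    show down r e n (stepX (r n) x, stepY (r n) (e n) x (-y)) =
      ((down r e n (stepX (r n) x, stepY (r n) (e n) x y)).1,
        -(down r e n (stepX (r n) x, stepY (r n) (e n) x y)).2)
    rw [hY]
    exact ih _ _

omit [CharZero K] in
/-- **Row M2d.** The first coordinate of `down` does not depend on `e` and `y`. -/
theorem down_fst (r e e' : ℕ → K) (n : ℕ) (x y y' : K) :
    (down r e n (x, y)).1 = (down r e' n (x, y')).1 := by
  induction n generalizing x y y' with
  | zero => rfl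
  | succ n ih => exact ih _ _ _

end Pool.Agent.ZC
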