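import Pool.Agent.Lib.MP_a1cc03_ag.L0_Leg
import Pool.Agent.Lib.MP_a1cc03_ag.A1_Ev

/-! # Row M3: the chain of 2-isogenies at a place -/

noncomputable section

namespace Pool.Agent.ZC

variable {K F : Type} [Field K] [Field F] [Algebra K F] [CharZero K]

omit [CharZero K] in
theorem m3_map_Lr (r : K) : Lr (algebraMap K F r) = algebraMap K F (Lr r) := by
  simp only [Lr, map_div₀, map_pow, map_add, map_mul, map_one, map_ofNat]

omit [CharZero K] in
theorem m3_ev_Lr (v : Place K F) (r : K) : Ev v (Lr (algebraMap K F r)) (Lr r) := by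
  rw [m3_map_Lr]
  exact Ev.const v _

omit [CharZero K] in
theorem m3_ev_two (v : Place K F) : Ev v (2 : F) (2 : K) := by
  have h := Ev.ofNat (K := K) v 2
  simpa using h

/-- **Row M2e.** `stepX`, `stepY` are compatible with values at places (no pole). -/
theorem ev_step {v : Place K F} {r e x₀ y₀ : K} {x y : F} (hr : r ≠ 0) (hx : Ev v x x₀)
    (hy : Ev v y y₀) (hne : x₀ ≠ Lr r) :
    x ≠ Lr (algebraMap K F r) ∧ Ev v (stepX (algebraMap K F r) x) (stepX r x₀) ∧
      Ev v (stepY (algebraMap K F r) (algebraMap K F e) x y) (stepY r e x₀ y₀) := by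
  have hd : x₀ - Lr r ≠ 0 := sub_ne_zero.mpr hne
  have hL : Ev v (x - Lr (algebraMap K F r)) (x₀ - Lr r) := hx.sub (m3_ev_Lr v r)
  have hR : Ev v (algebraMap K F r) r := Ev.const v r
  have hE : Ev v (algebraMap K F e) e := Ev.const v e
  have h1 : Ev v (1 : F) (1 : K) := Ev.one v
  have h2 : Ev v (2 : F) (2 : K) := m3_ev_two v
  have h1r : Ev v (1 + algebraMap K F r) (1 + r) := h1.add hR
  have h2r : Ev v (2 * algebraMap K F r) (2 * r) := h2.mul hR
  have h2r0 : (2 * r : K) ≠ 0 := mul_ne_zero two_ne_zero hr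
  refine ⟨?_, ?_, ?_⟩
  · intro h
    apply hne
    refine Ev.unique hx ?_
    rw [h]
    exact m3_ev_Lr v r
  · exact ((hR.mul hx).mul (hx.sub h1)).div hL hd
  · exact (((hE.mul hy).mul (hx.sub (h1r.div h2r h2r0))).mul
      (hx.sub (h1r.div h2 two_ne_zero))).div (hL.pow 2) (pow_ne_zero 2 hd)

/-- **Row M2f.** Induction with M2e. -/
theorem ev_down {v : Place K F} {r e : ℕ → K} (hr : ∀ n, r n ≠ 0) (n : ℕ) {x₀ y₀ : K} {x y : F}
    (hg : Good r n x₀) (hx : Ev v x x₀) (hy : Ev v y y₀) :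
    Good (fun i => algebraMap K F (r i)) n x ∧
      Ev v (down (fun i => algebraMap K F (r i)) (fun i => algebraMap K F (e i)) n (x, y)).1
        (down r e n (x₀, y₀)).1 ∧
      Ev v (down (fun i => algebraMap K F (r i)) (fun i => algebraMap K F (e i)) n (x, y)).2
        (down r e n (x₀, y₀)).2 := by
  induction n generalizing x₀ y₀ x y with
  | zero => exact ⟨trivial, hx, hy⟩
  | succ n ih =>
    obtain ⟨hne, hg'⟩ := hg
    obtain ⟨ha, hb, hc⟩ := ev_step (e := e n) (hr n) hx hy hne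
    obtain ⟨h1, h2, h3⟩ := ih hg' hb hc
    exact ⟨⟨ha, h1⟩, h2, h3⟩

end Pool.Agent.ZC
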