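import Pool.Agent.Lib.MP_a1cc03_ag.M1_Base
import Pool.Agent.Lib.MP_a1cc03_ag.M2_Down
import Pool.Agent.Lib.MP_a1cc03_ag.M3_EvDown
import Pool.Agent.Lib.MP_a1cc03_ag.B4_Tors

/-! # Row M4: the main relation -/

noncomputable section

namespace Pool.Agent.ZC

open WeierstrassCurve

section M4Aux

variable {K : Type} [Field K] [CharZero K]

theorem m4_r_ne {l r e : ℕ → K} (hc : Chain l r e) (n : ℕ) : r n ≠ 0 := by
  intro h
  have h1 := hc.sq n
  rw [h] at h1
  apply hc.ne_zero n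
  rw [← h1]
  ring

variable {F : Type} [Field F] [Algebra K F]

theorem m4_down_eq {l r e : ℕ → K} (hc : Chain l r e) (i : ℕ) (x y : F)
    (hg : Good (fun n => algebraMap K F (r n)) i x)
    (h : y ^ 2 = x * (x - 1) * (x - algebraMap K F (l i))) :
    ((leg (l 0)).map (algebraMap K F)).toAffine.Nonsingular
      (down (fun n => algebraMap K F (r n)) (fun n => algebraMap K F (e n)) i (x, y)).1
      (down (fun n => algebraMap K F (r n)) (fun n => algebraMap K F (e n)) i (x, y)).2 := by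
  haveI : CharZero F := charZero_of_injective_algebraMap (algebraMap K F).injective
  rw [leg_map_nonsingular (hc.ne_zero 0) (hc.ne_one 0)]
  refine down_equation (l := fun n => algebraMap K F (l n)) ?_ ?_ ?_ ?_ i x y hg h
  · intro n
    show algebraMap K F (r n) ^ 2 = algebraMap K F (l n)
    rw [← map_pow, hc.sq n]
  · intro n
    show algebraMap K F (l (n + 1)) = Lr (algebraMap K F (r n))
    rw [hc.next n]
    unfold Lr
    simp only [map_div₀, map_pow, map_add, map_mul, map_one, map_ofNat]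
  · intro n
    show algebraMap K F (e n) ^ 2 = algebraMap K F (r n) ^ 3
    rw [← map_pow, ← map_pow, hc.esq n]
  · intro n
    exact (map_ne_zero _).2 (m4_r_ne hc n)

variable [DecidableEq K]

theorem m4_spec {l r e : ℕ → K} (hc : Chain l r e) (i : ℕ) {x y : F}
    (hg : Good (fun n => algebraMap K F (r n)) i x)
    (h : y ^ 2 = x * (x - 1) * (x - algebraMap K F (l i))) {x₀ y₀ : K} (hg₀ : Good r i x₀)
    (hR : (leg (l 0)).toAffine.Nonsingular (down r e i (x₀, y₀)).1 (down r e i (x₀, y₀)).2)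
    {v : Place K F} (hx : Ev v x x₀) (hy : Ev v y y₀) :
    Specializes v (leg (l 0)) (.some _ _ (m4_down_eq hc i x y hg h)) (.some _ _ hR) := by
  have h1 := ev_down (e := e) (m4_r_ne hc) i hg₀ hx hy
  exact .some_some _ _ _ _ _ _ h1.2.1 h1.2.2

theorem m4_spec_neg {l r e : ℕ → K} (hc : Chain l r e) (i : ℕ) {x y : F}
    (hg : Good (fun n => algebraMap K F (r n)) i x)
    (h : y ^ 2 = x * (x - 1) * (x - algebraMap K F (l i))) {x₀ y₀ : K} (hg₀ : Good r i x₀)
    (hR : (leg (l 0)).toAffine.Nonsingular (down r e i (x₀, y₀)).1 (down r e i (x₀, y₀)).2)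
    {v : Place K F} (hx : Ev v x x₀) (hy : Ev v y (-y₀)) :
    Specializes v (leg (l 0)) (.some _ _ (m4_down_eq hc i x y hg h)) (-(.some _ _ hR)) := by
  have h1 := ev_down (e := e) (m4_r_ne hc) i hg₀ hx hy
  rw [down_neg] at h1
  rw [leg_neg_some hR (leg_neg_nonsingular hR)]
  exact .some_some _ _ _ _ _ _ h1.2.1 h1.2.2

end M4Aux

variable {K : Type} [Field K] [IsAlgClosed K] [CharZero K] [DecidableEq K]

/-- **Row M4.** Let `a = l i`, `b = 1 - l' j` and take the family of `base_family` (M1). The `F`-points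
`P = down (T, y)` of `leg (l 0)` and `Q = down (1 - T, z)` of `leg (l' 0)` (M2b applied in `F` to the images of
the sequences; `Good` holds in `F` by M2f because a place above `(σ, δ)` exists, `exists_place`;
`algebraMap` commutes with `Lr`) specialise by M2f (use also `down_neg`, `Ev.sub` for `1 - T`) to
`(R, S)`, `(-R, -S)` above `(σ, ± δ)` and to `(R, -S)`, `(-R, S)` above `(-σ, ± δ)`.
Apply `fibre_rel` with `a = σ`, `b = -σ`, `d = e = δ`, then `four_sym`. -/
theorem tors_main {l r e l' r' e' : ℕ → K} (hc : Chain l r e) (hc' : Chain l' r' e') (i j : ℕ)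
    (hne : l i ≠ 1 - l' j) {t y₀ z₀ : K} (ht0 : t ≠ 0) (ht1 : t ≠ 1) (hti : t ≠ l i)
    (htj : t ≠ 1 - l' j) (hy : y₀ ^ 2 = t * (t - 1) * (t - l i))
    (hz : z₀ ^ 2 = (1 - t) * ((1 - t) - 1) * ((1 - t) - l' j))
    (hg : Good r i t) (hg' : Good r' j (1 - t))
    (hR : (leg (l 0)).toAffine.Nonsingular (down r e i (t, y₀)).1 (down r e i (t, y₀)).2)
    (hS : (leg (l' 0)).toAffine.Nonsingular (down r' e' j (1 - t, z₀)).1
      (down r' e' j (1 - t, z₀)).2) :
    TorsSym (leg (l 0)) (leg (l' 0)) (.some _ _ hR) (.some _ _ hS) := by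
  have hb0 : (1 : K) - l' j ≠ 0 := sub_ne_zero.2 (hc'.ne_one j).symm
  have hb1 : (1 : K) - l' j ≠ 1 := by
    intro h
    apply hc'.ne_zero j
    linear_combination -h
  have hcancel : (1 : K) - (1 - l' j) = l' j := by ring
  obtain ⟨D, F, _, _, s, Y, T, y, z, σ, δ, hcov, hσ, hδ, hD1, hD2, hyF, hzF, e1, e2, e3, e4⟩ :=
    base_family (hc.ne_zero i) (hc.ne_one i) hb0 hb1 hne ht0 ht1 hti htj hy
      (by rw [hcancel]; exact hz)
  rw [hcancel] at hzF
  haveI := leg_isElliptic (hc.ne_zero 0) (hc.ne_one 0)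
  haveI := leg_isElliptic (hc'.ne_zero 0) (hc'.ne_one 0)
  -- the points are defined
  obtain ⟨v₀, hv₀, hv₀'⟩ := exists_place hcov hδ hD1
  have hv₀s : Ev v₀ s σ := by
    show 0 < v₀.ord (s - algebraMap K F σ)
    rw [hv₀]
    exact_mod_cast one_pos
  obtain ⟨hT0, hy0, hz0⟩ := e1 v₀ hv₀s hv₀'
  have hgF : Good (fun n => algebraMap K F (r n)) i T :=
    (ev_down (e := e) (m4_r_ne hc) i hg hT0 hy0).1
  have hgF' : Good (fun n => algebraMap K F (r' n)) j (1 - T) :=
    (ev_down (e := e') (m4_r_ne hc') j hg' ((Ev.one v₀).sub hT0) hz0).1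
  apply four_sym (hc.ne_zero 0) (hc.ne_one 0) (hc'.ne_zero 0) (hc'.ne_one 0)
  refine fibre_rel hcov (leg (l 0)) (leg (l' 0))
    (.some _ _ (m4_down_eq hc i T y hgF hyF)) (.some _ _ (m4_down_eq hc' j (1 - T) z hgF' hzF))
    hσ hδ hδ hD1 hD2
    (p := (.some _ _ hR, .some _ _ hS)) (p' := (-(.some _ _ hR), -(.some _ _ hS)))
    (q := (.some _ _ hR, -(.some _ _ hS))) (q' := (-(.some _ _ hR), .some _ _ hS))
    ?_ ?_ ?_ ?_ ?_ ?_ ?_ ?_
  · intro v hs hY
    obtain ⟨h1, h2, h3⟩ := e1 v hs hY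
    exact m4_spec hc i hgF hyF hg hR h1 h2
  · intro v hs hY
    obtain ⟨h1, h2, h3⟩ := e1 v hs hY
    exact m4_spec hc' j hgF' hzF hg' hS ((Ev.one v).sub h1) h3
  · intro v hs hY
    obtain ⟨h1, h2, h3⟩ := e2 v hs hY
    exact m4_spec_neg hc i hgF hyF hg hR h1 h2
  · intro v hs hY
    obtain ⟨h1, h2, h3⟩ := e2 v hs hY
    exact m4_spec_neg hc' j hgF' hzF hg' hS ((Ev.one v).sub h1) h3
  · intro v hs hY
    obtain ⟨h1, h2, h3⟩ := e3 v hs hY
    exact m4_spec hc i hgF hyF hg hR h1 h2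
  · intro v hs hY
    obtain ⟨h1, h2, h3⟩ := e3 v hs hY
    exact m4_spec_neg hc' j hgF' hzF hg' hS ((Ev.one v).sub h1) h3
  · intro v hs hY
    obtain ⟨h1, h2, h3⟩ := e4 v hs hY
    exact m4_spec_neg hc i hgF hyF hg hR h1 h2
  · intro v hs hY
    obtain ⟨h1, h2, h3⟩ := e4 v hs hY
    exact m4_spec hc' j hgF' hzF hg' hS ((Ev.one v).sub h1) h3

end Pool.Agent.ZC
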