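import Pool.Agent.Lib.MP_a1cc03_ag.L0_Leg

/-! # Row N0: p-adic absolute values -/

noncomputable section

namespace Pool.Agent.ZC

section Defs

variable {K : Type} [Field K]

/-- A nonarchimedean absolute value with `w p = 1/p`. -/
structure PAdic (p : ℕ) (w : AbsoluteValue K ℝ) : Prop where
  nonarch : IsNonarchimedean w
  map_p : w (p : K) = (p : ℝ)⁻¹

/-- The absolute value `x ↦ ‖ι x‖` of an embedding into the algebraic closure of `ℚ_p`. -/
def wAt {p : ℕ} [Fact p.Prime] (ι : K →+* PadicAlgCl p) : AbsoluteValue K ℝ where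
  toFun x := ‖ι x‖
  map_mul' x y := by simp
  nonneg' x := norm_nonneg _
  eq_zero' x := by simp
  add_le' x y := by
    simp only [MulHom.toFun_eq_coe, MulHom.coe_mk, map_add]
    exact norm_add_le _ _

/-- The elements `l` and `1 - l` are units for `w`. -/
def Unit2 (w : AbsoluteValue K ℝ) (l : K) : Prop := w l = 1 ∧ w (1 - l) = 1

end Defs

section N0

variable {K : Type} [Field K] {p : ℕ} {w : AbsoluteValue K ℝ}

/-- **Row N0a.** (`w 1 = 1`, induction.) -/
theorem nonarch_natCast_le (hw : IsNonarchimedean w) (n : ℕ) : w (n : K) ≤ 1 := by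
  induction n with
  | zero => simp
  | succ n ih =>
    rw [Nat.cast_succ]
    refine le_trans (hw _ _) (max_le ih ?_)
    rw [AbsoluteValue.map_one]

/-- **Row N0b.** If `w x ≠ w y` then `w (x + y) = max (w x) (w y)`; in particular -/
theorem nonarch_add_eq (hw : IsNonarchimedean w) {x y : K} (h : w y < w x) : w (x + y) = w x := by
  apply le_antisymm
  · exact le_trans (hw x y) (max_le le_rfl h.le)
  · have h1 : w x ≤ max (w (x + y)) (w (-y)) := by
      have := hw (x + y) (-y)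
      rwa [add_neg_cancel_right] at this
    rw [AbsoluteValue.map_neg] at h1
    rcases le_max_iff.mp h1 with h2 | h2
    · exact h2
    · exact absurd h2 (not_le.mpr h)

theorem nonarch_sub_eq (hw : IsNonarchimedean w) {x y : K} (h : w y < w x) : w (x - y) = w x := by
  rw [sub_eq_add_neg]
  apply nonarch_add_eq hw
  rwa [AbsoluteValue.map_neg]

theorem nonarch_sub_le (hw : IsNonarchimedean w) (x y : K) : w (x - y) ≤ max (w x) (w y) := by
  rw [sub_eq_add_neg]
  have := hw x (-y)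
  rwa [AbsoluteValue.map_neg] at this

/-- **Row N0c.** For `p ∤ n`: Bezout `u n + v p = 1` and `w (v p) ≤ 1/p < 1`. -/
theorem PAdic.natCast_eq_one (h : PAdic p w) (hp : p.Prime) {n : ℕ} (hn : ¬ p ∣ n) :
    w (n : K) = 1 := by
  apply le_antisymm (nonarch_natCast_le h.nonarch n)
  have hco : Nat.Coprime n p := ((Nat.Prime.coprime_iff_not_dvd hp).mpr hn).symm
  have hb : (1 : ℤ) = n * Nat.gcdA n p + p * Nat.gcdB n p := by
    have := Nat.gcd_eq_gcd_ab n p
    rw [hco] at this
    exact_mod_cast this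
  have hint : ∀ u : ℤ, w (u : K) ≤ 1 := by
    intro u
    obtain ⟨m, rfl | rfl⟩ := Int.eq_nat_or_neg u
    · rw [Int.cast_natCast]
      exact nonarch_natCast_le h.nonarch m
    · rw [Int.cast_neg, AbsoluteValue.map_neg, Int.cast_natCast]
      exact nonarch_natCast_le h.nonarch m
  have h1 : (1 : K) = (n : K) * ((Nat.gcdA n p : ℤ) : K) + (p : K) * ((Nat.gcdB n p : ℤ) : K) := by
    exact_mod_cast congrArg (fun z : ℤ => (z : K)) hb
  have h2 := h.nonarch ((n : K) * ((Nat.gcdA n p : ℤ) : K)) ((p : K) * ((Nat.gcdB n p : ℤ) : K))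
  rw [← h1, AbsoluteValue.map_one, AbsoluteValue.map_mul, AbsoluteValue.map_mul, h.map_p] at h2
  have hp1 : (1 : ℝ) < p := by exact_mod_cast hp.one_lt
  rcases le_max_iff.mp h2 with h3 | h3
  · calc (1 : ℝ) ≤ w (n : K) * w ((Nat.gcdA n p : ℤ) : K) := h3
      _ ≤ w (n : K) * 1 := mul_le_mul_of_nonneg_left (hint _) (AbsoluteValue.nonneg w _)
      _ = w (n : K) := mul_one _
  · exfalso
    have h4 : (p : ℝ)⁻¹ * w ((Nat.gcdB n p : ℤ) : K) ≤ (p : ℝ)⁻¹ * 1 :=
      mul_le_mul_of_nonneg_left (hint _) (by positivity)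
    have h5 : (p : ℝ)⁻¹ < 1 := inv_lt_one_of_one_lt₀ hp1
    linarith

/-- **Row N0d.** For a prime `q`: `w q = 1` or `q = p` and `w q = 1/p`. -/
theorem PAdic.prime_ge (h : PAdic p w) (hp : p.Prime) {q : ℕ} (hq : q.Prime) :
    (p : ℝ)⁻¹ ≤ w (q : K) := by
  have hp1 : (1 : ℝ) < p := by exact_mod_cast hp.one_lt
  by_cases hqp : q = p
  · rw [hqp, h.map_p]
  · have h1 : ¬ p ∣ q := by
      intro hd
      exact hqp ((Nat.prime_dvd_prime_iff_eq hp hq).mp hd).symm
    rw [h.natCast_eq_one hp h1]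
    exact (inv_lt_one_of_one_lt₀ hp1).le

/-- **Row N0e.** -/
theorem PAdic.two_eq_one (h : PAdic p w) (hp : p.Prime) (hp2 : p ≠ 2) : w (2 : K) = 1 := by
  have h1 : ¬ p ∣ 2 := by
    intro hd
    exact hp2 ((Nat.prime_dvd_prime_iff_eq hp Nat.prime_two).mp hd)
  have := h.natCast_eq_one hp h1
  exact_mod_cast this

end N0

end Pool.Agent.ZC
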