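import Pool.Agent.Lib.MP_a1cc03_ag.L0_Leg

/-! # Row N11a: existence of AGM chains -/

noncomputable section

namespace Pool.Agent.ZC

theorem n11a_root {K : Type} [Field K] [IsAlgClosed K] (τ : K →+* ℂ) (l : K) :
    ∃ r : K, r ^ 2 = l ∧ 0 ≤ (τ r).re := by
  obtain ⟨z, hz⟩ := IsAlgClosed.exists_pow_nat_eq l (n := 2) (by norm_num)
  rcases le_total 0 (τ z).re with h | h
  · exact ⟨z, hz, h⟩
  · refine ⟨-z, by rw [neg_sq, hz], ?_⟩
    rw [map_neg, Complex.neg_re]
    linarith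

theorem n11a_step {K : Type} [Field K] [CharZero K] {l r : K} (h : r ^ 2 = l) (h0 : l ≠ 0)
    (h1 : l ≠ 1) : Lr r ≠ 0 ∧ Lr r ≠ 1 := by
  have hr : r ≠ 0 := by
    rintro rfl
    exact h0 (by rw [← h]; ring)
  have h4 : (4 : K) * r ≠ 0 := mul_ne_zero (by norm_num) hr
  constructor
  · unfold Lr
    refine div_ne_zero (pow_ne_zero 2 ?_) h4
    intro h2
    apply h1
    have : r = -1 := by linear_combination h2
    rw [← h, this]
    ring
  · unfold Lr
    intro h2
    rw [div_eq_iff h4] at h2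
    apply h1
    have h3 : (r - 1) ^ 2 = 0 := by linear_combination h2
    have h5 : r = 1 := by
      have := pow_eq_zero_iff (two_ne_zero) |>.mp h3
      linear_combination this
    rw [← h, h5]
    ring

/-- **Row N11a.** Construction of the chain: `r n` is a square root of `l n` with `Re τ(r n) ≥ 0`
(`K` algebraically closed; change the sign if necessary), `l (n+1) = Lr (r n)`, `e n` a square root of
`(r n)³`. `l (n+1) ≠ 0` because `r n ≠ -1` (`(r n)² = l n ≠ 1`), and `l (n+1) - 1 = (1 - r n)²/(4 r n) ≠ 0`. -/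
theorem exists_chain {K : Type} [Field K] [IsAlgClosed K] [CharZero K] (τ : K →+* ℂ) (l₀ : K)
    (h0 : l₀ ≠ 0) (h1 : l₀ ≠ 1) :
    ∃ l r e : ℕ → K, Chain l r e ∧ l 0 = l₀ ∧ ∀ n, 0 ≤ (τ (r n)).re := by
  choose rt hrt hre using fun l : K => n11a_root τ l
  choose sq hsq using fun x : K => IsAlgClosed.exists_pow_nat_eq x (n := 2) (by norm_num)
  let l : ℕ → K := fun n => Nat.rec l₀ (fun _ x => Lr (rt x)) n
  have hl0 : l 0 = l₀ := rfl
  have hl1 : ∀ n, l (n + 1) = Lr (rt (l n)) := fun n => rfl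
  have hne : ∀ n, l n ≠ 0 ∧ l n ≠ 1 := by
    intro n
    induction n with
    | zero => exact ⟨h0, h1⟩
    | succ n ih => rw [hl1]; exact n11a_step (hrt (l n)) ih.1 ih.2
  refine ⟨l, fun n => rt (l n), fun n => sq (rt (l n) ^ 3), ⟨fun n => hrt _, fun n => hl1 n,
    fun n => hsq _, fun n => (hne n).1, fun n => (hne n).2⟩, hl0, fun n => hre _⟩

end Pool.Agent.ZC
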