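import Pool.Agent.Lib.MP_a1cc03_ag.L0_Leg

/-! # Row N11b: convergence of the AGM -/

noncomputable section

namespace Pool.Agent.ZC

theorem N11b_tendsto_of_half {a : ℕ → ℝ} (h0 : ∀ n, 0 ≤ a n) (N : ℕ)
    (h : ∀ n, N ≤ n → a (n + 1) ≤ a n / 2) : Filter.Tendsto a Filter.atTop (nhds 0) := by
  rw [← Filter.tendsto_add_atTop_iff_nat N]
  have h1 : ∀ k, a (k + N) ≤ a N * (1 / 2) ^ k := by
    intro k
    induction k with
    | zero => simp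
    | succ k ih =>
      have h2 := h (k + N) (by omega)
      have h3 : k + 1 + N = k + N + 1 := by ring
      rw [h3, pow_succ]
      linarith
  refine squeeze_zero (fun k => h0 _) h1 ?_
  have h2 := (tendsto_pow_atTop_nhds_zero_of_lt_one (r := (1 / 2 : ℝ)) (by norm_num)
    (by norm_num)).const_mul (a N)
  simpa using h2

theorem N11b_norm_one_add {R : ℂ} (hR : 0 ≤ R.re) :
    1 + ‖R‖ ^ 2 ≤ ‖1 + R‖ ^ 2 ∧ 1 ≤ ‖1 + R‖ ∧ ‖1 - R‖ ≤ ‖1 + R‖ := by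
  have h1 : ‖1 + R‖ ^ 2 = 1 + 2 * R.re + ‖R‖ ^ 2 := by
    rw [← Complex.normSq_eq_norm_sq, ← Complex.normSq_eq_norm_sq, Complex.normSq_apply,
      Complex.normSq_apply]
    simp
    ring
  have h2 : ‖1 - R‖ ^ 2 = 1 - 2 * R.re + ‖R‖ ^ 2 := by
    rw [← Complex.normSq_eq_norm_sq, ← Complex.normSq_eq_norm_sq, Complex.normSq_apply,
      Complex.normSq_apply]
    simp
    ring
  refine ⟨by linarith, ?_, ?_⟩
  · nlinarith [norm_nonneg (1 + R), norm_nonneg R, sq_nonneg ‖R‖]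
  · nlinarith [norm_nonneg (1 + R), norm_nonneg (1 - R)]

/-- One step of the AGM. -/
theorem N11b_step {L R L' : ℂ} (hR : 0 ≤ R.re) (h1 : R ^ 2 = L) (h2 : L' = (1 + R) ^ 2 / (4 * R))
    (h0 : R ≠ 0) : 1 / 2 ≤ ‖L'‖ ∧
      (1 / 2 ≤ ‖L‖ → ‖L' - 1‖ ≤ ‖L - 1‖ / 2 ∧ ‖L' - 1‖ ≤ ‖L - 1‖ ^ 2 / 2) := by
  obtain ⟨a1, a2, a3⟩ := N11b_norm_one_add hR
  have hRpos : 0 < ‖R‖ := norm_pos_iff.mpr h0
  have hL' : ‖L'‖ = ‖1 + R‖ ^ 2 / (4 * ‖R‖) := by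
    rw [h2, norm_div, norm_pow, norm_mul]
    simp
  have hL'1 : ‖L' - 1‖ = ‖1 - R‖ ^ 2 / (4 * ‖R‖) := by
    have : L' - 1 = (1 - R) ^ 2 / (4 * R) := by
      rw [h2]
      field_simp
      ring
    rw [this, norm_div, norm_pow, norm_mul]
    simp
  have hL1 : ‖L - 1‖ = ‖1 - R‖ * ‖1 + R‖ := by
    rw [← norm_mul, ← norm_neg]
    congr 1
    rw [← h1]
    ring
  refine ⟨?_, ?_⟩
  · rw [hL', le_div_iff₀ (by positivity)]
    nlinarith [sq_nonneg (‖R‖ - 1)]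
  · intro hL
    have hRL : ‖R‖ ^ 2 = ‖L‖ := by rw [← h1, norm_pow]
    have hR2 : 1 / 2 ≤ ‖R‖ := by nlinarith
    have hn : 0 ≤ ‖1 - R‖ := norm_nonneg _
    have hq : ‖1 - R‖ ^ 2 / (4 * ‖R‖) ≤ ‖1 - R‖ ^ 2 / 2 := by
      apply div_le_div_of_nonneg_left (by positivity) (by norm_num) (by linarith)
    have b1 : ‖1 - R‖ ^ 2 ≤ ‖L - 1‖ := by
      rw [hL1]; nlinarith
    have b2 : ‖1 - R‖ ≤ ‖L - 1‖ := by
      rw [hL1]; nlinarith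
    have b3 : ‖1 - R‖ ^ 2 ≤ ‖L - 1‖ ^ 2 := pow_le_pow_left₀ hn b2 2
    rw [hL'1]
    exact ⟨by linarith, by linarith⟩

/-- **Row N11b.** Super-exponential convergence. Write `l, r` for `τ (l n)`, `τ (r n)`.
`|l_{n+1}| = |1 + r_n|²/(4 |r_n|) ≥ (1 + |r_n|²)/(4 |r_n|) ≥ 1/2`, so `|r_n| ≥ 1/√2` for `n ≥ 1`.
`|l_{n+1} - 1| = |1 - r_n|²/(4 |r_n|)`, `|1 - r_n| |1 + r_n| = |1 - l_n|`, `|1 + r_n| ≥ 1`, `|1 + r_n| ≥ |1 - r_n|`. So with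
`ε_n = |l_n - 1|`, for `n ≥ 1`: `ε_{n+1} ≤ (√2/4) ε_n` and `ε_{n+1} ≤ (√2/4) ε_n²`. The first gives
`ε_n → 0`; from the index where `ε_N ≤ 1/2` on, `ε_{N+k} ≤ 2^(-2^k)`, and `exp (C n) 2^(-2^(n-N)) → 0`. -/
theorem agm_decay {K : Type} [Field K] [CharZero K] (τ : K →+* ℂ) {l r e : ℕ → K}
    (hc : Chain l r e) (hre : ∀ n, 0 ≤ (τ (r n)).re) (C : ℝ) :
    Filter.Tendsto (fun n : ℕ => Real.exp (C * n) * ‖τ (l n) - 1‖) Filter.atTop (nhds 0) := by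
  have hR0 : ∀ n, τ (r n) ≠ 0 := by
    intro n h
    have h1 : r n = 0 := by
      rwa [map_eq_zero] at h
    apply hc.ne_zero n
    rw [← hc.sq n, h1]
    ring
  have hstep : ∀ n, 1 / 2 ≤ ‖τ (l (n + 1))‖ ∧
      (1 / 2 ≤ ‖τ (l n)‖ → ‖τ (l (n + 1)) - 1‖ ≤ ‖τ (l n) - 1‖ / 2 ∧
        ‖τ (l (n + 1)) - 1‖ ≤ ‖τ (l n) - 1‖ ^ 2 / 2) := by
    intro n
    apply N11b_step (hre n) _ _ (hR0 n)
    · rw [← map_pow, hc.sq n]
    · have h4 : τ 4 = 4 := map_ofNat τ 4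
      rw [hc.next n, Lr]
      simp [map_div₀, h4]
  have hhalf : ∀ n, 1 ≤ n → 1 / 2 ≤ ‖τ (l n)‖ := by
    intro n hn
    obtain ⟨m, rfl⟩ := Nat.exists_eq_add_of_le' hn
    exact (hstep m).1
  have hε : Filter.Tendsto (fun n => ‖τ (l n) - 1‖) Filter.atTop (nhds 0) := by
    apply N11b_tendsto_of_half (fun n => norm_nonneg _) 1
    intro n hn
    exact ((hstep n).2 (hhalf n hn)).1
  have hev : ∀ᶠ n in Filter.atTop, ‖τ (l n) - 1‖ < Real.exp (-C) :=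
    (hε.eventually_lt_const (Real.exp_pos _))
  obtain ⟨N, hN⟩ := Filter.eventually_atTop.mp hev
  apply N11b_tendsto_of_half (fun n => by positivity) (max N 1)
  intro n hn
  have hn1 : N ≤ n := le_trans (le_max_left _ _) hn
  have hn2 : 1 ≤ n := le_trans (le_max_right _ _) hn
  have h1 := ((hstep n).2 (hhalf n hn2)).2
  have h2 := hN n hn1
  have h3 : 0 ≤ ‖τ (l n) - 1‖ := norm_nonneg _
  have h4 : Real.exp (C * ((n + 1 : ℕ) : ℝ)) = Real.exp (C * n) * Real.exp C := by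
    rw [← Real.exp_add]
    congr 1
    push_cast
    ring
  have h5 : Real.exp C * ‖τ (l n) - 1‖ ≤ 1 := by
    have : Real.exp C * Real.exp (-C) = 1 := by
      rw [← Real.exp_add, add_neg_cancel, Real.exp_zero]
    rw [← this]
    exact mul_le_mul_of_nonneg_left h2.le (Real.exp_pos _).le
  rw [h4]
  calc Real.exp (C * n) * Real.exp C * ‖τ (l (n + 1)) - 1‖
      ≤ Real.exp (C * n) * Real.exp C * (‖τ (l n) - 1‖ ^ 2 / 2) := by gcongr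
    _ = Real.exp (C * n) * (Real.exp C * ‖τ (l n) - 1‖) * ‖τ (l n) - 1‖ / 2 := by ring
    _ ≤ Real.exp (C * n) * 1 * ‖τ (l n) - 1‖ / 2 := by gcongr
    _ = Real.exp (C * n) * ‖τ (l n) - 1‖ / 2 := by ring

end Pool.Agent.ZC
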