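import Pool.Agent.Lib.MP_a1cc03_ag.L0_Leg

/-! # Row N12a: Liouville inequality -/

noncomputable section

namespace Pool.Agent.ZC

open NumberField Height

open Classical in
/-- auxiliary for row N12a -/
theorem n12a_norm_le_height (k : Type) [Field k] [NumberField k] (τ : k →+* ℂ) (x : k) :
    ‖τ x‖ ≤ Height.mulHeight₁ x := by
  rw [NumberField.mulHeight₁_eq]
  set v : InfinitePlace k := InfinitePlace.mk τ with hv
  have h1 : ‖τ x‖ = v x := rfl
  have hfin : 1 ≤ ∏ᶠ v : FinitePlace k, max (v x) 1 :=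
    one_le_finprod fun _ => le_max_right _ _
  have hone : ∀ w : InfinitePlace k, (1:ℝ) ≤ max (w x) 1 ^ w.mult := fun w =>
    one_le_pow₀ (le_max_right _ _)
  have hprod : max (v x) 1 ^ v.mult ≤ ∏ w : InfinitePlace k, max (w x) 1 ^ w.mult := by
    rw [← Finset.mul_prod_erase Finset.univ _ (Finset.mem_univ v)]
    exact le_mul_of_one_le_right (by positivity) (Finset.one_le_prod fun w _ => hone w)
  have hv1 : v x ≤ max (v x) 1 ^ v.mult := by
    calc v x ≤ max (v x) 1 := le_max_left _ _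
      _ ≤ max (v x) 1 ^ v.mult := le_self_pow₀ (le_max_right _ _) v.mult_pos.ne'
  rw [h1]
  calc v x ≤ ∏ w : InfinitePlace k, max (w x) 1 ^ w.mult := hv1.trans hprod
    _ ≤ _ := le_mul_of_one_le_right (by positivity) hfin

/-- **Row N12a.** Liouville's inequality: for `x ≠ 0` in a number field `k` and an embedding `τ`,
`1/H(x) ≤ ‖τ x‖` where `H = Height.mulHeight₁`. (`H(x) = H(x⁻¹) = ∏ max(|x⁻¹|_v, 1)^{…} ≥ ‖τ x⁻¹‖`, all factors
being `≥ 1`; `NumberField.mulHeight₁_eq`.) -/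
theorem liouville (k : Type) [Field k] [NumberField k] (τ : k →+* ℂ) (x : k) (hx : x ≠ 0) :
    (Height.mulHeight₁ x)⁻¹ ≤ ‖τ x‖ := by
  have h := n12a_norm_le_height k τ x⁻¹
  rw [Height.mulHeight₁_inv, map_inv₀, norm_inv] at h
  have hτ : 0 < ‖τ x‖ := norm_pos_iff.mpr (by simpa using hx)
  exact inv_le_of_inv_le₀ hτ h

end Pool.Agent.ZC
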