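import Pool.Agent.Lib.MP_a1cc03_ag.L0_Leg

/-! # Row N12b: heights along a chain -/

noncomputable section

namespace Pool.Agent.ZC

/-- **Row N12b.** Linear growth of the logarithmic height along a chain contained in a number field `k`:
`h (l n) = 2 h (r n)` (`logHeight₁_pow`), and `l (n+1) = (r n + (r n)⁻¹ + 2)/4`, so
`h (l (n+1)) ≤ h (r n) + h ((r n)⁻¹) + C = h (l n) + C` (`logHeight₁_add_le`, `logHeight₁_mul_le`,
`logHeight₁_inv`). -/
theorem height_chain (k : Type) [Field k] [NumberField k] (l r : ℕ → k)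
    (hr : ∀ n, r n ≠ 0) (hsq : ∀ n, r n ^ 2 = l n) (hnext : ∀ n, l (n + 1) = Lr (r n)) :
    ∃ C : ℝ, ∀ n : ℕ, Height.logHeight₁ (l n - 1) ≤ C * (n + 1) := by
  set W : ℝ := (Height.totalWeight k : ℝ) * Real.log 2 with hW
  have hW0 : 0 ≤ W := by positivity
  set D : ℝ := 2 * W + Height.logHeight₁ (2 : k) + Height.logHeight₁ ((4 : k)⁻¹) with hD
  have hD0 : 0 ≤ D := by
    have h2 := Height.zero_le_logHeight₁ (2 : k)
    have h4 := Height.zero_le_logHeight₁ ((4 : k)⁻¹)
    linarith
  have hl0 := Height.zero_le_logHeight₁ (l 0)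
  have step : ∀ n, Height.logHeight₁ (l (n + 1)) ≤ Height.logHeight₁ (l n) + D := by
    intro n
    have e : l (n + 1) = (r n + (r n)⁻¹ + 2) * (4 : k)⁻¹ := by
      rw [hnext n, Lr]
      have := hr n
      field_simp
      ring
    have h1 := Height.logHeight₁_mul_le (r n + (r n)⁻¹ + 2) ((4 : k)⁻¹)
    have h2 := Height.logHeight₁_add_le (r n + (r n)⁻¹) (2 : k)
    have h3 := Height.logHeight₁_add_le (r n) ((r n)⁻¹)
    rw [Height.logHeight₁_inv] at h3
    have h4 : Height.logHeight₁ (l n) = 2 * Height.logHeight₁ (r n) := by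
      rw [← hsq n, Height.logHeight₁_pow]; norm_num
    rw [e]
    linarith
  have all : ∀ n : ℕ, Height.logHeight₁ (l n) ≤ Height.logHeight₁ (l 0) + n * D := by
    intro n
    induction n with
    | zero => simp
    | succ n ih =>
      have := step n
      push_cast
      linarith
  refine ⟨W + Height.logHeight₁ (l 0) + D, fun n => ?_⟩
  have h1 := Height.logHeight₁_sub_le (l n) 1
  rw [Height.logHeight₁_one] at h1
  have h2 := all n
  have hn : (0 : ℝ) ≤ n := Nat.cast_nonneg n
  nlinarith [mul_nonneg hn hW0, mul_nonneg hn hl0, mul_nonneg hn hD0]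

end Pool.Agent.ZC
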