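import Pool.Agent.Lib.MP_a1cc03_ag.N11b_Decay
import Pool.Agent.Lib.MP_a1cc03_ag.N12a_Liouville
import Pool.Agent.Lib.MP_a1cc03_ag.N12b_Height

/-! # Row N13: an AGM chain is not contained in a number field -/

noncomputable section

namespace Pool.Agent.ZC

/-- **Row N13.** An AGM chain is not contained in a number field: by N12,
`‖τ (l n) - 1‖ ≥ exp (-C (n + 1))`, which contradicts N11b. (Restrict the sequences and `τ` to `k`;
`l 0 = r 0 ^ 2 ∈ k`, `l n - 1 ≠ 0`.) -/
theorem not_all_mem (τ : AlgebraicClosure ℚ →+* ℂ) {l r e : ℕ → AlgebraicClosure ℚ}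
    (hc : Chain l r e) (hre : ∀ n, 0 ≤ (τ (r n)).re)
    (k : IntermediateField ℚ (AlgebraicClosure ℚ)) [FiniteDimensional ℚ k] :
    ∃ n, r n ∉ k := by
  by_contra hcon
  push Not at hcon
  have : NumberField k := { to_charZero := inferInstance, to_finiteDimensional := inferInstance }
  let r' : ℕ → k := fun n => ⟨r n, hcon n⟩
  let l' : ℕ → k := fun n => r' n ^ 2
  have hr' : ∀ n, ((r' n : k) : AlgebraicClosure ℚ) = r n := fun n => rfl
  have hl' : ∀ n, ((l' n : k) : AlgebraicClosure ℚ) = l n := by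
    intro n
    change (((r' n) ^ 2 : k) : AlgebraicClosure ℚ) = l n
    rw [← hc.sq n]
    push_cast
    rfl
  have hne : ∀ n, r' n ≠ 0 := by
    intro n h0
    apply hc.ne_zero n
    rw [← hl' n]
    change (((r' n) ^ 2 : k) : AlgebraicClosure ℚ) = 0
    rw [h0]
    simp
  obtain ⟨C, hC⟩ := height_chain k l' r' hne (fun n => rfl) (by
    intro n
    apply Subtype.ext
    rw [hl' (n + 1), hc.next n]
    simp only [Lr]
    push_cast
    rfl)
  have hlow : ∀ n : ℕ, Real.exp (-(C * (n + 1))) ≤ ‖τ (l n) - 1‖ := by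
    intro n
    have hx : l' n - 1 ≠ 0 := by
      intro h0
      apply hc.ne_one n
      rw [← hl' n]
      have : l' n = 1 := sub_eq_zero.mp h0
      rw [this]
      rfl
    have h1 := liouville k (τ.comp (algebraMap k (AlgebraicClosure ℚ))) (l' n - 1) hx
    have h2 : (τ.comp (algebraMap k (AlgebraicClosure ℚ))) (l' n - 1) = τ (l n) - 1 := by
      rw [RingHom.comp_apply, map_sub, map_one, map_sub, map_one]
      congr 2
      exact hl' n
    rw [h2] at h1
    refine le_trans ?_ h1
    have hpos : 0 < Height.mulHeight₁ (l' n - 1) := Height.mulHeight₁_pos _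
    rw [Real.exp_neg]
    apply inv_anti₀ hpos
    have h3 := hC n
    rw [Height.logHeight₁_eq_log_mulHeight₁] at h3
    rw [← Real.exp_log hpos]
    exact Real.exp_le_exp.mpr h3
  have hdec := agm_decay τ hc hre C
  have hev := hdec.eventually (gt_mem_nhds (Real.exp_pos (-C)))
  obtain ⟨n, hn⟩ := hev.exists
  have h5 : Real.exp (C * n) * Real.exp (-(C * (n + 1))) ≤ Real.exp (C * n) * ‖τ (l n) - 1‖ :=
    mul_le_mul_of_nonneg_left (hlow n) (Real.exp_pos _).le
  rw [← Real.exp_add] at h5
  have h6 : C * (n : ℝ) + -(C * (n + 1)) = -C := by ring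
  rw [h6] at h5
  linarith

end Pool.Agent.ZC
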