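import Pool.Agent.Lib.MP_a1cc03_ag.L0_Leg

/-! # Rows N14a, N14d: Galois descent; extraction of independent sequences -/

noncomputable section

namespace Pool.Agent.ZC

/-- **Row N14a.** `ℚ̄/k` is Galois; `InfiniteGalois.mem_bot_iff_fixed`. -/
theorem mem_of_fixed (k : IntermediateField ℚ (AlgebraicClosure ℚ)) (x : AlgebraicClosure ℚ)
    (h : ∀ σ : AlgebraicClosure ℚ ≃ₐ[ℚ] AlgebraicClosure ℚ, (∀ a ∈ k, σ a = a) → σ x = x) :
    x ∈ k := by
  have hg00 : IsAlgClosure ℚ (AlgebraicClosure ℚ) := AlgebraicClosure.instIsAlgClosure ℚ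
  have hg0 : IsGalois ℚ (AlgebraicClosure ℚ) := IsAlgClosure.isGalois ℚ (AlgebraicClosure ℚ)
  have hg : IsGalois k (AlgebraicClosure ℚ) := IsGalois.tower_top_intermediateField k
  have h1 : x ∈ Set.range (algebraMap k (AlgebraicClosure ℚ)) := by
    rw [InfiniteGalois.mem_range_algebraMap_iff_fixed]
    intro f
    exact h (f.restrictScalars ℚ) (fun a ha => f.commutes ⟨a, ha⟩)
  obtain ⟨y, rfl⟩ := h1
  exact y.2

/-- one greedy step -/
private lemma N14_step {M : Type} [AddCommGroup M] (R : ℕ → M) (N₀ : ℕ)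
    (hesc : ∀ B : AddSubgroup M, B.FG → ∃ n, N₀ ≤ n ∧ ∀ c : ℤ, c ≠ 0 → c • R n ∉ B)
    (s : Finset M) : ∃ n, N₀ ≤ n ∧ ∀ c : ℤ, c ≠ 0 → c • R n ∉ AddSubgroup.closure (s : Set M) :=
  hesc _ ⟨s, rfl⟩

/-- **Row N14d.** Greedy extraction of a `ℤ`-linearly independent sequence: choose `n₀ < …` successively
such that no nonzero multiple of `R n_k` is in the subgroup generated by the previous ones. A relation
`∑ c_i R (n_i) = 0` with largest index `k`, `c_k ≠ 0`, would give `c_k R (n_k)` in that subgroup. -/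
theorem exists_indep {M : Type} [AddCommGroup M] (A : AddSubgroup M) (R : ℕ → M) (N₀ : ℕ)
    (hR : ∀ n, N₀ ≤ n → R n ∈ A)
    (hesc : ∀ B : AddSubgroup M, B.FG → ∃ n, N₀ ≤ n ∧ ∀ c : ℤ, c ≠ 0 → c • R n ∉ B) :
    ∃ u : ℕ → A, LinearIndependent ℤ u := by
  classical
  choose f hf1 hf2 using N14_step R N₀ hesc
  -- the sequence of finite sets
  let S : ℕ → Finset M := fun k => Nat.rec ∅ (fun _ s => insert (R (f s)) s) k
  have hS0 : S 0 = ∅ := rfl
  have hSs : ∀ k, S (k + 1) = insert (R (f (S k))) (S k) := fun k => rfl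
  let v : ℕ → M := fun k => R (f (S k))
  have hvmem : ∀ k, v k ∈ S (k + 1) := fun k => by rw [hSs]; exact Finset.mem_insert_self _ _
  have hmono : ∀ i j, i ≤ j → S i ⊆ S j := by
    intro i j hij
    induction hij with
    | refl => exact Finset.Subset.refl _
    | step _ ih => exact ih.trans (by rw [hSs]; exact Finset.subset_insert _ _)
  have hvS : ∀ i j, i < j → v i ∈ S j := fun i j hij => hmono (i + 1) j hij (hvmem i)
  have hvA : ∀ k, v k ∈ A := fun k => hR _ (hf1 _)
  refine ⟨fun k => ⟨v k, hvA k⟩, ?_⟩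
  rw [linearIndependent_iff']
  intro s g hg
  by_contra hcon
  push Not at hcon
  obtain ⟨i₀, hi₀, hgi₀⟩ := hcon
  -- the largest index with non zero coefficient
  let T := s.filter fun i => g i ≠ 0
  have hT : T.Nonempty := ⟨i₀, Finset.mem_filter.mpr ⟨hi₀, hgi₀⟩⟩
  let m := T.max' hT
  have hm : m ∈ T := T.max'_mem hT
  have hms : m ∈ s := (Finset.mem_filter.mp hm).1
  have hgm : g m ≠ 0 := (Finset.mem_filter.mp hm).2
  have hlt : ∀ i ∈ s, i ≠ m → g i ≠ 0 → i < m := by
    intro i hi him hgi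
    exact lt_of_le_of_ne (T.le_max' i (Finset.mem_filter.mpr ⟨hi, hgi⟩)) him
  have hsum : ∑ i ∈ s, g i • v i = 0 := by
    have := congrArg (A.subtype) hg
    simpa using this
  have hsplit : g m • v m = - ∑ i ∈ s.erase m, g i • v i := by
    rw [← Finset.add_sum_erase s _ hms] at hsum
    exact eq_neg_of_add_eq_zero_left hsum
  apply hf2 (S m) (g m) hgm
  change g m • v m ∈ _
  rw [hsplit]
  apply neg_mem
  apply AddSubgroup.sum_mem
  intro i hi
  obtain ⟨him, his⟩ := Finset.mem_erase.mp hi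
  by_cases hgi : g i = 0
  · rw [hgi, zero_smul]; exact zero_mem _
  · exact AddSubgroup.zsmul_mem _ (AddSubgroup.subset_closure (hvS i m (hlt i his him hgi))) _

end Pool.Agent.ZC
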