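import Pool.Agent.Lib.MP_a1cc03_ag.L0_Leg

/-! # Row N14b: Galois action on points -/

noncomputable section

namespace Pool.Agent.ZC

open WeierstrassCurve

theorem n14b_map_eq {K : Type} [Field K] (σ : K →+* K) {l : K} (hσ : σ l = l) :
    (leg l).map σ = leg l := by
  simp [leg, WeierstrassCurve.map, hσ]

theorem n14b_nonsing {K : Type} [Field K] (σ : K →+* K) {l : K} (hσ : σ l = l) {x y : K}
    (h : (leg l).toAffine.Nonsingular x y) : (leg l).toAffine.Nonsingular (σ x) (σ y) := by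
  have h1 := (WeierstrassCurve.Affine.map_nonsingular (W := (leg l).toAffine) (f := σ) σ.injective x y).mpr h
  have h2 := n14b_map_eq σ hσ
  have h3 : ((leg l).map σ).toAffine.Nonsingular (σ x) (σ y) := h1
  rwa [h2] at h3

/-- the underlying function -/
def n14bFun {K : Type} [Field K] (σ : K →+* K) {l : K} (hσ : σ l = l) :
    (leg l).toAffine.Point → (leg l).toAffine.Point
  | .zero => .zero
  | .some x y h => .some (σ x) (σ y) (n14b_nonsing σ hσ h)

/-- **Row N14b.** An automorphism `σ` of `K` fixing `l` acts on the group of points of `leg l`: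
for additivity use the explicit formulas (`leg_add_of_ne`, `leg_double`), or view `leg l` as the base change
of a curve over the fixed field of `σ` and use `WeierstrassCurve.Affine.Point.map`. -/
theorem exists_galois_map {K : Type} [Field K] [CharZero K] [DecidableEq K] (σ : K ≃+* K) {l : K}
    (hσ : σ l = l) (h0 : l ≠ 0) (h1 : l ≠ 1) :
    ∃ f : (leg l).toAffine.Point →+ (leg l).toAffine.Point,
      ∀ (x y : K) (h : (leg l).toAffine.Nonsingular x y), ∃ h' : (leg l).toAffine.Nonsingular (σ x) (σ y),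
        f (.some x y h) = .some (σ x) (σ y) h' := by
  have hσ' : (σ : K →+* K) l = l := hσ
  have hW := n14b_map_eq (σ : K →+* K) hσ'
  have hneg : ∀ x y : K, (leg l).toAffine.negY (σ x) (σ y) = σ ((leg l).toAffine.negY x y) := by
    intro x y
    rw [leg_negY, leg_negY, map_neg]
  have hslope : ∀ x₁ x₂ y₁ y₂ : K, (leg l).toAffine.slope (σ x₁) (σ x₂) (σ y₁) (σ y₂) =
      σ ((leg l).toAffine.slope x₁ x₂ y₁ y₂) := by
    intro x₁ x₂ y₁ y₂
    have h : ((leg l).map (σ : K →+* K)).toAffine.slope (σ x₁) (σ x₂) (σ y₁) (σ y₂) =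
      σ ((leg l).toAffine.slope x₁ x₂ y₁ y₂) :=
      WeierstrassCurve.Affine.map_slope (W := (leg l).toAffine) (σ : K →+* K) x₁ x₂ y₁ y₂
    rwa [hW] at h
  have haddX : ∀ x₁ x₂ ℓ : K, (leg l).toAffine.addX (σ x₁) (σ x₂) (σ ℓ) =
      σ ((leg l).toAffine.addX x₁ x₂ ℓ) := by
    intro x₁ x₂ ℓ
    have h : ((leg l).map (σ : K →+* K)).toAffine.addX (σ x₁) (σ x₂) (σ ℓ) =
      σ ((leg l).toAffine.addX x₁ x₂ ℓ) :=
      WeierstrassCurve.Affine.map_addX (σ : K →+* K) x₁ x₂ ℓ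
    rwa [hW] at h
  have haddY : ∀ x₁ x₂ y₁ ℓ : K, (leg l).toAffine.addY (σ x₁) (σ x₂) (σ y₁) (σ ℓ) =
      σ ((leg l).toAffine.addY x₁ x₂ y₁ ℓ) := by
    intro x₁ x₂ y₁ ℓ
    have h : ((leg l).map (σ : K →+* K)).toAffine.addY (σ x₁) (σ x₂) (σ y₁) (σ ℓ) =
      σ ((leg l).toAffine.addY x₁ x₂ y₁ ℓ) :=
      WeierstrassCurve.Affine.map_addY (σ : K →+* K) x₁ y₁ x₂ ℓ
    rwa [hW] at h
  refine ⟨⟨⟨n14bFun (σ : K →+* K) hσ', rfl⟩, ?_⟩, fun x y h => ⟨n14b_nonsing (σ : K →+* K) hσ' h, rfl⟩⟩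
  rintro (_ | ⟨x₁, y₁, h₁⟩) (_ | ⟨x₂, y₂, h₂⟩)
  any_goals rfl
  by_cases hxy : x₁ = x₂ ∧ y₁ = (leg l).toAffine.negY x₂ y₂
  · rw [Affine.Point.add_of_Y_eq hxy.left hxy.right]
    symm
    exact Affine.Point.add_of_Y_eq (congr_arg σ hxy.left) (by
      rw [hxy.right]
      exact (hneg x₂ y₂).symm)
  · rw [Affine.Point.add_some hxy]
    have hxy' : ¬ (σ x₁ = σ x₂ ∧ σ y₁ = (leg l).toAffine.negY (σ x₂) (σ y₂)) := by
      rintro ⟨a, b⟩
      apply hxy
      refine ⟨σ.injective a, σ.injective ?_⟩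
      rw [b, hneg]
    have key := Affine.Point.add_some hxy' (h₁ := n14b_nonsing (σ : K →+* K) hσ' h₁)
      (h₂ := n14b_nonsing (σ : K →+* K) hσ' h₂)
    have e : n14bFun (σ : K →+* K) hσ' (.some x₁ y₁ h₁) + n14bFun (σ : K →+* K) hσ' (.some x₂ y₂ h₂)
      = Affine.Point.some (σ x₁) (σ y₁) (n14b_nonsing (σ : K →+* K) hσ' h₁) +
        Affine.Point.some (σ x₂) (σ y₂) (n14b_nonsing (σ : K →+* K) hσ' h₂) := rfl
    have e2 : n14bFun (σ : K →+* K) hσ' (.some _ _ (Affine.nonsingular_add h₁ h₂ hxy)) =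
      Affine.Point.some
        (σ ((leg l).toAffine.addX x₁ x₂ ((leg l).toAffine.slope x₁ x₂ y₁ y₂)))
        (σ ((leg l).toAffine.addY x₁ x₂ y₁ ((leg l).toAffine.slope x₁ x₂ y₁ y₂)))
        (n14b_nonsing (σ : K →+* K) hσ' (Affine.nonsingular_add h₁ h₂ hxy)) := rfl
    refine (e2.trans ?_).trans (e.trans key).symm
    congr 1
    · rw [hslope, haddX]
    · rw [hslope, haddY]

end Pool.Agent.ZC
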