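import Pool.Agent.Lib.MP_a1cc03_ag.L0_Leg

/-! # Row N14c: fields of definition -/

noncomputable section

namespace Pool.Agent.ZC

open WeierstrassCurve

/-- A point with coordinates in `k` (or the point at infinity). -/
def N14c_Def {K : Type} [Field K] {l : K} (k : Set K) (P : (leg l).toAffine.Point) : Prop :=
  ∀ (x y : K) (h : (leg l).toAffine.Nonsingular x y), P = Affine.Point.some x y h → x ∈ k ∧ y ∈ k

section N14c

variable {K : Type} [Field K] [DecidableEq K] [CharZero K] {l : K} {S : Type} [SetLike S K]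
  [SubfieldClass S K]

omit [DecidableEq K] [CharZero K] [SubfieldClass S K] in
theorem N14c_zero (k : S) : N14c_Def (l := l) (k : Set K) 0 := by
  intro x y h hP
  exact absurd hP (by simp)

omit [CharZero K] in
theorem N14c_neg (k : S) {P : (leg l).toAffine.Point} (hP : N14c_Def (k : Set K) P) :
    N14c_Def (k : Set K) (-P) := by
  rcases P with _ | ⟨x, y, h⟩
  · change N14c_Def (k : Set K) (-(0 : (leg l).toAffine.Point))
    rw [neg_zero]
    exact N14c_zero k
  · intro x' y' h' he
    have h2 := hP x y h rfl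
    rw [leg_neg_some h (leg_neg_nonsingular h)] at he
    injection he with e1 e2
    subst e1
    subst e2
    exact ⟨h2.1, neg_mem h2.2⟩

theorem N14c_add (k : S) (hl : l ∈ k) {P Q : (leg l).toAffine.Point}
    (hP : N14c_Def (k : Set K) P) (hQ : N14c_Def (k : Set K) Q) :
    N14c_Def (k : Set K) (P + Q) := by
  rcases P with _ | ⟨x₁, y₁, h₁⟩
  · change N14c_Def (k : Set K) ((0 : (leg l).toAffine.Point) + Q)
    rw [zero_add]
    exact hQ
  rcases Q with _ | ⟨x₂, y₂, h₂⟩
  · change N14c_Def (k : Set K) (Affine.Point.some x₁ y₁ h₁ + (0 : (leg l).toAffine.Point))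
    rw [add_zero]
    exact hP
  obtain ⟨a1, b1⟩ := hP x₁ y₁ h₁ rfl
  obtain ⟨a2, b2⟩ := hQ x₂ y₂ h₂ rfl
  rw [SetLike.mem_coe] at a1 b1 a2 b2
  have n1 : (1 : K) ∈ k := one_mem k
  have n2 : (2 : K) ∈ k := by
    have := add_mem n1 n1
    rwa [one_add_one_eq_two] at this
  have n3 : (3 : K) ∈ k := by
    have := add_mem n2 n1
    rwa [two_add_one_eq_three] at this
  by_cases hx : x₁ = x₂
  · subst hx
    have e1 := leg_eq_of_nonsingular h₁
    have e2 := leg_eq_of_nonsingular h₂
    have h12 : (y₁ - y₂) * (y₁ + y₂) = 0 := by linear_combination e1 - e2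
    rcases mul_eq_zero.mp h12 with h | h
    · have hy : y₁ = y₂ := sub_eq_zero.mp h
      subst hy
      by_cases hy0 : y₁ = 0
      · subst hy0
        have hz : Affine.Point.some x₁ 0 h₁ + Affine.Point.some x₁ 0 h₂ = 0 := by
          have hn := leg_neg_some h₁ (leg_neg_nonsingular h₁)
          have h3 : Affine.Point.some x₁ 0 h₂ = -Affine.Point.some x₁ 0 h₁ := by
            rw [hn]
            congr 1
            simp
          exact (congrArg (fun z => Affine.Point.some x₁ 0 h₁ + z) h3).trans (add_neg_cancel _)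
        rw [hz]
        exact N14c_zero k
      · obtain ⟨h₃, hs⟩ := leg_double h₁ two_ne_zero hy0
        have hs' : Affine.Point.some x₁ y₁ h₁ + Affine.Point.some x₁ y₁ h₂ =
          Affine.Point.some _ _ h₃ := hs
        rw [hs']
        intro x' y' h' he
        injection he with e3 e4
        have hm : ((3 * x₁ ^ 2 - 2 * (1 + l) * x₁ + l) / (2 * y₁)) ∈ k := by
          apply div_mem
          · exact add_mem (sub_mem (mul_mem n3 (pow_mem a1 2))
              (mul_mem (mul_mem n2 (add_mem n1 hl)) a1)) hl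
          · exact mul_mem n2 b1
        have hX : ((3 * x₁ ^ 2 - 2 * (1 + l) * x₁ + l) / (2 * y₁)) ^ 2 + (1 + l) - 2 * x₁ ∈ k :=
          sub_mem (add_mem (pow_mem hm 2) (add_mem n1 hl)) (mul_mem n2 a1)
        have hY : (-((3 * x₁ ^ 2 - 2 * (1 + l) * x₁ + l) / (2 * y₁) *
          ((((3 * x₁ ^ 2 - 2 * (1 + l) * x₁ + l) / (2 * y₁)) ^ 2 + (1 + l) - 2 * x₁) - x₁) + y₁)) ∈ k :=
          neg_mem (add_mem (mul_mem hm (sub_mem hX a1)) b1)
        rw [← e3, ← e4]
        exact ⟨hX, hY⟩
    · have hy : y₂ = -y₁ := by linear_combination h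
      subst hy
      have hz : Affine.Point.some x₁ y₁ h₁ + Affine.Point.some x₁ (-y₁) h₂ = 0 := by
        rw [← leg_neg_some h₁ h₂, add_neg_cancel]
      rw [hz]
      exact N14c_zero k
  · obtain ⟨h₃, hs⟩ := leg_add_of_ne h₁ h₂ hx
    rw [hs]
    intro x' y' h' he
    injection he with e3 e4
    have hm : (y₁ - y₂) / (x₁ - x₂) ∈ k := div_mem (sub_mem b1 b2) (sub_mem a1 a2)
    have hX : ((y₁ - y₂) / (x₁ - x₂)) ^ 2 + (1 + l) - x₁ - x₂ ∈ k :=
      sub_mem (sub_mem (add_mem (pow_mem hm 2) (add_mem n1 hl)) a1) a2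
    have hY : (-((y₁ - y₂) / (x₁ - x₂) * ((((y₁ - y₂) / (x₁ - x₂)) ^ 2 + (1 + l) - x₁ - x₂) - x₁)
        + y₁)) ∈ k := neg_mem (add_mem (mul_mem hm (sub_mem hX a1)) b1)
    rw [← e3, ← e4]
    exact ⟨hX, hY⟩

end N14c

/-- **Row N14c.** A finitely generated subgroup of `leg l (ℚ̄)` is defined over a number field `k` which
may be chosen to contain any given finite set: adjoin the coordinates of the generators, `l` and the finite
set; the points with coordinates in `k` form a subgroup (explicit addition formulas). -/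
theorem exists_field_of_fg [DecidableEq (AlgebraicClosure ℚ)] {l : AlgebraicClosure ℚ}
    (h0 : l ≠ 0) (h1 : l ≠ 1)
    (B : AddSubgroup (leg l).toAffine.Point) (hB : B.FG) (T : Finset (AlgebraicClosure ℚ)) :
    ∃ (k : IntermediateField ℚ (AlgebraicClosure ℚ)) (_ : FiniteDimensional ℚ k),
      l ∈ k ∧ (∀ a ∈ T, a ∈ k) ∧
      ∀ (x y : AlgebraicClosure ℚ) (h : (leg l).toAffine.Nonsingular x y),
        Affine.Point.some x y h ∈ B → x ∈ k ∧ y ∈ k := by
  classical
  obtain ⟨S, hS⟩ := hB
  let co : (leg l).toAffine.Point → Finset (AlgebraicClosure ℚ) := fun P =>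
    match P with
    | .zero => ∅
    | .some x y _ => {x, y}
  let U : Finset (AlgebraicClosure ℚ) := insert l T ∪ S.biUnion co
  let k : IntermediateField ℚ (AlgebraicClosure ℚ) := IntermediateField.adjoin ℚ (U : Set (AlgebraicClosure ℚ))
  have hUk : ∀ a ∈ U, a ∈ k := fun a ha => IntermediateField.subset_adjoin ℚ _ ha
  have hfd : FiniteDimensional ℚ k := by
    apply IntermediateField.finiteDimensional_adjoin
    intro x _
    exact isAlgebraic_iff_isIntegral.mp ((AlgebraicClosure.isAlgebraic ℚ).isAlgebraic x)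
  have hl : l ∈ k := hUk l (Finset.mem_union_left _ (Finset.mem_insert_self _ _))
  refine ⟨k, hfd, hl, fun a ha => hUk a (Finset.mem_union_left _ (Finset.mem_insert_of_mem ha)), ?_⟩
  have key : ∀ P ∈ B, N14c_Def (k : Set (AlgebraicClosure ℚ)) P := by
    intro P hP
    rw [← hS] at hP
    induction hP using AddSubgroup.closure_induction with
    | mem P hP =>
      intro x y h he
      have hc : ∀ a ∈ co P, a ∈ k := fun a ha =>
        hUk a (Finset.mem_union_right _ (Finset.mem_biUnion.mpr ⟨P, hP, ha⟩))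
      subst he
      exact ⟨hc x (by simp [co]), hc y (by simp [co])⟩
    | zero => exact N14c_zero k
    | add P Q _ _ hP hQ => exact N14c_add k hl hP hQ
    | neg P _ hP => exact N14c_neg k hP
  intro x y h hP
  exact key _ hP x y h rfl

end Pool.Agent.ZC
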