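import Pool.Agent.Lib.MP_a1cc03_ag.N8_Torsion
import Pool.Agent.Lib.MP_a1cc03_ag.N14b_Galois

/-! # Row N15a: Galois action and multiples -/

noncomputable section

namespace Pool.Agent.ZC

open WeierstrassCurve

variable [DecidableEq (AlgebraicClosure ℚ)]

/-- **Row N15a.** Let `k` be a number field containing `l 0`, `t` and (the coordinates of the elements
of) a subgroup `B`; let `σ` fix `k` pointwise. If `c R ∈ B` for `R = (X, Y)`, `c ≠ 0` and `w X > p`,
`w (σ X) > p`, then `σ X = X`.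
Proof. Let `f` be the Galois map of `σ` (N14b). `f` fixes the elements of `B` (coordinates in `k`), so
`c (f R - R) = f (c R) - c R = 0`; `f R - R` is `Big w B'` for `B' = min (w X) (w (σ X)) > p` (N6), so it is `0` by
torsion-freeness (N8b), applied with `n = |c|`; compare `x`-coordinates. -/
theorem fixed_of_multiple {p : ℕ} (hp : p.Prime) {w : AbsoluteValue (AlgebraicClosure ℚ) ℝ}
    (hw : PAdic p w) {l : AlgebraicClosure ℚ} (h0 : l ≠ 0) (h1 : l ≠ 1) (hl : w l ≤ 1)
    (k : IntermediateField ℚ (AlgebraicClosure ℚ)) (hlk : l ∈ k)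
    (B : AddSubgroup (leg l).toAffine.Point)
    (hB : ∀ (x y : AlgebraicClosure ℚ) (h : (leg l).toAffine.Nonsingular x y),
      Affine.Point.some x y h ∈ B → x ∈ k ∧ y ∈ k)
    (σ : AlgebraicClosure ℚ ≃ₐ[ℚ] AlgebraicClosure ℚ) (hσ : ∀ a ∈ k, σ a = a)
    {X Y : AlgebraicClosure ℚ} (h : (leg l).toAffine.Nonsingular X Y) (hX : (p : ℝ) < w X)
    (hσX : (p : ℝ) < w (σ X)) {c : ℤ} (hc : c ≠ 0)
    (hcB : c • Affine.Point.some X Y h ∈ B) : σ X = X := by
  have hpr : (1 : ℝ) < p := by exact_mod_cast hp.one_lt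
  have h2 : (2 : AlgebraicClosure ℚ) ≠ 0 := two_ne_zero
  obtain ⟨f, hf⟩ := exists_galois_map σ.toRingEquiv (l := l) (hσ l hlk) h0 h1
  obtain ⟨R, hR⟩ : ∃ R : (leg l).toAffine.Point, R = Affine.Point.some X Y h := ⟨_, rfl⟩
  obtain ⟨h', hfR⟩ := hf X Y h
  rw [← hR] at hfR hcB
  -- elements of `B` are fixed
  have hfix : f (c • R) = c • R := by
    obtain ⟨Q, hQ⟩ : ∃ Q : (leg l).toAffine.Point, Q = c • R := ⟨_, rfl⟩
    rw [← hQ] at hcB ⊢
    match Q, hcB with
    | .zero, _ => exact map_zero f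
    | .some x y hxy, hxB =>
      obtain ⟨hx, hy⟩ := hB x y hxy hxB
      obtain ⟨h'', hfQ⟩ := hf x y hxy
      rw [hfQ]
      have e1 : σ x = x := hσ x hx
      have e2 : σ y = y := hσ y hy
      congr 1
  have hz : c • (f R - R) = 0 := by
    rw [smul_sub, ← map_zsmul, hfix, sub_self]
  have hz' : c.natAbs • (f R - R) = 0 := by
    rcases Int.natAbs_eq c with hc' | hc'
    · rw [hc', natCast_zsmul] at hz
      exact hz
    · rw [hc', neg_smul, natCast_zsmul, neg_eq_zero] at hz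
      exact hz
  obtain ⟨B', hB'⟩ : ∃ B' : ℝ, B' = min (w X) (w (σ X)) := ⟨_, rfl⟩
  have hpB : (p : ℝ) < B' := by
    rw [hB']
    exact lt_min hX hσX
  have hB1 : 1 < B' := hpr.trans hpB
  have hbR : Big w B' R := Or.inr ⟨X, Y, h, hR, by rw [hB']; exact min_le_left _ _⟩
  have hbfR : Big w B' (f R) :=
    Or.inr ⟨σ X, σ Y, h', hfR, by rw [hB']; exact min_le_right _ _⟩
  have hbig : Big w B' (f R - R) := by
    rw [sub_eq_add_neg]
    exact Big.add hw.nonarch h2 hl hB1 hbfR hbR.neg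
  have hzero : f R - R = 0 := by
    by_contra hne
    exact big_torsion_free hp hw h2 hl hpB hbig hne c.natAbs (Int.natAbs_ne_zero.2 hc) hz'
  have heq : f R = R := sub_eq_zero.1 hzero
  rw [hfR, hR] at heq
  exact (Affine.Point.some.inj heq).1

end Pool.Agent.ZC
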