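import Pool.Agent.Lib.MP_a1cc03_ag.N5_Inj
import Pool.Agent.Lib.MP_a1cc03_ag.M2_Down

/-! # Rows N15b, N15c: Galois action on chains -/

noncomputable section

namespace Pool.Agent.ZC

theorem n15b_map_Lr {K L : Type} [Field K] [Field L] (σ : K →+* L) (r : K) :
    σ (Lr r) = Lr (σ r) := by
  simp only [Lr, map_div₀, map_mul, map_pow, map_add, map_one, map_ofNat]

theorem n15b_map_stepX {K L : Type} [Field K] [Field L] (σ : K →+* L) (r x : K) :
    σ (stepX r x) = stepX (σ r) (σ x) := by
  simp only [stepX, map_div₀, map_mul, map_sub, map_one, n15b_map_Lr]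

theorem n15b_map_stepY {K L : Type} [Field K] [Field L] (σ : K →+* L) (r e x y : K) :
    σ (stepY r e x y) = stepY (σ r) (σ e) (σ x) (σ y) := by
  simp only [stepY, map_div₀, map_mul, map_sub, map_add, map_pow, map_one, map_ofNat, n15b_map_Lr]

/-- **Row N15b.** Equivariance: `σ` of the first coordinate of `down r e n (t, y)` is the first
coordinate of `down (σ ∘ r) (σ ∘ e) n (σ t, σ y)` (induction; `σ` commutes with `stepX`, `stepY`, `Lr`). -/
theorem map_down {K L : Type} [Field K] [Field L] (σ : K →+* L) (r e : ℕ → K) (n : ℕ) (x y : K) :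
    σ (down r e n (x, y)).1 = (down (fun i => σ (r i)) (fun i => σ (e i)) n (σ x, σ y)).1 ∧
      σ (down r e n (x, y)).2 = (down (fun i => σ (r i)) (fun i => σ (e i)) n (σ x, σ y)).2 := by
  induction n generalizing x y with
  | zero => exact ⟨rfl, rfl⟩
  | succ n ih =>
    have h := ih (stepX (r n) x) (stepY (r n) (e n) x y)
    rw [n15b_map_stepX, n15b_map_stepY] at h
    exact h

theorem n15b_down_congr {K : Type} [Field K] {r r' : ℕ → K} (e : ℕ → K) (n : ℕ)
    (h : ∀ i, i < n → r i = r' i) (p : K × K) : down r e n p = down r' e n p := by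
  induction n generalizing p with
  | zero => rfl
  | succ n ih =>
    show down r e n (stepX (r n) p.1, stepY (r n) (e n) p.1 p.2)
      = down r' e n (stepX (r' n) p.1, stepY (r' n) (e n) p.1 p.2)
    rw [h n (Nat.lt_succ_self n)]
    exact ih (fun i hi => h i (Nat.lt_succ_of_lt hi)) _

/-- **Row N15c.** If `σ` fixes `t`, and the first coordinate of `down r e n (t, y n)` for all `n ≥ N₀ + 1`, and
`r i` for `i < N₀`, then `σ` fixes `r m` for all `m`.
Strong induction on `m ≥ N₀`: suppose `σ (r i) = r i` for `i < m`. `(σ (r m))² = σ (l m) = l m = (r m)²` since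
`l m` is `l 0` (if `m = 0`; then use `σ (l 0) = l 0`) or `Lr (r (m-1))`; so `σ (r m) = ± r m`.
If `σ (r m) = - r m`: `down r e (m+1) (t, y) = down r e m (stepX (r m) t, _)` and, by N15b and because `σ`
fixes `r i` for `i < m`, the first coordinate of its image is the first coordinate of
`down r _ m (stepX (- r m) t, _)` (`down_fst`: the sequence `e` and `y` do not matter; `down` of level `m`
only depends on `r i`, `i < m`). By `down_inj` (N5b; `w (stepX (± r m) t) = w t > 1` by N4a)
`stepX (r m) t = stepX (- r m) t`, which contradicts `stepX_neg_ne` (N5c). -/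
theorem fixed_chain {w : AbsoluteValue (AlgebraicClosure ℚ) ℝ} (hw : IsNonarchimedean w)
    (h2 : w 2 = 1) {l r e : ℕ → AlgebraicClosure ℚ} (hc : Chain l r e) (hu : Unit2 w (l 0))
    {t : AlgebraicClosure ℚ} (ht : 1 < w t) (y : ℕ → AlgebraicClosure ℚ)
    (σ : AlgebraicClosure ℚ ≃ₐ[ℚ] AlgebraicClosure ℚ) (hσt : σ t = t) (hσl : σ (l 0) = l 0)
    (N₀ : ℕ) (hσr : ∀ i, i < N₀ → σ (r i) = r i)
    (hfix : ∀ n, N₀ + 1 ≤ n → σ (down r e n (t, y n)).1 = (down r e n (t, y n)).1) (m : ℕ) :
    σ (r m) = r m := by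
  have hun := chain_units hw h2 hc.sq hc.next hu
  have hr1 : ∀ n, w (r n) = 1 := fun n => (hun n).2
  have hL1 : ∀ n, w (Lr (r n)) ≤ 1 := fun n => by
    rw [← hc.next n]; exact le_of_eq (hun (n + 1)).1.1
  induction m using Nat.strong_induction_on with
  | _ m ih =>
    by_cases hm : m < N₀
    · exact hσr m hm
    have hm' : N₀ + 1 ≤ m + 1 := by omega
    have hLm : σ (l m) = l m := by
      rcases m with _ | k
      · exact hσl
      · rw [hc.next k]
        have := n15b_map_Lr (σ : AlgebraicClosure ℚ →+* AlgebraicClosure ℚ) (r k)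
        rw [show ((σ : AlgebraicClosure ℚ →+* AlgebraicClosure ℚ) (r k)) = σ (r k) from rfl,
          ih k (Nat.lt_succ_self k)] at this
        exact this
    have hsq : σ (r m) ^ 2 = r m ^ 2 := by
      rw [← map_pow, hc.sq m, hLm]
    rcases sq_eq_sq_iff_eq_or_eq_neg.mp hsq with h | h
    · exact h
    exfalso
    have hf := hfix (m + 1) hm'
    have hmd := (map_down (σ : AlgebraicClosure ℚ →+* AlgebraicClosure ℚ) r e (m + 1) t
      (y (m + 1))).1
    have hmd' : σ (down r e (m + 1) (t, y (m + 1))).1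
        = (down (fun i => σ (r i)) (fun i => σ (e i)) (m + 1) (σ t, σ (y (m + 1)))).1 := hmd
    have hstep : (down (fun i => σ (r i)) (fun i => σ (e i)) (m + 1) (σ t, σ (y (m + 1)))).1
        = (down (fun i => σ (r i)) (fun i => σ (e i)) m
          (stepX (σ (r m)) (σ t), stepY (σ (r m)) (σ (e m)) (σ t) (σ (y (m + 1))))).1 := rfl
    have hcg := n15b_down_congr (r := fun i => σ (r i)) (r' := r) (fun i => σ (e i)) m
      (fun i hi => ih i hi)
      (stepX (σ (r m)) (σ t), stepY (σ (r m)) (σ (e m)) (σ t) (σ (y (m + 1))))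
    rw [hf, hstep, hcg] at hmd'
    have hds := down_fst r (fun i => σ (e i)) e m (stepX (σ (r m)) (σ t))
      (stepY (σ (r m)) (σ (e m)) (σ t) (σ (y (m + 1)))) 0
    rw [hds, hσt, h] at hmd'
    have hlhs : (down r e (m + 1) (t, y (m + 1))).1
        = (down r e m (stepX (r m) t, stepY (r m) (e m) t (y (m + 1)))).1 := rfl
    rw [hlhs] at hmd'
    have hrn : w (-(r m)) = 1 := by rw [AbsoluteValue.map_neg]; exact hr1 m
    have hr0 : r m ≠ 0 := by
      intro h0
      have := hr1 m
      rw [h0, map_zero] at this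
      exact zero_ne_one this
    have hLneg : Lr (-(r m)) = 1 - Lr (r m) := by
      unfold Lr
      field_simp
      ring
    have hLn : w (Lr (-(r m))) ≤ 1 := by
      rw [hLneg, ← hc.next m]
      exact le_of_eq (hun (m + 1)).1.2
    have hx := (stepX_large hw (hr1 m) (hL1 m) ht).1
    have hx' := (stepX_large hw hrn hLn ht).1
    have heq := down_inj (e := e) hw hr1 hL1 m _ _ (by rw [hx]; exact ht) (by rw [hx']; exact ht)
      hmd'
    exact stepX_neg_ne hw h2 (hr1 m) (hL1 m) ht heq

end Pool.Agent.ZC
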