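import Pool.Agent.Lib.MP_a1cc03_ag.N0_Abs

/-! # Row N2: p-adic embeddings -/

noncomputable section

namespace Pool.Agent.ZC

/-- **Row N2a.** `wAt ι` is `p`-adic (the norm of `PadicAlgCl p` is nonarchimedean and extends the norm of
`ℚ_[p]`). -/
theorem wAt_padic {K : Type} [Field K] {p : ℕ} [Fact p.Prime] (ι : K →+* PadicAlgCl p) :
    PAdic p (wAt ι) := by
  refine ⟨fun x y => ?_, ?_⟩
  · show ‖ι (x + y)‖ ≤ max ‖ι x‖ ‖ι y‖
    rw [map_add]
    exact PadicAlgCl.isNonarchimedean p (ι x) (ι y)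
  · show ‖ι (p : K)‖ = (p : ℝ)⁻¹
    have h1 : ι (p : K) = algebraMap ℚ_[p] (PadicAlgCl p) (p : ℚ_[p]) := by
      rw [map_natCast, map_natCast]
    rw [h1]
    have h2 := PadicAlgCl.norm_extends p (p : ℚ_[p])
    rw [show ‖algebraMap ℚ_[p] (PadicAlgCl p) (p : ℚ_[p])‖ = ‖(p : ℚ_[p])‖ from h2]
    exact Padic.norm_p

/-- **Row N2b.** `ℚ̄` embeds in `PadicAlgCl p` (`IsAlgClosed.lift`). -/
theorem exists_embedding (p : ℕ) [Fact p.Prime] :
    Nonempty (AlgebraicClosure ℚ →+* PadicAlgCl p) := by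
  have h : Algebra.IsAlgebraic ℚ (AlgebraicClosure ℚ) := by
    have h0 := AlgebraicClosure.isAlgebraic ℚ
    have e : (DivisionRing.toRatAlgebra : Algebra ℚ (AlgebraicClosure ℚ))
        = AlgebraicClosure.instAlgebra ℚ := Subsingleton.elim _ _
    rw [e]
    exact h0
  exact ⟨(IsAlgClosed.lift : AlgebraicClosure ℚ →ₐ[ℚ] PadicAlgCl p).toRingHom⟩

end Pool.Agent.ZC
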