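import Pool.Agent.Lib.MP_a1cc03_ag.N15a_Multiple
import Pool.Agent.Lib.MP_a1cc03_ag.N15b_Fixed
import Pool.Agent.Lib.MP_a1cc03_ag.N13_NotAll
import Pool.Agent.Lib.MP_a1cc03_ag.N14a_Fixed
import Pool.Agent.Lib.MP_a1cc03_ag.N14c_Field
import Pool.Agent.Lib.MP_a1cc03_ag.N2_Embed

/-! # Row N15d: the points of a chain are of infinite rank -/

noncomputable section

namespace Pool.Agent.ZC

open WeierstrassCurve

variable [DecidableEq (AlgebraicClosure ℚ)]

/-- **Row N15d.** Key statement. Suppose that for every `n ≥ N₀ + 1` some nonzero multiple of `R n` lies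
in the finitely generated subgroup `B`. Let `k` be the number field of N14c for `B` and the finite set
`{t, r 0, …, r N₀}`. Let `σ` fix `k`. For `w = wAt ι` (N2a) we have `w (l 0) = w (1 - l 0) = 1` and the same for the
conjugate chain `σ ∘ r` (`wAt (ι ∘ σ)` is another such value, hypothesis `hunit`), so by N3, N4b
`w X_n = w t` and `w (σ X_n) = w t > p`, `X_n` the first coordinate of `R n` (N15b). By N15a `σ X_n = X_n` for
`n ≥ N₀ + 1`, hence `σ (r m) = r m` for all `m` by N15c, so `r m ∈ k` for all `m` (N14a), which contradicts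
`not_all_mem` (N13). -/
theorem key_indep {p : ℕ} [Fact p.Prime] (hp2 : p ≠ 2) (ι : AlgebraicClosure ℚ →+* PadicAlgCl p)
    (τ : AlgebraicClosure ℚ →+* ℂ) {l r e : ℕ → AlgebraicClosure ℚ} (hc : Chain l r e)
    (hre : ∀ n, 0 ≤ (τ (r n)).re)
    (hunit : ∀ ι' : AlgebraicClosure ℚ →+* PadicAlgCl p, Unit2 (wAt ι') (l 0))
    {t : AlgebraicClosure ℚ} (ht : (p : ℝ) < ‖ι t‖) (y : ℕ → AlgebraicClosure ℚ)
    (R : ℕ → (leg (l 0)).toAffine.Point)
    (hR : ∀ n, ∃ h, R n = .some (down r e n (t, y n)).1 (down r e n (t, y n)).2 h)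
    (N₀ : ℕ) (B : AddSubgroup (leg (l 0)).toAffine.Point) (hB : B.FG) :
    ∃ n, N₀ ≤ n ∧ ∀ c : ℤ, c ≠ 0 → c • R n ∉ B := by
  classical
  by_contra hcon
  push Not at hcon
  have hprime : p.Prime := Fact.out
  have hl0 : l 0 ≠ 0 := hc.ne_zero 0
  have hl1 : l 0 ≠ 1 := hc.ne_one 0
  have hp1 : (1 : ℝ) < p := by exact_mod_cast hprime.one_lt
  -- at every embedding the chain is good
  have hgood : ∀ ι' : AlgebraicClosure ℚ →+* PadicAlgCl p,
      (∀ n, wAt ι' (r n) = 1) ∧ ∀ n, wAt ι' (Lr (r n)) ≤ 1 := by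
    intro ι'
    have hP := wAt_padic ι'
    have h2 : wAt ι' 2 = 1 := hP.two_eq_one hprime hp2
    have hch := chain_units hP.nonarch h2 hc.sq hc.next (hunit ι')
    refine ⟨fun n => (hch n).2, fun n => ?_⟩
    rw [← hc.next n]
    exact (hch (n + 1)).1.1.le
  obtain ⟨k, hk, hlk, hTk, hBk⟩ := exists_field_of_fg hl0 hl1 B hB
    (insert t ((Finset.range N₀).image r))
  have htk : t ∈ k := hTk t (Finset.mem_insert_self _ _)
  have hrk : ∀ i, i < N₀ → r i ∈ k := fun i hi =>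
    hTk _ (Finset.mem_insert_of_mem (Finset.mem_image_of_mem r (Finset.mem_range.mpr hi)))
  have hw := wAt_padic ι
  have h2 : wAt ι 2 = 1 := hw.two_eq_one hprime hp2
  have hall : ∀ m, r m ∈ k := by
    intro m
    refine mem_of_fixed k (r m) ?_
    intro σ hσ
    refine fixed_chain (w := wAt ι) hw.nonarch h2 hc (hunit ι) (t := t) (lt_trans hp1 ht) y σ
      (hσ t htk) (hσ (l 0) hlk) N₀ (fun i hi => hσ _ (hrk i hi)) ?_ m
    intro n hn
    obtain ⟨c, hc0, hcB⟩ := hcon n (by omega)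
    obtain ⟨h, hRn⟩ := hR n
    rw [hRn] at hcB
    have hX : wAt ι (down r e n (t, y n)).1 = wAt ι t :=
      (down_large hw.nonarch (hgood ι).1 (hgood ι).2 n (y n) (lt_trans hp1 ht)).1
    let ι' : AlgebraicClosure ℚ →+* PadicAlgCl p := ι.comp (σ : AlgebraicClosure ℚ →+* AlgebraicClosure ℚ)
    have hι't : wAt ι' t = wAt ι t := by
      show ‖ι (σ t)‖ = ‖ι t‖
      rw [hσ t htk]
    have hX' : wAt ι' (down r e n (t, y n)).1 = wAt ι' t :=
      (down_large (wAt_padic ι').nonarch (hgood ι').1 (hgood ι').2 n (y n)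
        (by rw [hι't]; exact lt_trans hp1 ht)).1
    have hσX : wAt ι (σ (down r e n (t, y n)).1) = wAt ι t := by
      rw [← hι't, ← hX']
      rfl
    exact fixed_of_multiple hprime hw hl0 hl1 (hunit ι).1.le k hlk B hBk σ hσ h
      (by rw [hX]; exact ht) (by rw [hσX]; exact ht) hc0 hcB
  obtain ⟨n, hn⟩ := not_all_mem τ hc hre k
  exact hn (hall n)

end Pool.Agent.ZC
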