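import Pool.Agent.Lib.MP_a1cc03_ag.N1_Good
import Pool.Agent.Lib.MP_a1cc03_ag.N11b_Decay

/-! # Rows N16a, N16b: choice of the prime; no collisions -/

noncomputable section

namespace Pool.Agent.ZC

/-- **Row N16a.** Choice of the prime: there is a prime `p ≠ 2` such that `l`, `1 - l`, `m`, `1 - m` are units
for all `p`-adic `w` (`exists_good` for the four numbers, `Nat.exists_infinite_primes`). -/
theorem exists_prime {l m : AlgebraicClosure ℚ} (hl0 : l ≠ 0) (hl1 : l ≠ 1) (hm0 : m ≠ 0)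
    (hm1 : m ≠ 1) :
    ∃ p : ℕ, p.Prime ∧ p ≠ 2 ∧ ∀ w : AbsoluteValue (AlgebraicClosure ℚ) ℝ, PAdic p w →
      Unit2 w l ∧ Unit2 w m := by
  obtain ⟨a, ha, ha'⟩ := exists_good l hl0
  obtain ⟨b, hb, hb'⟩ := exists_good (1 - l) (sub_ne_zero.mpr (Ne.symm hl1))
  obtain ⟨c, hc, hc'⟩ := exists_good m hm0
  obtain ⟨d, hd, hd'⟩ := exists_good (1 - m) (sub_ne_zero.mpr (Ne.symm hm1))
  obtain ⟨p, hp, hpp⟩ := Nat.exists_infinite_primes (a + b + c + d + 3)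
  have key : ∀ n : ℕ, 0 < n → n ≤ a + b + c + d → ¬ p ∣ n := by
    intro n hn hle hdvd
    have := Nat.le_of_dvd hn hdvd
    omega
  refine ⟨p, hpp, by omega, fun w hw => ⟨⟨?_, ?_⟩, ⟨?_, ?_⟩⟩⟩
  · exact ha' p hpp (key a ha (by omega)) w hw
  · exact hb' p hpp (key b hb (by omega)) w hw
  · exact hc' p hpp (key c hc (by omega)) w hw
  · exact hd' p hpp (key d hd (by omega)) w hw

/-- **Row N16b.** For large indices the parameters do not collide: `l i → 1`, `1 - l' j → 0` in `ℂ`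
(`agm_decay` with `C = 0`), and `τ (l 0) ≠ 0`. -/
theorem exists_no_collision (τ : AlgebraicClosure ℚ →+* ℂ) {l r e l' r' e' : ℕ → AlgebraicClosure ℚ}
    (hc : Chain l r e) (hre : ∀ n, 0 ≤ (τ (r n)).re) (hc' : Chain l' r' e')
    (hre' : ∀ n, 0 ≤ (τ (r' n)).re) :
    ∃ N : ℕ, ∀ i j, (i = 0 ∨ N ≤ i) → N ≤ j → l i ≠ 1 - l' j := by
  have h1 := agm_decay τ hc hre 0
  have h2 := agm_decay τ hc' hre' 0
  simp only [zero_mul, Real.exp_zero, one_mul] at h1 h2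
  have h0 : 0 < ‖τ (l 0)‖ := by
    rw [norm_pos_iff]
    exact (map_ne_zero τ).mpr (hc.ne_zero 0)
  have hε : 0 < min ‖τ (l 0)‖ (1 / 2) := lt_min h0 (by norm_num)
  have e1 : ∀ᶠ n in Filter.atTop, ‖τ (l n) - 1‖ < 1 / 2 :=
    h1.eventually (gt_mem_nhds (by norm_num))
  have e2 : ∀ᶠ n in Filter.atTop, ‖τ (l' n) - 1‖ < min ‖τ (l 0)‖ (1 / 2) :=
    h2.eventually (gt_mem_nhds hε)
  obtain ⟨N, hN⟩ := Filter.eventually_atTop.mp (e1.and e2)
  refine ⟨N, fun i j hi hj heq => ?_⟩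
  have hj2 := (hN j hj).2
  have hnorm : ‖τ (l i)‖ = ‖τ (l' j) - 1‖ := by
    rw [heq, map_sub, map_one, norm_sub_rev]
  rcases hi with hi | hi
  · subst hi
    have := min_le_left ‖τ (l 0)‖ (1 / 2)
    linarith
  · have hi1 := (hN i hi).1
    have := min_le_right ‖τ (l 0)‖ (1 / 2)
    have h3 : (1 : ℝ) ≤ ‖τ (l i)‖ + ‖τ (l i) - 1‖ := by
      calc (1 : ℝ) = ‖(1 : ℂ)‖ := by simp
        _ = ‖τ (l i) - (τ (l i) - 1)‖ := by congr 1; ring
        _ ≤ ‖τ (l i)‖ + ‖τ (l i) - 1‖ := norm_sub_le _ _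
    linarith

end Pool.Agent.ZC
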