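import Pool.Agent.Lib.MP_a1cc03_ag.N15d_Key
import Pool.Agent.Lib.MP_a1cc03_ag.N16a_Prime
import Pool.Agent.Lib.MP_a1cc03_ag.N11a_Chain
import Pool.Agent.Lib.MP_a1cc03_ag.M4_Main

/-! # Row N16c: the orthogonal subgroups -/

noncomputable section

namespace Pool.Agent.ZC

open WeierstrassCurve

/-- Choice of the `y`-coordinates above a fixed `x`-coordinate, with the first one prescribed. -/
theorem exists_sqrt_seq {K : Type} [Field K] [IsAlgClosed K] (f : ℕ → K) (y₀ : K)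
    (h : y₀ ^ 2 = f 0) : ∃ y : ℕ → K, y 0 = y₀ ∧ ∀ n, y n ^ 2 = f n := by
  have hex : ∀ n, ∃ y : K, y ^ 2 = f n := fun n => IsAlgClosed.exists_pow_nat_eq (f n) two_pos
  choose g hg using hex
  refine ⟨fun n => if n = 0 then y₀ else g n, by simp, fun n => ?_⟩
  by_cases hn : n = 0
  · subst hn; simpa using h
  · simpa [hn] using hg n

/-- The points of a chain above a fixed `x`-coordinate of large absolute value. -/
theorem exists_points {K : Type} [Field K] [IsAlgClosed K] [CharZero K] {w : AbsoluteValue K ℝ}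
    (hw : IsNonarchimedean w) (h2 : w 2 = 1) {l r e : ℕ → K} (hc : Chain l r e)
    (hu : Unit2 w (l 0)) {t : K} (ht : 1 < w t) (y : ℕ → K)
    (hy : ∀ n, y n ^ 2 = t * (t - 1) * (t - l n)) (n : ℕ) :
    Good r n t ∧
      (leg (l 0)).toAffine.Nonsingular (down r e n (t, y n)).1 (down r e n (t, y n)).2 := by
  have hcu := chain_units hw h2 hc.sq hc.next hu
  have hL : ∀ n, w (Lr (r n)) ≤ 1 := fun n => by
    rw [← hc.next n]
    exact (hcu (n + 1)).1.1.le
  have hd := down_large (e := e) hw (fun n => (hcu n).2) hL n (y n) ht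
  have hr : ∀ n, r n ≠ 0 := by
    intro n h0
    have := hc.sq n
    rw [h0] at this
    exact hc.ne_zero n (by rw [← this]; ring)
  refine ⟨hd.2, ?_⟩
  rw [leg_nonsingular (hc.ne_zero 0) (hc.ne_one 0)]
  exact down_equation hc.sq hc.next hc.esq hr n t (y n) hd.2 (hy n)

variable [DecidableEq (AlgebraicClosure ℚ)]

/-- **Row N16c.** Given a point `(t, y₀)` of `leg l` with `‖ι t‖ > p`. Choose an embedding `τ` of `ℚ̄` in `ℂ`
and AGM chains with `l 0 = l` and `l' 0 = m` (`exists_chain`); let `R n` be the points of the chain of `l`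
above `t` (`R 0 = (t, y₀)`, all `y n` square roots of `t (t - 1) (t - l n)`; they are points of `leg l` by
`down_equation` and `leg_nonsingular`) and `S n` those of the chain of `m` above `1 - t`. Choose `N` as in
N16b. Let `A₁` be the set of all `a` such that `{a, S j}` is torsion for all `j ≥ N` (a subgroup, B4b), and
`A₂` the set of all `b` such that `{a, b}` is torsion for all `a ∈ A₁` (a subgroup, B4c). Then `R 0 ∈ A₁`,
`R i ∈ A₁` for `i ≥ N` (M4: `tors_main`; `Good` by N4b; `w t, w (1 - t) > 1`, so `t` and `1 - t` differ from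
`0, 1, l i, 1 - l' j`, which have absolute value `≤ 1` by N3), `S j ∈ A₂` for `j ≥ N`, and both subgroups have
infinite rank by `key_indep` (N15d; `‖ι (1 - t)‖ = ‖ι t‖`) and `exists_indep` (N14d). `A₁` is saturated
by B4b. -/
theorem exists_subgroups {p : ℕ} [Fact p.Prime] (hp2 : p ≠ 2)
    (ι : AlgebraicClosure ℚ →+* PadicAlgCl p) {l m : AlgebraicClosure ℚ} (hl0 : l ≠ 0) (hl1 : l ≠ 1)
    (hm0 : m ≠ 0) (hm1 : m ≠ 1)
    (hunit : ∀ w : AbsoluteValue (AlgebraicClosure ℚ) ℝ, PAdic p w → Unit2 w l ∧ Unit2 w m)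
    {t y₀ : AlgebraicClosure ℚ} (h : (leg l).toAffine.Nonsingular t y₀) (ht : (p : ℝ) < ‖ι t‖) :
    ∃ (A₁ : AddSubgroup (leg l).toAffine.Point) (A₂ : AddSubgroup (leg m).toAffine.Point),
      Affine.Point.some t y₀ h ∈ A₁ ∧
      (∀ (P : (leg l).toAffine.Point) (n : ℕ), 0 < n → n • P ∈ A₁ → P ∈ A₁) ∧
      (∃ u : ℕ → A₁, LinearIndependent ℤ u) ∧ (∃ u : ℕ → A₂, LinearIndependent ℤ u) ∧
      ∀ a ∈ A₁, ∀ b ∈ A₂, TorsSym (leg l) (leg m) a b := by
  have hp : p.Prime := Fact.out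
  obtain ⟨τ⟩ : Nonempty (AlgebraicClosure ℚ →+* ℂ) := by
    have : Algebra.IsAlgebraic ℚ (AlgebraicClosure ℚ) := AlgebraicClosure.isAlgebraic ℚ
    exact ⟨(IsAlgClosed.lift (R := ℚ) (S := AlgebraicClosure ℚ) (M := ℂ)).toRingHom⟩
  obtain ⟨l', r, e, hc, hl', hre⟩ := exists_chain τ l hl0 hl1
  obtain ⟨m', s, f, hc', hm', hre'⟩ := exists_chain τ m hm0 hm1
  subst hl'
  subst hm'
  have hwp : PAdic p (wAt ι) := wAt_padic ι
  have hw : IsNonarchimedean (wAt ι) := hwp.nonarch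
  have h2 : wAt ι 2 = 1 := hwp.two_eq_one hp hp2
  have hu := hunit _ hwp
  have hp1 : (1 : ℝ) < p := by exact_mod_cast hp.one_lt
  have hwt : (p : ℝ) < wAt ι t := ht
  have ht1 : 1 < wAt ι t := hp1.trans hwt
  have hw1 : wAt ι (1 : AlgebraicClosure ℚ) = 1 := map_one _
  have hwt' : wAt ι (1 - t) = wAt ι t := by
    rw [AbsoluteValue.map_sub]
    exact nonarch_sub_eq hw (by rw [hw1]; exact ht1)
  have ht1' : 1 < wAt ι (1 - t) := by rw [hwt']; exact ht1
  have htp' : (p : ℝ) < ‖ι (1 - t)‖ := by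
    have : (p : ℝ) < wAt ι (1 - t) := by rw [hwt']; exact hwt
    exact this
  have hcu := chain_units hw h2 hc.sq hc.next hu.1
  have hcu' := chain_units hw h2 hc'.sq hc'.next hu.2
  -- the `y`-coordinates
  obtain ⟨y, hy0, hy⟩ := exists_sqrt_seq (fun n => t * (t - 1) * (t - l' n)) y₀
    (leg_eq_of_nonsingular h)
  obtain ⟨z₀, hz₀⟩ : ∃ z₀ : AlgebraicClosure ℚ,
      z₀ ^ 2 = (1 - t) * ((1 - t) - 1) * ((1 - t) - m' 0) :=
    IsAlgClosed.exists_pow_nat_eq _ two_pos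
  obtain ⟨z, -, hz⟩ := exists_sqrt_seq (fun n => (1 - t) * ((1 - t) - 1) * ((1 - t) - m' n)) z₀ hz₀
  have hR := exists_points hw h2 hc hu.1 ht1 y hy
  have hS := exists_points hw h2 hc' hu.2 ht1' z hz
  obtain ⟨N, hN⟩ := exists_no_collision τ hc hre hc' hre'
  -- the points
  let R : ℕ → (leg (l' 0)).toAffine.Point := fun n => .some _ _ (hR n).2
  let S : ℕ → (leg (m' 0)).toAffine.Point := fun n => .some _ _ (hS n).2
  have ht0 : t ≠ 0 := by
    intro h0
    rw [h0, map_zero] at ht1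
    linarith
  have ht1n : t ≠ 1 := by
    intro h0
    rw [h0, hw1] at ht1
    exact lt_irrefl _ ht1
  have htl : ∀ i, t ≠ l' i := by
    intro i h0
    rw [h0, (hcu i).1.1] at ht1
    exact lt_irrefl _ ht1
  have htm : ∀ j, t ≠ 1 - m' j := by
    intro i h0
    rw [h0, (hcu' i).1.2] at ht1
    exact lt_irrefl _ ht1
  have hRS : ∀ i j, (i = 0 ∨ N ≤ i) → N ≤ j → TorsSym (leg (l' 0)) (leg (m' 0)) (R i) (S j) := by
    intro i j hi hj
    exact tors_main hc hc' i j (hN i j hi hj) ht0 ht1n (htl i) (htm j) (hy i) (hz j) (hR i).1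
      (hS j).1 (hR i).2 (hS j).2
  have : (leg (l' 0)).IsElliptic := leg_isElliptic hl0 hl1
  have : (leg (m' 0)).IsElliptic := leg_isElliptic hm0 hm1
  choose H hH hHs using fun j => exists_left_subgroup hl0 hl1 (leg (m' 0)) (S j)
  choose G hG hGs using fun a => exists_right_subgroup hm0 hm1 (leg (l' 0)) a
  let A₁ : AddSubgroup (leg (l' 0)).toAffine.Point := ⨅ j : {j : ℕ // N ≤ j}, H j
  let A₂ : AddSubgroup (leg (m' 0)).toAffine.Point := ⨅ a : A₁, G a
  have hA₁ : ∀ a, a ∈ A₁ ↔ ∀ j, N ≤ j → TorsSym (leg (l' 0)) (leg (m' 0)) a (S j) := by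
    intro a
    rw [AddSubgroup.mem_iInf]
    constructor
    · intro ha j hj
      exact (hH j a).1 (ha ⟨j, hj⟩)
    · rintro ha ⟨j, hj⟩
      exact (hH j a).2 (ha j hj)
  have hA₂ : ∀ b, b ∈ A₂ ↔ ∀ a ∈ A₁, TorsSym (leg (l' 0)) (leg (m' 0)) a b := by
    intro b
    rw [AddSubgroup.mem_iInf]
    constructor
    · intro hb a ha
      exact (hG a b).1 (hb ⟨a, ha⟩)
    · rintro hb ⟨a, ha⟩
      exact (hG a b).2 (hb a ha)
  have hRA : ∀ i, (i = 0 ∨ N ≤ i) → R i ∈ A₁ := fun i hi =>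
    (hA₁ _).2 fun j hj => hRS i j hi hj
  have hSA : ∀ j, N ≤ j → S j ∈ A₂ := fun j hj => (hA₂ _).2 fun a ha => (hA₁ a).1 ha j hj
  refine ⟨A₁, A₂, ?_, ?_, ?_, ?_, fun a ha b hb => (hA₂ b).1 hb a ha⟩
  · have h0 := hRA 0 (Or.inl rfl)
    have h1 : R 0 = Affine.Point.some t y₀ h := by
      change Affine.Point.some _ _ _ = _
      congr 1
    rwa [h1] at h0
  · intro P n hn hP
    rw [AddSubgroup.mem_iInf] at hP ⊢
    exact fun j => hHs j P n hn (hP j)
  · exact exists_indep A₁ R N (fun n hn => hRA n (Or.inr hn)) fun B hB =>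
      key_indep hp2 ι τ hc hre (fun ι' => (hunit _ (wAt_padic ι')).1) ht y R
        (fun n => ⟨(hR n).2, rfl⟩) N B hB
  · exact exists_indep A₂ S N hSA fun B hB =>
      key_indep hp2 ι τ hc' hre' (fun ι' => (hunit _ (wAt_padic ι')).2) htp' z S
        (fun n => ⟨(hS n).2, rfl⟩) N B hB

end Pool.Agent.ZC
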