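import Pool.Agent.Lib.MP_a1cc03_ag.N9a_Close
import Pool.Agent.Lib.MP_a1cc03_ag.N2_Embed

/-! # Row N9b: multiples of a point approach the origin -/

noncomputable section

namespace Pool.Agent.ZC

open WeierstrassCurve

section N9bAux

variable {K : Type} [Field K] {w : AbsoluteValue K ℝ}

theorem N9b_dbl [CharZero K] {l x y : K} (hy : y ≠ 0) (h : y ^ 2 = x * (x - 1) * (x - l)) :
    ((3 * x ^ 2 - 2 * (1 + l) * x + l) / (2 * y)) ^ 2 + (1 + l) - 2 * x
      = (x ^ 2 - l) ^ 2 / (4 * y ^ 2) := by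
  have h2 : (2 : K) ≠ 0 := two_ne_zero
  have h4 : (4 : K) * y ^ 2 ≠ 0 := by
    have : (4 : K) ≠ 0 := by norm_num
    positivity
  rw [div_pow, eq_div_iff h4]
  have e : (2 * y) ^ 2 = 4 * y ^ 2 := by ring
  rw [e]
  have : ((3 * x ^ 2 - 2 * (1 + l) * x + l) ^ 2 / (4 * y ^ 2) + (1 + l) - 2 * x) * (4 * y ^ 2)
      = (3 * x ^ 2 - 2 * (1 + l) * x + l) ^ 2 + ((1 + l) - 2 * x) * (4 * y ^ 2) := by
    rw [add_sub_assoc, add_mul, div_mul_cancel₀ _ h4]
  rw [this]
  linear_combination (4 * ((1 + l) - 2 * x)) * h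

theorem N9b_small (hw : IsNonarchimedean w) {l x y : K} (hl : Unit2 w l)
    (h : y ^ 2 = x * (x - 1) * (x - l)) (hy : w y < 1) : w (x ^ 2 - l) = 1 := by
  obtain ⟨hl1, hl2⟩ := hl
  have hyy : w x * w (x - 1) * w (x - l) < 1 := by
    rw [← map_mul, ← map_mul, ← h, map_pow]
    exact pow_lt_one₀ (apply_nonneg w y) hy two_ne_zero
  have h2 : w (2 : K) ≤ 1 := by
    have := nonarch_natCast_le hw 2
    simpa using this
  have key : ∀ u a b : K, w u < 1 → w a = 1 → w b ≤ 1 → w (a + b * u + u ^ 2) = 1 := by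
    intro u a b hu ha hb
    have h1 : w (b * u + u ^ 2) < 1 := by
      have h3 : b * u + u ^ 2 = (b + u) * u := by ring
      rw [h3, map_mul]
      have h4 : w (b + u) ≤ 1 := (hw b u).trans (max_le hb hu.le)
      calc w (b + u) * w u ≤ 1 * w u := by
            exact mul_le_mul_of_nonneg_right h4 (apply_nonneg w u)
        _ < 1 := by rw [one_mul]; exact hu
    rw [add_assoc, nonarch_add_eq hw (by rw [ha]; exact h1), ha]
  by_cases hx : w x < 1
  · have := key x (-l) 0 hx (by rw [map_neg_eq_map, hl1]) (by simp)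
    have e : x ^ 2 - l = -l + 0 * x + x ^ 2 := by ring
    rw [e]; exact this
  by_cases hx1 : w (x - 1) < 1
  · have := key (x - 1) (1 - l) 2 hx1 hl2 h2
    have e : x ^ 2 - l = (1 - l) + 2 * (x - 1) + (x - 1) ^ 2 := by ring
    rw [e]; exact this
  by_cases hxl : w (x - l) < 1
  · have hll : w (l * (l - 1)) = 1 := by
      rw [map_mul, hl1, one_mul, ← hl2, ← map_neg_eq_map]
      congr 1
      ring
    have h2l : w (2 * l) ≤ 1 := by
      rw [map_mul, hl1, mul_one]; exact h2
    have := key (x - l) (l * (l - 1)) (2 * l) hxl hll h2l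
    have e : x ^ 2 - l = l * (l - 1) + 2 * l * (x - l) + (x - l) ^ 2 := by ring
    rw [e]; exact this
  exfalso
  push Not at hx hx1 hxl
  have : 1 ≤ w x * w (x - 1) * w (x - l) := by
    have := mul_le_mul hx hx1 zero_le_one (zero_le_one.trans hx)
    have := mul_le_mul this hxl zero_le_one
      (mul_nonneg (apply_nonneg w _) (apply_nonneg w _))
    simpa using this
  linarith

end N9bAux

section N9bPts

variable {K : Type} [Field K] [CharZero K] [DecidableEq K] {l : K}

/-- the coordinates of the multiples of a point stay in a field containing those of the point -/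
theorem N9b_mem {P : (leg l).toAffine.Point} (hP : ∀ n : ℕ, 0 < n → n • P ≠ 0)
    (X Y : ℕ → K) (hXY : ∀ n, 0 < n → ∃ h : (leg l).toAffine.Nonsingular (X n) (Y n),
      n • P = Affine.Point.some (X n) (Y n) h)
    {S : Type} [SetLike S K] [SubfieldClass S K] (k : S) (hl : l ∈ k) (hX : X 1 ∈ k)
    (hY : Y 1 ∈ k) : ∀ n : ℕ, 0 < n → X n ∈ k ∧ Y n ∈ k := by
  have h2k : (2 : K) ∈ k := by
    have := natCast_mem k 2
    simp
  have h3k : (3 : K) ∈ k := by
    have := natCast_mem k 3
    simp
  intro n hn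
  induction n, hn using Nat.le_induction with
  | base => exact ⟨hX, hY⟩
  | succ n hn ih =>
    obtain ⟨hXn, hYn⟩ := ih
    obtain ⟨h1, e1⟩ := hXY 1 one_pos
    obtain ⟨hn', en⟩ := hXY n hn
    obtain ⟨hs, es⟩ := hXY (n + 1) (Nat.succ_pos n)
    have eq1 := leg_eq_of_nonsingular h1
    have eqn := leg_eq_of_nonsingular hn'
    have hsum : (n + 1) • P = Affine.Point.some (X n) (Y n) hn' +
        Affine.Point.some (X 1) (Y 1) h1 := by
      rw [add_smul, en, e1]
    by_cases hx : X n = X 1
    · have hyy : (Y n - Y 1) * (Y n + Y 1) = 0 := by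
        have : (Y n - Y 1) * (Y n + Y 1) = Y n ^ 2 - Y 1 ^ 2 := by ring
        rw [this, eqn, eq1, hx]; ring
      have hneg : Y n + Y 1 ≠ 0 := by
        intro h0
        have hy : Y 1 = - Y n := by linear_combination h0
        have hneg := leg_neg_some hn' (leg_neg_nonsingular hn')
        have : Affine.Point.some (X 1) (Y 1) h1 = - Affine.Point.some (X n) (Y n) hn' := by
          rw [hneg]
          congr 1
          exact hx.symm
        apply hP (n + 1) (Nat.succ_pos n)
        rw [hsum, this, add_neg_cancel]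
      have hy : Y n = Y 1 := by
        rcases mul_eq_zero.mp hyy with h | h
        · exact sub_eq_zero.mp h
        · exact absurd h hneg
      have hy0 : Y n ≠ 0 := by
        intro h0
        apply hneg
        rw [← hy, h0, add_zero]
      have hP1 : Affine.Point.some (X 1) (Y 1) h1 = Affine.Point.some (X n) (Y n) hn' := by
        congr 1
        · exact hx.symm
        · exact hy.symm
      obtain ⟨h3, e3⟩ := leg_double hn' two_ne_zero hy0
      rw [hP1, e3, es] at hsum
      have hxs := (Affine.Point.some.inj hsum).1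
      have hys := (Affine.Point.some.inj hsum).2
      have hslope : (3 * X n ^ 2 - 2 * (1 + l) * X n + l) / (2 * Y n) ∈ k := by
        apply div_mem
        · apply add_mem _ hl
          apply sub_mem
          · exact mul_mem h3k (pow_mem hXn 2)
          · exact mul_mem (mul_mem h2k (add_mem (one_mem k) hl)) hXn
        · exact mul_mem h2k hYn
      have hxm : X (n + 1) ∈ k := by
        rw [hxs]
        apply sub_mem
        · exact add_mem (pow_mem hslope 2) (add_mem (one_mem k) hl)
        · exact mul_mem h2k hXn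
      refine ⟨hxm, ?_⟩
      rw [hys, ← hxs]
      exact neg_mem (add_mem (mul_mem hslope (sub_mem hxm hXn)) hYn)
    · obtain ⟨h3, e3⟩ := leg_add_of_ne hn' h1 hx
      rw [e3, es] at hsum
      have hxs := (Affine.Point.some.inj hsum).1
      have hys := (Affine.Point.some.inj hsum).2
      have hslope : (Y n - Y 1) / (X n - X 1) ∈ k := div_mem (sub_mem hYn hY) (sub_mem hXn hX)
      have hxm : X (n + 1) ∈ k := by
        rw [hxs]
        exact sub_mem (sub_mem (add_mem (pow_mem hslope 2) (add_mem (one_mem k) hl)) hXn) hX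
      refine ⟨hxm, ?_⟩
      rw [hys, ← hxs]
      exact neg_mem (add_mem (mul_mem hslope (sub_mem hxm hXn)) hYn)

end N9bPts

/-- **Row N9b.** Let `P` be a point of infinite order, `n P = (x_n, y_n)` (`n ≥ 1`), all in the number field
`k = ℚ(l, x_1, y_1)`. Suppose `‖x_n‖ ≤ B` for all `n ≥ 1` (`B ≥ 1`); then `‖y_n‖ ≤ B²`.
(i) If some `y_n` is small, `‖y_n‖ < δ`, then `x_n` is close to one of the roots `0, 1, l` (pairwise distances
`1`), so `‖x_n² - l‖ = 1` for `δ < 1`
(at the root `0`: `‖l‖ = 1`, at `1`: `‖1 - l‖ = 1`, at `l`: `‖l‖ ‖l - 1‖ = 1`), and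
`x_{2n} = (x_n² - l)²/(4 y_n²)` has norm `1/‖y_n‖² > 1/δ²`; choose `δ` with `1/δ² > B`: contradiction.
(ii) So `‖y_n‖ ≥ δ` for all `n ≥ 1`; by N9a there are `i < j` with
`‖x_i - x_j‖ < ε`, `‖y_i - y_j‖ < min(ε, δ)`, so `‖y_i + y_j‖ = ‖2 y_i + (y_j - y_i)‖ ≥ δ` (`p ≠ 2`). `x_i ≠ x_j`
(otherwise `y_j = ± y_i`; `y_j = - y_i` is excluded and `y_j = y_i` gives `(j - i) P = O`), and
`x_{j-i} = ((y_i + y_j)/(x_i - x_j))² + (1 + l) - x_i - x_j` has norm `≥ (δ/ε)² > B` for small `ε`. -/
theorem exists_deep {p : ℕ} [Fact p.Prime] (hp2 : p ≠ 2) (ι : AlgebraicClosure ℚ →+* PadicAlgCl p)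
    [DecidableEq (AlgebraicClosure ℚ)] {l : AlgebraicClosure ℚ} (hl : Unit2 (wAt ι) l)
    (P : (leg l).toAffine.Point) (hP : ∀ n : ℕ, 0 < n → n • P ≠ 0) (B : ℝ) :
    ∃ n : ℕ, 0 < n ∧ ∃ (x y : AlgebraicClosure ℚ) (h : (leg l).toAffine.Nonsingular x y),
      n • P = .some x y h ∧ B < ‖ι x‖ := by
  classical
  set w := wAt ι with hwdef
  have hpad : PAdic p w := wAt_padic ι
  have hw : IsNonarchimedean w := hpad.nonarch
  have hwι : ∀ x, w x = ‖ι x‖ := fun x => rfl
  have hprime : p.Prime := Fact.out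
  have h2w : w (2 : AlgebraicClosure ℚ) = 1 := hpad.two_eq_one hprime hp2
  by_contra hcon
  push Not at hcon
  -- coordinates
  have hcoord : ∀ n : ℕ, ∃ xy : AlgebraicClosure ℚ × AlgebraicClosure ℚ, 0 < n →
      ∃ h : (leg l).toAffine.Nonsingular xy.1 xy.2, n • P = Affine.Point.some xy.1 xy.2 h := by
    intro n
    by_cases hn : 0 < n
    · have hne := hP n hn
      rcases hpt : n • P with _ | ⟨x, y, h⟩
      · exact absurd hpt hne
      · exact ⟨(x, y), fun _ => ⟨h, rfl⟩⟩
    · exact ⟨(0, 0), fun h => absurd h hn⟩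
  choose XY hXY using hcoord
  set X : ℕ → AlgebraicClosure ℚ := fun n => (XY n).1 with hXdef
  set Y : ℕ → AlgebraicClosure ℚ := fun n => (XY n).2 with hYdef
  have hXY' : ∀ n, 0 < n → ∃ h : (leg l).toAffine.Nonsingular (X n) (Y n),
      n • P = Affine.Point.some (X n) (Y n) h := hXY
  set C : ℝ := max B 1 with hC
  have hC1 : 1 ≤ C := le_max_right _ _
  have hC0 : 0 < C := lt_of_lt_of_le one_pos hC1
  have hXC : ∀ n, 0 < n → w (X n) ≤ C := by
    intro n hn
    obtain ⟨h, e⟩ := hXY' n hn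
    exact (hcon n hn _ _ h e).trans (le_max_left _ _)
  have hl1 : w l = 1 := hl.1
  have hYeq : ∀ n, 0 < n → Y n ^ 2 = X n * (X n - 1) * (X n - l) := by
    intro n hn
    obtain ⟨h, e⟩ := hXY' n hn
    exact leg_eq_of_nonsingular h
  have hYC : ∀ n, 0 < n → w (Y n) ≤ C ^ 2 := by
    intro n hn
    have h1 : w (X n - 1) ≤ C := by
      refine (nonarch_sub_le hw _ _).trans (max_le (hXC n hn) ?_)
      rw [map_one]; exact hC1
    have h2 : w (X n - l) ≤ C := by
      refine (nonarch_sub_le hw _ _).trans (max_le (hXC n hn) ?_)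
      rw [hl1]; exact hC1
    have h3 : w (Y n) ^ 2 ≤ C * C * C := by
      rw [← map_pow, hYeq n hn, map_mul, map_mul]
      exact mul_le_mul (mul_le_mul (hXC n hn) h1 (apply_nonneg w _) hC0.le) h2
        (apply_nonneg w _) (mul_nonneg hC0.le hC0.le)
    have h4 : w (Y n) ^ 2 ≤ (C ^ 2) ^ 2 := by
      refine h3.trans ?_
      have h5 : C ^ 3 ≤ C ^ 4 := pow_le_pow_right₀ hC1 (by norm_num)
      nlinarith [h5]
    exact (sq_le_sq₀ (apply_nonneg w _) (by positivity)).mp h4
  -- step (i)
  have hYne : ∀ n, 0 < n → Y n ≠ 0 := by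
    intro n hn h0
    obtain ⟨h, e⟩ := hXY' n hn
    have hneg := leg_neg_some h (leg_neg_nonsingular h)
    have : Affine.Point.some (X n) (Y n) h = - Affine.Point.some (X n) (Y n) h := by
      rw [hneg]
      congr 1
      rw [h0, neg_zero]
    apply hP (n + n) (by omega)
    rw [add_smul, e]
    nth_rewrite 2 [this]
    exact add_neg_cancel _
  have hYlow : ∀ n, 0 < n → 1 / C ≤ w (Y n) := by
    intro n hn
    by_contra hlt
    push Not at hlt
    have hlt1 : w (Y n) < 1 := by
      refine hlt.trans_le ?_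
      rw [div_le_one hC0]; exact hC1
    have hsq := N9b_small hw hl (hYeq n hn) hlt1
    obtain ⟨h, e⟩ := hXY' n hn
    obtain ⟨h2, e2⟩ := hXY' (n + n) (by omega)
    obtain ⟨h3, e3⟩ := leg_double h two_ne_zero (hYne n hn)
    rw [add_smul, e, e3] at e2
    have hx2 := (Affine.Point.some.inj e2).1
    rw [N9b_dbl (hYne n hn) (hYeq n hn)] at hx2
    have hbd := hXC (n + n) (by omega)
    rw [← hx2, map_div₀, map_mul, map_pow, map_pow, hsq] at hbd
    have h4 : w (4 : AlgebraicClosure ℚ) = 1 := by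
      have : (4 : AlgebraicClosure ℚ) = 2 * 2 := by norm_num
      rw [this, map_mul, h2w, one_mul]
    rw [h4, one_mul, one_pow] at hbd
    have hpos : 0 < w (Y n) := (AbsoluteValue.pos_iff w).mpr (hYne n hn)
    rw [div_le_iff₀ (by positivity)] at hbd
    have h5 : w (Y n) ^ 2 < 1 / C := by
      have h6 : w (Y n) ^ 2 ≤ w (Y n) := by
        have := mul_le_mul_of_nonneg_left hlt1.le hpos.le
        nlinarith
      linarith
    have h7 : C * w (Y n) ^ 2 < C * (1 / C) := mul_lt_mul_of_pos_left h5 hC0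
    rw [mul_one_div_cancel hC0.ne'] at h7
    linarith
  -- the number field
  let S : Set (AlgebraicClosure ℚ) := {l, X 1, Y 1}
  have hSfin : Finite S := by
    have : S.Finite := by
      simp only [S]
      exact (Set.finite_singleton _).insert _ |>.insert _
    exact this.to_subtype
  let k : IntermediateField ℚ (AlgebraicClosure ℚ) := IntermediateField.adjoin ℚ S
  have hkfin : FiniteDimensional ℚ k := by
    apply IntermediateField.finiteDimensional_adjoin
    intro x _
    exact ((AlgebraicClosure.isAlgebraic ℚ).isAlgebraic x).isIntegral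
  have hkl : l ∈ k := IntermediateField.subset_adjoin ℚ S (by simp [S])
  have hkX : X 1 ∈ k := IntermediateField.subset_adjoin ℚ S (by simp [S])
  have hkY : Y 1 ∈ k := IntermediateField.subset_adjoin ℚ S (by simp [S])
  have hmem := N9b_mem hP X Y hXY' k hkl hkX hkY
  set δ : ℝ := 1 / C with hδ
  have hδ0 : 0 < δ := by positivity
  set ε : ℝ := δ / (3 * C + 3) with hε
  have hε0 : 0 < ε := by positivity
  have hεδ : ε ≤ δ := by
    rw [hε]
    apply div_le_self hδ0.le
    linarith
  obtain ⟨i, j, hij, hxc, hyc⟩ := exists_close ι k (fun n => X (n + 1)) (fun n => Y (n + 1))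
    (fun n => (hmem (n + 1) (Nat.succ_pos n)).1) (fun n => (hmem (n + 1) (Nat.succ_pos n)).2)
    (C ^ 2) (fun n => by
      have h1 := hXC (n + 1) (Nat.succ_pos n)
      rw [hwι] at h1
      refine h1.trans ?_
      nlinarith) (fun n => by
      have h1 := hYC (n + 1) (Nat.succ_pos n)
      rw [hwι] at h1
      exact h1) ε hε0
  set a := i + 1 with ha
  set b := j + 1 with hb
  have hab : a < b := by omega
  have ha0 : 0 < a := Nat.succ_pos i
  have hb0 : 0 < b := Nat.succ_pos j
  have hxc' : w (X a - X b) < ε := by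
    rw [hwι, map_sub]; exact hxc
  have hyc' : w (Y a - Y b) < ε := by
    rw [hwι, map_sub]; exact hyc
  have hsumlow : δ ≤ w (Y b + Y a) := by
    have h1 : Y b + Y a = 2 * Y a - (Y a - Y b) := by ring
    have h2 : w (2 * Y a) = w (Y a) := by rw [map_mul, h2w, one_mul]
    have h3 : w (Y a - Y b) < w (2 * Y a) := by
      rw [h2]
      exact hyc'.trans_le (hεδ.trans (hYlow a ha0))
    rw [h1, nonarch_sub_eq hw h3, h2]
    exact hYlow a ha0
  have hsumne : Y b + Y a ≠ 0 := by
    intro h0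
    rw [h0, map_zero] at hsumlow
    linarith
  obtain ⟨hPa, ea⟩ := hXY' a ha0
  obtain ⟨hPb, eb⟩ := hXY' b hb0
  obtain ⟨hPc, ec⟩ := hXY' (b - a) (by omega)
  have hsub : (b - a) • P = b • P + -(a • P) := by
    have h1 : (b - a) • P + a • P = b • P := by
      rw [← add_smul]
      congr 1
      omega
    rw [← h1]
    abel
  have hxne : X b ≠ X a := by
    intro hx
    have hyy : (Y b - Y a) * (Y b + Y a) = 0 := by
      have : (Y b - Y a) * (Y b + Y a) = Y b ^ 2 - Y a ^ 2 := by ring
      rw [this, hYeq b hb0, hYeq a ha0, hx]; ring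
    have hy : Y b = Y a := by
      rcases mul_eq_zero.mp hyy with h | h
      · exact sub_eq_zero.mp h
      · exact absurd h hsumne
    apply hP (b - a) (by omega)
    have : b • P = a • P := by
      rw [ea, eb]
      congr 1
    rw [hsub, this, add_neg_cancel]
  have hneg := leg_neg_some hPa (leg_neg_nonsingular hPa)
  obtain ⟨h3, e3⟩ := leg_add_of_ne hPb (leg_neg_nonsingular hPa) hxne
  rw [ec, ea, eb, hneg, e3] at hsub
  have hxs := (Affine.Point.some.inj hsub).1
  have hbd := hXC (b - a) (by omega)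
  have hmain : ((Y b - -Y a) / (X b - X a)) ^ 2 =
      X (b - a) - (1 + l) + (X b + X a) := by
    rw [hxs]; ring
  have hnorm : w (((Y b - -Y a) / (X b - X a)) ^ 2) ≤ C := by
    rw [hmain]
    refine (hw _ _).trans (max_le ?_ ?_)
    · refine (nonarch_sub_le hw _ _).trans (max_le hbd ?_)
      refine (hw _ _).trans (max_le ?_ ?_)
      · rw [map_one]; exact hC1
      · rw [hl1]; exact hC1
    · exact (hw _ _).trans (max_le (hXC b hb0) (hXC a ha0))
  rw [map_pow, map_div₀, sub_neg_eq_add] at hnorm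
  have hden : 0 < w (X b - X a) := (AbsoluteValue.pos_iff w).mpr (sub_ne_zero.mpr hxne)
  have hdenlt : w (X b - X a) < ε := by
    have : X b - X a = -(X a - X b) := by ring
    rw [this, map_neg_eq_map]; exact hxc'
  have hq : 3 * C + 3 ≤ w (Y b + Y a) / w (X b - X a) := by
    rw [le_div_iff₀ hden]
    calc (3 * C + 3) * w (X b - X a) ≤ (3 * C + 3) * ε :=
          mul_le_mul_of_nonneg_left hdenlt.le (by positivity)
      _ = δ := by rw [hε]; field_simp
      _ ≤ _ := hsumlow
  have hq2 : (3 * C + 3) ^ 2 ≤ (w (Y b + Y a) / w (X b - X a)) ^ 2 :=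
    pow_le_pow_left₀ (by positivity) hq 2
  nlinarith

end Pool.Agent.ZC
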