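import Pool.Agent.Lib.MP_a1cc03_ag.N16c_Subgroups
import Pool.Agent.Lib.MP_a1cc03_ag.N9b_Deep

/-! # Row N16d: the theorem for Legendre curves -/

noncomputable section

namespace Pool.Agent.ZC

open WeierstrassCurve

variable [DecidableEq (AlgebraicClosure ℚ)]

/-- **Row N16d.** Choose `p` (N16a) and `ι` (N2b). If `P` has infinite order take `n` with `n P = (t, y₀)`,
`‖ι t‖ > p` (N9b with `B = p`). If `P` is torsion take `t = 1/p²`, `y₀` a square root of `t (t - 1) (t - l)`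
(`‖ι t‖ = p²`); then `n P = 0 ∈ A₁`. Apply N16c. -/
theorem legendre_main {l m : AlgebraicClosure ℚ} (hl0 : l ≠ 0) (hl1 : l ≠ 1) (hm0 : m ≠ 0)
    (hm1 : m ≠ 1) (P : (leg l).toAffine.Point) :
    ∃ (A₁ : AddSubgroup (leg l).toAffine.Point) (A₂ : AddSubgroup (leg m).toAffine.Point),
      P ∈ A₁ ∧ (∃ u : ℕ → A₁, LinearIndependent ℤ u) ∧ (∃ u : ℕ → A₂, LinearIndependent ℤ u) ∧
      ∀ a ∈ A₁, ∀ b ∈ A₂, TorsSym (leg l) (leg m) a b := by
  obtain ⟨p, hp, hp2, hunit⟩ := exists_prime hl0 hl1 hm0 hm1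
  haveI : Fact p.Prime := ⟨hp⟩
  obtain ⟨ι⟩ := exists_embedding p
  have hpad : PAdic p (wAt ι) := wAt_padic ι
  have hl : Unit2 (wAt ι) l := (hunit _ hpad).1
  by_cases hP : ∀ n : ℕ, 0 < n → n • P ≠ 0
  · obtain ⟨n, hn, x, y, h, hnP, hx⟩ := exists_deep hp2 ι hl P hP (p : ℝ)
    obtain ⟨A₁, A₂, hmem, hsat, hu₁, hu₂, htors⟩ :=
      exists_subgroups hp2 ι hl0 hl1 hm0 hm1 hunit h hx
    refine ⟨A₁, A₂, hsat P n hn ?_, hu₁, hu₂, htors⟩
    rw [hnP]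
    exact hmem
  · push Not at hP
    obtain ⟨n, hn, hnP⟩ := hP
    have hp0 : (0 : ℝ) < (p : ℝ) := by exact_mod_cast hp.pos
    have hp1 : (1 : ℝ) < (p : ℝ) := by exact_mod_cast hp.one_lt
    set t : AlgebraicClosure ℚ := ((p : AlgebraicClosure ℚ) ^ 2)⁻¹ with ht
    obtain ⟨y₀, hy₀⟩ := IsAlgClosed.exists_pow_nat_eq (t * (t - 1) * (t - l)) (n := 2) two_pos
    have h : (leg l).toAffine.Nonsingular t y₀ := (leg_nonsingular hl0 hl1).mpr hy₀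
    have hx : (p : ℝ) < ‖ι t‖ := by
      have h1 : ‖ι t‖ = (p : ℝ) ^ 2 := by
        change wAt ι t = _
        rw [ht, map_inv₀, map_pow, hpad.map_p, inv_pow, inv_inv]
      rw [h1]
      nlinarith
    obtain ⟨A₁, A₂, _, hsat, hu₁, hu₂, htors⟩ :=
      exists_subgroups hp2 ι hl0 hl1 hm0 hm1 hunit h hx
    refine ⟨A₁, A₂, hsat P n hn ?_, hu₁, hu₂, htors⟩
    rw [hnP]
    exact A₁.zero_mem

end Pool.Agent.ZC
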