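import Pool.Agent.Lib.MP_a1cc03_ag.N0_Abs

/-! # Row N1: almost all primes are good -/

noncomputable section

namespace Pool.Agent.ZC

/-- helper for N1: a nonarchimedean absolute value as a valuation. -/
def n1Val {K : Type} [Field K] (w : AbsoluteValue K ℝ) (hw : IsNonarchimedean w) :
    Valuation K NNReal where
  toFun x := ⟨w x, w.nonneg x⟩
  map_zero' := NNReal.eq (map_zero w)
  map_one' := NNReal.eq (map_one w)
  map_mul' x y := NNReal.eq (map_mul w x y)
  map_add_le_max' x y := by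
    have h := hw x y
    rcases le_total (w x) (w y) with h1 | h1
    · rw [max_eq_right h1] at h
      exact le_max_of_le_right (NNReal.coe_le_coe.1 h)
    · rw [max_eq_left h1] at h
      exact le_max_of_le_left (NNReal.coe_le_coe.1 h)

theorem n1_integral_le {K : Type} [Field K] (w : AbsoluteValue K ℝ) (hw : IsNonarchimedean w)
    {x : K} (hx : IsIntegral ℤ x) : w x ≤ 1 := by
  have h1 : IsIntegral (n1Val w hw).integer x := hx.tower_top
  have h2 := (Valuation.integer.integers (n1Val w hw)).mem_of_integral h1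
  rw [Valuation.mem_integer_iff] at h2
  exact NNReal.coe_le_coe.2 h2

theorem n1_half (z : AlgebraicClosure ℚ) :
    ∃ N : ℕ, 0 < N ∧ ∀ p : ℕ, p.Prime → ¬ p ∣ N →
      ∀ w : AbsoluteValue (AlgebraicClosure ℚ) ℝ, PAdic p w → w z ≤ 1 := by
  have halg : IsAlgebraic ℤ z := by
    have h : IsAlgebraic ℚ z := (AlgebraicClosure.isAlgebraic ℚ).isAlgebraic z
    exact (IsFractionRing.isAlgebraic_iff ℤ ℚ (AlgebraicClosure ℚ)).2 h
  obtain ⟨y, hy, hint⟩ := halg.exists_integral_multiple
  refine ⟨y.natAbs, Int.natAbs_pos.2 hy, fun p hp hpN w hw => ?_⟩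
  have h1 := n1_integral_le w hw.nonarch hint
  have h2 : w ((y : ℤ) : AlgebraicClosure ℚ) = 1 := by
    have h3 := hw.natCast_eq_one hp hpN
    rcases Int.natAbs_eq y with h | h
    · rw [h]
      simpa using h3
    · rw [h]
      push_cast
      rw [w.map_neg]
      simpa using h3
  rw [zsmul_eq_mul, map_mul, h2, one_mul] at h1
  exact h1

/-- **Row N1.** For `z ≠ 0` algebraic there is `N > 0` such that `w z = 1` for all `p ∤ N` and all `p`-adic
`w`: there is `N₁ > 0` such that `z` is a root of `N₁ X^d + c_{d-1} X^{d-1} + …` with `c_i ∈ ℤ`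
(clear denominators in the minimal polynomial); if `p ∤ N₁` then `w N₁ = 1`, `w c_i ≤ 1` and so `w z ≤ 1`
(otherwise the leading term dominates). The same for `z⁻¹` with `N₂`; take `N = N₁ N₂`. -/
theorem exists_good (z : AlgebraicClosure ℚ) (hz : z ≠ 0) :
    ∃ N : ℕ, 0 < N ∧ ∀ p : ℕ, p.Prime → ¬ p ∣ N →
      ∀ w : AbsoluteValue (AlgebraicClosure ℚ) ℝ, PAdic p w → w z = 1 := by
  obtain ⟨N₁, hN₁, h₁⟩ := n1_half z
  obtain ⟨N₂, hN₂, h₂⟩ := n1_half z⁻¹
  refine ⟨N₁ * N₂, Nat.mul_pos hN₁ hN₂, fun p hp hpN w hw => ?_⟩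
  have a := h₁ p hp (fun h => hpN (h.mul_right _)) w hw
  have b := h₂ p hp (fun h => hpN (h.mul_left _)) w hw
  rw [map_inv₀] at b
  have hpos : 0 < w z := w.pos hz
  rw [inv_le_one₀ hpos] at b
  exact le_antisymm a b

end Pool.Agent.ZC
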