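import Pool.Agent.Lib.MP_a1cc03_ag.N0_Abs

/-! # Rows N3, N4: the chain at a good place -/

noncomputable section

namespace Pool.Agent.ZC

variable {K : Type} [Field K] [CharZero K] {w : AbsoluteValue K ℝ} {l r e : ℕ → K}

/-- **Row N3.** Induction on `n`. `w (r n)² = w (l n) = 1`; `w (1 - r n) w (1 + r n) = w (1 - l n) = 1` with
both factors `≤ 1`, so both are `1`; `w (l (n+1)) = w (1 + r n)² / (w 4 w (r n)) = 1` and
`1 - l (n+1) = - (1 - r n)²/(4 r n)`. Only `r n ^ 2 = l n` and `l (n+1) = Lr (r n)` are used, so that the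
lemma applies to conjugates of a chain. -/
theorem chain_units (hw : IsNonarchimedean w) (h2 : w 2 = 1) (hsq : ∀ n, r n ^ 2 = l n)
    (hnext : ∀ n, l (n + 1) = Lr (r n)) (h0 : Unit2 w (l 0)) (n : ℕ) :
    Unit2 w (l n) ∧ w (r n) = 1 := by
  have key : ∀ n, Unit2 w (l n) → w (r n) = 1 ∧ Unit2 w (l (n + 1)) := by
    intro n hn
    obtain ⟨h1, h1'⟩ := hn
    have hr : w (r n) = 1 := by
      have h3 : w (r n) ^ 2 = 1 := by rw [← map_pow, hsq, h1]
      have h4 : 0 ≤ w (r n) := w.nonneg _
      nlinarith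
    have hr0 : r n ≠ 0 := by
      intro h
      rw [h, map_zero] at hr
      exact zero_ne_one hr
    have ha : w (1 + r n) ≤ 1 := by
      refine le_trans (hw 1 (r n)) ?_
      rw [map_one, hr, max_self]
    have hb : w (1 - r n) ≤ 1 := by
      refine le_trans (nonarch_sub_le hw 1 (r n)) ?_
      rw [map_one, hr, max_self]
    have hab : w (1 - r n) * w (1 + r n) = 1 := by
      rw [← map_mul, ← h1', ← hsq n]
      congr 1
      ring
    have ha0 : 0 ≤ w (1 + r n) := w.nonneg _
    have hb0 : 0 ≤ w (1 - r n) := w.nonneg _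
    have ha1 : w (1 + r n) = 1 := by nlinarith
    have hb1 : w (1 - r n) = 1 := by nlinarith
    have h4 : w 4 = 1 := by
      have : (4 : K) = 2 * 2 := by norm_num
      rw [this, map_mul, h2, one_mul]
    refine ⟨hr, ?_, ?_⟩
    · rw [hnext]
      unfold Lr
      rw [map_div₀, map_pow, map_mul, ha1, h4, hr]
      norm_num
    · have e1 : 1 - l (n + 1) = -((1 - r n) ^ 2 / (4 * r n)) := by
        rw [hnext]
        unfold Lr
        field_simp
        ring
      rw [e1, AbsoluteValue.map_neg, map_div₀, map_pow, map_mul, hb1, h4, hr]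
      norm_num
  have hU : ∀ n, Unit2 w (l n) := by
    intro n
    induction n with
    | zero => exact h0
    | succ n ih => exact (key n ih).2
  exact ⟨hU n, (key n (hU n)).1⟩

/-- **Row N4a.** If `w r = 1`, `w (Lr r) ≤ 1` and `w x > 1` then `w (x - 1) = w (x - L) = w x`. -/
theorem stepX_large (hw : IsNonarchimedean w) {r x : K} (hr : w r = 1) (hL : w (Lr r) ≤ 1)
    (hx : 1 < w x) : w (stepX r x) = w x ∧ x ≠ Lr r := by
  have h1 : w (x - 1) = w x := nonarch_sub_eq hw (by rw [map_one]; exact hx)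
  have h2 : w (x - Lr r) = w x := nonarch_sub_eq hw (lt_of_le_of_lt hL hx)
  have hx0 : w x ≠ 0 := by linarith
  refine ⟨?_, ?_⟩
  · unfold stepX
    rw [map_div₀, map_mul, map_mul, hr, h1, h2, one_mul]
    field_simp
  · intro h
    rw [← h] at hL
    linarith

/-- **Row N4b.** Induction with N4a. -/
theorem down_large (hw : IsNonarchimedean w) (hr : ∀ n, w (r n) = 1)
    (hL : ∀ n, w (Lr (r n)) ≤ 1) (n : ℕ) {x : K} (y : K) (hx : 1 < w x) :
    w (down r e n (x, y)).1 = w x ∧ Good r n x := by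
  induction n generalizing x y with
  | zero => exact ⟨rfl, trivial⟩
  | succ n ih =>
    obtain ⟨h1, h2⟩ := stepX_large hw (hr n) (hL n) hx
    have hx' : 1 < w (stepX (r n) x) := by rw [h1]; exact hx
    obtain ⟨h3, h4⟩ := ih (stepY (r n) (e n) x y) hx'
    refine ⟨?_, h2, h4⟩
    show w (down r e n (stepX (r n) x, stepY (r n) (e n) x y)).1 = w x
    rw [h3, h1]

end Pool.Agent.ZC
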