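import Pool.Agent.Lib.MP_a1cc03_ag.N3_Chain

/-! # Row N5: injectivity of the chain near the origin -/

noncomputable section

namespace Pool.Agent.ZC

variable {K : Type} [Field K] [CharZero K] {w : AbsoluteValue K ℝ} {l r e : ℕ → K}

/-- **Row N5a.** `x (x - 1) (x' - L) - x' (x' - 1) (x - L) = (x - x') (x x' - L (x + x') + L)` and the second
factor has absolute value `w x w x' > 0`. -/
theorem stepX_inj (hw : IsNonarchimedean w) {r x x' : K} (hr : w r = 1) (hL : w (Lr r) ≤ 1)
    (hx : 1 < w x) (hx' : 1 < w x') (h : stepX r x = stepX r x') : x = x' := by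
  have hne := (stepX_large hw hr hL hx).2
  have hne' := (stepX_large hw hr hL hx').2
  set L := Lr r with hLdef
  have hr0 : r ≠ 0 := by rintro rfl; simp at hr
  have hxL : x - L ≠ 0 := sub_ne_zero.mpr hne
  have hxL' : x' - L ≠ 0 := sub_ne_zero.mpr hne'
  have h1 : x * (x - 1) * (x' - L) = x' * (x' - 1) * (x - L) := by
    have h2 : r * x * (x - 1) / (x - L) = r * x' * (x' - 1) / (x' - L) := h
    rw [div_eq_div_iff hxL hxL'] at h2
    have h3 : r * (x * (x - 1) * (x' - L)) = r * (x' * (x' - 1) * (x - L)) := by
      linear_combination h2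
    exact mul_left_cancel₀ hr0 h3
  have h4 : (x - x') * (x * x' - (L * (x + x') - L)) = 0 := by linear_combination h1
  rcases mul_eq_zero.mp h4 with h5 | h5
  · exact sub_eq_zero.mp h5
  · exfalso
    have hpos : 0 < w x := by linarith
    have hpos' : 0 < w x' := by linarith
    have hb1 : w x < w x * w x' := by nlinarith
    have hb2 : w x' < w x * w x' := by nlinarith
    have hb3 : 1 < w x * w x' := by linarith
    have hs : w (x + x') ≤ max (w x) (w x') := hw x x'
    have h6 : w (L * (x + x')) < w x * w x' := by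
      rw [map_mul]
      calc w L * w (x + x') ≤ 1 * w (x + x') :=
            mul_le_mul_of_nonneg_right hL (w.nonneg _)
        _ = w (x + x') := one_mul _
        _ ≤ max (w x) (w x') := hs
        _ < w x * w x' := max_lt hb1 hb2
    have h7 : w (L * (x + x') - L) < w (x * x') := by
      rw [map_mul w x x']
      refine lt_of_le_of_lt (nonarch_sub_le hw _ _) (max_lt h6 ?_)
      linarith
    have h8 := nonarch_sub_eq hw h7
    rw [h5, map_zero, map_mul] at h8
    have : 0 < w x * w x' := by positivity
    linarith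

/-- **Row N5b.** Induction with N5a and N4. -/
theorem down_inj (hw : IsNonarchimedean w) (hr : ∀ n, w (r n) = 1) (hL : ∀ n, w (Lr (r n)) ≤ 1)
    (n : ℕ) {x x' : K} (y y' : K) (hx : 1 < w x) (hx' : 1 < w x')
    (h : (down r e n (x, y)).1 = (down r e n (x', y')).1) : x = x' := by
  induction n generalizing x x' y y' with
  | zero => exact h
  | succ n ih =>
    have h1 := (stepX_large hw (hr n) (hL n) hx).1
    have h2 := (stepX_large hw (hr n) (hL n) hx').1
    have h3 : stepX (r n) x = stepX (r n) x' :=
      ih (stepY (r n) (e n) x y) (stepY (r n) (e n) x' y') (by rw [h1]; exact hx)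
        (by rw [h2]; exact hx') h
    exact stepX_inj hw (hr n) (hL n) hx hx' h3

/-- **Row N5c.** If the two signs of `r` give the same value then `x - (1 - L) = -(x - L)`
(note `Lr (-r) = 1 - Lr r`), `2 x = 1`, impossible for `w x > 1`. -/
theorem stepX_neg_ne (hw : IsNonarchimedean w) (h2 : w 2 = 1) {r x : K} (hr : w r = 1)
    (hL : w (Lr r) ≤ 1) (hx : 1 < w x) : stepX r x ≠ stepX (-r) x := by
  intro h
  have hne := (stepX_large hw hr hL hx).2
  have hr0 : r ≠ 0 := by rintro rfl; simp at hr
  have hneg : Lr (-r) = 1 - Lr r := by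
    unfold Lr
    have : (4 : K) * -r ≠ 0 := mul_ne_zero (by norm_num) (neg_ne_zero.mpr hr0)
    field_simp
    ring
  set L := Lr r with hLdef
  have hx0 : x ≠ 0 := by rintro rfl; simp at hx; linarith
  have h1w : w (1 : K) < w x := by rw [map_one]; exact hx
  have hx1 : x - 1 ≠ 0 := by
    intro h0
    have := nonarch_sub_eq hw h1w
    rw [h0, map_zero] at this
    linarith
  have hxL : x - L ≠ 0 := sub_ne_zero.mpr hne
  have hL' : w (1 - L) < w x := by
    refine lt_of_le_of_lt (nonarch_sub_le hw _ _) (max_lt h1w ?_)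
    linarith
  have hxL' : x - (1 - L) ≠ 0 := by
    intro h0
    have := nonarch_sub_eq hw hL'
    rw [h0, map_zero] at this
    linarith
  have h3 : r * x * (x - 1) / (x - L) = -r * x * (x - 1) / (x - (1 - L)) := by
    have := h
    unfold stepX at this
    rw [hneg, ← hLdef] at this
    exact this
  rw [div_eq_div_iff hxL hxL'] at h3
  have h4 : (r * x * (x - 1)) * (2 * x - 1) = 0 := by linear_combination h3
  have h5 : r * x * (x - 1) ≠ 0 := mul_ne_zero (mul_ne_zero hr0 hx0) hx1
  have h6 : 2 * x - 1 = 0 := (mul_eq_zero.mp h4).resolve_left h5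
  have h7 : w (2 * x) = 1 := by
    rw [sub_eq_zero.mp h6, map_one]
  rw [map_mul, h2, one_mul] at h7
  linarith

end Pool.Agent.ZC
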