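import Pool.Agent.Lib.MP_a1cc03_ag.N6_Defs

/-! # Row N6: points close to the origin form a subgroup -/

noncomputable section

namespace Pool.Agent.ZC

open WeierstrassCurve

section NoDec

variable {K : Type} [Field K] {l : K} {w : AbsoluteValue K ℝ}

/-- For `w x > 1`: `w (x - 1) = w x`, `w (x - l) = w x`. -/
theorem n6_sub_eq (hw : IsNonarchimedean w) {x c : K} (hc : w c ≤ 1) (hx : 1 < w x) :
    w (x - c) = w x := nonarch_sub_eq hw (lt_of_le_of_lt hc hx)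

theorem n6_y_sq (hw : IsNonarchimedean w) (hl : w l ≤ 1) {x y : K}
    (h : (leg l).toAffine.Nonsingular x y) (hx : 1 < w x) : w y ^ 2 = w x ^ 3 := by
  have e := leg_eq_of_nonsingular h
  have e2 : w (y ^ 2) = w (x * (x - 1) * (x - l)) := by rw [e]
  rw [map_pow, map_mul, map_mul, n6_sub_eq hw (by rw [map_one]) hx, n6_sub_eq hw hl hx] at e2
  rw [e2]; ring

theorem n6_four (hw : IsNonarchimedean w) : w (4 : K) ≤ 1 := by
  have := nonarch_natCast_le hw 4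
  simpa using this

theorem n6_two (hw : IsNonarchimedean w) : w (2 : K) ≤ 1 := by
  have := nonarch_natCast_le hw 2
  simpa using this

theorem n6_one_add (hw : IsNonarchimedean w) (hl : w l ≤ 1) : w (1 + l) ≤ 1 := by
  refine (hw 1 l).trans ?_
  rw [map_one]
  exact max_le le_rfl hl

/-- The double of a point with `w x > 1`. -/
theorem n6_double_key (hw : IsNonarchimedean w) (h2 : (2 : K) ≠ 0) (hl : w l ≤ 1) {x y : K}
    (h : (leg l).toAffine.Nonsingular x y) (hx : 1 < w x) (hy : y ≠ 0) :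
    w x ≤ w (((3 * x ^ 2 - 2 * (1 + l) * x + l) / (2 * y)) ^ 2 + (1 + l) - 2 * x) := by
  have e := leg_eq_of_nonsingular h
  have h4 : (4 : K) ≠ 0 := by
    have : (4 : K) = 2 * 2 := by norm_num
    rw [this]
    exact mul_ne_zero h2 h2
  have key : ((3 * x ^ 2 - 2 * (1 + l) * x + l) / (2 * y)) ^ 2 + (1 + l) - 2 * x
      = (x ^ 2 - l) ^ 2 / (4 * y ^ 2) := by
    have hy2 : y ^ 2 ≠ 0 := pow_ne_zero 2 hy
    field_simp
    rw [show (y : K) ^ 2 = x * (x - 1) * (x - l) from e]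
    ring
  have hx2 : w (x ^ 2 - l) = w x ^ 2 := by
    have h1 : 1 < w (x ^ 2) := by
      rw [map_pow]
      exact one_lt_pow₀ hx two_ne_zero
    rw [n6_sub_eq hw hl h1, map_pow]
  rw [key, map_div₀, map_mul, map_pow, map_pow, hx2, n6_y_sq hw hl h hx]
  have hx0 : 0 < w x := lt_trans one_pos hx
  have hw4 : 0 < w (4 : K) := w.pos h4
  have hw4' := n6_four hw
  rw [le_div_iff₀ (by positivity)]
  have h3 : w x * (w (4 : K) * w x ^ 3) = w (4 : K) * (w x) ^ 4 := by ring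
  rw [h3]
  have h5 : ((w x) ^ 2) ^ 2 = 1 * (w x) ^ 4 := by ring
  rw [h5]
  exact mul_le_mul_of_nonneg_right hw4' (by positivity)

/-- The main estimate for the sum of two points with different `x`-coordinates. -/
theorem n6_add_key (hw : IsNonarchimedean w) (hl : w l ≤ 1) {B : ℝ}
    (hB : 1 < B) {x₁ y₁ x₂ y₂ : K} (h₁ : (leg l).toAffine.Nonsingular x₁ y₁)
    (h₂ : (leg l).toAffine.Nonsingular x₂ y₂) (hx : x₁ ≠ x₂) (hx₁ : B ≤ w x₁) (hx₂ : B ≤ w x₂) :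
    B ≤ w (((y₁ - y₂) / (x₁ - x₂)) ^ 2 + (1 + l) - x₁ - x₂) := by
  have e₁ := leg_eq_of_nonsingular h₁
  have e₂ := leg_eq_of_nonsingular h₂
  have hd : x₁ - x₂ ≠ 0 := sub_ne_zero.mpr hx
  set A : K := ((y₁ - y₂) / (x₁ - x₂)) ^ 2 + (1 + l) - x₁ - x₂ with hA
  set C : K := ((y₁ + y₂) / (x₁ - x₂)) ^ 2 + (1 + l) - x₁ - x₂ with hC
  have hA' : (x₁ - x₂) ^ 2 * A = (y₁ - y₂) ^ 2 + (x₁ - x₂) ^ 2 * (1 + l - x₁ - x₂) := by
    rw [hA]
    field_simp
    ring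
  have hC' : (x₁ - x₂) ^ 2 * C = (y₁ + y₂) ^ 2 + (x₁ - x₂) ^ 2 * (1 + l - x₁ - x₂) := by
    rw [hC]
    field_simp
    ring
  have hsum : (x₁ - x₂) ^ 2 * (A + C) = 2 * (x₁ + x₂) * (x₁ * x₂ + l) - 4 * (1 + l) * (x₁ * x₂) := by
    have : (x₁ - x₂) ^ 2 * (A + C) = (x₁ - x₂) ^ 2 * A + (x₁ - x₂) ^ 2 * C := by ring
    rw [this, hA', hC']
    linear_combination 2 * e₁ + 2 * e₂
  have hprod : (x₁ - x₂) ^ 2 * (A * C) = (x₁ * x₂ - l) ^ 2 := by
    have h3 : ((x₁ - x₂) ^ 2) * ((x₁ - x₂) ^ 2 * (A * C)) = ((x₁ - x₂) ^ 2) * (x₁ * x₂ - l) ^ 2 := by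
      have : ((x₁ - x₂) ^ 2) * ((x₁ - x₂) ^ 2 * (A * C))
          = ((x₁ - x₂) ^ 2 * A) * ((x₁ - x₂) ^ 2 * C) := by ring
      rw [this, hA', hC']
      have h5 : (y₁ - y₂) ^ 2 * (y₁ + y₂) ^ 2 = (y₁ ^ 2 - y₂ ^ 2) ^ 2 := by ring
      have h6 : ((y₁ - y₂) ^ 2 + (x₁ - x₂) ^ 2 * (1 + l - x₁ - x₂)) *
          ((y₁ + y₂) ^ 2 + (x₁ - x₂) ^ 2 * (1 + l - x₁ - x₂))
          = (y₁ ^ 2 - y₂ ^ 2) ^ 2 + (x₁ - x₂) ^ 2 * (1 + l - x₁ - x₂) * (2 * (y₁ ^ 2 + y₂ ^ 2))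
            + ((x₁ - x₂) ^ 2 * (1 + l - x₁ - x₂)) ^ 2 := by ring
      rw [h6, e₁, e₂]
      ring
    exact mul_left_cancel₀ (pow_ne_zero 2 hd) h3
  -- absolute values
  have h1x₁ : 1 < w x₁ := lt_of_lt_of_le hB hx₁
  have h1x₂ : 1 < w x₂ := lt_of_lt_of_le hB hx₂
  have hR₁ : 0 < w x₁ := lt_trans one_pos h1x₁
  have hR₂ : 0 < w x₂ := lt_trans one_pos h1x₂
  have hxx : w (x₁ * x₂) = w x₁ * w x₂ := map_mul w x₁ x₂
  have h1xx : 1 < w (x₁ * x₂) := by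
    rw [hxx]
    nlinarith
  have hprod' : w (x₁ - x₂) ^ 2 * (w A * w C) = (w x₁ * w x₂) ^ 2 := by
    have := congrArg w hprod
    rw [map_mul, map_mul, map_pow, map_pow, n6_sub_eq hw hl h1xx, hxx] at this
    exact this
  have hdM : w (x₁ - x₂) ≤ max (w x₁) (w x₂) := nonarch_sub_le hw x₁ x₂
  have hd0 : 0 < w (x₁ - x₂) := w.pos hd
  set M := max (w x₁) (w x₂) with hM
  set m := min (w x₁) (w x₂) with hm
  have hMm : w x₁ * w x₂ = M * m := (max_mul_min (w x₁) (w x₂)).symm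
  have hMpos : 0 < M := lt_of_lt_of_le hR₁ (le_max_left _ _)
  have hm1 : B ≤ m := le_min hx₁ hx₂
  have hmpos : 0 < m := lt_of_lt_of_le (lt_trans one_pos hB) hm1
  have hM1 : 1 ≤ M := le_trans h1x₁.le (le_max_left _ _)
  have hsum' : w (x₁ - x₂) ^ 2 * w (A + C) ≤ M * (M * m) := by
    have h3 := congrArg w hsum
    rw [map_mul, map_pow] at h3
    rw [h3]
    refine (nonarch_sub_le hw _ _).trans (max_le ?_ ?_)
    · rw [map_mul, map_mul]
      have ha : w (2 : K) * w (x₁ + x₂) ≤ 1 * M :=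
        mul_le_mul (n6_two hw) (hw x₁ x₂) (w.nonneg _) one_pos.le
      have hb : w (x₁ * x₂ + l) ≤ M * m := by
        refine (hw _ _).trans (max_le ?_ ?_)
        · rw [hxx, hMm]
        · refine hl.trans ?_
          rw [← hMm, ← hxx]
          exact h1xx.le
      calc w (2 : K) * w (x₁ + x₂) * w (x₁ * x₂ + l) ≤ (1 * M) * (M * m) :=
            mul_le_mul ha hb (w.nonneg _) (by positivity)
        _ = M * (M * m) := by ring
    · rw [map_mul, map_mul, hxx, hMm]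
      have ha : w (4 : K) * w (1 + l) ≤ 1 * 1 :=
        mul_le_mul (n6_four hw) (n6_one_add hw hl) (w.nonneg _) one_pos.le
      have hb : w (4 : K) * w (1 + l) ≤ M := by linarith
      exact mul_le_mul_of_nonneg_right hb (by positivity)
  by_contra hlt
  push Not at hlt
  have hAm : w A < m := lt_of_lt_of_le hlt hm1
  rw [hMm] at hprod'
  have hA0 : 0 ≤ w A := w.nonneg _
  have hC0 : 0 ≤ w C := w.nonneg _
  have hd2 : w (x₁ - x₂) ^ 2 ≤ M ^ 2 := pow_le_pow_left₀ hd0.le hdM 2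
  rcases le_or_gt (w C) (w A) with hCA | hAC
  · -- contradiction
    have h3 : w A * w C < m ^ 2 := by nlinarith
    have h4 : w (x₁ - x₂) ^ 2 * (w A * w C) ≤ M ^ 2 * (w A * w C) :=
      mul_le_mul_of_nonneg_right hd2 (by positivity)
    have h5 : M ^ 2 * (w A * w C) < M ^ 2 * m ^ 2 := mul_lt_mul_of_pos_left h3 (by positivity)
    have h6 : (M * m) ^ 2 = M ^ 2 * m ^ 2 := by ring
    rw [hprod', h6] at h4
    exact absurd (lt_of_le_of_lt h4 h5) (lt_irrefl _)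
  · have h3 : w (A + C) = w C := by
      rw [add_comm]
      exact nonarch_add_eq hw hAC
    rw [h3] at hsum'
    have h4 : w A * (w (x₁ - x₂) ^ 2 * w C) ≤ w A * (M * (M * m)) :=
      mul_le_mul_of_nonneg_left hsum' hA0
    have h5 : w A * (w (x₁ - x₂) ^ 2 * w C) = (M * m) ^ 2 := by
      rw [← hprod']
      ring
    rw [h5] at h4
    have h6 : w A * (M * (M * m)) < m * (M * (M * m)) :=
      mul_lt_mul_of_pos_right hAm (by positivity)
    have h7 : m * (M * (M * m)) = (M * m) ^ 2 := by ring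
    rw [h7] at h6
    exact absurd (lt_of_le_of_lt h4 h6) (lt_irrefl _)

end NoDec

variable {K : Type} [Field K] [DecidableEq K] {l : K} {w : AbsoluteValue K ℝ}

/-- **Row N6a.** -/
theorem Big.neg {B : ℝ} {P : (leg l).toAffine.Point} (hP : Big w B P) : Big w B (-P) := by
  rcases hP with h | ⟨x, y, h, rfl, hx⟩
  · left
    rw [h, neg_zero]
  · right
    exact ⟨x, -y, leg_neg_nonsingular h, leg_neg_some h (leg_neg_nonsingular h), hx⟩

/-- **Row N6b.** `x (2P) = (x² - l)² / (4 y²)`, so `w (x (2P)) = w x / w 4 ≥ w x`. -/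
theorem Big.double (hw : IsNonarchimedean w) (h2 : (2 : K) ≠ 0) (hl : w l ≤ 1) {B : ℝ}
    (hB : 1 < B) {P : (leg l).toAffine.Point} (hP : Big w B P) : Big w B (P + P) := by
  rcases hP with h | ⟨x, y, h, rfl, hx⟩
  · left
    rw [h, add_zero]
  · right
    have h1 : 1 < w x := lt_of_lt_of_le hB hx
    have hy : y ≠ 0 := by
      rintro rfl
      have := n6_y_sq hw hl h h1
      rw [map_zero] at this
      have h3 : 0 < w x ^ 3 := pow_pos (lt_trans one_pos h1) 3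
      rw [← this] at h3
      norm_num at h3
    obtain ⟨h₃, he⟩ := leg_double h h2 hy
    exact ⟨_, _, h₃, he, hx.trans (n6_double_key hw h2 hl h h1 hy)⟩

/-- **Row N6c.** Points `(x₁, y₁)`, `(x₂, y₂)` with `x₁ ≠ x₂`. Let `x₊`, `x₋` be the `x`-coordinates of the
sum and of the difference:
`x₊ = ((y₁ - y₂)/(x₁ - x₂))² + (1 + l) - x₁ - x₂`, `x₋ = ((y₁ + y₂)/(x₁ - x₂))² + (1 + l) - x₁ - x₂`. Then
`x₊ x₋ = ((x₁ x₂ - l)/(x₁ - x₂))²` and
`x₊ + x₋ = (2 (x₁ + x₂) (x₁ x₂ + l) - 4 (1 + l) x₁ x₂)/(x₁ - x₂)²`.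
Let `R_i = w x_i`, `δ = w (x₁ - x₂) ≤ max R₁ R₂`, `μ = min R₁ R₂ ≥ B`; suppose `w x₊ < μ`.
`w (x₊ x₋) = R₁² R₂²/δ²`. If `w x₋ ≤ w x₊` then `w (x₊ x₋) < μ²`, but `R₁² R₂²/δ² ≥ μ²`: contradiction.
So `w x₊ < w x₋ = w (x₊ + x₋) ≤ max(R₁, R₂) R₁ R₂ / δ²`, whence
`w x₊ = R₁² R₂² / (δ² w x₋) ≥ R₁ R₂ / max(R₁, R₂) = μ`: contradiction. -/
theorem Big.add (hw : IsNonarchimedean w) (h2 : (2 : K) ≠ 0) (hl : w l ≤ 1) {B : ℝ} (hB : 1 < B)
    {P Q : (leg l).toAffine.Point} (hP : Big w B P) (hQ : Big w B Q) : Big w B (P + Q) := by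
  rcases hP with h | ⟨x₁, y₁, h₁, rfl, hx₁⟩
  · rw [h, zero_add]
    exact hQ
  rcases hQ with h | ⟨x₂, y₂, h₂, rfl, hx₂⟩
  · rw [h, add_zero]
    exact Or.inr ⟨x₁, y₁, h₁, rfl, hx₁⟩
  by_cases hx : x₁ = x₂
  · subst hx
    have e₁ := leg_eq_of_nonsingular h₁
    have e₂ := leg_eq_of_nonsingular h₂
    have h3 : (y₁ - y₂) * (y₁ + y₂) = 0 := by linear_combination e₁ - e₂
    rcases mul_eq_zero.mp h3 with h4 | h4
    · have h5 : y₁ = y₂ := sub_eq_zero.mp h4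
      subst h5
      exact Big.double hw h2 hl hB (Or.inr ⟨x₁, y₁, h₁, rfl, hx₁⟩)
    · have h5 : y₂ = -y₁ := by linear_combination h4
      subst h5
      left
      rw [← leg_neg_some h₁ h₂]
      exact add_neg_cancel _
  · right
    obtain ⟨h₃, he⟩ := leg_add_of_ne h₁ h₂ hx
    exact ⟨_, _, h₃, he, n6_add_key hw hl hB h₁ h₂ hx hx₁ hx₂⟩

end Pool.Agent.ZC
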