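import Pool.Agent.Lib.MP_a1cc03_ag.N0_Abs

/-! # Definitions for rows N6-N8 -/

noncomputable section

namespace Pool.Agent.ZC

open WeierstrassCurve

variable {K : Type} [Field K]

/-- The point `P` is `O` or `w (x P) ≥ B`. -/
def Big {l : K} (w : AbsoluteValue K ℝ) (B : ℝ) (P : (leg l).toAffine.Point) : Prop :=
  P = 0 ∨ ∃ (x y : K) (h : (leg l).toAffine.Nonsingular x y), P = .some x y h ∧ B ≤ w x

/-- The parameter `x / y` at the origin (`0` for the point `O`). -/
def zc {l : K} : (leg l).toAffine.Point → K
  | .zero => 0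
  | .some x y _ => x / y

end Pool.Agent.ZC
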