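import Pool.Agent.Lib.MP_a1cc03_ag.N6_Defs

/-! # Rows N7a, N7b: the parameter at the origin -/

noncomputable section

namespace Pool.Agent.ZC

open WeierstrassCurve

variable {K : Type} [Field K] {l : K} {w : AbsoluteValue K ℝ}

/-- **Row N7a.** If `w x > 1` then `w y² = w x³`, so `w (x/y)² = 1 / w x`. -/
theorem zc_sq (hw : IsNonarchimedean w) (hl : w l ≤ 1) {x y : K}
    (h : (leg l).toAffine.Nonsingular x y) (hx : 1 < w x) :
    y ≠ 0 ∧ w y ^ 2 = w x ^ 3 ∧ w (x / y) ^ 2 = (w x)⁻¹ := by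
  have he := leg_eq_of_nonsingular h
  have h1 : w (x - 1) = w x := nonarch_sub_eq hw (by rw [map_one]; exact hx)
  have h2 : w (x - l) = w x := nonarch_sub_eq hw (lt_of_le_of_lt hl hx)
  have hx0 : w x ≠ 0 := by positivity
  have hy2 : w y ^ 2 = w x ^ 3 := by
    have := congrArg w he
    rw [map_pow, map_mul, map_mul, h1, h2] at this
    rw [this]; ring
  have hy : y ≠ 0 := by
    rintro rfl
    rw [map_zero] at hy2
    have : w x ^ 3 = 0 := by rw [← hy2]; norm_num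
    exact hx0 (pow_eq_zero_iff (by norm_num) |>.mp this)
  refine ⟨hy, hy2, ?_⟩
  rw [map_div₀, div_pow, hy2]
  field_simp

/-- **Row N7b.** Three collinear points: if `y_i = k x_i + ν` (`i = 1, 2, 3`) are the three intersection
points of a line with the curve, expressed by `x₁ + x₂ + x₃ = k² + (1 + l)`,
`x₁ x₂ + x₁ x₃ + x₂ x₃ = l - 2 k ν`, `x₁ x₂ x₃ = ν²`, and no `y_i` vanishes and `ν ≠ 0`, then
`∑ x_i / y_i = (2 l k + (1 + l) ν) / (ν² + (1 + l) k ν + l k²)`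
(numerator `3 k² e₃ + 2 k ν e₂ + ν² e₁ = ν (2 l k + (1 + l) ν)`, denominator
`∏ y_i = k³ e₃ + k² ν e₂ + k ν² e₁ + ν³ = ν (l k² + (1 + l) k ν + ν²)`). -/
theorem collinear_sum {x₁ x₂ x₃ k ν : K} (hν : ν ≠ 0) (h1 : k * x₁ + ν ≠ 0)
    (h2 : k * x₂ + ν ≠ 0) (h3 : k * x₃ + ν ≠ 0) (e1 : x₁ + x₂ + x₃ = k ^ 2 + (1 + l))
    (e2 : x₁ * x₂ + x₁ * x₃ + x₂ * x₃ = l - 2 * k * ν) (e3 : x₁ * x₂ * x₃ = ν ^ 2) :
    x₁ / (k * x₁ + ν) + x₂ / (k * x₂ + ν) + x₃ / (k * x₃ + ν)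
      = (2 * l * k + (1 + l) * ν) / (ν ^ 2 + (1 + l) * k * ν + l * k ^ 2) := by
  have hprod : (k * x₁ + ν) * (k * x₂ + ν) * (k * x₃ + ν)
      = ν * (ν ^ 2 + (1 + l) * k * ν + l * k ^ 2) := by
    linear_combination k ^ 3 * e3 + k ^ 2 * ν * e2 + k * ν ^ 2 * e1
  have hD : ν ^ 2 + (1 + l) * k * ν + l * k ^ 2 ≠ 0 := by
    intro h
    rw [h, mul_zero] at hprod
    exact mul_ne_zero (mul_ne_zero h1 h2) h3 hprod
  have hnum : x₁ * (k * x₂ + ν) * (k * x₃ + ν) + x₂ * (k * x₁ + ν) * (k * x₃ + ν)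
      + x₃ * (k * x₁ + ν) * (k * x₂ + ν) = ν * (2 * l * k + (1 + l) * ν) := by
    linear_combination 3 * k ^ 2 * e3 + 2 * k * ν * e2 + ν ^ 2 * e1
  rw [div_add_div _ _ h1 h2, div_add_div _ _ (mul_ne_zero h1 h2) h3,
    div_eq_div_iff (mul_ne_zero (mul_ne_zero h1 h2) h3) hD]
  linear_combination (ν ^ 2 + (1 + l) * k * ν + l * k ^ 2) * hnum
    - (2 * l * k + (1 + l) * ν) * hprod

end Pool.Agent.ZC
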