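import Pool.Agent.Lib.MP_a1cc03_ag.N6_Big
import Pool.Agent.Lib.MP_a1cc03_ag.N7a_Zc

/-! # Row N7c: the parameter is almost additive -/

noncomputable section

namespace Pool.Agent.ZC

open WeierstrassCurve

variable {K : Type} [Field K] [DecidableEq K] {l : K} {w : AbsoluteValue K ℝ}

omit [DecidableEq K] in
theorem n7c_add (hw : IsNonarchimedean w) {a b : K} {c : ℝ} (ha : w a ≤ c) (hb : w b ≤ c) :
    w (a + b) ≤ c := (hw a b).trans (max_le ha hb)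

omit [DecidableEq K] in
theorem n7c_sub (hw : IsNonarchimedean w) {a b : K} {c : ℝ} (ha : w a ≤ c) (hb : w b ≤ c) :
    w (a - b) ≤ c := by
  rw [sub_eq_add_neg]
  exact n7c_add hw ha (by rwa [map_neg_eq_map])

omit [DecidableEq K] in
theorem n7c_mul {a b : K} {c d : ℝ} (ha : w a ≤ c) (hb : w b ≤ d) : w (a * b) ≤ c * d := by
  rw [map_mul]
  exact mul_le_mul ha hb (w.nonneg b) ((w.nonneg a).trans ha)

omit [DecidableEq K] in
theorem n7c_two (hw : IsNonarchimedean w) : w (2 : K) ≤ 1 := by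
  have := nonarch_natCast_le hw 2
  simpa using this

omit [DecidableEq K] in
theorem n7c_three (hw : IsNonarchimedean w) : w (3 : K) ≤ 1 := by
  have := nonarch_natCast_le hw 3
  simpa using this

omit [DecidableEq K] in
theorem n7c_one_add (hw : IsNonarchimedean w) {s : K} (hs : w s < 1) : w (1 + s) = 1 := by
  have h := nonarch_add_eq hw (x := (1 : K)) (y := s) (by rwa [map_one])
  rwa [map_one] at h

omit [DecidableEq K] in
theorem n7c_core (hw : IsNonarchimedean w) (hl : w l ≤ 1) {x₁ x₂ x₃ y₁ y₂ y₃ k ν : K} {ρ : ℝ}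
    (hρ0 : 0 ≤ ρ) (hρ : ρ < 1) (hx₁ : x₁ ≠ 0) (hx₂ : x₂ ≠ 0) (hx₃ : x₃ ≠ 0)
    (h1 : y₁ = k * x₁ + ν) (h2 : y₂ = k * x₂ + ν) (h3 : y₃ = k * x₃ + ν)
    (hy₁ : y₁ ≠ 0) (hy₂ : y₂ ≠ 0) (hy₃ : y₃ ≠ 0) (e1 : x₁ + x₂ + x₃ = k ^ 2 + (1 + l))
    (e2 : x₁ * x₂ + x₁ * x₃ + x₂ * x₃ = l - 2 * k * ν) (e3 : x₁ * x₂ * x₃ = ν ^ 2)
    (hu : w (k / ν) ≤ ρ ^ 2) (hb : w ν⁻¹ ≤ ρ ^ 3) :
    w (x₁ / y₁ + x₂ / y₂ + x₃ / y₃) ≤ ρ ^ 3 := by
  have hν : ν ≠ 0 := by
    rintro rfl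
    have : x₁ * x₂ * x₃ = 0 := by rw [e3]; ring
    exact mul_ne_zero (mul_ne_zero hx₁ hx₂) hx₃ this
  subst h1 h2 h3
  rw [collinear_sum hν hy₁ hy₂ hy₃ e1 e2 e3]
  have hρ2 : ρ ^ 2 < 1 := pow_lt_one₀ hρ0 hρ (by norm_num)
  set u := k / ν with hu'
  have hk : k = u * ν := by rw [hu']; field_simp
  have h1l : w (1 + l) ≤ 1 := n7c_add hw (by rw [map_one]) hl
  have hu1 : w u ≤ 1 := hu.trans hρ2.le
  have hs : w ((1 + l) * u + l * u ^ 2) < 1 := by
    refine lt_of_le_of_lt (n7c_add hw (c := ρ ^ 2) ?_ ?_) hρ2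
    · have := n7c_mul (w := w) h1l hu
      rwa [one_mul] at this
    · have h5 : w (u ^ 2) ≤ ρ ^ 2 := by
        rw [pow_two]
        have := n7c_mul (w := w) hu1 hu
        rwa [one_mul] at this
      have := n7c_mul (w := w) hl h5
      rwa [one_mul] at this
  have hD := n7c_one_add hw hs
  have hD0 : 1 + ((1 + l) * u + l * u ^ 2) ≠ 0 := by
    intro h
    rw [h, map_zero] at hD
    exact zero_ne_one hD
  have hN : w (2 * l * u + (1 + l)) ≤ 1 := by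
    refine n7c_add hw ?_ h1l
    have h5 : w (2 * l) ≤ 1 := by
      have := n7c_mul (w := w) (n7c_two hw) hl
      rwa [one_mul] at this
    have := n7c_mul (w := w) h5 hu1
    rwa [one_mul] at this
  have hE : (2 * l * k + (1 + l) * ν) / (ν ^ 2 + (1 + l) * k * ν + l * k ^ 2)
      = ((2 * l * u + (1 + l)) * ν⁻¹) / (1 + ((1 + l) * u + l * u ^ 2)) := by
    have h6 : ν ^ 2 + (1 + l) * k * ν + l * k ^ 2 = ν ^ 2 * (1 + ((1 + l) * u + l * u ^ 2)) := by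
      rw [hk]; ring
    have h7 : 2 * l * k + (1 + l) * ν = ν * (2 * l * u + (1 + l)) := by
      rw [hk]; ring
    rw [h6, h7, div_eq_div_iff (mul_ne_zero (pow_ne_zero 2 hν) hD0) hD0]
    field_simp
  rw [hE, map_div₀, hD, div_one]
  have := n7c_mul (w := w) hN hb
  rwa [one_mul] at this

/-- **Row N7c.** `w (z(P+Q) - z(P) - z(Q)) ≤ max(w z(P), w z(Q))³`.
Trivial if `P = O`, `Q = O` or `P + Q = O` (`z(-P) = - z(P)`). Otherwise let `k` be the slope, `ν = y₁ - k x₁`,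
`P + Q = (x₃, -y₃)` with `y₃ = k x₃ + ν`, so `z(P+Q) = - x₃/y₃`; the three points are collinear and
satisfy `e1, e2, e3` of `collinear_sum` (polynomial identity
`x (x-1) (x-l) - (k x + ν)² = (x - x₁)(x - x₂)(x - x₃)`; for `P = Q` with the tangent). As `w x₃ > 1` (N6),
`ν ≠ 0` by `e3` and `y₃ ≠ 0` (`zc_sq`), so `z(P+Q) - z(P) - z(Q) = - (2 l k + (1 + l) ν)/(ν² + (1 + l) k ν + l k²)`.
With `u = k/ν`, `b = 1/ν` this is `- (2 l u + (1 + l)) b / (1 + (1 + l) u + l u²)`, so it is enough that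
`w u ≤ ρ² < 1` and `w b ≤ ρ³`, `ρ = max (w z₁) (w z₂) < 1`. Put `ω_i = 1/y_i`, `z_i = x_i/y_i`
(`w ω_i = (w z_i)³`): `ω_i = b - u z_i` (divide `y_i = k x_i + ν` by `ν y_i`) and
`ω = z³ - (1 + l) z² ω + l z ω²`.
If `P ≠ Q` then `z₁ ≠ z₂` (the last equation determines `ω` from `z`), `u = -(ω₁ - ω₂)/(z₁ - z₂)`, and
`(ω₁ - ω₂)(1 + (1 + l) z₂² - l z₂ (ω₁ + ω₂)) = (z₁ - z₂)(z₁² + z₁ z₂ + z₂² - (1 + l)(z₁ + z₂) ω₁ + l ω₁²)`
gives `w u ≤ ρ²`; then `b = ω₁ + u z₁`.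
If `P = Q`: `k = (3x² - 2(1+l)x + l)/(2y)`, `ν = (-x³ + l x)/(2y)`, so `w u = w (3x² - …)/w(x³ - l x) ≤ 1/w x = ρ²`
and `w b = w (2y)/w (x³ - l x) ≤ ρ³`. -/
theorem zc_add (hw : IsNonarchimedean w) (h2 : (2 : K) ≠ 0) (hl : w l ≤ 1) {B : ℝ} (hB : 1 < B)
    {P Q : (leg l).toAffine.Point} (hP : Big w B P) (hQ : Big w B Q) :
    w (zc (P + Q) - zc P - zc Q) ≤ (max (w (zc P)) (w (zc Q))) ^ 3 := by
  have hz0 : zc (0 : (leg l).toAffine.Point) = 0 := rfl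
  rcases hP with rfl | ⟨x₁, y₁, h₁, rfl, hx₁⟩
  · rw [zero_add, hz0, sub_zero, sub_self, map_zero]
    positivity
  rcases hQ with rfl | ⟨x₂, y₂, h₂, rfl, hx₂⟩
  · rw [add_zero, hz0, sub_zero, sub_self, map_zero]
    positivity
  have hx1 : 1 < w x₁ := hB.trans_le hx₁
  have hx2 : 1 < w x₂ := hB.trans_le hx₂
  obtain ⟨hy1, hyx1, hzx1⟩ := zc_sq hw hl h₁ hx1
  obtain ⟨hy2, hyx2, hzx2⟩ := zc_sq hw hl h₂ hx2
  have c1 := leg_eq_of_nonsingular h₁
  have c2 := leg_eq_of_nonsingular h₂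
  have hx10 : x₁ ≠ 0 := by
    rintro rfl
    rw [map_zero] at hx1
    linarith
  have hx20 : x₂ ≠ 0 := by
    rintro rfl
    rw [map_zero] at hx2
    linarith
  have hwy1 : 0 < w y₁ := w.pos hy1
  have hwy2 : 0 < w y₂ := w.pos hy2
  have hwx1 : 0 < w x₁ := w.pos hx10
  have hwx2 : 0 < w x₂ := w.pos hx20
  -- sizes
  have lt1 : ∀ {x y : K}, 1 < w x → w (x / y) ^ 2 = (w x)⁻¹ → w (x / y) < 1 := by
    intro x y hx h
    by_contra hge
    push Not at hge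
    have h5 : 1 ≤ w (x / y) ^ 2 := one_le_pow₀ hge
    rw [h] at h5
    have := inv_lt_one_of_one_lt₀ hx
    linarith
  have om : ∀ {x y : K}, y ≠ 0 → w y ^ 2 = w x ^ 3 → w y⁻¹ = w (x / y) ^ 3 := by
    intro x y hy h
    have hy' : w y ≠ 0 := (w.pos hy).ne'
    rw [map_inv₀, map_div₀, div_pow, ← h]
    field_simp
  have hz1 := lt1 hx1 hzx1
  have hz2 := lt1 hx2 hzx2
  have ho1 := om hy1 hyx1
  have ho2 := om hy2 hyx2
  show w (zc (Affine.Point.some x₁ y₁ h₁ + Affine.Point.some x₂ y₂ h₂) - x₁ / y₁ - x₂ / y₂)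
    ≤ (max (w (x₁ / y₁)) (w (x₂ / y₂))) ^ 3
  set ρ := max (w (x₁ / y₁)) (w (x₂ / y₂)) with hρ'
  have hρ0 : 0 ≤ ρ := (w.nonneg _).trans (le_max_left _ _)
  have hρ : ρ < 1 := max_lt hz1 hz2
  have hBig : Big w B (Affine.Point.some x₁ y₁ h₁ + Affine.Point.some x₂ y₂ h₂) :=
    Big.add hw h2 hl hB (Or.inr ⟨x₁, y₁, h₁, rfl, hx₁⟩) (Or.inr ⟨x₂, y₂, h₂, rfl, hx₂⟩)
  -- the final step from the core estimate
  have fin : ∀ {x₃ y₃ k ν : K} (h₃ : (leg l).toAffine.Nonsingular x₃ (-y₃)),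
      Affine.Point.some x₁ y₁ h₁ + Affine.Point.some x₂ y₂ h₂ = Affine.Point.some x₃ (-y₃) h₃ →
      y₁ = k * x₁ + ν → y₂ = k * x₂ + ν → y₃ = k * x₃ + ν →
      x₁ + x₂ + x₃ = k ^ 2 + (1 + l) → x₁ * x₂ + x₁ * x₃ + x₂ * x₃ = l - 2 * k * ν →
      x₁ * x₂ * x₃ = ν ^ 2 → w (k / ν) ≤ ρ ^ 2 → w ν⁻¹ ≤ ρ ^ 3 →
      w (zc (Affine.Point.some x₁ y₁ h₁ + Affine.Point.some x₂ y₂ h₂) - x₁ / y₁ - x₂ / y₂)
        ≤ ρ ^ 3 := by
    intro x₃ y₃ k ν h₃ hsum g1 g2 g3 e1 e2 e3 hu hb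
    rw [hsum] at hBig ⊢
    have hx3 : 1 < w x₃ := by
      rcases hBig with h0 | ⟨x, y, h, hxy, hx⟩
      · exact absurd h0 (by simp)
      · have : x₃ = x := by
          have := (Affine.Point.some.injEq _ _ _ _ _ _).mp hxy
          exact this.1
        rw [this]
        exact hB.trans_le hx
    obtain ⟨hy3, -, -⟩ := zc_sq hw hl h₃ hx3
    have hx30 : x₃ ≠ 0 := by
      rintro rfl
      rw [map_zero] at hx3
      linarith
    have hy3' : y₃ ≠ 0 := neg_ne_zero.mp hy3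
    have hcore := n7c_core hw hl hρ0 hρ hx10 hx20 hx30 g1 g2 g3 hy1 hy2 hy3' e1 e2 e3 hu hb
    have : zc (Affine.Point.some x₃ (-y₃) h₃) - x₁ / y₁ - x₂ / y₂
        = -(x₁ / y₁ + x₂ / y₂ + x₃ / y₃) := by
      show x₃ / (-y₃) - x₁ / y₁ - x₂ / y₂ = _
      rw [div_neg]
      ring
    rw [this, map_neg_eq_map]
    exact hcore
  by_cases hx : x₁ = x₂
  · subst hx
    have hyy : (y₁ - y₂) * (y₁ + y₂) = 0 := by linear_combination c1 - c2
    rcases mul_eq_zero.mp hyy with h | h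
    · -- doubling
      have hy12 : y₂ = y₁ := by linear_combination -h
      subst hy12
      obtain ⟨h₃, hsum⟩ := leg_double h₁ h2 hy1
      set k := (3 * x₁ ^ 2 - 2 * (1 + l) * x₁ + l) / (2 * y₂) with hk
      have hk2 : 2 * y₂ * k = 3 * x₁ ^ 2 - 2 * (1 + l) * x₁ + l := by
        rw [hk]
        field_simp
      have hν2 : 2 * y₂ * (y₂ - k * x₁) = -(x₁ ^ 3 - l * x₁) := by
        linear_combination 2 * c1 - x₁ * hk2
      have hD : w (x₁ ^ 3 - l * x₁) = w x₁ ^ 3 := by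
        have h5 : w (l * x₁) < w (x₁ ^ 3) := by
          rw [map_mul, map_pow]
          calc w l * w x₁ ≤ 1 * w x₁ := mul_le_mul_of_nonneg_right hl hwx1.le
            _ = w x₁ := one_mul _
            _ < w x₁ ^ 3 := by
              have : w x₁ ^ 1 < w x₁ ^ 3 := pow_lt_pow_right₀ hx1 (by norm_num)
              simpa using this
        rw [nonarch_sub_eq hw h5, map_pow]
      have hDne : x₁ ^ 3 - l * x₁ ≠ 0 := by
        intro h
        rw [h, map_zero] at hD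
        exact (pow_pos hwx1 3).ne hD
      have h2y : 2 * y₂ ≠ 0 := mul_ne_zero h2 hy1
      have hνne : y₂ - k * x₁ ≠ 0 := by
        intro h
        rw [h, mul_zero] at hν2
        exact hDne (neg_eq_zero.mp hν2.symm)
      have hNle : w (3 * x₁ ^ 2 - 2 * (1 + l) * x₁ + l) ≤ w x₁ ^ 2 := by
        have h1l : w (1 + l) ≤ 1 := n7c_add hw (by rw [map_one]) hl
        have p1 : w x₁ ≤ w x₁ ^ 2 := by nlinarith
        have p2 : (1 : ℝ) ≤ w x₁ ^ 2 := by nlinarith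
        refine n7c_add hw (n7c_sub hw ?_ ?_) (hl.trans p2)
        · have := n7c_mul (w := w) (n7c_three hw) (le_refl (w (x₁ ^ 2)))
          rwa [one_mul, map_pow w x₁ 2] at this
        · have h5 : w (2 * (1 + l)) ≤ 1 := by
            have := n7c_mul (w := w) (n7c_two hw) h1l
            rwa [one_mul] at this
          have := n7c_mul (w := w) h5 (le_refl (w x₁))
          rw [one_mul] at this
          exact this.trans p1
      have hρeq : ρ = w (x₁ / y₂) := by rw [hρ', max_self]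
      refine fin (x₃ := k ^ 2 + (1 + l) - 2 * x₁) (y₃ := k * (k ^ 2 + (1 + l) - 2 * x₁ - x₁) + y₂)
        (k := k) (ν := y₂ - k * x₁) h₃ hsum ?_ ?_ ?_ ?_ ?_ ?_ ?_ ?_
      · ring
      · ring
      · ring
      · ring
      · linear_combination hk2
      · linear_combination x₁ * hk2 - c1
      · have h6 : k / (y₂ - k * x₁)
            = (3 * x₁ ^ 2 - 2 * (1 + l) * x₁ + l) / (-(x₁ ^ 3 - l * x₁)) := by
          rw [← hk2, ← hν2, mul_div_mul_left _ _ h2y]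
        rw [h6, map_div₀, map_neg_eq_map, hD, hρeq, hzx1]
        rw [div_le_iff₀ (pow_pos hwx1 3)]
        calc w (3 * x₁ ^ 2 - 2 * (1 + l) * x₁ + l) ≤ w x₁ ^ 2 := hNle
          _ = (w x₁)⁻¹ * w x₁ ^ 3 := by field_simp
      · have h6 : (y₂ - k * x₁)⁻¹ = 2 * y₂ / (-(x₁ ^ 3 - l * x₁)) := by
          rw [← hν2]
          field_simp
        rw [h6, map_div₀, map_neg_eq_map, hD, hρeq, ← ho1, ← hyx1, map_inv₀]
        have h7 : w (2 * y₂) ≤ w y₂ := by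
          have := n7c_mul (w := w) (n7c_two hw) (le_refl (w y₂))
          rwa [one_mul] at this
        rw [div_le_iff₀ (pow_pos hwy1 2)]
        calc w (2 * y₂) ≤ w y₂ := h7
          _ = (w y₂)⁻¹ * w y₂ ^ 2 := by field_simp
    · -- opposite points
      have hy12 : y₂ = -y₁ := by linear_combination h
      subst hy12
      have hsum : Affine.Point.some x₁ y₁ h₁ + Affine.Point.some x₁ (-y₁) h₂ = 0 := by
        rw [← leg_neg_some h₁ h₂]
        exact add_neg_cancel _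
      rw [hsum, hz0, div_neg]
      have : (0 : K) - x₁ / y₁ - -(x₁ / y₁) = 0 := by ring
      rw [this, map_zero]
      positivity
  · -- different x-coordinates
    have hxx : x₁ - x₂ ≠ 0 := sub_ne_zero.mpr hx
    have add' : ∀ k, k = (y₁ - y₂) / (x₁ - x₂) → ∃ h₃ : (leg l).toAffine.Nonsingular
        (k ^ 2 + (1 + l) - x₁ - x₂) (-(k * ((k ^ 2 + (1 + l) - x₁ - x₂) - x₁) + y₁)),
        Affine.Point.some x₁ y₁ h₁ + Affine.Point.some x₂ y₂ h₂ = Affine.Point.some _ _ h₃ := by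
      rintro k rfl
      exact leg_add_of_ne h₁ h₂ hx
    obtain ⟨k, hk⟩ : ∃ k, k = (y₁ - y₂) / (x₁ - x₂) := ⟨_, rfl⟩
    obtain ⟨h₃, hsum⟩ := add' k hk
    have hkx : k * (x₁ - x₂) = y₁ - y₂ := by
      rw [hk]
      field_simp
    have g2 : y₂ = k * x₂ + (y₁ - k * x₁) := by linear_combination hkx
    -- the elementary symmetric functions
    have e2 : x₁ * x₂ + x₁ * (k ^ 2 + (1 + l) - x₁ - x₂) + x₂ * (k ^ 2 + (1 + l) - x₁ - x₂)
        = l - 2 * k * (y₁ - k * x₁) := by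
      apply mul_left_cancel₀ hxx
      have c2' : (k * x₂ + (y₁ - k * x₁)) ^ 2 = x₂ * (x₂ - 1) * (x₂ - l) := by rw [← g2]; exact c2
      linear_combination c1 - c2'
    have e3 : x₁ * x₂ * (k ^ 2 + (1 + l) - x₁ - x₂) = (y₁ - k * x₁) ^ 2 := by
      linear_combination x₁ * e2 - c1
    have hνne : y₁ - k * x₁ ≠ 0 := by
      intro h0
      rw [h0] at e3
      have hx3 : k ^ 2 + (1 + l) - x₁ - x₂ = 0 := by
        have : x₁ * x₂ * (k ^ 2 + (1 + l) - x₁ - x₂) = 0 := by rw [e3]; ring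
        exact (mul_eq_zero.mp this).resolve_left (mul_ne_zero hx10 hx20)
      rw [hsum] at hBig
      rcases hBig with h0 | ⟨x, y, h, hxy, hx⟩
      · exact absurd h0 (by simp)
      · have h5 := ((Affine.Point.some.injEq _ _ _ _ _ _).mp hxy).1
        rw [← h5, hx3, map_zero] at hx
        linarith
    set ν := y₁ - k * x₁ with hν
    have g1 : y₁ = k * x₁ + ν := by rw [hν]; ring
    -- the quantities at the origin
    set z₁ := x₁ / y₁ with hz₁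
    set z₂ := x₂ / y₂ with hz₂
    set o₁ := y₁⁻¹ with ho₁
    set o₂ := y₂⁻¹ with ho₂
    set u := k / ν with hu'
    have q1 : o₁ = ν⁻¹ - u * z₁ := by
      rw [ho₁, hu', hz₁]
      field_simp
      linear_combination -g1
    have q2 : o₂ = ν⁻¹ - u * z₂ := by
      rw [ho₂, hu', hz₂]
      field_simp
      linear_combination -g2
    have cub : ∀ {x y : K}, y ≠ 0 → y ^ 2 = x * (x - 1) * (x - l) →
        y⁻¹ = (x / y) ^ 3 - (1 + l) * (x / y) ^ 2 * y⁻¹ + l * (x / y) * y⁻¹ ^ 2 := by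
      intro x y hy hc
      field_simp
      linear_combination hc
    have r1 : o₁ = z₁ ^ 3 - (1 + l) * z₁ ^ 2 * o₁ + l * z₁ * o₁ ^ 2 := cub hy1 c1
    have r2 : o₂ = z₂ ^ 3 - (1 + l) * z₂ ^ 2 * o₂ + l * z₂ * o₂ ^ 2 := cub hy2 c2
    have hdiff : (o₁ - o₂) * (1 + ((1 + l) * z₂ ^ 2 - l * z₂ * (o₁ + o₂)))
        = (z₁ - z₂) * (z₁ ^ 2 + z₁ * z₂ + z₂ ^ 2 - (1 + l) * (z₁ + z₂) * o₁ + l * o₁ ^ 2) := by
      linear_combination r1 - r2
    -- estimates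
    have b1 : w z₁ ≤ ρ := le_max_left _ _
    have b2 : w z₂ ≤ ρ := le_max_right _ _
    have hρ3 : ρ ^ 3 ≤ ρ := by
      calc ρ ^ 3 ≤ ρ ^ 1 := pow_le_pow_of_le_one hρ0 hρ.le (by norm_num)
        _ = ρ := pow_one ρ
    have hρ32 : ρ ^ 3 ≤ ρ ^ 2 := pow_le_pow_of_le_one hρ0 hρ.le (by norm_num)
    have hρ1 : ρ ^ 2 ≤ 1 := pow_le_one₀ hρ0 hρ.le
    have hρ21 : ρ ^ 2 < 1 := pow_lt_one₀ hρ0 hρ (by norm_num)
    have b3 : w o₁ ≤ ρ ^ 3 := by
      rw [ho1]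
      exact pow_le_pow_left₀ (w.nonneg _) b1 3
    have b4 : w o₂ ≤ ρ ^ 3 := by
      rw [ho2]
      exact pow_le_pow_left₀ (w.nonneg _) b2 3
    have h1l : w (1 + l) ≤ 1 := n7c_add hw (by rw [map_one]) hl
    have b5 : ∀ {a b : K}, w a ≤ ρ → w b ≤ ρ → w (a * b) ≤ ρ ^ 2 := by
      intro a b ha hb
      have := n7c_mul (w := w) ha hb
      rwa [← pow_two] at this
    have m1 : ∀ {a b : K} {c : ℝ}, w a ≤ 1 → w b ≤ c → w (a * b) ≤ c := by
      intro a b c ha hb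
      have := n7c_mul (w := w) ha hb
      rwa [one_mul] at this
    have s1 : w ((1 + l) * z₂ ^ 2 - l * z₂ * (o₁ + o₂)) < 1 := by
      refine lt_of_le_of_lt (n7c_sub hw (c := ρ ^ 2) ?_ ?_) hρ21
      · exact m1 h1l (by rw [pow_two z₂]; exact b5 b2 b2)
      · rw [mul_assoc]
        exact m1 hl (b5 b2 (n7c_add hw (b3.trans hρ3) (b4.trans hρ3)))
    have s2 := n7c_one_add hw s1
    have hzne : z₁ - z₂ ≠ 0 := by
      intro h0
      rw [h0, zero_mul] at hdiff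
      rcases mul_eq_zero.mp hdiff with h | h
      · have h5 : y₁ = y₂ := by
          have : o₁ = o₂ := sub_eq_zero.mp h
          rw [ho₁, ho₂] at this
          exact inv_injective this
        have h6 : x₁ = x₂ := by
          have h7 : x₁ / y₁ = x₂ / y₂ := sub_eq_zero.mp h0
          rw [← h5] at h7
          exact (div_left_inj' hy1).mp h7
        exact hx h6
      · rw [h, map_zero] at s2
        exact zero_ne_one s2
    have hu2 : u * (z₁ - z₂) = -(o₁ - o₂) := by linear_combination q1 - q2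
    have bu : w u ≤ ρ ^ 2 := by
      have h5 : u * (1 + ((1 + l) * z₂ ^ 2 - l * z₂ * (o₁ + o₂)))
          = -(z₁ ^ 2 + z₁ * z₂ + z₂ ^ 2 - (1 + l) * (z₁ + z₂) * o₁ + l * o₁ ^ 2) := by
        apply mul_left_cancel₀ hzne
        linear_combination (1 + ((1 + l) * z₂ ^ 2 - l * z₂ * (o₁ + o₂))) * hu2 - hdiff
      have h6 : w u = w (z₁ ^ 2 + z₁ * z₂ + z₂ ^ 2 - (1 + l) * (z₁ + z₂) * o₁ + l * o₁ ^ 2) := by
        have := congrArg w h5
        rwa [map_mul, s2, mul_one, map_neg_eq_map] at this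
      rw [h6]
      refine n7c_add hw (n7c_sub hw (n7c_add hw (n7c_add hw ?_ ?_) ?_) ?_) ?_
      · rw [pow_two z₁]; exact b5 b1 b1
      · exact b5 b1 b2
      · rw [pow_two z₂]; exact b5 b2 b2
      · rw [mul_assoc]
        exact m1 h1l (b5 (n7c_add hw b1 b2) (b3.trans hρ3))
      · refine m1 hl ?_
        rw [pow_two o₁]
        exact b5 (b3.trans hρ3) (b3.trans hρ3)
    have bb : w ν⁻¹ ≤ ρ ^ 3 := by
      have h5 : ν⁻¹ = o₁ + u * z₁ := by linear_combination -q1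
      rw [h5]
      refine n7c_add hw b3 ?_
      have := n7c_mul (w := w) bu b1
      rwa [← pow_succ] at this
    refine fin (x₃ := k ^ 2 + (1 + l) - x₁ - x₂)
      (y₃ := k * (k ^ 2 + (1 + l) - x₁ - x₂ - x₁) + y₁)
      (k := k) (ν := ν) h₃ hsum g1 g2 ?_ ?_ e2 e3 bu bb
    · rw [hν]; ring
    · ring

end Pool.Agent.ZC
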