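import Pool.Agent.Lib.MP_a1cc03_ag.N7c_Add

/-! # Row N8: there is no torsion close to the origin -/

noncomputable section

namespace Pool.Agent.ZC

open WeierstrassCurve

variable {K : Type} [Field K] [DecidableEq K] {l : K} {w : AbsoluteValue K ℝ}

omit [DecidableEq K] in
private theorem zc_zero_aux : zc (0 : (leg l).toAffine.Point) = 0 := rfl

omit [DecidableEq K] in
private theorem zc_le_one_aux (hw : IsNonarchimedean w) (hl : w l ≤ 1) {B : ℝ} (hB : 1 < B)
    {P : (leg l).toAffine.Point} (hP : Big w B P) : w (zc P) ≤ 1 := by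
  rcases hP with rfl | ⟨x, y, h, rfl, hx⟩
  · rw [zc_zero_aux, map_zero]
    exact zero_le_one
  · have h1 : 1 < w x := lt_of_lt_of_le hB hx
    obtain ⟨_, _, h3⟩ := zc_sq hw hl h h1
    have h4 : w (zc (Affine.Point.some x y h)) ^ 2 ≤ 1 := by
      show w (x / y) ^ 2 ≤ 1
      rw [h3]
      exact inv_le_one_of_one_le₀ h1.le
    by_contra hc
    have hc' : 1 < w (zc (Affine.Point.some x y h)) := not_le.mp hc
    nlinarith

private theorem big_nsmul_aux (hw : IsNonarchimedean w) (h2 : (2 : K) ≠ 0) (hl : w l ≤ 1) {B : ℝ} (hB : 1 < B)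
    {P : (leg l).toAffine.Point} (hP : Big w B P) (n : ℕ) : Big w B (n • P) := by
  induction n with
  | zero => rw [zero_nsmul]; exact Or.inl rfl
  | succ n ih =>
    rw [succ_nsmul]
    exact Big.add hw h2 hl hB ih hP

/-- **Row N8a.** `w (z(nP) - n z(P)) ≤ ρ³`, `ρ = w z(P)`, by induction on `n` from N7c: `w z(nP) ≤ ρ`. -/
theorem zc_nsmul (hw : IsNonarchimedean w) (h2 : (2 : K) ≠ 0) (hl : w l ≤ 1) {B : ℝ} (hB : 1 < B)
    {P : (leg l).toAffine.Point} (hP : Big w B P) (n : ℕ) :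
    w (zc (n • P) - n * zc P) ≤ (w (zc P)) ^ 3 ∧ w (zc (n • P)) ≤ w (zc P) := by
  have hρ0 : 0 ≤ w (zc P) := w.nonneg _
  have hρ1 : w (zc P) ≤ 1 := zc_le_one_aux hw hl hB hP
  have hρ3 : w (zc P) ^ 3 ≤ w (zc P) := by
    have : w (zc P) ^ 3 ≤ w (zc P) ^ 1 := pow_le_pow_of_le_one hρ0 hρ1 (by norm_num)
    simpa using this
  induction n with
  | zero =>
    rw [zero_nsmul, zc_zero_aux, Nat.cast_zero, zero_mul, sub_zero, map_zero]
    exact ⟨by positivity, hρ0⟩
  | succ n ih =>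
    obtain ⟨ih1, ih2⟩ := ih
    have h3 := zc_add hw h2 hl hB (big_nsmul_aux hw h2 hl hB hP n) hP
    rw [max_eq_right ih2, ← succ_nsmul] at h3
    have h4 : w (zc ((n + 1) • P) - ((n + 1 : ℕ) : K) * zc P) ≤ w (zc P) ^ 3 := by
      have e : zc ((n + 1) • P) - ((n + 1 : ℕ) : K) * zc P
          = (zc ((n + 1) • P) - zc (n • P) - zc P) + (zc (n • P) - n * zc P) := by
        push_cast
        ring
      rw [e]
      exact (hw _ _).trans (max_le h3 ih1)
    refine ⟨h4, ?_⟩
    have e : zc ((n + 1) • P)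
        = (zc ((n + 1) • P) - ((n + 1 : ℕ) : K) * zc P) + ((n + 1 : ℕ) : K) * zc P := by ring
    rw [e]
    refine (hw _ _).trans (max_le (h4.trans hρ3) ?_)
    rw [map_mul]
    exact mul_le_of_le_one_left hρ0 (nonarch_natCast_le hw _)

/-- **Row N8b.** Torsion-freeness. For a prime `q` and `P ≠ O` with `w (x P) > p`, `ρ² = 1/w (x P) < 1/p ≤ w q`, so
`w (z(qP) - q z(P)) ≤ ρ³ < w q ρ`, hence `z(qP) ≠ 0` and `qP ≠ O`; moreover `w z(qP) = w q ρ ≤ ρ`, so
again `w (x (qP)) ≥ w (x P) > p`. By induction over the prime factors of `n`, `n P ≠ O`. -/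
theorem big_torsion_free {p : ℕ} (hp : p.Prime) (hw : PAdic p w) (h2 : (2 : K) ≠ 0) (hl : w l ≤ 1)
    {B : ℝ} (hB : (p : ℝ) < B) {P : (leg l).toAffine.Point} (hP : Big w B P) (hP0 : P ≠ 0) (n : ℕ)
    (hn : n ≠ 0) : n • P ≠ 0 := by
  have hp0 : (0 : ℝ) < p := by exact_mod_cast hp.pos
  have hp1 : (1 : ℝ) < p := by exact_mod_cast hp.one_lt
  have hB1 : 1 < B := hp1.trans hB
  have hq : ∀ (Q : (leg l).toAffine.Point), Big w B Q → Q ≠ 0 → ∀ q : ℕ, q.Prime → q • Q ≠ 0 := by
    intro Q hQ hQ0 q hq hc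
    have h1 := (zc_nsmul hw.nonarch h2 hl hB1 hQ q).1
    rw [hc, zc_zero_aux, zero_sub, w.map_neg, map_mul] at h1
    rcases hQ with rfl | ⟨x, y, h, rfl, hx⟩
    · exact hQ0 rfl
    have hx1 : 1 < w x := lt_of_lt_of_le hB1 hx
    obtain ⟨hy, _, h3⟩ := zc_sq hw.nonarch hl h hx1
    have hx0 : x ≠ 0 := by
      rintro rfl
      rw [map_zero] at hx1
      linarith
    have hz : zc (Affine.Point.some x y h) = x / y := rfl
    rw [hz] at h1
    have hpos : 0 < w (x / y) := w.pos (div_ne_zero hx0 hy)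
    have h4 : w (q : K) ≤ w (x / y) ^ 2 := by
      have h5 : w (q : K) * w (x / y) ≤ w (x / y) ^ 2 * w (x / y) := by
        calc w (q : K) * w (x / y) ≤ w (x / y) ^ 3 := h1
          _ = w (x / y) ^ 2 * w (x / y) := by ring
      exact le_of_mul_le_mul_right h5 hpos
    rw [h3] at h4
    have h6 := hw.prime_ge hp hq
    have h7 : (w x)⁻¹ < (p : ℝ)⁻¹ := by
      apply inv_strictAnti₀ hp0
      exact lt_of_lt_of_le hB hx
    linarith
  induction n using Nat.strong_induction_on generalizing P with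
  | _ n ih =>
    by_cases hn1 : n = 1
    · subst hn1
      rwa [one_nsmul]
    · have hq1 := Nat.minFac_prime hn1
      obtain ⟨m, hm⟩ := Nat.minFac_dvd n
      have hm0 : m ≠ 0 := by
        rintro rfl
        exact hn (by rw [hm, mul_zero])
      have hmn : m < n := by
        have h8 := hq1.two_le
        have h9 : 0 < m := Nat.pos_of_ne_zero hm0
        calc m < 2 * m := by omega
          _ ≤ n.minFac * m := Nat.mul_le_mul_right _ h8
          _ = n := hm.symm
      have e : n • P = m • (n.minFac • P) := by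
        rw [← mul_nsmul, ← hm]
      rw [e]
      exact ih m hmn (big_nsmul_aux hw.nonarch h2 hl hB1 hP _) (hq P hP hP0 _ hq1) hm0

end Pool.Agent.ZC
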