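import Pool.Agent.Lib.MP_a1cc03_ag.N0_Abs

/-! # Row N9a: pigeonhole principle in a p-adic field -/

noncomputable section

namespace Pool.Agent.ZC

/-- a number field inside `ℚ̄` is mapped into a finite dimensional `ℚ_p`-subspace -/
theorem n9a_mem {p : ℕ} [Fact p.Prime] (ι : AlgebraicClosure ℚ →+* PadicAlgCl p)
    (k : IntermediateField ℚ (AlgebraicClosure ℚ)) [FiniteDimensional ℚ k] :
    ∃ M : Submodule ℚ_[p] (PadicAlgCl p), FiniteDimensional ℚ_[p] M ∧ ∀ x ∈ k, ι x ∈ M := by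
  classical
  let b := Module.finBasis ℚ k
  let v : Fin (Module.finrank ℚ k) → PadicAlgCl p := fun i => ι ((b i : k) : AlgebraicClosure ℚ)
  refine ⟨Submodule.span ℚ_[p] (Set.range v),
    FiniteDimensional.span_of_finite ℚ_[p] (Set.finite_range v), ?_⟩
  intro x hx
  have h1 : x = ∑ i, (b.repr ⟨x, hx⟩ i : ℚ) • ((b i : k) : AlgebraicClosure ℚ) := by
    have h := congrArg k.val (b.sum_repr ⟨x, hx⟩)
    rw [map_sum] at h
    refine h.symm.trans (Finset.sum_congr rfl (fun i _ => ?_))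
    exact map_smul k.val.toLinearMap _ _
  have h0 : ι x = ι (∑ i, (b.repr ⟨x, hx⟩ i : ℚ) • ((b i : k) : AlgebraicClosure ℚ)) :=
    congrArg ι h1
  rw [h0, map_sum]
  refine Submodule.sum_mem _ (fun i _ => ?_)
  have h2 : ι ((b.repr ⟨x, hx⟩ i : ℚ) • ((b i : k) : AlgebraicClosure ℚ)) =
      ((b.repr ⟨x, hx⟩ i : ℚ) : ℚ_[p]) • v i := by
    rw [Algebra.smul_def, map_mul, Algebra.smul_def]
    congr 1
    have h3 : algebraMap ℚ (AlgebraicClosure ℚ) (b.repr ⟨x, hx⟩ i) =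
        ((b.repr ⟨x, hx⟩ i : ℚ) : AlgebraicClosure ℚ) := by simp
    rw [h3, map_ratCast, map_ratCast]
  rw [h2]
  exact Submodule.smul_mem _ _ (Submodule.subset_span ⟨i, rfl⟩)

/-- **Row N9a.** Pigeonhole principle: for a finitely generated (number) field `k ⊂ ℚ̄`, bounded sequences
of pairs of elements of `k` have two terms which are close in the `p`-adic norm.
The field `ℚ_p(ι k)` (`IntermediateField.adjoin ℚ_[p]` of the image of a finite set of generators) is finite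
dimensional over `ℚ_[p]`, hence a proper metric space, so closed balls are compact and the sequence has a
convergent, hence Cauchy, subsequence. -/
theorem exists_close {p : ℕ} [Fact p.Prime] (ι : AlgebraicClosure ℚ →+* PadicAlgCl p)
    (k : IntermediateField ℚ (AlgebraicClosure ℚ)) [FiniteDimensional ℚ k]
    (x y : ℕ → AlgebraicClosure ℚ) (hx : ∀ n, x n ∈ k) (hy : ∀ n, y n ∈ k) (C : ℝ)
    (hxC : ∀ n, ‖ι (x n)‖ ≤ C) (hyC : ∀ n, ‖ι (y n)‖ ≤ C) (ε : ℝ) (hε : 0 < ε) :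
    ∃ i j : ℕ, i < j ∧ ‖ι (x i) - ι (x j)‖ < ε ∧ ‖ι (y i) - ι (y j)‖ < ε := by
  obtain ⟨M, hM, hmem⟩ := n9a_mem ι k
  have hP : ProperSpace M := FiniteDimensional.proper ℚ_[p] M
  let z : ℕ → M × M := fun n => (⟨ι (x n), hmem _ (hx n)⟩, ⟨ι (y n), hmem _ (hy n)⟩)
  have hz : ∀ n, z n ∈ Metric.closedBall (0 : M × M) C := by
    intro n
    rw [mem_closedBall_zero_iff, Prod.norm_def]
    exact max_le (hxC n) (hyC n)
  obtain ⟨a, _, φ, hφ, hlim⟩ := (isCompact_closedBall (0 : M × M) C).tendsto_subseq hz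
  have hc := hlim.cauchySeq
  rw [Metric.cauchySeq_iff] at hc
  obtain ⟨N, hN⟩ := hc ε hε
  have h := hN N le_rfl (N + 1) (Nat.le_succ N)
  refine ⟨φ N, φ (N + 1), hφ (Nat.lt_succ_self N), ?_, ?_⟩
  · refine lt_of_le_of_lt ?_ h
    rw [dist_eq_norm, Prod.norm_def]
    exact le_max_left _ _
  · refine lt_of_le_of_lt ?_ h
    rw [dist_eq_norm, Prod.norm_def]
    exact le_max_right _ _

end Pool.Agent.ZC
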