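import Pool.Agent.Lib.MP_a1cc03_ag.L0_Leg

/-! # Row T1: Legendre form -/

noncomputable section

namespace Pool.Agent.ZC

open WeierstrassCurve

/-- **Row T1.** Every elliptic curve over an algebraically closed field of characteristic `0` has a
Legendre form. Complete the square (`toCharNeTwoNF`), the cubic has three distinct roots `e₁, e₂, e₃`
(the discriminant is nonzero); translate by `e₁` and scale by `u² = e₂ - e₁`; `l = (e₃ - e₁)/(e₂ - e₁)`. -/
theorem exists_legendre {K : Type} [Field K] [IsAlgClosed K] [CharZero K] (W : WeierstrassCurve K)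
    [W.IsElliptic] : ∃ (C : VariableChange K) (l : K), l ≠ 0 ∧ l ≠ 1 ∧ C • W = leg l := by
  have h2 : (2 : K) ≠ 0 := two_ne_zero
  have h3 : (3 : K) ≠ 0 := three_ne_zero
  let _ := invertibleOfNonzero h2
  let _ := invertibleOfNonzero h3
  obtain ⟨C₁, hC₁⟩ := W.exists_variableChange_isShortNF
  set V := C₁ • W with hV
  have hVell : V.IsElliptic := by rw [hV]; infer_instance
  have hΔ : V.Δ ≠ 0 := hVell.isUnit.ne_zero
  rw [V.Δ_of_isShortNF] at hΔ
  -- the three roots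
  obtain ⟨e₁, he₁⟩ : ∃ e₁ : K, e₁ ^ 3 + V.a₄ * e₁ + V.a₆ = 0 := by
    have hdeg : (Polynomial.X ^ 3 + Polynomial.C V.a₄ * Polynomial.X + Polynomial.C V.a₆ :
        Polynomial K).degree = 3 := by compute_degree!
    obtain ⟨e, he⟩ := IsAlgClosed.exists_root (Polynomial.X ^ 3 + Polynomial.C V.a₄ * Polynomial.X +
      Polynomial.C V.a₆ : Polynomial K) (by rw [hdeg]; norm_num)
    exact ⟨e, by simpa [Polynomial.IsRoot] using he⟩
  obtain ⟨s, hs⟩ := IsAlgClosed.exists_eq_mul_self (-3 * e₁ ^ 2 - 4 * V.a₄)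
  set e₂ := (-e₁ + s) / 2 with he₂
  set e₃ := (-e₁ - s) / 2 with he₃
  have hsum : e₁ + e₂ + e₃ = 0 := by rw [he₂, he₃]; field_simp; ring
  have h23 : 4 * (e₂ * e₃) = e₁ ^ 2 - s * s := by rw [he₂, he₃]; field_simp; ring
  have h4 : V.a₄ = e₁ * e₂ + e₁ * e₃ + e₂ * e₃ := by
    have h4' : (4 : K) ≠ 0 := by norm_num
    apply mul_left_cancel₀ h4'
    linear_combination -hs - h23 - 4 * e₁ * hsum
  have h6 : V.a₆ = -(e₁ * e₂ * e₃) := by
    linear_combination he₁ - e₁ * h4 - e₁ ^ 2 * hsum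
  have hdisc : -16 * (4 * V.a₄ ^ 3 + 27 * V.a₆ ^ 2) =
      16 * ((e₂ - e₁) * (e₃ - e₁) * (e₃ - e₂)) ^ 2 := by
    have he3' : e₃ = -e₁ - e₂ := by linear_combination hsum
    rw [h4, h6, he3']
    ring
  rw [hdisc] at hΔ
  have hne : (e₂ - e₁) * (e₃ - e₁) * (e₃ - e₂) ≠ 0 := by
    intro h
    rw [h] at hΔ
    exact hΔ (by ring)
  have h21 : e₂ - e₁ ≠ 0 := fun h => hne (by rw [h]; ring)
  have h31 : e₃ - e₁ ≠ 0 := fun h => hne (by rw [h]; ring)
  have h32 : e₃ - e₂ ≠ 0 := fun h => hne (by rw [h]; ring)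
  obtain ⟨u, hu⟩ := IsAlgClosed.exists_eq_mul_self (e₂ - e₁)
  have hu0 : u ≠ 0 := by
    rintro rfl
    exact h21 (by rw [hu]; ring)
  refine ⟨⟨Units.mk0 u hu0, e₁, 0, 0⟩ * C₁, (e₃ - e₁) / (e₂ - e₁), div_ne_zero h31 h21, ?_, ?_⟩
  · intro h
    rw [div_eq_one_iff_eq h21] at h
    exact h32 (by linear_combination h)
  · rw [mul_smul, ← hV]
    have hu2 : u ^ 2 = e₂ - e₁ := by rw [hu]; ring
    have hu4 : u ^ 4 = (e₂ - e₁) ^ 2 := by rw [← hu2]; ring
    ext
    · simp [variableChange_a₁, leg]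
    · simp only [variableChange_a₂, leg, a₁_of_isShortNF, a₂_of_isShortNF, Units.val_inv_eq_inv_val,
        Units.val_mk0, inv_pow, hu2]
      field_simp
      linear_combination hsum
    · simp [variableChange_a₃, leg]
    · simp only [variableChange_a₄, leg, a₁_of_isShortNF, a₂_of_isShortNF, a₃_of_isShortNF,
        Units.val_inv_eq_inv_val, Units.val_mk0, inv_pow, hu4]
      rw [h4]
      field_simp
      linear_combination 2 * e₁ * hsum
    · simp only [variableChange_a₆, leg, a₁_of_isShortNF, a₂_of_isShortNF, a₃_of_isShortNF,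
        Units.val_inv_eq_inv_val, Units.val_mk0]
      have : e₁ ^ 3 + V.a₄ * e₁ + V.a₆ = 0 := he₁
      rw [mul_eq_zero]
      right
      linear_combination he₁

end Pool.Agent.ZC
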