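import Pool.Agent.Lib.MP_a1cc03_ag.T2_Defs

/-! # Row T2b: change of variables is additive -/

noncomputable section

namespace Pool.Agent.ZC

open WeierstrassCurve

section T2bAux

variable {K : Type} [Field K] (C : VariableChange K) (W : WeierstrassCurve K)

theorem t2b_uv : (C.u : K) * ((C.u⁻¹ : Kˣ) : K) = 1 := by
  rw [← Units.val_mul, mul_inv_cancel, Units.val_one]

theorem t2b_a₁ : W.a₁ = C.u * (C • W).a₁ - 2 * C.s := by
  rw [variableChange_a₁]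
  linear_combination (-(W.a₁ + 2 * C.s)) * t2b_uv C

theorem t2b_a₂ : W.a₂ = C.u ^ 2 * (C • W).a₂ + C.s * W.a₁ - 3 * C.r + C.s ^ 2 := by
  rw [variableChange_a₂]
  have h : (C.u : K) ^ 2 * ((C.u⁻¹ : Kˣ) : K) ^ 2 = 1 := by rw [← mul_pow, t2b_uv, one_pow]
  linear_combination (-(W.a₂ - C.s * W.a₁ + 3 * C.r - C.s ^ 2)) * h

theorem t2b_a₃ : W.a₃ = C.u ^ 3 * (C • W).a₃ - C.r * W.a₁ - 2 * C.t := by
  rw [variableChange_a₃]
  have h : (C.u : K) ^ 3 * ((C.u⁻¹ : Kˣ) : K) ^ 3 = 1 := by rw [← mul_pow, t2b_uv, one_pow]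
  linear_combination (-(W.a₃ + C.r * W.a₁ + 2 * C.t)) * h

theorem t2b_a₄ : W.a₄ = C.u ^ 4 * (C • W).a₄ + C.s * W.a₃ - 2 * C.r * W.a₂
    + (C.t + C.r * C.s) * W.a₁ - 3 * C.r ^ 2 + 2 * C.s * C.t := by
  rw [variableChange_a₄]
  have h : (C.u : K) ^ 4 * ((C.u⁻¹ : Kˣ) : K) ^ 4 = 1 := by rw [← mul_pow, t2b_uv, one_pow]
  linear_combination (-(W.a₄ - C.s * W.a₃ + 2 * C.r * W.a₂ - (C.t + C.r * C.s) * W.a₁
    + 3 * C.r ^ 2 - 2 * C.s * C.t)) * h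

theorem t2b_negY (x y : K) :
    W.toAffine.negY (C.u ^ 2 * x + C.r) (C.u ^ 3 * y + C.u ^ 2 * C.s * x + C.t)
      = C.u ^ 3 * (C • W).toAffine.negY x y + C.u ^ 2 * C.s * x + C.t := by
  simp only [Affine.negY]
  rw [t2b_a₃ C W, t2b_a₁ C W]
  ring

theorem t2b_addX (x₁ x₂ l : K) :
    W.toAffine.addX (C.u ^ 2 * x₁ + C.r) (C.u ^ 2 * x₂ + C.r) (C.u * l + C.s)
      = C.u ^ 2 * (C • W).toAffine.addX x₁ x₂ l + C.r := by
  simp only [Affine.addX]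
  rw [t2b_a₂ C W, t2b_a₁ C W]
  ring

theorem t2b_addY (x₁ x₂ y₁ l : K) :
    W.toAffine.addY (C.u ^ 2 * x₁ + C.r) (C.u ^ 2 * x₂ + C.r)
        (C.u ^ 3 * y₁ + C.u ^ 2 * C.s * x₁ + C.t) (C.u * l + C.s)
      = C.u ^ 3 * (C • W).toAffine.addY x₁ x₂ y₁ l
        + C.u ^ 2 * C.s * (C • W).toAffine.addX x₁ x₂ l + C.t := by
  rw [Affine.addY, Affine.negAddY, t2b_addX]
  rw [Affine.addY, Affine.negAddY, ← t2b_negY]
  congr 1
  ring

theorem t2b_slope [DecidableEq K] (x₁ x₂ y₁ y₂ : K)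
    (e₁ : (C • W).toAffine.Equation x₁ y₁) (e₂ : (C • W).toAffine.Equation x₂ y₂)
    (hxy : ¬(x₁ = x₂ ∧ y₁ = (C • W).toAffine.negY x₂ y₂)) :
    W.toAffine.slope (C.u ^ 2 * x₁ + C.r) (C.u ^ 2 * x₂ + C.r)
        (C.u ^ 3 * y₁ + C.u ^ 2 * C.s * x₁ + C.t) (C.u ^ 3 * y₂ + C.u ^ 2 * C.s * x₂ + C.t)
      = C.u * (C • W).toAffine.slope x₁ x₂ y₁ y₂ + C.s := by
  have hu : (C.u : K) ≠ 0 := C.u.ne_zero
  by_cases hx : x₁ = x₂
  · subst hx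
    have hy : y₁ ≠ (C • W).toAffine.negY x₁ y₂ := fun h => hxy ⟨rfl, h⟩
    have hY : C.u ^ 3 * y₁ + C.u ^ 2 * C.s * x₁ + C.t
        ≠ W.toAffine.negY (C.u ^ 2 * x₁ + C.r) (C.u ^ 3 * y₂ + C.u ^ 2 * C.s * x₁ + C.t) := by
      intro hb
      rw [t2b_negY] at hb
      exact hy (mul_left_cancel₀ (pow_ne_zero 3 hu) (add_right_cancel (add_right_cancel hb)))
    rw [Affine.slope_of_Y_ne rfl hY, Affine.slope_of_Y_ne rfl hy, t2b_negY]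
    have hz : y₁ - (C • W).toAffine.negY x₁ y₁ ≠ 0 := by
      have h12 : y₁ = y₂ := Affine.Y_eq_of_Y_ne e₁ e₂ rfl hy
      rw [← h12] at hy
      exact sub_ne_zero.mpr hy
    · have hD : C.u ^ 3 * y₁ + C.u ^ 2 * C.s * x₁ + C.t
          - (C.u ^ 3 * (C • W).toAffine.negY x₁ y₁ + C.u ^ 2 * C.s * x₁ + C.t)
          = C.u ^ 3 * (y₁ - (C • W).toAffine.negY x₁ y₁) := by ring
      rw [hD, div_eq_iff (mul_ne_zero (pow_ne_zero 3 hu) hz)]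
      have hN : 3 * (C.u ^ 2 * x₁ + C.r) ^ 2 + 2 * W.a₂ * (C.u ^ 2 * x₁ + C.r) + W.a₄
          - W.a₁ * (C.u ^ 3 * y₁ + C.u ^ 2 * C.s * x₁ + C.t)
          = C.u ^ 4 * (3 * x₁ ^ 2 + 2 * (C • W).a₂ * x₁ + (C • W).a₄ - (C • W).a₁ * y₁)
            + C.s * (C.u ^ 3 * (y₁ - (C • W).toAffine.negY x₁ y₁)) := by
        simp only [Affine.negY]
        rw [t2b_a₄ C W, t2b_a₃ C W, t2b_a₂ C W, t2b_a₁ C W]
        ring
      rw [hN]
      field_simp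
  · have hX : C.u ^ 2 * x₁ + C.r ≠ C.u ^ 2 * x₂ + C.r := fun h =>
      hx (mul_left_cancel₀ (pow_ne_zero 2 hu) (add_right_cancel h))
    rw [Affine.slope_of_X_ne hX, Affine.slope_of_X_ne hx]
    have h12 : x₁ - x₂ ≠ 0 := sub_ne_zero.mpr hx
    have h1 : C.u ^ 2 * x₁ + C.r - (C.u ^ 2 * x₂ + C.r) = C.u ^ 2 * (x₁ - x₂) := by ring
    rw [h1, div_eq_iff (mul_ne_zero (pow_ne_zero 2 hu) h12)]
    field_simp
    ring

end T2bAux

/-- **Row T2b.** It is additive. Cases of the addition law (`Affine.Point.add_def` etc.): the slope changes by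
`k ↦ u k + s`, and `addX`, `negY`, `addY` are transformed accordingly (`W'` is expressed by `W` through
`variableChange_a₁`, …). -/
theorem change_add {K : Type} [Field K] [DecidableEq K] (C : VariableChange K)
    (W W' : WeierstrassCurve K) (h : C • W = W') (f : W'.toAffine.Point ≃ W.toAffine.Point)
    (hf : IsChange C W W' f) (P Q : W'.toAffine.Point) : f (P + Q) = f P + f Q := by
  subst h
  obtain ⟨hf0, hf1⟩ := hf
  rcases P with _ | ⟨x₁, y₁, h₁⟩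
  · rw [← Affine.Point.zero_def, zero_add, hf0, zero_add]
  rcases Q with _ | ⟨x₂, y₂, h₂⟩
  · rw [← Affine.Point.zero_def, add_zero, hf0, add_zero]
  obtain ⟨k₁, e₁⟩ := hf1 x₁ y₁ h₁
  obtain ⟨k₂, e₂⟩ := hf1 x₂ y₂ h₂
  rw [e₁, e₂]
  by_cases hxy : x₁ = x₂ ∧ y₁ = (C • W).toAffine.negY x₂ y₂
  · rw [Affine.Point.add_of_Y_eq hxy.1 hxy.2, hf0, Affine.Point.add_of_Y_eq (by rw [hxy.1])]
    rw [t2b_negY, hxy.1, hxy.2]
  · have hu : (C.u : K) ≠ 0 := C.u.ne_zero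
    have hxy' : ¬(C.u ^ 2 * x₁ + C.r = C.u ^ 2 * x₂ + C.r ∧
        C.u ^ 3 * y₁ + C.u ^ 2 * C.s * x₁ + C.t
          = W.toAffine.negY (C.u ^ 2 * x₂ + C.r) (C.u ^ 3 * y₂ + C.u ^ 2 * C.s * x₂ + C.t)) := by
      rintro ⟨ha, hb⟩
      have hx : x₁ = x₂ := mul_left_cancel₀ (pow_ne_zero 2 hu) (add_right_cancel ha)
      subst hx
      rw [t2b_negY] at hb
      exact hxy ⟨rfl, mul_left_cancel₀ (pow_ne_zero 3 hu)
        (add_right_cancel (add_right_cancel hb))⟩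
    rw [Affine.Point.add_some hxy, Affine.Point.add_some hxy']
    obtain ⟨k₃, e₃⟩ := hf1 _ _ (Affine.nonsingular_add h₁ h₂ hxy)
    rw [e₃]
    congr 1
    · rw [t2b_slope C W _ _ _ _ h₁.1 h₂.1 hxy, t2b_addX]
    · rw [t2b_slope C W _ _ _ _ h₁.1 h₂.1 hxy, t2b_addY]

end Pool.Agent.ZC
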