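import Pool.Agent.Lib.MP_a1cc03_ag.T2a_Change
import Pool.Agent.Lib.MP_a1cc03_ag.A1_Ev

/-! # Row T3: rational equivalence is transported -/

noncomputable section

namespace Pool.Agent.ZC

open WeierstrassCurve

/-- the order of `c x + d` for a constant `c ≠ 0` and a constant `d`, if `x` has a pole -/
theorem T3_ord_neg {K F : Type} [Field K] [Field F] [Algebra K F] (v : Place K F) {x : F}
    (hx : v.ord x < 0) {c : K} (hc : c ≠ 0) (d : K) :
    v.ord (algebraMap K F c * x + algebraMap K F d) < 0 := by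
  by_contra h
  push Not at h
  have h1 : v.ord (algebraMap K F c * x) = v.ord x := by
    rw [AddValuation.map_mul, v.ord_const c hc, zero_add]
  have h2 : 0 ≤ v.ord (algebraMap K F c * x) := by
    have e : algebraMap K F c * x =
        (algebraMap K F c * x + algebraMap K F d) - algebraMap K F d := by ring
    rw [e, sub_eq_add_neg]
    refine AddValuation.map_le_add _ h ?_
    rw [AddValuation.map_neg]
    exact ord_algebraMap_nonneg v d
  rw [h1] at h2
  exact absurd hx (not_lt.2 h2)

/-- Specialisation is compatible with a change of variables. -/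
theorem T3_spec {K F : Type} [Field K] [Field F] [Algebra K F] (v : Place K F)
    (C : VariableChange K) (W W' : WeierstrassCurve K)
    (f : W'.toAffine.Point → W.toAffine.Point) (hf : IsChange C W W' f)
    (g : (W'.map (algebraMap K F)).toAffine.Point → (W.map (algebraMap K F)).toAffine.Point)
    (hg : IsChange (C.map (algebraMap K F)) (W.map (algebraMap K F)) (W'.map (algebraMap K F)) g)
    {P : (W'.map (algebraMap K F)).toAffine.Point} {P₀ : W'.toAffine.Point}
    (h : Specializes v W' P P₀) : Specializes v W (g P) (f P₀) := by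
  have hu : (C.u : K) ^ 2 ≠ 0 := pow_ne_zero _ C.u.ne_zero
  have eu : ((C.map (algebraMap K F)).u : F) = algebraMap K F (C.u : K) := rfl
  have er : (C.map (algebraMap K F)).r = algebraMap K F C.r := rfl
  have es : (C.map (algebraMap K F)).s = algebraMap K F C.s := rfl
  have et : (C.map (algebraMap K F)).t = algebraMap K F C.t := rfl
  cases h with
  | zero_zero =>
    rw [hf.1, hg.1]
    exact Specializes.zero_zero
  | some_zero x y hxy hx =>
    obtain ⟨h', hh⟩ := hg.2 x y hxy
    rw [hf.1, hh]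
    apply Specializes.some_zero
    rw [eu, er, ← map_pow]
    exact T3_ord_neg v hx hu _
  | some_some x y hxy a b hab hx hy =>
    obtain ⟨h', hh⟩ := hg.2 x y hxy
    obtain ⟨h'', hh'⟩ := hf.2 a b hab
    rw [hh, hh']
    have hx' : Ev v x a := hx
    have hy' : Ev v y b := hy
    apply Specializes.some_some
    · change Ev v _ _
      rw [eu, er]
      exact (((Ev.const v (C.u : K)).pow 2).mul hx').add (Ev.const v _)
    · change Ev v _ _
      rw [eu, es, et]
      exact (((((Ev.const v (C.u : K)).pow 3).mul hy').add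
        ((((Ev.const v (C.u : K)).pow 2).mul (Ev.const v _)).mul hx')).add (Ev.const v _))

/-- The map on zero-cycles is injective. -/
theorem T3_inj {α β γ δ : Type} (f₁ : α ≃ β) (f₂ : γ ≃ δ) :
    Function.Injective (FreeAbelianGroup.map (Prod.map f₁ f₂)) := by
  intro x y hxy
  have h : ∀ z : FreeAbelianGroup (α × γ), FreeAbelianGroup.map (Prod.map f₁.symm f₂.symm)
      (FreeAbelianGroup.map (Prod.map f₁ f₂) z) = z := by
    intro z
    rw [← FreeAbelianGroup.map_comp_apply]
    have : Prod.map f₁.symm f₂.symm ∘ Prod.map f₁ f₂ = id := by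
      funext ⟨a, c⟩
      simp
    rw [this, FreeAbelianGroup.map_id_apply]
  rw [← h x, ← h y, hxy]

/-- **Row T3a.** Rational equivalence is transported. Closure induction; for a generator
`(F, P, Q, s, g)` of `RatEq W₁' W₂'` take `(F, f P, f Q, …, g)` where the changes of variables over `F`
(T2a for the curves mapped to `F`, `VariableChange.map`) are applied to `P`, `Q`; specialisation is preserved
(`v x < 0` implies `v (u² x + r) < 0`; values transform by the formulas). As the map on zero-cycles is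
bijective, it commutes with the `finsum`. -/
theorem ratEq_change {K : Type} [Field K] (C₁ C₂ : VariableChange K)
    {W₁ W₁' W₂ W₂' : WeierstrassCurve K} (h₁ : C₁ • W₁ = W₁') (h₂ : C₂ • W₂ = W₂')
    (f₁ : W₁'.toAffine.Point ≃ W₁.toAffine.Point) (hf₁ : IsChange C₁ W₁ W₁' f₁)
    (f₂ : W₂'.toAffine.Point ≃ W₂.toAffine.Point) (hf₂ : IsChange C₂ W₂ W₂' f₂)
    {z : FreeAbelianGroup (W₁'.toAffine.Point × W₂'.toAffine.Point)} (hz : z ∈ RatEq W₁' W₂') :
    FreeAbelianGroup.map (Prod.map f₁ f₂) z ∈ RatEq W₁ W₂ := by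
  unfold RatEq at hz
  induction hz using AddSubgroup.closure_induction with
  | mem z hz =>
    apply AddSubgroup.subset_closure
    obtain ⟨F, hF, P, Q, s, hP, hQ, g, hg⟩ := hz
    have h₁' : C₁.map (algebraMap K F) • W₁.map (algebraMap K F) =
        W₁'.map (algebraMap K F) := by
      rw [WeierstrassCurve.map_variableChange, h₁]
    have h₂' : C₂.map (algebraMap K F) • W₂.map (algebraMap K F) =
        W₂'.map (algebraMap K F) := by
      rw [WeierstrassCurve.map_variableChange, h₂]
    obtain ⟨g₁, hg₁⟩ := exists_change _ _ _ h₁'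
    obtain ⟨g₂, hg₂⟩ := exists_change _ _ _ h₂'
    have h := IsDivisorOf.mk (W₁ := W₁) (W₂ := W₂) F hF (g₁ P) (g₂ Q)
      (fun v => Prod.map f₁ f₂ (s v))
      (fun v => T3_spec v C₁ W₁ W₁' f₁ hf₁ g₁ hg₁ (hP v))
      (fun v => T3_spec v C₂ W₂ W₂' f₂ hf₂ g₂ hg₂ (hQ v)) g hg
    rw [Set.mem_ofPred_eq, AddMonoidHom.map_finsum_of_injective _ (T3_inj f₁ f₂)]
    simp only [map_zsmul, FreeAbelianGroup.map_of_apply]
    exact h
  | zero =>
    rw [map_zero]
    exact AddSubgroup.zero_mem _
  | add x y _ _ hx hy =>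
    rw [map_add]
    exact AddSubgroup.add_mem _ hx hy
  | neg x _ hx =>
    rw [map_neg]
    exact AddSubgroup.neg_mem _ hx

/-- **Row T3b.** Torsion of symbols is transported (T3a; the map sends `sym` to `sym` since `f 0 = 0`). -/
theorem torsSym_change {K : Type} [Field K] (C₁ C₂ : VariableChange K)
    {W₁ W₁' W₂ W₂' : WeierstrassCurve K} (h₁ : C₁ • W₁ = W₁') (h₂ : C₂ • W₂ = W₂')
    (f₁ : W₁'.toAffine.Point ≃ W₁.toAffine.Point) (hf₁ : IsChange C₁ W₁ W₁' f₁)
    (f₂ : W₂'.toAffine.Point ≃ W₂.toAffine.Point) (hf₂ : IsChange C₂ W₂ W₂' f₂)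
    (P : W₁'.toAffine.Point) (Q : W₂'.toAffine.Point) (h : TorsSym W₁' W₂' P Q) :
    TorsSym W₁ W₂ (f₁ P) (f₂ Q) := by
  obtain ⟨N, hN, hz⟩ := h
  refine ⟨N, hN, ?_⟩
  have h3 := ratEq_change C₁ C₂ h₁ h₂ f₁ hf₁ f₂ hf₂ hz
  have h4 : FreeAbelianGroup.map (Prod.map f₁ f₂) (N • sym W₁' W₂' P Q) =
      N • sym W₁ W₂ (f₁ P) (f₂ Q) := by
    rw [map_nsmul]
    congr 1
    unfold sym
    simp only [map_add, map_sub, FreeAbelianGroup.map_of_apply, Prod.map_apply, hf₁.1, hf₂.1]
  rw [h4] at h3
  exact h3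

end Pool.Agent.ZC
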