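import Pool.Agent.Lib.MP_a1cc03_ag.B3_Bilinear
import Pool.Agent.Lib.MP_a1cc03_ag.T1_Legendre
import Pool.Agent.Lib.MP_a1cc03_ag.T2b_Add
import Pool.Agent.Lib.MP_a1cc03_ag.T3_RatEq

/-! # Row V2a: additivity in one factor for general curves -/

noncomputable section

namespace Pool.Agent.ZC

open WeierstrassCurve

variable {K : Type} [Field K] [IsAlgClosed K] [CharZero K] [DecidableEq K]

/-- **Row V2a.** Legendre forms `C₁ • W₁ = leg l`, `C₂ • W₂ = leg m` (`exists_legendre`), bijections `f₁`, `f₂`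
(`exists_change`), `b3_add` for `leg l`, `leg m` and the points `f₁⁻¹ P`, `f₁⁻¹ P'`, `f₂⁻¹ Q`, transported by
`ratEq_change` (`f₁` is additive by `change_add`, `f₁ 0 = 0`). -/
theorem pair_add (W₁ W₂ : WeierstrassCurve K) [W₁.IsElliptic] [W₂.IsElliptic]
    (P P' : W₁.toAffine.Point) (Q : W₂.toAffine.Point) :
    FreeAbelianGroup.of ((P, Q) : W₁.toAffine.Point × W₂.toAffine.Point)
      + FreeAbelianGroup.of (P', Q) - FreeAbelianGroup.of (P + P', Q)
      - FreeAbelianGroup.of (0, Q) ∈ RatEq W₁ W₂ := by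
  obtain ⟨C₁, l, hl0, hl1, hC₁⟩ := exists_legendre W₁
  obtain ⟨C₂, m, hm0, hm1, hC₂⟩ := exists_legendre W₂
  obtain ⟨f₁, hf₁⟩ := exists_change C₁ W₁ (leg l) hC₁
  obtain ⟨f₂, hf₂⟩ := exists_change C₂ W₂ (leg m) hC₂
  haveI := leg_isElliptic hm0 hm1
  have h := ratEq_change C₁ C₂ hC₁ hC₂ f₁ hf₁ f₂ hf₂
    (b3_add hl0 hl1 (leg m) (f₁.symm P) (f₁.symm P') (f₂.symm Q))
  have h0 : f₁ 0 = 0 := hf₁.1
  simp only [map_add, map_sub, FreeAbelianGroup.map_of_apply, Prod.map_apply,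
    change_add C₁ W₁ (leg l) hC₁ f₁ hf₁, Equiv.apply_symm_apply, h0] at h
  exact h

end Pool.Agent.ZC
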