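import Mathlib

/-!
# Zero-cycles on a product of two elliptic curves (MP_a1cc03_ag): definitions

`K` is an (algebraically closed) field and `W₁`, `W₂` are Weierstrass curves over `K`.
Zero-cycles on `X = W₁ × W₂` are the elements of the free abelian group on the `K`-points of `X`.
A morphism from a smooth projective curve `C` with function field `F = K(C)` to `X` is the same as
a pair of `F`-points `(P, Q) ∈ W₁(F) × W₂(F)`; its value at the point of `C` corresponding to the
place `v` of `F/K` is the pair of specialisations of `P` and `Q` at `v`. The zero-cycles rationally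
equivalent to zero are generated by the push-forwards of the divisors of the functions `f ∈ F`.
-/

noncomputable section

namespace Pool.Agent.ZC

open WeierstrassCurve

/-- `F/K` is a function field in one variable: `F` is a finite extension of `K(t)` for some `t`
transcendental over `K`. -/
def IsFunctionField (K F : Type) [Field K] [Field F] [Algebra K F] : Prop :=
  ∃ t : F, Transcendental K t ∧ FiniteDimensional (IntermediateField.adjoin K {t}) F

/-- The places of `F/K`: normalised discrete valuations of `F` which are trivial on `K`. -/
structure Place (K F : Type) [Field K] [Field F] [Algebra K F] where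
  ord : AddValuation F (WithTop ℤ)
  ord_const : ∀ c : K, c ≠ 0 → ord (algebraMap K F c) = 0
  exists_uniformizer : ∃ u : F, ord u = 1

variable {K : Type} [Field K]

/-- The `F`-point `P` of the Weierstrass curve `W` specialises to the `K`-point `P₀` at the
place `v`. -/
inductive Specializes {F : Type} [Field F] [Algebra K F] (v : Place K F) (W : WeierstrassCurve K) :
    (W.map (algebraMap K F)).toAffine.Point → W.toAffine.Point → Prop
  | zero_zero : Specializes v W 0 0
  | some_zero (x y : F) (h : (W.map (algebraMap K F)).toAffine.Nonsingular x y) :
      v.ord x < 0 → Specializes v W (.some x y h) 0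
  | some_some (x y : F) (h : (W.map (algebraMap K F)).toAffine.Nonsingular x y) (a b : K)
      (h' : W.toAffine.Nonsingular a b) :
      0 < v.ord (x - algebraMap K F a) → 0 < v.ord (y - algebraMap K F b) →
      Specializes v W (.some x y h) (.some a b h')

/-- The zero-cycles `φ_* (div f) = ∑_v ord_v(f) [φ(v)]` on `W₁ × W₂`, where `F/K` is a function field
in one variable, `φ = (P, Q)` is an `F`-point of `W₁ × W₂` with specialisations `s v`, and `f` is a
nonzero element of `F`. -/
inductive IsDivisorOf (W₁ W₂ : WeierstrassCurve K) :
    FreeAbelianGroup (W₁.toAffine.Point × W₂.toAffine.Point) → Prop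
  | mk (F : Type) [Field F] [Algebra K F] (hF : IsFunctionField K F)
      (P : (W₁.map (algebraMap K F)).toAffine.Point) (Q : (W₂.map (algebraMap K F)).toAffine.Point)
      (s : Place K F → W₁.toAffine.Point × W₂.toAffine.Point)
      (hP : ∀ v, Specializes v W₁ P (s v).1) (hQ : ∀ v, Specializes v W₂ Q (s v).2)
      (f : F) (hf : f ≠ 0) :
      IsDivisorOf W₁ W₂ (∑ᶠ v : Place K F, (v.ord f).untopD 0 • FreeAbelianGroup.of (s v))

/-- The zero-cycles on `W₁ × W₂` which are rationally equivalent to zero. -/
def RatEq (W₁ W₂ : WeierstrassCurve K) :
    AddSubgroup (FreeAbelianGroup (W₁.toAffine.Point × W₂.toAffine.Point)) :=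
  AddSubgroup.closure {z | IsDivisorOf W₁ W₂ z}

/-- The zero-cycle `(P, Q) - (P, O) - (O, Q) + (O, O)`; it is homologically trivial and its image in the
Albanese variety `W₁ × W₂` is zero. -/
def sym (W₁ W₂ : WeierstrassCurve K) (P : W₁.toAffine.Point) (Q : W₂.toAffine.Point) :
    FreeAbelianGroup (W₁.toAffine.Point × W₂.toAffine.Point) :=
  FreeAbelianGroup.of (P, Q) - FreeAbelianGroup.of (P, 0) - FreeAbelianGroup.of (0, Q)
    + FreeAbelianGroup.of (0, 0)

end Pool.Agent.ZC
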