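import Pool.Agent.Lib.MP_a1cc03_ag.Stmt

/-!
# Zero-cycles on a product of elliptic curves (MP_a1cc03_ag): definitions for `n` factors

`K` is an (algebraically closed) field and `W 0, …, W (n-1)` are Weierstrass curves over `K`. Zero-cycles
on the product `X` of the curves `W i` are the elements of the free abelian group on the `K`-points of `X`.
-/

noncomputable section

namespace Pool.Agent.ZC

open WeierstrassCurve

variable {K : Type} [Field K] {n : ℕ}

/-- The zero-cycles `φ_* (div f) = ∑_v ord_v(f) [φ(v)]` on the product of the curves `W i`, where `F/K` is
a function field in one variable, `φ = (P i)` is an `F`-point of the product with specialisations `s v`,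
and `f` is a nonzero element of `F`. -/
inductive IsDivisorOfPi (W : Fin n → WeierstrassCurve K) :
    FreeAbelianGroup (∀ i, (W i).toAffine.Point) → Prop
  | mk (F : Type) [Field F] [Algebra K F] (hF : IsFunctionField K F)
      (P : ∀ i, ((W i).map (algebraMap K F)).toAffine.Point)
      (s : Place K F → ∀ i, (W i).toAffine.Point)
      (hs : ∀ v i, Specializes v (W i) (P i) (s v i)) (f : F) (hf : f ≠ 0) :
      IsDivisorOfPi W (∑ᶠ v : Place K F, (v.ord f).untopD 0 • FreeAbelianGroup.of (s v))

/-- The zero-cycles on the product of the curves `W i` which are rationally equivalent to zero. -/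
def RatEqPi (W : Fin n → WeierstrassCurve K) :
    AddSubgroup (FreeAbelianGroup (∀ i, (W i).toAffine.Point)) :=
  AddSubgroup.closure {z | IsDivisorOfPi W z}

/-- The degree of a zero-cycle. -/
def degree (W : Fin n → WeierstrassCurve K) :
    FreeAbelianGroup (∀ i, (W i).toAffine.Point) →+ ℤ :=
  FreeAbelianGroup.lift fun _ => 1

/-- The sum of a zero-cycle in the group of points of the product; on the zero-cycles of degree
zero this is the Albanese map. -/
def albanese [DecidableEq K] (W : Fin n → WeierstrassCurve K) :
    FreeAbelianGroup (∀ i, (W i).toAffine.Point) →+ (∀ i, (W i).toAffine.Point) :=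
  FreeAbelianGroup.lift fun x => x

end Pool.Agent.ZC
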