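import Pool.Agent.Lib.MP_a1cc03_ag.L0_Leg

/-! # Definition for rows T2, T3 -/

noncomputable section

namespace Pool.Agent.ZC

open WeierstrassCurve

/-- The map `f` is given by `(x, y) ↦ (u² x + r, u³ y + u² s x + t)`. -/
def IsChange {K : Type} [Field K] (C : VariableChange K) (W W' : WeierstrassCurve K)
    (f : W'.toAffine.Point → W.toAffine.Point) : Prop :=
  f 0 = 0 ∧ ∀ (x y : K) (h : W'.toAffine.Nonsingular x y),
    ∃ h' : W.toAffine.Nonsingular (C.u ^ 2 * x + C.r) (C.u ^ 3 * y + C.u ^ 2 * C.s * x + C.t),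
      f (.some x y h) = .some _ _ h'

end Pool.Agent.ZC
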