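import Pool.Agent.Lib.MP_a1cc03_ag.T2_Defs

/-! # Row T2a: change of variables on points -/

noncomputable section

namespace Pool.Agent.ZC

open WeierstrassCurve

/-- The partial derivatives and the equation transform well under a change of variables. -/
theorem nonsingular_change {K : Type} [Field K] (C : VariableChange K) (W : WeierstrassCurve K)
    (x y : K) : (C • W).toAffine.Nonsingular x y ↔
      W.toAffine.Nonsingular (C.u ^ 2 * x + C.r) (C.u ^ 3 * y + C.u ^ 2 * C.s * x + C.t) := by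
  rw [WeierstrassCurve.Affine.nonsingular_iff', WeierstrassCurve.Affine.nonsingular_iff',
    WeierstrassCurve.Affine.equation_iff', WeierstrassCurve.Affine.equation_iff']
  have hu : (C.u : K) ≠ 0 := C.u.ne_zero
  have hui : ((C.u⁻¹ : Kˣ) : K) = (C.u : K)⁻¹ := by simp
  have h1 : (C.u : K) * (C • W).a₁ = W.a₁ + 2 * C.s := by
    rw [variableChange_a₁, hui]; field_simp
  have h2 : (C.u : K) ^ 2 * (C • W).a₂ = W.a₂ - C.s * W.a₁ + 3 * C.r - C.s ^ 2 := by
    rw [variableChange_a₂, hui]; field_simp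
  have h3 : (C.u : K) ^ 3 * (C • W).a₃ = W.a₃ + C.r * W.a₁ + 2 * C.t := by
    rw [variableChange_a₃, hui]; field_simp
  have h4 : (C.u : K) ^ 4 * (C • W).a₄ =
      W.a₄ - C.s * W.a₃ + 2 * C.r * W.a₂ - (C.t + C.r * C.s) * W.a₁ + 3 * C.r ^ 2
        - 2 * C.s * C.t := by
    rw [variableChange_a₄, hui]; field_simp
  have h6 : (C.u : K) ^ 6 * (C • W).a₆ =
      W.a₆ + C.r * W.a₄ + C.r ^ 2 * W.a₂ + C.r ^ 3 - C.t * W.a₃ - C.t ^ 2
        - C.r * C.t * W.a₁ := by
    rw [variableChange_a₆, hui]; field_simp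
  generalize (C • W).a₁ = b1 at *
  generalize (C • W).a₂ = b2 at *
  generalize (C • W).a₃ = b3 at *
  generalize (C • W).a₄ = b4 at *
  generalize (C • W).a₆ = b6 at *
  generalize (C.u : K) = u at *
  generalize C.r = r at *
  generalize C.s = s at *
  generalize C.t = t at *
  generalize W.a₁ = a1 at *
  generalize W.a₂ = a2 at *
  generalize W.a₃ = a3 at *
  generalize W.a₄ = a4 at *
  generalize W.a₆ = a6 at *
  have hE : (u ^ 3 * y + u ^ 2 * s * x + t) ^ 2
      + a1 * (u ^ 2 * x + r) * (u ^ 3 * y + u ^ 2 * s * x + t)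
      + a3 * (u ^ 3 * y + u ^ 2 * s * x + t)
      - ((u ^ 2 * x + r) ^ 3 + a2 * (u ^ 2 * x + r) ^ 2 + a4 * (u ^ 2 * x + r) + a6)
      = u ^ 6 * (y ^ 2 + b1 * x * y + b3 * y - (x ^ 3 + b2 * x ^ 2 + b4 * x + b6)) := by
    linear_combination (-(u ^ 2 * x * (u ^ 3 * y))) * h1 + (u ^ 2 * x) ^ 2 * h2
      - (u ^ 3 * y) * h3 + (u ^ 2 * x) * h4 + h6
  have hY : 2 * (u ^ 3 * y + u ^ 2 * s * x + t) + a1 * (u ^ 2 * x + r) + a3
      = u ^ 3 * (2 * y + b1 * x + b3) := by
    linear_combination (-(u ^ 2 * x)) * h1 - h3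
  have hX : a1 * (u ^ 3 * y + u ^ 2 * s * x + t)
      - (3 * (u ^ 2 * x + r) ^ 2 + 2 * a2 * (u ^ 2 * x + r) + a4)
      = u ^ 4 * (b1 * y - (3 * x ^ 2 + 2 * b2 * x + b4))
        - s * (u ^ 3 * (2 * y + b1 * x + b3)) := by
    linear_combination (-(u ^ 3 * y) + s * (u ^ 2 * x)) * h1 + 2 * (u ^ 2 * x) * h2
      + s * h3 + h4
  rw [hE, hY, hX]
  have hu3 : u ^ 3 ≠ 0 := pow_ne_zero _ hu
  have hu4 : u ^ 4 ≠ 0 := pow_ne_zero _ hu
  have hu6 : u ^ 6 ≠ 0 := pow_ne_zero _ hu
  constructor
  · rintro ⟨he, hd⟩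
    refine ⟨by rw [he, mul_zero], ?_⟩
    by_cases hy : 2 * y + b1 * x + b3 = 0
    · left
      rw [hy, mul_zero, mul_zero, sub_zero]
      rcases hd with hd | hd
      · exact mul_ne_zero hu4 hd
      · exact absurd hy hd
    · right
      exact mul_ne_zero hu3 hy
  · rintro ⟨he, hd⟩
    refine ⟨(mul_eq_zero.mp he).resolve_left hu6, ?_⟩
    by_cases hy : 2 * y + b1 * x + b3 = 0
    · left
      rcases hd with hd | hd
      · rw [hy, mul_zero, mul_zero, sub_zero] at hd
        exact right_ne_zero_of_mul hd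
      · rw [hy, mul_zero] at hd
        exact absurd rfl hd
    · right
      exact hy

/-- **Row T2a.** The change of variables is a bijection of points (over any field). -/
theorem exists_change {K : Type} [Field K] (C : VariableChange K) (W W' : WeierstrassCurve K)
    (h : C • W = W') : ∃ f : W'.toAffine.Point ≃ W.toAffine.Point, IsChange C W W' f := by
  subst h
  have hu : (C.u : K) ≠ 0 := C.u.ne_zero
  have key : ∀ X Y : K, (C.u : K) ^ 2 * (((C.u : K) ^ 2)⁻¹ * (X - C.r)) + C.r = X ∧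
      (C.u : K) ^ 3 * (((C.u : K) ^ 3)⁻¹ * (Y - C.s * (X - C.r) - C.t))
        + (C.u : K) ^ 2 * C.s * (((C.u : K) ^ 2)⁻¹ * (X - C.r)) + C.t = Y := by
    intro X Y
    constructor
    · field_simp
      ring
    · field_simp
      ring
  have hinv : ∀ X Y : K, W.toAffine.Nonsingular X Y →
      (C • W).toAffine.Nonsingular (((C.u : K) ^ 2)⁻¹ * (X - C.r))
        (((C.u : K) ^ 3)⁻¹ * (Y - C.s * (X - C.r) - C.t)) := by
    intro X Y h
    rw [nonsingular_change, (key X Y).1, (key X Y).2]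
    exact h
  let f : (C • W).toAffine.Point → W.toAffine.Point := fun P =>
    match P with
    | .zero => .zero
    | .some x y h => .some _ _ ((nonsingular_change C W x y).mp h)
  let g : W.toAffine.Point → (C • W).toAffine.Point := fun P =>
    match P with
    | .zero => .zero
    | .some X Y h => .some _ _ (hinv X Y h)
  refine ⟨⟨f, g, ?_, ?_⟩, rfl, ?_⟩
  · intro P
    match P with
    | .zero => rfl
    | .some x y h =>
      simp only [f, g]
      congr 1
      · field_simp
        ring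
      · field_simp
        ring
  · intro P
    match P with
    | .zero => rfl
    | .some X Y h =>
      simp only [f, g]
      congr 1
      · exact (key X Y).1
      · exact (key X Y).2
  · intro x y h
    exact ⟨(nonsingular_change C W x y).mp h, rfl⟩

end Pool.Agent.ZC
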