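import Pool.Agent.Lib.MP_a1cc03_ag.M1_Base

/-! # Row U1: the genus two family with equal `x`-coordinates -/

open scoped Polynomial

noncomputable section

namespace Pool.Agent.ZC

variable {K : Type} [Field K]

/-- **Row U1.** The same as `base_family`, but with the second point on `leg b` above the same `t₀`.
Let `i² = -1`; apply `base_family` to `z₀' = i z₀` (`(i z₀)² = - t₀ (t₀ - 1)(t₀ - b)
= (1 - t₀) ((1 - t₀) - 1) ((1 - t₀) - (1 - b))`), get `z'`, and put `z = - i z'` (so `z² = - z'²`, and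
`z' ≡ ± i z₀` gives `z ≡ ± z₀` by `Ev.mul`, `Ev.const`). -/
theorem base_family2 [IsAlgClosed K] [CharZero K] {a b : K} (ha0 : a ≠ 0) (ha1 : a ≠ 1)
    (hb0 : b ≠ 0) (hb1 : b ≠ 1) (hab : a ≠ b) {t₀ y₀ z₀ : K} (ht0 : t₀ ≠ 0) (ht1 : t₀ ≠ 1)
    (hta : t₀ ≠ a) (htb : t₀ ≠ b) (hy : y₀ ^ 2 = t₀ * (t₀ - 1) * (t₀ - a))
    (hz : z₀ ^ 2 = t₀ * (t₀ - 1) * (t₀ - b)) :
    ∃ (D : K[X]) (F : Type) (_ : Field F) (_ : Algebra K F) (s Y T y z : F) (σ δ : K),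
      DCover D F s Y ∧ σ ≠ -σ ∧ δ ≠ 0 ∧ δ ^ 2 = D.eval σ ∧ δ ^ 2 = D.eval (-σ) ∧
      y ^ 2 = T * (T - 1) * (T - algebraMap K F a) ∧
      z ^ 2 = T * (T - 1) * (T - algebraMap K F b) ∧
      (∀ v : Place K F, Ev v s σ → Ev v Y δ → Ev v T t₀ ∧ Ev v y y₀ ∧ Ev v z z₀) ∧
      (∀ v : Place K F, Ev v s σ → Ev v Y (-δ) → Ev v T t₀ ∧ Ev v y (-y₀) ∧ Ev v z (-z₀)) ∧
      (∀ v : Place K F, Ev v s (-σ) → Ev v Y δ → Ev v T t₀ ∧ Ev v y y₀ ∧ Ev v z (-z₀)) ∧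
      (∀ v : Place K F, Ev v s (-σ) → Ev v Y (-δ) → Ev v T t₀ ∧ Ev v y (-y₀) ∧ Ev v z z₀) := by
  obtain ⟨im, him⟩ : ∃ im : K, im ^ 2 = -1 := IsAlgClosed.exists_pow_nat_eq (-1) (by norm_num)
  have hz' : (im * z₀) ^ 2 = (1 - t₀) * ((1 - t₀) - 1) * ((1 - t₀) - (1 - b)) := by
    rw [mul_pow, him, hz]
    ring
  obtain ⟨D, F, iF, iA, s, Y, T, y, z', σ, δ, h1, h2, h3, h4, h5, h6, h7, h8, h9, h10, h11⟩ :=
    base_family ha0 ha1 hb0 hb1 hab ht0 ht1 hta htb hy hz'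
  have key : ∀ v : Place K F, Ev v z' (im * z₀) → Ev v (algebraMap K F (-im) * z') z₀ := by
    intro v hv
    have e := (Ev.const v (-im)).mul hv
    have e2 : -im * (im * z₀) = z₀ := by
      have : -im * (im * z₀) = -(im ^ 2) * z₀ := by ring
      rw [this, him]
      ring
    rwa [e2] at e
  have key2 : ∀ v : Place K F, Ev v z' (-(im * z₀)) → Ev v (algebraMap K F (-im) * z') (-z₀) := by
    intro v hv
    have e := (Ev.const v (-im)).mul hv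
    have e2 : -im * (-(im * z₀)) = -z₀ := by
      have : -im * (-(im * z₀)) = im ^ 2 * z₀ := by ring
      rw [this, him]
      ring
    rwa [e2] at e
  refine ⟨D, F, iF, iA, s, Y, T, y, algebraMap K F (-im) * z', σ, δ, h1, h2, h3, h4, h5, h6, ?_,
    ?_, ?_, ?_, ?_⟩
  · rw [mul_pow, h7, ← map_pow, neg_sq, him, map_neg, map_one, map_sub, map_one]
    ring
  · intro v a1 a2
    obtain ⟨b1, b2, b3⟩ := h8 v a1 a2
    exact ⟨b1, b2, key v b3⟩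
  · intro v a1 a2
    obtain ⟨b1, b2, b3⟩ := h9 v a1 a2
    exact ⟨b1, b2, key2 v b3⟩
  · intro v a1 a2
    obtain ⟨b1, b2, b3⟩ := h10 v a1 a2
    exact ⟨b1, b2, key2 v b3⟩
  · intro v a1 a2
    obtain ⟨b1, b2, b3⟩ := h11 v a1 a2
    exact ⟨b1, b2, key v b3⟩

end Pool.Agent.ZC
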