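import Pool.Agent.Lib.MP_a1cc03_ag.U1_Family
import Pool.Agent.Lib.MP_a1cc03_ag.M4_Main

/-! # Row U2: the main relation, equal `x`-coordinates, different parameters -/

noncomputable section

namespace Pool.Agent.ZC

open WeierstrassCurve

variable {K : Type} [Field K] [IsAlgClosed K] [CharZero K] [DecidableEq K]

/-- **Row U2.** The same as `tors_main` (M4; copy its proof, 60 lines) with `base_family2` (U1) instead of
`base_family`: both points have the same `x`-coordinate `t` on `leg (l i)` and `leg (l' j)`, `l i ≠ l' j`. -/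
theorem tors_diff {l r e l' r' e' : ℕ → K} (hc : Chain l r e) (hc' : Chain l' r' e') (i j : ℕ)
    (hne : l i ≠ l' j) {t y₀ z₀ : K} (ht0 : t ≠ 0) (ht1 : t ≠ 1) (hti : t ≠ l i)
    (htj : t ≠ l' j) (hy : y₀ ^ 2 = t * (t - 1) * (t - l i))
    (hz : z₀ ^ 2 = t * (t - 1) * (t - l' j))
    (hg : Good r i t) (hg' : Good r' j t)
    (hR : (leg (l 0)).toAffine.Nonsingular (down r e i (t, y₀)).1 (down r e i (t, y₀)).2)
    (hS : (leg (l' 0)).toAffine.Nonsingular (down r' e' j (t, z₀)).1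
      (down r' e' j (t, z₀)).2) :
    TorsSym (leg (l 0)) (leg (l' 0)) (.some _ _ hR) (.some _ _ hS) := by
  obtain ⟨D, F, _, _, s, Y, T, y, z, σ, δ, hcov, hσ, hδ, hD1, hD2, hyF, hzF, e1, e2, e3, e4⟩ :=
    base_family2 (hc.ne_zero i) (hc.ne_one i) (hc'.ne_zero j) (hc'.ne_one j) hne ht0 ht1 hti htj
      hy hz
  haveI := leg_isElliptic (hc.ne_zero 0) (hc.ne_one 0)
  haveI := leg_isElliptic (hc'.ne_zero 0) (hc'.ne_one 0)
  -- the points are defined
  obtain ⟨v₀, hv₀, hv₀'⟩ := exists_place hcov hδ hD1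
  have hv₀s : Ev v₀ s σ := by
    show 0 < v₀.ord (s - algebraMap K F σ)
    rw [hv₀]
    exact_mod_cast one_pos
  obtain ⟨hT0, hy0, hz0⟩ := e1 v₀ hv₀s hv₀'
  have hgF : Good (fun n => algebraMap K F (r n)) i T :=
    (ev_down (e := e) (m4_r_ne hc) i hg hT0 hy0).1
  have hgF' : Good (fun n => algebraMap K F (r' n)) j T :=
    (ev_down (e := e') (m4_r_ne hc') j hg' hT0 hz0).1
  apply four_sym (hc.ne_zero 0) (hc.ne_one 0) (hc'.ne_zero 0) (hc'.ne_one 0)
  refine fibre_rel hcov (leg (l 0)) (leg (l' 0))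
    (.some _ _ (m4_down_eq hc i T y hgF hyF)) (.some _ _ (m4_down_eq hc' j T z hgF' hzF))
    hσ hδ hδ hD1 hD2
    (p := (.some _ _ hR, .some _ _ hS)) (p' := (-(.some _ _ hR), -(.some _ _ hS)))
    (q := (.some _ _ hR, -(.some _ _ hS))) (q' := (-(.some _ _ hR), .some _ _ hS))
    ?_ ?_ ?_ ?_ ?_ ?_ ?_ ?_
  · intro v hs hY
    obtain ⟨h1, h2, h3⟩ := e1 v hs hY
    exact m4_spec hc i hgF hyF hg hR h1 h2
  · intro v hs hY
    obtain ⟨h1, h2, h3⟩ := e1 v hs hY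
    exact m4_spec hc' j hgF' hzF hg' hS h1 h3
  · intro v hs hY
    obtain ⟨h1, h2, h3⟩ := e2 v hs hY
    exact m4_spec_neg hc i hgF hyF hg hR h1 h2
  · intro v hs hY
    obtain ⟨h1, h2, h3⟩ := e2 v hs hY
    exact m4_spec_neg hc' j hgF' hzF hg' hS h1 h3
  · intro v hs hY
    obtain ⟨h1, h2, h3⟩ := e3 v hs hY
    exact m4_spec hc i hgF hyF hg hR h1 h2
  · intro v hs hY
    obtain ⟨h1, h2, h3⟩ := e3 v hs hY
    exact m4_spec_neg hc' j hgF' hzF hg' hS h1 h3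
  · intro v hs hY
    obtain ⟨h1, h2, h3⟩ := e4 v hs hY
    exact m4_spec_neg hc i hgF hyF hg hR h1 h2
  · intro v hs hY
    obtain ⟨h1, h2, h3⟩ := e4 v hs hY
    exact m4_spec hc' j hgF' hzF hg' hS h1 h3

end Pool.Agent.ZC
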