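import Pool.Agent.Lib.MP_a1cc03_ag.L0_Leg

/-! # Row U3a: points of order four -/

noncomputable section

namespace Pool.Agent.ZC

open WeierstrassCurve

variable {K : Type} [Field K] [CharZero K]

/-- **Row U3a.** If `x² = l` then `4 (x, y) = 0`: `y ≠ 0` (`y² = x (x - 1)(x - x²) = - (x (x - 1))²`, `x ≠ 0, 1`), so
by `leg_double` the `x`-coordinate of `2 P` is `(3 x² - 2 (1 + l) x + l)² / (4 y²) + (1 + l) - 2 x
= (x² - l)² / (4 y²) = 0`, hence its `y`-coordinate is `0` and `2 P = - 2 P` (`leg_neg_some`). -/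
theorem four_torsion [DecidableEq K] {l : K} (h0 : l ≠ 0) (h1 : l ≠ 1) {x y : K}
    (h : (leg l).toAffine.Nonsingular x y) (hx : x ^ 2 = l) :
    4 • (Affine.Point.some x y h) = 0 := by
  subst hx
  have hx0 : x ≠ 0 := by
    rintro rfl
    exact h0 (by ring)
  have hx1 : x - 1 ≠ 0 := by
    intro h2
    have : x = 1 := by linear_combination h2
    subst this
    exact h1 (by ring)
  have hyy : y ^ 2 = -(x * (x - 1)) ^ 2 := by
    rw [leg_eq_of_nonsingular h]
    ring
  have hy : y ≠ 0 := by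
    rintro rfl
    have h2 : (x * (x - 1)) ^ 2 = 0 := by linear_combination hyy
    exact (mul_ne_zero hx0 hx1) (pow_eq_zero_iff (two_ne_zero) |>.1 h2)
  obtain ⟨h3, hd⟩ := leg_double h two_ne_zero hy
  have hlam : (3 * x ^ 2 - 2 * (1 + x ^ 2) * x + x ^ 2) / (2 * y) = -(x * (x - 1) ^ 2) / y := by
    field_simp
    ring
  have hX : ((3 * x ^ 2 - 2 * (1 + x ^ 2) * x + x ^ 2) / (2 * y)) ^ 2 + (1 + x ^ 2) - 2 * x = 0 := by
    rw [hlam, div_pow, hyy]
    field_simp
    ring
  generalize ((3 * x ^ 2 - 2 * (1 + x ^ 2) * x + x ^ 2) / (2 * y)) ^ 2 + (1 + x ^ 2) - 2 * x = X at h3 hd hX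
  generalize (-((3 * x ^ 2 - 2 * (1 + x ^ 2) * x + x ^ 2) / (2 * y) * (X - x) + y)) = Y at h3 hd
  subst hX
  have hY : Y = 0 := by
    have h4 := leg_eq_of_nonsingular h3
    have h5 : Y ^ 2 = 0 := by
      rw [h4]
      ring
    exact pow_eq_zero_iff (two_ne_zero) |>.1 h5
  subst hY
  have hneg : -(Affine.Point.some 0 0 h3) = Affine.Point.some 0 0 h3 := by
    have h6 := leg_neg_nonsingular h3
    rw [leg_neg_some h3 h6]
    congr 1
    exact neg_zero
  have h7 : (4 : ℕ) • (Affine.Point.some x y h) =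
      (Affine.Point.some x y h + Affine.Point.some x y h) + (Affine.Point.some x y h + Affine.Point.some x y h) := by
    rw [← two_nsmul, ← two_nsmul, smul_smul]
    norm_num
  rw [h7, hd]
  nth_rewrite 1 [← hneg]
  exact neg_add_cancel _

/-- **Row U3b.** Induction on `n`: if `x² = l (n + 1) = Lr (r n)` then `x ≠ 0, 1`, `x ≠ x² = Lr (r n)`, and
`stepX (r n) x = r n · x (x - 1)/(x - x²) = - r n`, whose square is `l n`. -/
theorem down_sq {l r e : ℕ → K} (hc : Chain l r e) (n : ℕ) (x y : K) (hx : x ^ 2 = l n) :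
    (down r e n (x, y)).1 ^ 2 = l 0 ∧ Good r n x := by
  induction n generalizing x y with
  | zero => exact ⟨hx, trivial⟩
  | succ n ih =>
    have h0 : x ≠ 0 := by
      rintro rfl
      exact hc.ne_zero (n + 1) (by rw [← hx]; ring)
    have h1 : x - 1 ≠ 0 := by
      intro h2
      have : x = 1 := by linear_combination h2
      subst this
      exact hc.ne_one (n + 1) (by rw [← hx]; ring)
    have hL : Lr (r n) = x ^ 2 := by rw [hx, hc.next]
    have hne : x - x ^ 2 ≠ 0 := by
      have : x - x ^ 2 = -(x * (x - 1)) := by ring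
      rw [this]
      exact neg_ne_zero.2 (mul_ne_zero h0 h1)
    have hs : stepX (r n) x = -r n := by
      unfold stepX
      rw [hL, div_eq_iff hne]
      ring
    have hsq : (stepX (r n) x) ^ 2 = l n := by
      rw [hs, neg_sq, hc.sq]
    obtain ⟨h3, h4⟩ := ih (stepX (r n) x) (stepY (r n) (e n) x y) hsq
    refine ⟨h3, ?_, h4⟩
    rw [hL]
    exact fun h => hne (sub_eq_zero.2 h)

end Pool.Agent.ZC
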