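import Pool.Agent.Lib.MP_a1cc03_ag.M4_Main

/-! # Row U3c: the diagonal family -/

open scoped Polynomial

noncomputable section

namespace Pool.Agent.ZC

open WeierstrassCurve

variable {K : Type} [Field K] [IsAlgClosed K] [CharZero K] [DecidableEq K]

/-- the cubic `X (X - 1) (X - a)` -/
def u3c_D (a : K) : K[X] :=
  Polynomial.X * (Polynomial.X - 1) * (Polynomial.X - Polynomial.C a)

omit [IsAlgClosed K] [CharZero K] [DecidableEq K] in
theorem u3c_eval (a x : K) : (u3c_D a).eval x = x * (x - 1) * (x - a) := by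
  simp [u3c_D]

omit [IsAlgClosed K] [CharZero K] [DecidableEq K] in
theorem u3c_aeval {F : Type} [Field F] [Algebra K F] (a : K) (s : F) :
    Polynomial.aeval s (u3c_D a) = s * (s - 1) * (s - algebraMap K F a) := by
  simp [u3c_D]

omit [IsAlgClosed K] [DecidableEq K] in
theorem u3c_nonsquare {a : K} (ha : a ≠ 0) :
    ¬ IsSquare (algebraMap K[X] (RatFunc K) (u3c_D a)) := by
  refine not_isSquare_of_simple_root (u3c_D a) 0 ?_ ?_
  · rw [u3c_eval]
    ring
  · have h : (Polynomial.derivative (u3c_D a)).eval 0 = a := by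
      simp only [u3c_D, Polynomial.derivative_mul, Polynomial.derivative_sub,
        Polynomial.derivative_C, Polynomial.derivative_X, Polynomial.derivative_one,
        Polynomial.eval_add, Polynomial.eval_mul, Polynomial.eval_sub, Polynomial.eval_C,
        Polynomial.eval_X, Polynomial.eval_one, Polynomial.eval_zero]
      ring
    rw [h]
    exact ha

/-- **Row U3c.** Two fibres of the diagonal family. Let `a = l i = l' j`, `D = X (X - 1) (X - a)` (not a square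
in `K(X)`: simple root `0`, `not_isSquare_of_simple_root`), `F = K(s)(Y)`, `Y² = D(s)` (`exists_dcover`). The
`F`-points `P = down (s, Y)` of `leg (l 0)` and `Q = down (s, Y)` of `leg (l' 0)` (`m4_down_eq`; `Good` in `F`
by `ev_down` at a place above `(x₀, y₀)`, `exists_place`) specialise by `m4_spec`, `m4_spec_neg` to `(R, S)`,
`(-R, -S)` above `(x₀, ± y₀)` and to `(R₁, S₁)`, `(-R₁, -S₁)` above `(x₁, ± y₁)`. Apply `fibre_rel` with
`a = x₀`, `b = x₁`, `d = y₀`, `e = y₁`. -/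
theorem diag_rel {l r e l' r' e' : ℕ → K} (hc : Chain l r e) (hc' : Chain l' r' e') (i j : ℕ)
    (heq : l i = l' j) {x₀ y₀ x₁ y₁ : K} (h01 : x₀ ≠ x₁) (hy₀ : y₀ ≠ 0) (hy₁ : y₁ ≠ 0)
    (h₀ : y₀ ^ 2 = x₀ * (x₀ - 1) * (x₀ - l i)) (h₁ : y₁ ^ 2 = x₁ * (x₁ - 1) * (x₁ - l i))
    (hg : Good r i x₀) (hg' : Good r' j x₀) (hg₁ : Good r i x₁) (hg₁' : Good r' j x₁)
    (hR : (leg (l 0)).toAffine.Nonsingular (down r e i (x₀, y₀)).1 (down r e i (x₀, y₀)).2)
    (hS : (leg (l' 0)).toAffine.Nonsingular (down r' e' j (x₀, y₀)).1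
      (down r' e' j (x₀, y₀)).2)
    (hR₁ : (leg (l 0)).toAffine.Nonsingular (down r e i (x₁, y₁)).1 (down r e i (x₁, y₁)).2)
    (hS₁ : (leg (l' 0)).toAffine.Nonsingular (down r' e' j (x₁, y₁)).1
      (down r' e' j (x₁, y₁)).2) :
    FreeAbelianGroup.of ((Affine.Point.some _ _ hR, Affine.Point.some _ _ hS) :
        (leg (l 0)).toAffine.Point × (leg (l' 0)).toAffine.Point)
      + FreeAbelianGroup.of (-(Affine.Point.some _ _ hR), -(Affine.Point.some _ _ hS))
      - FreeAbelianGroup.of (Affine.Point.some _ _ hR₁, Affine.Point.some _ _ hS₁)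
      - FreeAbelianGroup.of (-(Affine.Point.some _ _ hR₁), -(Affine.Point.some _ _ hS₁))
      ∈ RatEq (leg (l 0)) (leg (l' 0)) := by
  haveI := leg_isElliptic (hc.ne_zero 0) (hc.ne_one 0)
  haveI := leg_isElliptic (hc'.ne_zero 0) (hc'.ne_one 0)
  obtain ⟨F, _, _, s, Y, hcov⟩ := exists_dcover (u3c_D (l i)) (u3c_nonsquare (hc.ne_zero i))
  have hYF : Y ^ 2 = s * (s - 1) * (s - algebraMap K F (l i)) := by
    rw [hcov.rel, u3c_aeval]
  have hYF' : Y ^ 2 = s * (s - 1) * (s - algebraMap K F (l' j)) := by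
    rw [hYF, heq]
  have hD1 : y₀ ^ 2 = (u3c_D (l i)).eval x₀ := by rw [u3c_eval]; exact h₀
  have hD2 : y₁ ^ 2 = (u3c_D (l i)).eval x₁ := by rw [u3c_eval]; exact h₁
  obtain ⟨v₀, hv₀, hv₀'⟩ := exists_place hcov hy₀ hD1
  have hv₀s : Ev v₀ s x₀ := by
    show 0 < v₀.ord (s - algebraMap K F x₀)
    rw [hv₀]
    exact_mod_cast one_pos
  have hgF : Good (fun n => algebraMap K F (r n)) i s :=
    (ev_down (e := e) (m4_r_ne hc) i hg hv₀s hv₀').1
  have hgF' : Good (fun n => algebraMap K F (r' n)) j s :=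
    (ev_down (e := e') (m4_r_ne hc') j hg' hv₀s hv₀').1
  refine fibre_rel hcov (leg (l 0)) (leg (l' 0))
    (.some _ _ (m4_down_eq hc i s Y hgF hYF)) (.some _ _ (m4_down_eq hc' j s Y hgF' hYF'))
    h01 hy₀ hy₁ hD1 hD2
    (p := (.some _ _ hR, .some _ _ hS)) (p' := (-(.some _ _ hR), -(.some _ _ hS)))
    (q := (.some _ _ hR₁, .some _ _ hS₁)) (q' := (-(.some _ _ hR₁), -(.some _ _ hS₁)))
    ?_ ?_ ?_ ?_ ?_ ?_ ?_ ?_
  · intro v hs hY
    exact m4_spec hc i hgF hYF hg hR hs hY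
  · intro v hs hY
    exact m4_spec hc' j hgF' hYF' hg' hS hs hY
  · intro v hs hY
    exact m4_spec_neg hc i hgF hYF hg hR hs hY
  · intro v hs hY
    exact m4_spec_neg hc' j hgF' hYF' hg' hS hs hY
  · intro v hs hY
    exact m4_spec hc i hgF hYF hg₁ hR₁ hs hY
  · intro v hs hY
    exact m4_spec hc' j hgF' hYF' hg₁' hS₁ hs hY
  · intro v hs hY
    exact m4_spec_neg hc i hgF hYF hg₁ hR₁ hs hY
  · intro v hs hY
    exact m4_spec_neg hc' j hgF' hYF' hg₁' hS₁ hs hY

end Pool.Agent.ZC
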