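import Pool.Agent.Lib.MP_a1cc03_ag.B4_Tors

/-! # Row U3d: symmetric pairs of points -/

noncomputable section

namespace Pool.Agent.ZC

open WeierstrassCurve

variable {K : Type} [Field K] [IsAlgClosed K] [CharZero K] [DecidableEq K] {l m : K}

/-- **Row U3d.** In the quotient by `RatEq`: `(R, S) = {R, S} + (R, O) + (O, S) - (O, O)`, so
`(R, S) + (-R, -S) = {R, S} + {-R, -S} + [(R, O) + (-R, O)] + [(O, S) + (O, -S)] - 2 (O, O)
≡ 2 {R, S} + 2 (O, O)` (`b3_add` with `P' = -P`, `Q = 0`, and its image under `swap_mem`; bilinearity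
`B4_left_hom`, `B4_right_hom`). The same for `(R₁, S₁)`; so `2 {R, S} ≡ 2 {R₁, S₁}` and `{R, S}` is torsion
if `{R₁, S₁}` is. -/
theorem two_sym (hl0 : l ≠ 0) (hl1 : l ≠ 1) (hm0 : m ≠ 0) (hm1 : m ≠ 1)
    (R R₁ : (leg l).toAffine.Point) (S S₁ : (leg m).toAffine.Point)
    (h : FreeAbelianGroup.of (R, S) + FreeAbelianGroup.of (-R, -S) - FreeAbelianGroup.of (R₁, S₁)
      - FreeAbelianGroup.of (-R₁, -S₁) ∈ RatEq (leg l) (leg m))
    (h₁ : TorsSym (leg l) (leg m) R₁ S₁) :
    TorsSym (leg l) (leg m) R S := by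
  have := leg_isElliptic hl0 hl1
  have := leg_isElliptic hm0 hm1
  set π := QuotientAddGroup.mk' (RatEq (leg l) (leg m)) with hπ
  have hker : ∀ z, z ∈ RatEq (leg l) (leg m) → π z = 0 := by
    intro z hz
    rw [hπ, QuotientAddGroup.mk'_apply, QuotientAddGroup.eq_zero_iff]
    exact hz
  have hneg1 : ∀ (a : (leg l).toAffine.Point) (b : (leg m).toAffine.Point),
      π (sym (leg l) (leg m) (-a) b) = -π (sym (leg l) (leg m) a b) := by
    intro a b
    obtain ⟨φ, hφ⟩ := B4_left_hom hl0 hl1 (leg m) b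
    rw [← hφ, ← hφ, map_neg]
  have hneg2 : ∀ (a : (leg l).toAffine.Point) (b : (leg m).toAffine.Point),
      π (sym (leg l) (leg m) a (-b)) = -π (sym (leg l) (leg m) a b) := by
    intro a b
    obtain ⟨φ, hφ⟩ := B4_right_hom hm0 hm1 (leg l) a
    rw [← hφ, ← hφ, map_neg]
  have hl : ∀ a : (leg l).toAffine.Point,
      π (FreeAbelianGroup.of (a, (0 : (leg m).toAffine.Point)))
        + π (FreeAbelianGroup.of (-a, 0)) = π (FreeAbelianGroup.of (0, 0))
          + π (FreeAbelianGroup.of (0, 0)) := by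
    intro a
    have h1 := hker _ (b3_add hl0 hl1 (leg m) a (-a) 0)
    rw [add_neg_cancel, map_sub, map_sub, map_add] at h1
    rw [sub_sub, sub_eq_zero] at h1
    exact h1
  have hr : ∀ b : (leg m).toAffine.Point,
      π (FreeAbelianGroup.of ((0 : (leg l).toAffine.Point), b))
        + π (FreeAbelianGroup.of (0, -b)) = π (FreeAbelianGroup.of (0, 0))
          + π (FreeAbelianGroup.of (0, 0)) := by
    intro b
    have h1 := swap_mem (b3_add hm0 hm1 (leg l) b (-b) 0)
    rw [add_neg_cancel, map_sub, map_sub, map_add] at h1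
    have h2 := hker _ h1
    rw [map_sub, map_sub, map_add] at h2
    rw [sub_sub, sub_eq_zero] at h2
    simpa [swapHom] using h2
  have hpair : ∀ (a : (leg l).toAffine.Point) (b : (leg m).toAffine.Point),
      π (FreeAbelianGroup.of (a, b) + FreeAbelianGroup.of (-a, -b)) =
        2 • π (sym (leg l) (leg m) a b) + 2 • π (FreeAbelianGroup.of (0, 0)) := by
    intro a b
    have hcycle : FreeAbelianGroup.of (a, b) + FreeAbelianGroup.of (-a, -b) =
        sym (leg l) (leg m) a b + sym (leg l) (leg m) (-a) (-b)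
        + (FreeAbelianGroup.of (a, 0) + FreeAbelianGroup.of (-a, 0))
        + (FreeAbelianGroup.of (0, b) + FreeAbelianGroup.of (0, -b))
        - FreeAbelianGroup.of (0, 0) - FreeAbelianGroup.of (0, 0) := by
      unfold sym
      abel
    rw [hcycle, map_sub, map_sub, map_add, map_add, map_add, map_add, map_add, hl, hr, hneg1,
      hneg2]
    abel
  have h0 := hker _ h
  have hsplit : FreeAbelianGroup.of (R, S) + FreeAbelianGroup.of (-R, -S)
      - FreeAbelianGroup.of (R₁, S₁) - FreeAbelianGroup.of (-R₁, -S₁) =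
      (FreeAbelianGroup.of (R, S) + FreeAbelianGroup.of (-R, -S))
      - (FreeAbelianGroup.of (R₁, S₁) + FreeAbelianGroup.of (-R₁, -S₁)) := by
    abel
  rw [hsplit, map_sub, hpair, hpair, add_sub_add_right_eq_sub, sub_eq_zero] at h0
  rw [B4_torsSym_iff] at h₁ ⊢
  obtain ⟨N, hN, hN1⟩ := h₁
  refine ⟨N * 2, by omega, ?_⟩
  rw [mul_smul, ← hπ, h0, smul_comm, hπ, hN1, smul_zero]

end Pool.Agent.ZC
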