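import Pool.Agent.Lib.MP_a1cc03_ag.U3a_Four
import Pool.Agent.Lib.MP_a1cc03_ag.U3c_Diag
import Pool.Agent.Lib.MP_a1cc03_ag.U3d_Two

/-! # Row U3e: equal `x`-coordinates and equal parameters -/

noncomputable section

namespace Pool.Agent.ZC

open WeierstrassCurve

variable {K : Type} [Field K] [IsAlgClosed K] [CharZero K] [DecidableEq K]

private theorem u3e_plus {l r e l' r' e' : ℕ → K} (hc : Chain l r e) (hc' : Chain l' r' e')
    (i j : ℕ) (heq : l i = l' j) {t y₀ : K} (ht0 : t ≠ 0) (ht1 : t ≠ 1) (hti : t ≠ l i)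
    (ht2 : t ^ 2 ≠ l i) (hy : y₀ ^ 2 = t * (t - 1) * (t - l i))
    (hg : Good r i t) (hg' : Good r' j t)
    (hR : (leg (l 0)).toAffine.Nonsingular (down r e i (t, y₀)).1 (down r e i (t, y₀)).2)
    (hS : (leg (l' 0)).toAffine.Nonsingular (down r' e' j (t, y₀)).1
      (down r' e' j (t, y₀)).2) :
    TorsSym (leg (l 0)) (leg (l' 0)) (.some _ _ hR) (.some _ _ hS) := by
  have hy₀ : y₀ ≠ 0 := by
    rintro rfl
    have h : t * (t - 1) * (t - l i) = 0 := by rw [← hy]; ring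
    exact mul_ne_zero (mul_ne_zero ht0 (sub_ne_zero.mpr ht1)) (sub_ne_zero.mpr hti) h
  obtain ⟨x₁, hx₁⟩ := IsAlgClosed.exists_pow_nat_eq (l i) (n := 2) (by norm_num)
  obtain ⟨y₁, hy₁⟩ := IsAlgClosed.exists_pow_nat_eq (x₁ * (x₁ - 1) * (x₁ - l i)) (n := 2)
    (by norm_num)
  have hx0 : x₁ ≠ 0 := by
    rintro rfl
    exact hc.ne_zero i (by rw [← hx₁]; ring)
  have hx1 : x₁ ≠ 1 := by
    rintro rfl
    exact hc.ne_one i (by rw [← hx₁]; ring)
  have hxl : x₁ ≠ l i := by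
    intro h
    rw [← hx₁] at h
    have h2 : x₁ * (x₁ - 1) = 0 := by linear_combination -h
    exact mul_ne_zero hx0 (sub_ne_zero.mpr hx1) h2
  have hyne : y₁ ≠ 0 := by
    rintro rfl
    have h : x₁ * (x₁ - 1) * (x₁ - l i) = 0 := by rw [← hy₁]; ring
    exact mul_ne_zero (mul_ne_zero hx0 (sub_ne_zero.mpr hx1)) (sub_ne_zero.mpr hxl) h
  have hxt : t ≠ x₁ := by
    rintro rfl
    exact ht2 hx₁
  obtain ⟨hs1, hg1⟩ := down_sq hc i x₁ y₁ hx₁
  obtain ⟨hs2, hg2⟩ := down_sq hc' j x₁ y₁ (by rw [hx₁, heq])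
  have hR₁ : (leg (l 0)).toAffine.Nonsingular (down r e i (x₁, y₁)).1 (down r e i (x₁, y₁)).2 :=
    (leg_nonsingular (hc.ne_zero 0) (hc.ne_one 0)).mpr
      (down_equation hc.sq hc.next hc.esq (m4_r_ne hc) i x₁ y₁ hg1 hy₁)
  have hS₁ : (leg (l' 0)).toAffine.Nonsingular (down r' e' j (x₁, y₁)).1
      (down r' e' j (x₁, y₁)).2 :=
    (leg_nonsingular (hc'.ne_zero 0) (hc'.ne_one 0)).mpr
      (down_equation hc'.sq hc'.next hc'.esq (m4_r_ne hc') j x₁ y₁ hg2 (by rw [hy₁, heq]))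
  haveI : (leg (l' 0)).IsElliptic := leg_isElliptic (hc'.ne_zero 0) (hc'.ne_one 0)
  have htors : TorsSym (leg (l 0)) (leg (l' 0)) (.some _ _ hR₁) (.some _ _ hS₁) := by
    obtain ⟨H, hH, hsat⟩ := exists_left_subgroup (hc.ne_zero 0) (hc.ne_one 0) (leg (l' 0))
      (.some _ _ hS₁)
    rw [← hH]
    refine hsat _ 4 (by norm_num) ?_
    rw [four_torsion (hc.ne_zero 0) (hc.ne_one 0) hR₁ hs1]
    exact H.zero_mem
  exact two_sym (hc.ne_zero 0) (hc.ne_one 0) (hc'.ne_zero 0) (hc'.ne_one 0) _ _ _ _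
    (diag_rel hc hc' i j heq hxt hy₀ hyne hy hy₁ hg hg' hg1 hg2 hR hS hR₁ hS₁) htors

/-- **Row U3e.** As `z₀² = y₀²`, `z₀ = ± y₀`; in the case `z₀ = - y₀` the point `S` is the negative of the point
for `y₀` (`down_neg`, `leg_neg_some`) and the torsion of `{R, -S}` gives that of `{R, S}`
(`exists_right_subgroup`). So let `z₀ = y₀`. Choose `x₁` with `x₁² = l i` and `y₁` with
`y₁² = x₁ (x₁ - 1) (x₁ - l i)`; `x₁ ≠ 0, 1, l i`, so `y₁ ≠ 0`; `x₁ ≠ t` as `t² ≠ l i`. By `down_sq` (U3b) `Good r i x₁`,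
`Good r' j x₁` and `(down …).1² = l 0`, and the points `R₁`, `S₁` above `(x₁, y₁)` exist (`down_equation`,
`leg_nonsingular`); `4 R₁ = 0` by `four_torsion` (U3a), so `{R₁, S₁}` is torsion (`exists_left_subgroup`,
second statement, `4 • R₁ = 0 ∈ H`). Apply `diag_rel` (U3c) and `two_sym` (U3d). -/
theorem tors_same {l r e l' r' e' : ℕ → K} (hc : Chain l r e) (hc' : Chain l' r' e') (i j : ℕ)
    (heq : l i = l' j) {t y₀ z₀ : K} (ht0 : t ≠ 0) (ht1 : t ≠ 1) (hti : t ≠ l i)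
    (ht2 : t ^ 2 ≠ l i) (hy : y₀ ^ 2 = t * (t - 1) * (t - l i))
    (hz : z₀ ^ 2 = t * (t - 1) * (t - l' j))
    (hg : Good r i t) (hg' : Good r' j t)
    (hR : (leg (l 0)).toAffine.Nonsingular (down r e i (t, y₀)).1 (down r e i (t, y₀)).2)
    (hS : (leg (l' 0)).toAffine.Nonsingular (down r' e' j (t, z₀)).1
      (down r' e' j (t, z₀)).2) :
    TorsSym (leg (l 0)) (leg (l' 0)) (.some _ _ hR) (.some _ _ hS) := by
  have hzy : z₀ ^ 2 = y₀ ^ 2 := by rw [hy, hz, heq]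
  rcases sq_eq_sq_iff_eq_or_eq_neg.mp hzy with h | h
  · subst h
    exact u3e_plus hc hc' i j heq ht0 ht1 hti ht2 hy hg hg' hR hS
  · subst h
    have hd := down_neg r' e' j t y₀
    have hS0 : (leg (l' 0)).toAffine.Nonsingular (down r' e' j (t, y₀)).1
        (down r' e' j (t, y₀)).2 := by
      have h1 := leg_neg_nonsingular hS
      rw [hd] at h1
      simpa using h1
    have hplus := u3e_plus hc hc' i j heq ht0 ht1 hti ht2 hy hg hg' hR hS0
    haveI : (leg (l 0)).IsElliptic := leg_isElliptic (hc.ne_zero 0) (hc.ne_one 0)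
    obtain ⟨H, hH, -⟩ := exists_right_subgroup (hc'.ne_zero 0) (hc'.ne_one 0) (leg (l 0))
      (.some _ _ hR)
    rw [← hH] at hplus ⊢
    have hneg := leg_neg_nonsingular hS0
    have he : Affine.Point.some _ _ hS = -(Affine.Point.some _ _ hS0) := by
      rw [leg_neg_some hS0 hneg]
      congr 1
      · rw [hd]
      · rw [hd]
    rw [he]
    exact H.neg_mem hplus

end Pool.Agent.ZC
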