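import Pool.Agent.Lib.MP_a1cc03_ag.N1_Good

/-! # Row U5: choice of the prime for a finite family -/

noncomputable section

namespace Pool.Agent.ZC

/-- **Row U5.** Choice of the prime for finitely many parameters (`exists_good` for `l i` and `1 - l i`; take a
prime larger than the sum of all the bounds and `2`; compare `exists_prime`, row N16a). -/
theorem exists_prime_family {ι : Type} [Finite ι] (l : ι → AlgebraicClosure ℚ)
    (h0 : ∀ i, l i ≠ 0) (h1 : ∀ i, l i ≠ 1) :
    ∃ p : ℕ, p.Prime ∧ p ≠ 2 ∧ ∀ w : AbsoluteValue (AlgebraicClosure ℚ) ℝ, PAdic p w →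
      ∀ i, Unit2 w (l i) := by
  haveI := Fintype.ofFinite ι
  choose a ha ha' using fun i => exists_good (l i) (h0 i)
  choose b hb hb' using fun i => exists_good (1 - l i) (sub_ne_zero.mpr (Ne.symm (h1 i)))
  obtain ⟨p, hp, hpp⟩ := Nat.exists_infinite_primes ((∑ i, (a i + b i)) + 3)
  have key : ∀ n : ℕ, 0 < n → n ≤ ∑ i, (a i + b i) → ¬ p ∣ n := by
    intro n hn hle hdvd
    have := Nat.le_of_dvd hn hdvd
    omega
  have hle : ∀ i, a i + b i ≤ ∑ i, (a i + b i) := fun i =>
    Finset.single_le_sum (f := fun i => a i + b i) (fun _ _ => Nat.zero_le _) (Finset.mem_univ i)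
  refine ⟨p, hpp, by omega, fun w hw i => ⟨?_, ?_⟩⟩
  · exact ha' i p hpp (key (a i) (ha i) (le_trans (Nat.le_add_right _ _) (hle i))) w hw
  · exact hb' i p hpp (key (b i) (hb i) (le_trans (Nat.le_add_left _ _) (hle i))) w hw

end Pool.Agent.ZC
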