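import Pool.Agent.Lib.MP_a1cc03_ag.B4_Tors

/-! # Row U6a: divisible hulls; orthogonal subgroups -/

noncomputable section

namespace Pool.Agent.ZC

open WeierstrassCurve

/-- **Row U6a.** The divisible hull of a subgroup. -/
theorem exists_hull {M : Type} [AddCommGroup M] (S : AddSubgroup M) :
    ∃ T : AddSubgroup M, ∀ a, a ∈ T ↔ ∃ m : ℕ, 0 < m ∧ m • a ∈ S := by
  refine ⟨{ carrier := {a | ∃ m : ℕ, 0 < m ∧ m • a ∈ S}
            add_mem' := ?_
            zero_mem' := ⟨1, one_pos, by simp⟩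
            neg_mem' := ?_ }, fun a => Iff.rfl⟩
  · rintro a b ⟨N, hN, hNa⟩ ⟨M, hM, hMb⟩
    refine ⟨N * M, Nat.mul_pos hN hM, ?_⟩
    rw [smul_add]
    refine add_mem ?_ ?_
    · rw [mul_comm N M, mul_smul]
      exact AddSubgroup.nsmul_mem _ hNa M
    · rw [mul_smul]
      exact AddSubgroup.nsmul_mem _ hMb N
  · rintro a ⟨N, hN, hNa⟩
    exact ⟨N, hN, by rw [smul_neg]; exact neg_mem hNa⟩

variable {K : Type} [Field K] [IsAlgClosed K] [CharZero K] [DecidableEq K] {l m : K}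

/-- **Row U6b.** If all the symbols `{R i, S j}` are torsion then so are all the `{a, b}` with nonzero
multiples of `a`, `b` in the subgroups generated by the `R i`, the `S j` (`exists_left_subgroup`,
`exists_right_subgroup`: `closure ≤ H` by `AddSubgroup.closure_le`; then the second statements). -/
theorem tors_hull (hl0 : l ≠ 0) (hl1 : l ≠ 1) (hm0 : m ≠ 0) (hm1 : m ≠ 1)
    (R : ℕ → (leg l).toAffine.Point) (S : ℕ → (leg m).toAffine.Point)
    (h : ∀ i j, TorsSym (leg l) (leg m) (R i) (S j)) {a : (leg l).toAffine.Point}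
    {b : (leg m).toAffine.Point}
    (ha : ∃ N : ℕ, 0 < N ∧ N • a ∈ AddSubgroup.closure (Set.range R))
    (hb : ∃ N : ℕ, 0 < N ∧ N • b ∈ AddSubgroup.closure (Set.range S)) :
    TorsSym (leg l) (leg m) a b := by
  have := leg_isElliptic hl0 hl1
  have := leg_isElliptic hm0 hm1
  obtain ⟨N, hN, ha⟩ := ha
  obtain ⟨M, hM, hb⟩ := hb
  have h1 : ∀ j, TorsSym (leg l) (leg m) a (S j) := by
    intro j
    obtain ⟨H, hH, hs⟩ := exists_left_subgroup hl0 hl1 (leg m) (S j)
    refine (hH a).1 (hs a N hN ?_)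
    refine (AddSubgroup.closure_le H).2 ?_ ha
    rintro _ ⟨i, rfl⟩
    exact (hH _).2 (h i j)
  obtain ⟨H, hH, hs⟩ := exists_right_subgroup hm0 hm1 (leg l) a
  refine (hH b).1 (hs b M hM ?_)
  refine (AddSubgroup.closure_le H).2 ?_ hb
  rintro _ ⟨j, rfl⟩
  exact (hH _).2 (h1 j)

end Pool.Agent.ZC
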