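import Pool.Agent.Lib.MP_a1cc03_ag.N16c_Subgroups
import Pool.Agent.Lib.MP_a1cc03_ag.U2_Diff
import Pool.Agent.Lib.MP_a1cc03_ag.U3e_Same
import Pool.Agent.Lib.MP_a1cc03_ag.U6a_Orth

/-! # Row U6: the orthogonal subgroups of a family of Legendre curves -/

noncomputable section

namespace Pool.Agent.ZC

open WeierstrassCurve

variable [DecidableEq (AlgebraicClosure ℚ)]

/-- **Row U6.** The analogue of `exists_subgroups` (N16c, whose proof should be imitated) for a family of
Legendre curves, all points having the same `x`-coordinate `t`. Choose an embedding `τ` of `ℚ̄` in `ℂ` and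
AGM chains with first member `l i` (`exists_chain`), `y`-coordinates `y i n` with `y i₀ 0 = y₀`
(`exists_sqrt_seq`) and let `R i n` be the points of the chain `i` above `(t, y i n)` (`exists_points`).
All symbols `{R i a, R j b}` are torsion by `tors_diff` (U2) or `tors_same` (U3e; `t² ≠ l` since `w t > 1`,
`w l = 1`). Let `A i` be the divisible hull (`exists_hull`) of the subgroup generated by the `R i n`; use
`tors_hull` (U6b), `key_indep` (N15d, with `N₀ = 0`) and `exists_indep` (N14d). -/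
theorem exists_subgroups_family {p : ℕ} [Fact p.Prime] (hp2 : p ≠ 2)
    (φ : AlgebraicClosure ℚ →+* PadicAlgCl p) {ι : Type} (l : ι → AlgebraicClosure ℚ)
    (h0 : ∀ i, l i ≠ 0) (h1 : ∀ i, l i ≠ 1)
    (hunit : ∀ w : AbsoluteValue (AlgebraicClosure ℚ) ℝ, PAdic p w → ∀ i, Unit2 w (l i)) (i₀ : ι)
    {t y₀ : AlgebraicClosure ℚ} (h : (leg (l i₀)).toAffine.Nonsingular t y₀)
    (ht : (p : ℝ) < ‖φ t‖) :
    ∃ A : ∀ i, AddSubgroup (leg (l i)).toAffine.Point,
      Affine.Point.some t y₀ h ∈ A i₀ ∧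
      (∀ i (a : (leg (l i)).toAffine.Point) (m : ℕ), 0 < m → m • a ∈ A i → a ∈ A i) ∧
      (∀ i, ∃ u : ℕ → A i, LinearIndependent ℤ u) ∧
      ∀ i j, ∀ a ∈ A i, ∀ b ∈ A j, TorsSym (leg (l i)) (leg (l j)) a b := by
  classical
  have hp : p.Prime := Fact.out
  obtain ⟨τ⟩ : Nonempty (AlgebraicClosure ℚ →+* ℂ) := by
    have : Algebra.IsAlgebraic ℚ (AlgebraicClosure ℚ) := AlgebraicClosure.isAlgebraic ℚ
    exact ⟨(IsAlgClosed.lift (R := ℚ) (S := AlgebraicClosure ℚ) (M := ℂ)).toRingHom⟩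
  choose L r e hc hL hre using fun i => exists_chain τ (l i) (h0 i) (h1 i)
  obtain rfl : l = fun i => L i 0 := funext fun i => (hL i).symm
  have hwp : PAdic p (wAt φ) := wAt_padic φ
  have hw : IsNonarchimedean (wAt φ) := hwp.nonarch
  have h2 : wAt φ 2 = 1 := hwp.two_eq_one hp hp2
  have hu := hunit _ hwp
  have hp1 : (1 : ℝ) < p := by exact_mod_cast hp.one_lt
  have hwt : (p : ℝ) < wAt φ t := ht
  have ht1 : 1 < wAt φ t := hp1.trans hwt
  have hw1 : wAt φ (1 : AlgebraicClosure ℚ) = 1 := map_one _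
  have hcu := fun i => chain_units hw h2 (hc i).sq (hc i).next (hu i)
  -- the `y`-coordinates
  have hyex : ∀ i, ∃ y : ℕ → AlgebraicClosure ℚ, (i = i₀ → y 0 = y₀) ∧
      ∀ n, y n ^ 2 = t * (t - 1) * (t - L i n) := by
    intro i
    by_cases hi : i = i₀
    · subst hi
      obtain ⟨y, hy0, hy⟩ := exists_sqrt_seq (fun n => t * (t - 1) * (t - L i n)) y₀
        (leg_eq_of_nonsingular h)
      exact ⟨y, fun _ => hy0, hy⟩
    · obtain ⟨z₀, hz₀⟩ : ∃ z₀ : AlgebraicClosure ℚ, z₀ ^ 2 = t * (t - 1) * (t - L i 0) :=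
        IsAlgClosed.exists_pow_nat_eq _ two_pos
      obtain ⟨y, -, hy⟩ := exists_sqrt_seq (fun n => t * (t - 1) * (t - L i n)) z₀ hz₀
      exact ⟨y, fun h' => absurd h' hi, hy⟩
  choose y hy0 hy using hyex
  have hR := fun i => exists_points hw h2 (hc i) (hu i) ht1 (y i) (hy i)
  -- the points
  let R : ∀ i, ℕ → (leg (L i 0)).toAffine.Point := fun i n => .some _ _ (hR i n).2
  have ht0 : t ≠ 0 := by
    intro h0
    rw [h0, map_zero] at ht1
    linarith
  have ht1n : t ≠ 1 := by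
    intro h0
    rw [h0, hw1] at ht1
    exact lt_irrefl _ ht1
  have htl : ∀ i n, t ≠ L i n := by
    intro i n h0
    rw [h0, (hcu i n).1.1] at ht1
    exact lt_irrefl _ ht1
  have ht2l : ∀ i n, t ^ 2 ≠ L i n := by
    intro i n h0
    have h3 : wAt φ t ^ 2 = 1 := by rw [← map_pow, h0, (hcu i n).1.1]
    nlinarith
  have hRS : ∀ i j a b, TorsSym (leg (L i 0)) (leg (L j 0)) (R i a) (R j b) := by
    intro i j a b
    by_cases hab : L i a = L j b
    · exact tors_same (hc i) (hc j) a b hab ht0 ht1n (htl i a) (ht2l i a) (hy i a) (hy j b)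
        (hR i a).1 (hR j b).1 (hR i a).2 (hR j b).2
    · exact tors_diff (hc i) (hc j) a b hab ht0 ht1n (htl i a) (htl j b) (hy i a) (hy j b)
        (hR i a).1 (hR j b).1 (hR i a).2 (hR j b).2
  choose A hA using fun i => exists_hull (AddSubgroup.closure (Set.range (R i)))
  have hRA : ∀ i n, R i n ∈ A i := fun i n =>
    (hA i _).2 ⟨1, one_pos, by rw [one_smul]; exact AddSubgroup.subset_closure ⟨n, rfl⟩⟩
  refine ⟨A, ?_, ?_, ?_, ?_⟩
  · have h0 := hRA i₀ 0
    have h1 : R i₀ 0 = Affine.Point.some t y₀ h := by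
      change Affine.Point.some _ _ _ = _
      congr 1
      exact hy0 i₀ rfl
    rwa [h1] at h0
  · intro i a m hm ha
    obtain ⟨k, hk, hk'⟩ := (hA i _).1 ha
    exact (hA i _).2 ⟨k * m, Nat.mul_pos hk hm, by rw [mul_smul]; exact hk'⟩
  · intro i
    exact exists_indep (A i) (R i) 0 (fun n _ => hRA i n) fun B hB =>
      key_indep hp2 φ τ (hc i) (hre i) (fun φ' => hunit _ (wAt_padic φ') i) ht (y i) (R i)
        (fun n => ⟨(hR i n).2, rfl⟩) 0 B hB
  · intro i j a ha b hb
    exact tors_hull (h0 i) (h1 i) (h0 j) (h1 j) (R i) (R j) (hRS i j) ((hA i _).1 ha)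
      ((hA j _).1 hb)

end Pool.Agent.ZC
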