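import Pool.Agent.Lib.MP_a1cc03_ag.U5_Prime
import Pool.Agent.Lib.MP_a1cc03_ag.U6_Subgroups
import Pool.Agent.Lib.MP_a1cc03_ag.N9b_Deep

/-! # Row U7: families of Legendre curves -/

noncomputable section

namespace Pool.Agent.ZC

open WeierstrassCurve

variable [DecidableEq (AlgebraicClosure ℚ)]

/-- **Row U7.** The analogue of `legendre_main` (N16d, imitate its proof) for a finite family: `p` from
`exists_prime_family` (U5), then `exists_deep` (N9b) for `P` of infinite order or `t = 1/p²` for torsion `P`,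
and `exists_subgroups_family` (U6). -/
theorem legendre_family {ι : Type} [Finite ι] (l : ι → AlgebraicClosure ℚ)
    (h0 : ∀ i, l i ≠ 0) (h1 : ∀ i, l i ≠ 1) (i₀ : ι) (P : (leg (l i₀)).toAffine.Point) :
    ∃ A : ∀ i, AddSubgroup (leg (l i)).toAffine.Point,
      P ∈ A i₀ ∧
      (∀ i (a : (leg (l i)).toAffine.Point) (m : ℕ), 0 < m → m • a ∈ A i → a ∈ A i) ∧
      (∀ i, ∃ u : ℕ → A i, LinearIndependent ℤ u) ∧
      ∀ i j, ∀ a ∈ A i, ∀ b ∈ A j, TorsSym (leg (l i)) (leg (l j)) a b := by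
  obtain ⟨p, hp, hp2, hunit⟩ := exists_prime_family l h0 h1
  haveI : Fact p.Prime := ⟨hp⟩
  obtain ⟨φ⟩ := exists_embedding p
  have hpad : PAdic p (wAt φ) := wAt_padic φ
  have hl : Unit2 (wAt φ) (l i₀) := hunit _ hpad i₀
  by_cases hP : ∀ n : ℕ, 0 < n → n • P ≠ 0
  · obtain ⟨n, hn, x, y, h, hnP, hx⟩ := exists_deep hp2 φ hl P hP (p : ℝ)
    obtain ⟨A, hmem, hsat, hu, htors⟩ :=
      exists_subgroups_family hp2 φ l h0 h1 hunit i₀ h hx
    refine ⟨A, hsat i₀ P n hn ?_, hsat, hu, htors⟩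
    rw [hnP]
    exact hmem
  · push Not at hP
    obtain ⟨n, hn, hnP⟩ := hP
    have hp0 : (0 : ℝ) < (p : ℝ) := by exact_mod_cast hp.pos
    have hp1 : (1 : ℝ) < (p : ℝ) := by exact_mod_cast hp.one_lt
    set t : AlgebraicClosure ℚ := ((p : AlgebraicClosure ℚ) ^ 2)⁻¹ with ht
    obtain ⟨y₀, hy₀⟩ := IsAlgClosed.exists_pow_nat_eq (t * (t - 1) * (t - l i₀)) (n := 2) two_pos
    have h : (leg (l i₀)).toAffine.Nonsingular t y₀ := (leg_nonsingular (h0 i₀) (h1 i₀)).mpr hy₀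
    have hx : (p : ℝ) < ‖φ t‖ := by
      have h1 : ‖φ t‖ = (p : ℝ) ^ 2 := by
        change wAt φ t = _
        rw [ht, map_inv₀, map_pow, hpad.map_p, inv_pow, inv_inv]
      rw [h1]
      nlinarith
    obtain ⟨A, _, hsat, hu, htors⟩ :=
      exists_subgroups_family hp2 φ l h0 h1 hunit i₀ h hx
    refine ⟨A, hsat i₀ P n hn ?_, hsat, hu, htors⟩
    rw [hnP]
    exact (A i₀).zero_mem

end Pool.Agent.ZC
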