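import Pool.Agent.Lib.MP_a1cc03_ag.N16d_Legendre
import Pool.Agent.Lib.MP_a1cc03_ag.T1_Legendre
import Pool.Agent.Lib.MP_a1cc03_ag.T2b_Add
import Pool.Agent.Lib.MP_a1cc03_ag.T3_RatEq

/-! # Row Z: the final theorem -/

noncomputable section

namespace Pool.Agent.ZC

open WeierstrassCurve

/-- linear independence is transported along an injective additive map -/
theorem Z_indep {A B : Type*} [AddCommGroup A] [AddCommGroup B] (e : A ≃+ B) (S : AddSubgroup A)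
    (h : ∃ u : ℕ → S, LinearIndependent ℤ u) :
    ∃ u : ℕ → (S.map e.toAddMonoidHom), LinearIndependent ℤ u := by
  obtain ⟨u, hu⟩ := h
  have hinj : Function.Injective e.toAddMonoidHom := e.injective
  let g : S ≃+ S.map e.toAddMonoidHom := S.equivMapOfInjective e.toAddMonoidHom hinj
  refine ⟨fun n => g (u n), ?_⟩
  have hker : LinearMap.ker (g.toAddMonoidHom.toIntLinearMap) = ⊥ := by
    rw [LinearMap.ker_eq_bot]
    exact g.injective
  exact hu.map' g.toAddMonoidHom.toIntLinearMap hker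

/-- **Row Z.** Put both curves in Legendre form (T1), transport `P`, apply `legendre_main` (N16d) and
transport the subgroups back (`f₁`, `f₂` are group isomorphisms by T2; `AddSubgroup.map`), linear
independence (injective additive maps) and torsion of the symbols (T3b). -/
theorem main [DecidableEq (AlgebraicClosure ℚ)]
    (E₁ E₂ : WeierstrassCurve (AlgebraicClosure ℚ)) [E₁.IsElliptic] [E₂.IsElliptic]
    (P : E₁.toAffine.Point) :
    ∃ (A₁ : AddSubgroup E₁.toAffine.Point) (A₂ : AddSubgroup E₂.toAffine.Point),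
      P ∈ A₁ ∧ (∃ u : ℕ → A₁, LinearIndependent ℤ u) ∧ (∃ u : ℕ → A₂, LinearIndependent ℤ u) ∧
      ∀ a ∈ A₁, ∀ b ∈ A₂, ∃ N : ℕ, 0 < N ∧ N • sym E₁ E₂ a b ∈ RatEq E₁ E₂ := by
  obtain ⟨C₁, l, hl0, hl1, hC₁⟩ := exists_legendre E₁
  obtain ⟨C₂, m, hm0, hm1, hC₂⟩ := exists_legendre E₂
  obtain ⟨f₁, hf₁⟩ := exists_change C₁ E₁ (leg l) hC₁
  obtain ⟨f₂, hf₂⟩ := exists_change C₂ E₂ (leg m) hC₂
  let e₁ : (leg l).toAffine.Point ≃+ E₁.toAffine.Point :=
    { f₁ with map_add' := change_add C₁ E₁ (leg l) hC₁ f₁ hf₁ }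
  let e₂ : (leg m).toAffine.Point ≃+ E₂.toAffine.Point :=
    { f₂ with map_add' := change_add C₂ E₂ (leg m) hC₂ f₂ hf₂ }
  obtain ⟨A₁, A₂, hP, hA₁, hA₂, htors⟩ := legendre_main hl0 hl1 hm0 hm1 (f₁.symm P)
  refine ⟨A₁.map e₁.toAddMonoidHom, A₂.map e₂.toAddMonoidHom, ?_, Z_indep e₁ A₁ hA₁,
    Z_indep e₂ A₂ hA₂, ?_⟩
  · exact AddSubgroup.mem_map.mpr ⟨f₁.symm P, hP, f₁.apply_symm_apply P⟩
  · intro a ha b hb
    obtain ⟨a', ha', rfl⟩ := AddSubgroup.mem_map.mp ha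
    obtain ⟨b', hb', rfl⟩ := AddSubgroup.mem_map.mp hb
    exact torsSym_change C₁ C₂ hC₁ hC₂ f₁ hf₁ f₂ hf₂ a' b' (htors a' ha' b' hb')

end Pool.Agent.ZC
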