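import Pool.Agent.Lib.MP_a1cc03_ag.U7_Legendre
import Pool.Agent.Lib.MP_a1cc03_ag.Z_Final

/-! # Row U8: families of elliptic curves -/

noncomputable section

namespace Pool.Agent.ZC

open WeierstrassCurve

/-- **Row U8.** Put all the curves in Legendre form (`exists_legendre`, T1), transport `P`, apply
`legendre_family` (U7) and transport the subgroups back; compare `main` in `Z_Final.lean` (`exists_change`,
`change_add`, `Z_indep`, `torsSym_change`). -/
theorem general_family [DecidableEq (AlgebraicClosure ℚ)] {ι : Type} [Finite ι]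
    (E : ι → WeierstrassCurve (AlgebraicClosure ℚ)) [∀ i, (E i).IsElliptic] (i₀ : ι)
    (P : (E i₀).toAffine.Point) :
    ∃ A : ∀ i, AddSubgroup (E i).toAffine.Point,
      P ∈ A i₀ ∧
      (∀ i (a : (E i).toAffine.Point) (m : ℕ), 0 < m → m • a ∈ A i → a ∈ A i) ∧
      (∀ i, ∃ u : ℕ → A i, LinearIndependent ℤ u) ∧
      ∀ i j, ∀ a ∈ A i, ∀ b ∈ A j, TorsSym (E i) (E j) a b := by
  choose C l hl0 hl1 hC using fun i => exists_legendre (E i)
  choose f hf using fun i => exists_change (C i) (E i) (leg (l i)) (hC i)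
  let e : ∀ i, (leg (l i)).toAffine.Point ≃+ (E i).toAffine.Point := fun i =>
    { f i with map_add' := change_add (C i) (E i) (leg (l i)) (hC i) (f i) (hf i) }
  obtain ⟨A, hP, hdiv, hind, htors⟩ := legendre_family l hl0 hl1 i₀ ((f i₀).symm P)
  refine ⟨fun i => (A i).map (e i).toAddMonoidHom, ?_, ?_, fun i => Z_indep (e i) (A i) (hind i), ?_⟩
  · exact AddSubgroup.mem_map.mpr ⟨(f i₀).symm P, hP, (f i₀).apply_symm_apply P⟩
  · intro i a m hm ha
    obtain ⟨b, hb, hba⟩ := AddSubgroup.mem_map.mp ha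
    refine AddSubgroup.mem_map.mpr ⟨(e i).symm a, hdiv i _ m hm ?_, (e i).apply_symm_apply a⟩
    have h1 : m • (e i).symm a = b := by
      rw [← map_nsmul, ← hba]
      exact (e i).symm_apply_apply b
    rw [h1]
    exact hb
  · intro i j a ha b hb
    obtain ⟨a', ha', rfl⟩ := AddSubgroup.mem_map.mp ha
    obtain ⟨b', hb', rfl⟩ := AddSubgroup.mem_map.mp hb
    exact torsSym_change (C i) (C j) (hC i) (hC j) (f i) (hf i) (f j) (hf j) a' b'
      (htors i j a' ha' b' hb')

end Pool.Agent.ZC
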