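import Pool.Agent.Lib.MP_a1cc03_ag.Stmt2
import Pool.Agent.Lib.MP_a1cc03_ag.A0_Defs

/-! # Auxiliary definitions for the product of `n` curves (all proved) -/

noncomputable section

namespace Pool.Agent.ZC

open WeierstrassCurve

variable {K : Type} [Field K] {n : ℕ}

/-- The zero-cycles whose class is torsion modulo rational equivalence. -/
def TorsPi (W : Fin n → WeierstrassCurve K) :
    AddSubgroup (FreeAbelianGroup (∀ i, (W i).toAffine.Point)) where
  carrier := {z | ∃ N : ℕ, 0 < N ∧ N • z ∈ RatEqPi W}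
  add_mem' := by
    rintro a b ⟨N, hN, hNa⟩ ⟨M, hM, hMb⟩
    refine ⟨N * M, Nat.mul_pos hN hM, ?_⟩
    rw [smul_add]
    refine add_mem ?_ ?_
    · rw [mul_comm N M, mul_smul]
      exact AddSubgroup.nsmul_mem _ hNa M
    · rw [mul_smul]
      exact AddSubgroup.nsmul_mem _ hMb N
  zero_mem' := ⟨1, one_pos, by simp⟩
  neg_mem' := by
    rintro a ⟨N, hN, hNa⟩
    exact ⟨N, hN, by rw [smul_neg]; exact neg_mem hNa⟩

theorem mem_TorsPi {W : Fin n → WeierstrassCurve K}
    {z : FreeAbelianGroup (∀ i, (W i).toAffine.Point)} :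
    z ∈ TorsPi W ↔ ∃ N : ℕ, 0 < N ∧ N • z ∈ RatEqPi W := Iff.rfl

theorem RatEqPi_le_TorsPi (W : Fin n → WeierstrassCurve K) : RatEqPi W ≤ TorsPi W :=
  fun z hz => ⟨1, one_pos, by rwa [one_smul]⟩

end Pool.Agent.ZC
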