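import Pool.Agent.Lib.MP_a1cc03_ag.V0_Defs

/-! # Row V1: push-forward from a product of two curves to a product of `n` curves -/

noncomputable section

namespace Pool.Agent.ZC

open WeierstrassCurve

variable {K : Type} [Field K] {n : ℕ}

/-- **Row V1.** Closure induction. For a generator `(F, P, Q, s, f)` of `RatEq W₁ W₂` choose the `F`-points
`P' i` of `hg` and take the generator `(F, P', g ∘ s, f)` of `RatEqPi W`. The `finsum` of the definition may
have infinite support a priori: then it is `0` (`finsum_of_infinite_support` or similar) and so is its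
image; otherwise `AddMonoidHom.map_finsum` (finite support) applies. -/
theorem push_mem {W₁ W₂ : WeierstrassCurve K} {W : Fin n → WeierstrassCurve K}
    (g : W₁.toAffine.Point × W₂.toAffine.Point → ∀ i, (W i).toAffine.Point)
    (hg : ∀ (F : Type) [Field F] [Algebra K F]
      (P : (W₁.map (algebraMap K F)).toAffine.Point) (Q : (W₂.map (algebraMap K F)).toAffine.Point)
      (i : Fin n), ∃ P' : ((W i).map (algebraMap K F)).toAffine.Point,
        ∀ (v : Place K F) (a : W₁.toAffine.Point) (b : W₂.toAffine.Point),
          Specializes v W₁ P a → Specializes v W₂ Q b → Specializes v (W i) P' (g (a, b) i))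
    {z : FreeAbelianGroup (W₁.toAffine.Point × W₂.toAffine.Point)} (hz : z ∈ RatEq W₁ W₂) :
    FreeAbelianGroup.map g z ∈ RatEqPi W := by
  unfold RatEq at hz
  induction hz using AddSubgroup.closure_induction with
  | mem x hx =>
    obtain ⟨F, hF, P, Q, s, hP, hQ, f, hf⟩ := hx
    by_cases hfin : (Function.support fun v : Place K F =>
        (v.ord f).untopD 0 • FreeAbelianGroup.of (s v)).Finite
    · choose P' hP' using hg F P Q
      have e : FreeAbelianGroup.map g (∑ᶠ v : Place K F,
          (v.ord f).untopD 0 • FreeAbelianGroup.of (s v)) =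
          ∑ᶠ v : Place K F, (v.ord f).untopD 0 • FreeAbelianGroup.of (g (s v)) := by
        rw [AddMonoidHom.map_finsum _ hfin]
        refine finsum_congr fun v => ?_
        rw [map_zsmul, FreeAbelianGroup.map_of_apply]
      rw [e]
      apply AddSubgroup.subset_closure
      exact IsDivisorOfPi.mk F hF P' (fun v => g (s v))
        (fun v i => hP' i v (s v).1 (s v).2 (hP v) (hQ v)) f hf
    · rw [finsum_of_infinite_support hfin, map_zero]
      exact zero_mem _
  | zero => rw [map_zero]; exact zero_mem _
  | add x y _ _ hx hy => rw [map_add]; exact add_mem hx hy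
  | neg x _ hx => rw [map_neg]; exact neg_mem hx

end Pool.Agent.ZC
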