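import Pool.Agent.Lib.MP_a1cc03_ag.V1_Push
import Pool.Agent.Lib.MP_a1cc03_ag.A3_Spec

/-! # Row V2b: relations from two factors -/

noncomputable section

namespace Pool.Agent.ZC

open WeierstrassCurve

variable {K : Type} [Field K] {n : ℕ}

/-- **Row V2b.** Push the symbol `{a, b}` forward (`push_mem`, V1) along
`g (a, b) = update (update c k a) k' b`; the `F`-points are `Q` in the coordinate `k'`, `P` in the coordinate
`k` and constant points (`exists_constant_point`, A3) in the others (`Function.update_self`,
`Function.update_of_ne`; by cases with `subst` on the coordinate). -/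
theorem pair_rel (W : Fin n → WeierstrassCurve K) [∀ i, (W i).IsElliptic]
    (c : ∀ i, (W i).toAffine.Point) {k k' : Fin n} (hk : k ≠ k') {a : (W k).toAffine.Point}
    {b : (W k').toAffine.Point} (h : TorsSym (W k) (W k') a b) :
    FreeAbelianGroup.of (Function.update (Function.update c k a) k' b)
      - FreeAbelianGroup.of (Function.update (Function.update c k a) k' 0)
      - FreeAbelianGroup.of (Function.update (Function.update c k 0) k' b)
      + FreeAbelianGroup.of (Function.update (Function.update c k 0) k' 0) ∈ TorsPi W := by
  obtain ⟨N, hN, hz⟩ := h
  refine ⟨N, hN, ?_⟩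
  have h1 := push_mem (W := W) (fun ab : (W k).toAffine.Point × (W k').toAffine.Point =>
    Function.update (Function.update c k ab.1) k' ab.2) (by
      intro F _ _ P Q i
      by_cases hi : i = k'
      · subst hi
        refine ⟨Q, fun v a b _ hb => ?_⟩
        rw [Function.update_self]
        exact hb
      · by_cases hi' : i = k
        · subst hi'
          refine ⟨P, fun v a b ha _ => ?_⟩
          rw [Function.update_of_ne hi, Function.update_self]
          exact ha
        · obtain ⟨PQ, hPQ⟩ := exists_constant_point (F := F) (W i) (c i)
          refine ⟨PQ, fun v a b _ _ => ?_⟩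
          rw [Function.update_of_ne hi, Function.update_of_ne hi']
          exact hPQ v) hz
  rw [map_nsmul] at h1
  convert h1 using 2
  unfold sym
  simp only [map_add, map_sub, FreeAbelianGroup.map_of_apply]

end Pool.Agent.ZC
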