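import Pool.Agent.Lib.MP_a1cc03_ag.V1_Push
import Pool.Agent.Lib.MP_a1cc03_ag.V2a_Add

/-! # Row V2c: additivity in one coordinate -/

noncomputable section

namespace Pool.Agent.ZC

open WeierstrassCurve

variable {K : Type} [Field K] [IsAlgClosed K] [CharZero K] [DecidableEq K] {n : ℕ}

/-- **Row V2c.** Push the relation `pair_add (W k) (W k) a a' 0` (V2a) forward (`push_mem`, V1) along
`g (x, y) = update c k x`; the `F`-points are `P` in the coordinate `k` and constant points
(`exists_constant_point`, A3) in the others. -/
theorem single_rel (W : Fin n → WeierstrassCurve K) [∀ i, (W i).IsElliptic]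
    (c : ∀ i, (W i).toAffine.Point) (k : Fin n) (a a' : (W k).toAffine.Point) :
    FreeAbelianGroup.of (Function.update c k a) + FreeAbelianGroup.of (Function.update c k a')
      - FreeAbelianGroup.of (Function.update c k (a + a'))
      - FreeAbelianGroup.of (Function.update c k 0) ∈ RatEqPi W := by
  have h1 := push_mem (W := W) (fun ab : (W k).toAffine.Point × (W k).toAffine.Point =>
    Function.update c k ab.1) (by
      intro F _ _ P Q i
      by_cases hi' : i = k
      · subst hi'
        refine ⟨P, fun v a b ha _ => ?_⟩
        rw [Function.update_self]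
        exact ha
      · obtain ⟨PQ, hPQ⟩ := exists_constant_point (F := F) (W i) (c i)
        refine ⟨PQ, fun v a b _ _ => ?_⟩
        rw [Function.update_of_ne hi']
        exact hPQ v) (pair_add (W k) (W k) a a' 0)
  simp only [map_add, map_sub, FreeAbelianGroup.map_of_apply] at h1
  exact h1

end Pool.Agent.ZC
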