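import Pool.Agent.Lib.MP_a1cc03_ag.U8_General
import Pool.Agent.Lib.MP_a1cc03_ag.V4_Product

/-! # The final theorem for products -/

noncomputable section

namespace Pool.Agent.ZC

open WeierstrassCurve

/-- The final theorem. -/
theorem main_product [DecidableEq (AlgebraicClosure ℚ)] {ι : Type} [Finite ι]
    (E : ι → WeierstrassCurve (AlgebraicClosure ℚ)) [∀ i, (E i).IsElliptic] (i₀ : ι)
    (P : (E i₀).toAffine.Point) :
    ∃ A : ∀ i, AddSubgroup (E i).toAffine.Point,
      P ∈ A i₀ ∧ (∀ i, ∃ u : ℕ → A i, LinearIndependent ℤ u) ∧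
      (∀ i (a : (E i).toAffine.Point) (m : ℕ), 0 < m → m • a ∈ A i → a ∈ A i) ∧
      ∀ (n : ℕ) (j : Fin n → ι) (z : FreeAbelianGroup (∀ k, (E (j k)).toAffine.Point)),
        z ∈ AddSubgroup.closure (FreeAbelianGroup.of '' {x | ∀ k, x k ∈ A (j k)}) →
        degree (fun k => E (j k)) z = 0 → albanese (fun k => E (j k)) z = 0 →
        ∃ N : ℕ, 0 < N ∧ N • z ∈ RatEqPi (fun k => E (j k)) := by
  obtain ⟨A, hP, hsat, hrk, htors⟩ := general_family E i₀ P
  refine ⟨A, hP, hrk, hsat, fun n j z hz hdeg halb => ?_⟩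
  have h := product_main (fun k => E (j k)) (fun k => A (j k))
    (fun k k' _ a ha b hb => htors (j k) (j k') a ha b hb) z hz hdeg halb
  exact h

end Pool.Agent.ZC
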